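import Pool.Agent.Lib.MP_f6c7cf_nt.FO.St

/-! Laws, characters, weights and families. -/

namespace Pool.Agent.Lib.MP_f6c7cf_nt.FO

open Finset Filter Topology Polynomial
open Pool.Agent.Lib.MP_9d27bc_nt.C (pr Rough)
open Pool.Agent.Lib.MP_4b1228_nt.GS (vm)
open scoped Classical ComplexConjugate

namespace BasP

theorem s2_step (r m : ℕ) (hr : r < 2) : s2 (r + 2 * m) = r + s2 m := by
  unfold s2
  rcases Nat.eq_zero_or_pos (r + 2 * m) with h | h
  · have a : r = 0 := by omega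
    have b : m = 0 := by omega
    simp [a, b]
  · rw [Nat.digits_def' one_lt_two h, List.sum_cons, show (r + 2 * m) % 2 = r by omega,
      show (r + 2 * m) / 2 = m by omega]

theorem s2_add (s a b : ℕ) (h : a < 2 ^ s) : s2 (a + 2 ^ s * b) = s2 a + s2 b := by
  induction s generalizing a with
  | zero =>
    have : a = 0 := by omega
    simp [this, s2]
  | succ s ih =>
    have h2 : a % 2 < 2 := Nat.mod_lt _ two_pos
    have e : a + 2 ^ (s + 1) * b = a % 2 + 2 * (a / 2 + 2 ^ s * b) := by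
      rw [pow_succ, mul_add, ← add_assoc, Nat.mod_add_div]
      ring
    have e2 := s2_step (a % 2) (a / 2) h2
    rw [Nat.mod_add_div] at e2
    rw [e, s2_step _ _ h2, ih (a / 2) (by rw [pow_succ] at h; omega), e2, add_assoc]

theorem sum_coeff (F : ℝ[X]) (h : Prob F) : ∑ y ∈ F.support, F.coeff y = 1 := by
  have := h.2
  rw [eval_eq_sum, sum_def] at this
  simpa using this

theorem prob_one : Prob 1 :=
  ⟨fun n => by rw [coeff_one]; split_ifs <;> norm_num, eval_one⟩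

theorem prob_mul (F G : ℝ[X]) (h : Prob F) (h' : Prob G) : Prob (F * G) :=
  ⟨fun n => by
    rw [coeff_mul]
    exact sum_nonneg fun _ _ => mul_nonneg (h.1 _) (h'.1 _),
  by rw [eval_mul, h.2, h'.2, one_mul]⟩

theorem prob_pow (F : ℝ[X]) (l : ℕ) (h : Prob F) : Prob (F ^ l) := by
  induction l with
  | zero => simpa using prob_one
  | succ l ih =>
    rw [pow_succ]
    exact prob_mul _ _ ih h

theorem prob_prod (ι : Type) (T : Finset ι) (F : ι → ℝ[X]) (h : ∀ i ∈ T, Prob (F i)) :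
    Prob (∏ i ∈ T, F i) :=
  prod_induction F Prob prob_mul prob_one h

theorem prob_expand (F : ℝ[X]) (p : ℕ) (hp : 0 < p) (h : Prob F) : Prob (expand ℝ p F) :=
  ⟨fun n => by
    rw [coeff_expand hp]
    split_ifs
    · exact h.1 _
    · exact le_rfl,
  by rw [expand_eval, one_pow, h.2]⟩

theorem sp_one (t : ℕ) (F : ℝ[X]) (h : Prob F) : Sp t F 1 := fun _ => by
  rw [← sum_coeff F h]
  exact sum_le_sum_of_subset_of_nonneg (filter_subset _ _) fun _ _ _ => h.1 _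

theorem sp_ge (t : ℕ) (F : ℝ[X]) (π : ℝ) (h : Prob F) (hs : Sp t F π) : 1 ≤ 2 ^ t * π := by
  have hm : ∀ y ∈ F.support, y % 2 ^ t ∈ range (2 ^ t) := fun y _ =>
    mem_range.2 (Nat.mod_lt _ (by positivity))
  rw [← sum_coeff F h, ← sum_fiberwise_of_maps_to hm]
  refine (sum_le_card_nsmul _ _ π fun a ha => ?_).trans (by simp)
  refine le_trans (le_of_eq (sum_congr (filter_congr fun y _ => ?_) fun _ _ => rfl)) (hs a)
  rw [Nat.ModEq, Nat.mod_eq_of_lt (mem_range.1 ha)]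

theorem chi_pow (t y : ℕ) (χ : Ch t) :
    χ ((1 + 2 ^ t * y : ℕ) : ZMod (qq t)) = χ ((1 + 2 ^ t : ℕ) : ZMod (qq t)) ^ y := by
  rw [← map_pow]
  congr 1
  have z : ((2 ^ t : ℕ) : ZMod (qq t)) * ((2 ^ t : ℕ) : ZMod (qq t)) = 0 := by
    rw [← Nat.cast_mul, ← pow_add, ← two_mul]
    exact ZMod.natCast_self _
  rw [Nat.cast_add, Nat.cast_add, Nat.cast_mul, Nat.cast_one]
  generalize ((2 ^ t : ℕ) : ZMod (qq t)) = Q at z
  induction y with
  | zero => simp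
  | succ y ih =>
    rw [pow_succ, ← ih, Nat.cast_succ]
    linear_combination (-(y : ZMod (qq t))) * z

theorem unit_odd (t : ℕ) {n : ℕ} (h : Odd n) : IsUnit (n : ZMod (qq t)) :=
  (ZMod.isUnit_iff_coprime _ _).2 (Nat.Coprime.pow_right _ (Nat.coprime_two_right.2 h))

theorem chi_even (t n : ℕ) (χ : Ch t) (ht : 1 ≤ t) (h : Even n) : χ n = 0 := by
  refine χ.map_nonunit fun u => ?_
  have c := (ZMod.isUnit_iff_coprime _ _).1 u
  have c2 : n.Coprime 2 := c.coprime_dvd_right (dvd_pow_self 2 (by omega))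
  exact Nat.not_odd_iff_even.2 h (Nat.coprime_two_right.1 c2)

theorem norm_chi (t n : ℕ) (χ : Ch t) (h : Odd n) : ‖χ n‖ = 1 :=
  χ.unit_norm_eq_one (unit_odd t h).unit

theorem WW_eq (t : ℕ) (F : ℝ[X]) (χ : Ch t) :
    WW F χ = ∑ y ∈ F.support, (F.coeff y : ℂ) * χ ((1 + 2 ^ t * y : ℕ) : ZMod (qq t)) := by
  rw [WW, aeval_def, eval₂_eq_sum, sum_def]
  exact sum_congr rfl fun y _ => by rw [chi_pow]; rfl

theorem WW_le (t : ℕ) (F : ℝ[X]) (χ : Ch t) (h : Prob F) : ‖WW F χ‖ ≤ 1 := by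
  rw [WW_eq, ← sum_coeff F h]
  refine (norm_sum_le _ _).trans (sum_le_sum fun y _ => ?_)
  rw [norm_mul, Complex.norm_real, Real.norm_of_nonneg (h.1 y)]
  exact mul_le_of_le_one_right (h.1 y) (χ.norm_le_one _)

theorem conj_chi {q : ℕ} [NeZero q] (χ : DirichletCharacter ℂ q) {a : ZMod q} (ha : IsUnit a) :
    conj (χ a) = χ a⁻¹ := by
  have h1 : χ a⁻¹ * χ a = 1 := by rw [← map_mul, ZMod.inv_mul_of_unit a ha, map_one]
  have h2 : ‖χ a‖ = 1 := χ.unit_norm_eq_one ha.unit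
  rw [← Complex.inv_eq_conj h2]
  exact (eq_inv_of_mul_eq_one_left h1).symm

theorem sum_conj {q : ℕ} [NeZero q] {a : ZMod q} (ha : IsUnit a) (b : ZMod q) :
    ∑ χ : DirichletCharacter ℂ q, conj (χ a) * χ b = if a = b then (q.totient : ℂ) else 0 := by
  simp only [conj_chi _ ha]
  exact DirichletCharacter.sum_char_inv_mul_char_eq ℂ ha b

theorem orth {q : ℕ} [NeZero q] (g : ZMod q → ℂ) :
    ∑ χ : DirichletCharacter ℂ q, ‖∑ b, χ b * g b‖ ^ 2 ≤ (q.totient : ℝ) * ∑ b, ‖g b‖ ^ 2 := by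
  have e : ((∑ χ : DirichletCharacter ℂ q, ‖∑ b, χ b * g b‖ ^ 2 : ℝ) : ℂ) =
      ((∑ a, if IsUnit a then (q.totient : ℝ) * ‖g a‖ ^ 2 else 0 : ℝ) : ℂ) := by
    have e1 : ∀ χ : DirichletCharacter ℂ q, ((‖∑ b, χ b * g b‖ ^ 2 : ℝ) : ℂ) =
        ∑ a, ∑ b, conj (χ a) * χ b * (conj (g a) * g b) := fun χ => by
      rw [Complex.ofReal_pow, ← Complex.conj_mul', map_sum, sum_mul_sum]
      refine sum_congr rfl fun a _ => sum_congr rfl fun b _ => ?_
      rw [map_mul]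
      ring
    rw [Complex.ofReal_sum, Complex.ofReal_sum]
    simp only [e1]
    rw [sum_comm]
    refine sum_congr rfl fun a _ => ?_
    rw [sum_comm]
    simp only [← sum_mul]
    by_cases ha : IsUnit a
    · simp only [sum_conj ha, ite_mul, zero_mul, sum_ite_eq, mem_univ, if_true, if_pos ha]
      rw [Complex.conj_mul']
      push_cast
      rfl
    · simp [MulChar.map_nonunit _ ha, ha]
  rw [Complex.ofReal_inj.1 e, mul_sum]
  refine sum_le_sum fun a _ => ?_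
  split_ifs
  · exact le_rfl
  · positivity

theorem ww_nonneg (t : ℕ) (F : ℝ[X]) (n : ℕ) (h : Prob F) : 0 ≤ ww t F n :=
  div_nonneg (mul_nonneg (Nat.cast_nonneg _) (sum_nonneg fun _ _ => h.1 _)) (Nat.cast_nonneg _)

theorem odd_res {t : ℕ} (ht : 1 ≤ t) (y : ℕ) : Odd (1 + 2 ^ t * y) :=
  Odd.add_even odd_one (((Nat.even_pow' (by omega)).2 even_two).mul_right y)

theorem ww_eq (t : ℕ) (F : ℝ[X]) (n : ℕ) (ht : 1 ≤ t) :
    (ww t F n : ℂ) = ∑ χ : Ch t, conj (WW F χ) * χ n / (n : ℂ) := by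
  rw [← sum_div]
  simp only [WW_eq, map_sum, map_mul, Complex.conj_ofReal, sum_mul, mul_assoc]
  rw [sum_comm]
  simp only [← mul_sum]
  have e : ∀ y, ∑ χ : Ch t, conj (χ ((1 + 2 ^ t * y : ℕ) : ZMod (qq t))) * χ n =
      if 1 + 2 ^ t * y ≡ n [MOD qq t] then ((qq t).totient : ℂ) else 0 := fun y => by
    rw [sum_conj (unit_odd t (odd_res ht y))]
    exact if_congr (ZMod.natCast_eq_natCast_iff _ _ _) rfl rfl
  simp only [e]
  rw [ww, sum_filter]
  push_cast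
  rw [mul_sum]
  congr 1
  refine sum_congr rfl fun y _ => ?_
  split_ifs
  · ring
  · simp

variable {ι κ : Type}

theorem expand_le (S : Finset ι) (v : ι → ℕ) (t : ℕ) (F : ℝ[X]) (ht : 1 ≤ t) (h : Prob F)
    (hv : ∀ i ∈ S, Odd (v i)) :
    |∑ i ∈ S, ww t F (v i) - D0 S v| ≤ ∑ χ ∈ nz t, ‖WW F χ‖ * ‖hat S v χ‖ := by
  have e1 : ((∑ i ∈ S, ww t F (v i) : ℝ) : ℂ) = ∑ χ : Ch t, conj (WW F χ) * hat S v χ := by
    rw [Complex.ofReal_sum]
    simp only [ww_eq _ _ _ ht, hat, mul_sum, mul_div_assoc]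
    exact sum_comm
  have e2 : WW F (1 : Ch t) = 1 := by
    rw [WW_eq, ← Complex.ofReal_one, ← sum_coeff F h, Complex.ofReal_sum]
    exact sum_congr rfl fun y _ => by
      rw [MulChar.one_apply (unit_odd t (odd_res ht y)), mul_one]
  have e3 : hat S v (1 : Ch t) = (D0 S v : ℝ) := by
    rw [hat, D0, Complex.ofReal_sum]
    refine sum_congr rfl fun i hi => ?_
    rw [MulChar.one_apply (unit_odd t (hv i hi))]
    push_cast
    rfl
  have e4 : ((∑ i ∈ S, ww t F (v i) - D0 S v : ℝ) : ℂ) =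
      ∑ χ ∈ nz t, conj (WW F χ) * hat S v χ := by
    rw [Complex.ofReal_sub, e1, ← add_sum_erase _ _ (mem_univ (1 : Ch t)), e2, e3, map_one, one_mul,
      add_sub_cancel_left]
    rfl
  rw [← Real.norm_eq_abs, ← Complex.norm_real, e4]
  refine (norm_sum_le _ _).trans (le_of_eq (sum_congr rfl fun χ _ => ?_))
  rw [norm_mul, Complex.norm_conj]

theorem hat_le (S : Finset ι) (v : ι → ℕ) (t : ℕ) (χ : Ch t) : ‖hat S v χ‖ ≤ D0 S v := by
  refine (norm_sum_le _ _).trans (sum_le_sum fun i _ => ?_)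
  rw [norm_div, Complex.norm_natCast]
  exact div_le_div_of_nonneg_right (χ.norm_le_one _) (Nat.cast_nonneg _)

theorem hat_mul (S : Finset ι) (v : ι → ℕ) (S' : Finset κ) (v' : κ → ℕ) (t : ℕ) (χ : Ch t) :
    hat (S ×ˢ S') (fun w => v w.1 * v' w.2) χ = hat S v χ * hat S' v' χ := by
  rw [hat, hat, hat, sum_product, sum_mul_sum]
  refine sum_congr rfl fun i _ => sum_congr rfl fun j _ => ?_
  rw [Nat.cast_mul, Nat.cast_mul, map_mul, mul_div_mul_comm]

theorem hat_pi [Fintype κ] [DecidableEq κ] (S : κ → Finset ι) (v : ι → ℕ) (t : ℕ) (χ : Ch t) :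
    hat (Fintype.piFinset S) (fun f => ∏ k, v (f k)) χ = ∏ k, hat (S k) v χ := by
  simp only [hat]
  rw [prod_univ_sum]
  refine sum_congr rfl fun f _ => ?_
  rw [Nat.cast_prod, Nat.cast_prod, map_prod, prod_div_distrib]

theorem mem_iv (P₁ P₂ : ℝ) (n : ℕ) (h1 : 0 ≤ P₁) (h2 : 0 ≤ P₂) :
    n ∈ iv P₁ P₂ ↔ P₁ < n ∧ (n : ℝ) ≤ P₂ := by
  rw [iv, mem_Ioc, Nat.floor_lt h1, Nat.le_floor_iff h2]

theorem hat_dvd (t d : ℕ) (χ : Ch t) (P₁ P₂ : ℝ) (ht : 1 ≤ t) (hd : 1 ≤ d) (h1 : 0 ≤ P₁)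
    (h2 : 0 ≤ P₂) : ‖hat {n ∈ iv P₁ P₂ | Odd n ∧ d ∣ n} id χ‖ ≤ ‖sm χ (P₁ / d) (P₂ / d)‖ := by
  have d0 : (0 : ℝ) < d := by exact_mod_cast hd
  have key : ∀ m : ℕ, d * m ∈ iv P₁ P₂ ↔ m ∈ iv (P₁ / d) (P₂ / d) := fun m => by
    rw [mem_iv _ _ _ h1 h2, mem_iv _ _ _ (by positivity) (by positivity), div_lt_iff₀' d0,
      le_div_iff₀' d0, Nat.cast_mul]
  have e1 : hat {n ∈ iv P₁ P₂ | Odd n ∧ d ∣ n} id χ =
      ∑ n ∈ iv P₁ P₂ with d ∣ n, χ n / (n : ℂ) := by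
    refine sum_subset (fun n hn => ?_) fun n hn hn' => ?_
    · rw [mem_filter] at hn ⊢
      exact ⟨hn.1, hn.2.2⟩
    · rw [mem_filter] at hn hn'
      have : Even n := Nat.not_odd_iff_even.1 fun o => hn' ⟨hn.1, o, hn.2⟩
      simp only [id]
      rw [chi_even t n χ ht this, zero_div]
  have e2 : ∑ n ∈ iv P₁ P₂ with d ∣ n, χ n / (n : ℂ) =
      χ d / (d : ℂ) * sm χ (P₁ / d) (P₂ / d) := by
    rw [sm, mul_sum]
    symm
    refine sum_bij (fun m _ => d * m) (fun m hm => mem_filter.2 ⟨(key m).2 hm, dvd_mul_right _ _⟩)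
      (fun a _ b _ e => Nat.eq_of_mul_eq_mul_left hd e) (fun n hn => ?_) fun m _ => ?_
    · obtain ⟨a, m, rfl⟩ := mem_filter.1 hn
      exact ⟨m, (key m).1 a, rfl⟩
    · rw [Nat.cast_mul, Nat.cast_mul, map_mul, mul_div_mul_comm]
  rw [e1, e2, norm_mul]
  refine mul_le_of_le_one_left (norm_nonneg _) ?_
  rw [norm_div, Complex.norm_natCast, div_le_one d0]
  exact (χ.norm_le_one _).trans (by exact_mod_cast hd)

theorem D0_mul (S : Finset ι) (v : ι → ℕ) (S' : Finset κ) (v' : κ → ℕ) :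
    D0 (S ×ˢ S') (fun w => v w.1 * v' w.2) = D0 S v * D0 S' v' := by
  rw [D0, D0, D0, sum_product, sum_mul_sum]
  refine sum_congr rfl fun i _ => sum_congr rfl fun j _ => ?_
  rw [Nat.cast_mul, div_mul_div_comm, one_mul]

theorem D0_pi [Fintype κ] [DecidableEq κ] (S : κ → Finset ι) (v : ι → ℕ) :
    D0 (Fintype.piFinset S) (fun f => ∏ k, v (f k)) = ∏ k, D0 (S k) v := by
  simp only [D0]
  rw [prod_univ_sum]
  refine sum_congr rfl fun f _ => ?_
  rw [Nat.cast_prod, prod_div_distrib, prod_const_one]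

theorem D0_le (S : Finset ι) (v : ι → ℕ) (B : ℕ) (Y : ℝ) (hB : Mult S v B) (hY : 1 ≤ Y)
    (h : ∀ i ∈ S, (v i : ℝ) ≤ Y) : D0 S v ≤ B * (1 + Real.log Y) := by
  have hm : ∀ i ∈ S, v i ∈ range (⌊Y⌋₊ + 1) := fun i hi =>
    mem_range.2 (Nat.lt_succ_of_le (Nat.le_floor (h i hi)))
  have h2 : D0 S v ≤ B * ∑ a ∈ range (⌊Y⌋₊ + 1), 1 / (a : ℝ) := by
    rw [D0, ← sum_fiberwise_of_maps_to hm, mul_sum]
    refine sum_le_sum fun a _ => ?_
    rw [sum_congr rfl fun i hi => by rw [(mem_filter.1 hi).2], sum_const, nsmul_eq_mul]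
    refine mul_le_mul_of_nonneg_right ?_ (by positivity)
    exact_mod_cast hB a
  refine h2.trans (mul_le_mul_of_nonneg_left ?_ (Nat.cast_nonneg _))
  refine le_trans (le_of_eq ?_) (harmonic_floor_le_one_add_log Y hY)
  rw [sum_range_succ', harmonic]
  push_cast
  simp

end BasP

theorem bas : Bas where
  s2_add := BasP.s2_add
  sum_coeff := BasP.sum_coeff
  prob_one := BasP.prob_one
  prob_mul := BasP.prob_mul
  prob_pow := BasP.prob_pow
  prob_prod := BasP.prob_prod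
  prob_expand := BasP.prob_expand
  sp_one := BasP.sp_one
  sp_mono := fun _ _ _ _ h hs a => (hs a).trans h
  sp_ge := BasP.sp_ge
  chi_pow := BasP.chi_pow
  chi_even := BasP.chi_even
  norm_chi := BasP.norm_chi
  WW_eq := BasP.WW_eq
  WW_le := BasP.WW_le
  WW_one := fun _ _ => map_one _
  WW_mul := fun _ _ _ _ => map_mul _ _ _
  WW_pow := fun _ _ _ _ => map_pow _ _ _
  WW_prod := fun _ _ _ _ _ => map_prod _ _ _
  orth := fun _ g => BasP.orth g
  ww_nonneg := BasP.ww_nonneg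
  ww_eq := BasP.ww_eq
  expand := fun _ => BasP.expand_le
  hat_le := fun _ => BasP.hat_le
  hat_mul := fun _ _ => BasP.hat_mul
  hat_pi := fun _ _ _ _ => BasP.hat_pi
  hat_dvd := BasP.hat_dvd
  D0_mul := fun _ _ => BasP.D0_mul
  D0_pi := fun _ _ _ _ => BasP.D0_pi
  D0_le := fun _ => BasP.D0_le
  mem_iv := BasP.mem_iv

end Pool.Agent.Lib.MP_f6c7cf_nt.FO
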