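import Pool.Agent.Lib.MP_f6c7cf_nt.FO.GdG

/-! The bad sets of primes in the model. -/

namespace Pool.Agent.Lib.MP_f6c7cf_nt.FO

open Finset Filter Topology Polynomial
open Pool.Agent.Lib.MP_9d27bc_nt.C (pr Rough)
open Pool.Agent.Lib.MP_4b1228_nt.GS (vm)
open scoped Classical ComplexConjugate

noncomputable section

namespace BdG

theorem tend {j : ℕ} (h : 1 ≤ j) : Tendsto (fun y : ℝ => y ^ j) atTop atTop :=
  tendsto_pow_atTop (by omega)

theorem small {j : ℕ} (h : 1 ≤ j) :
    Tendsto (fun y : ℝ => (y ^ j) ^ (-(1 / 4) : ℝ)) atTop (𝓝 0) :=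
  (tendsto_rpow_neg_atTop (by norm_num : (0 : ℝ) < 1 / 4)).comp (tend h)

theorem one_le {J R j : ℕ} (h : J + 2 * R + 1 ≤ R * j) : 1 ≤ R := by
  rcases R with _ | R
  · simp at h
  · omega

theorem box (h : MertSt) {j : ℕ} (hj : 1 ≤ j) :
    Tendsto (fun y : ℝ => D0 (Bx y j) id) atTop (𝓝 (Real.log (((j : ℝ) + 1) / j))) := by
  have j0 : (0 : ℝ) < j := by exact_mod_cast hj
  refine (h.1 j (j + 1) j0 (by linarith)).congr fun y => ?_
  rw [D0, Bx, PP, ← Real.rpow_natCast, ← Real.rpow_natCast]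
  push_cast
  rfl

theorem cell_lim (hB : Bas) (h : MertSt) {r : ℕ} {jv : Fin r → ℕ} (hj : ∀ i, 1 ≤ jv i) :
    Tendsto (fun y : ℝ => cell y w0 jv) atTop (𝓝 (∏ i, Real.log (((jv i : ℝ) + 1) / jv i))) := by
  refine (tendsto_finsetProd _ fun i _ => box h (hj i)).congr fun y => ?_
  rw [← hB.D0_pi]
  simp only [cell, D0, w0, id]

theorem log_bd {j : ℕ} (hj : 1 ≤ j) : 1 / ((j : ℝ) + 1) ≤ Real.log (((j : ℝ) + 1) / j) ∧
    Real.log (((j : ℝ) + 1) / j) ≤ 1 / (j : ℝ) := by
  have j0 : (0 : ℝ) < j := by exact_mod_cast hj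
  refine ⟨le_trans (le_of_eq ?_) (Real.one_sub_inv_le_log_of_pos (by positivity)),
    (Real.log_le_sub_one_of_pos (by positivity)).trans (le_of_eq ?_)⟩ <;> field_simp <;> ring

theorem not_G {s : Sv} (hs : s.Wt) (j : ℕ) : ¬s.G {j} := fun k => by
  simpa using hs.2.2.2.2.2.1 _ k

/-- the lower bound for the weight of a bad set. -/
def lo (s : Sv) (M : Multiset ℕ) : ℝ :=
  if M.sum ∈ Icc s.J₁ s.J₂ then (if M.card = 1 then 1 else 0) - s.L M else 0

theorem L_bd {s : Sv} (hs : s.Wt) (M : Multiset ℕ) : 0 ≤ s.L M ∧ s.L M ≤ 100 * 2 ^ M.card := by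
  have := abs_le.1 (GdG.T_abs hs M)
  unfold Sv.L
  split_ifs
  · exact ⟨le_rfl, by positivity⟩
  · exact ⟨le_max_left _ _, max_le (by positivity) (by linarith [this.1])⟩

theorem lo_le {s : Sv} (hs : s.Wt) {M : Multiset ℕ} (hM : M.sum ∈ Icc s.J₁ s.J₂) :
    lo s M ≤ if s.G M then (0 : ℝ) else s.T M := by
  rw [lo, if_pos hM, Sv.L]
  by_cases h1 : M.card = 1
  · obtain ⟨j, rfl⟩ := Multiset.card_eq_one.1 h1
    have e := not_G hs j
    rw [if_pos h1, if_neg e, if_neg e, GdG.T_one hs (by simpa using (mem_Icc.1 hM).1)]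
    simp
  · rw [if_neg h1]
    split_ifs
    · simp
    · linarith [le_max_right 0 (-s.T M)]

theorem lo_abs {s : Sv} (hs : s.Wt) (M : Multiset ℕ) : |lo s M| ≤ 1 + 100 * 2 ^ M.card := by
  obtain ⟨e1, e2⟩ := L_bd hs M
  unfold lo
  split_ifs
  · exact abs_le.2 ⟨by linarith, by linarith⟩
  · exact abs_le.2 ⟨by linarith, by linarith⟩
  · rw [abs_zero]
    positivity

/-- the limit. -/
theorem lim_ge {s : Sv} (hs : s.Wt) {j₀ R : ℕ} (hj : 1 ≤ j₀) (hJ : j₀ ≤ s.J₁)
    (hR : 1 ≤ R) : ∑ J ∈ Icc s.J₁ s.J₂, (1 / ((J : ℝ) + 1) - s.ls j₀ (s.J₂ + 1) R J) ≤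
      ∑ r ∈ range (R + 1), (∑ jv ∈ Fintype.piFinset fun _ : Fin r => Ico j₀ (s.J₂ + 1),
        lo s (vm jv) * ∏ i, Real.log (((jv i : ℝ) + 1) / jv i)) / r.factorial := by
  calc _ ≤ ∑ J ∈ Icc s.J₁ s.J₂, ∑ r ∈ range (R + 1),
        (∑ jv ∈ (Fintype.piFinset fun _ : Fin r => Ico j₀ (s.J₂ + 1)) with ∑ i, jv i = J,
          ((if r = 1 then ∏ i, 1 / ((jv i : ℝ) + 1) else 0) -
            s.L (vm jv) * ∏ i, 1 / (jv i : ℝ))) / r.factorial := by
        refine sum_le_sum fun J hJ' => ?_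
        simp only [sum_sub_distrib, sub_div, Sv.ls]
        refine sub_le_sub_right (le_trans ?_ (single_le_sum (fun r _ => div_nonneg
          (sum_nonneg fun jv _ => by split_ifs <;> positivity) (Nat.cast_nonneg _))
          (mem_range.2 (by omega : 1 < R + 1)))) _
        rw [Nat.factorial_one, Nat.cast_one, div_one]
        refine le_trans ?_ (single_le_sum (a := fun _ => J) (fun jv _ => by positivity) ?_)
        · simp
        · have := mem_Icc.1 hJ'
          simp only [mem_filter, Fintype.mem_piFinset, mem_Ico]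
          exact ⟨fun _ => ⟨by omega, by omega⟩, by simp⟩
    _ ≤ _ := by
        rw [sum_comm]
        refine sum_le_sum fun r _ => ?_
        rw [← sum_div, sum_fiberwise_eq_sum_filter, sum_filter]
        refine div_le_div_of_nonneg_right (sum_le_sum fun jv hv => ?_) (Nat.cast_nonneg _)
        have e0 : ∀ i, 1 ≤ jv i := fun i =>
          hj.trans (mem_Ico.1 (Fintype.mem_piFinset.1 hv i)).1
        have e1 : (vm jv).sum = ∑ i, jv i := rfl
        have e2 : (vm jv).card = r := by simp [vm]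
        have e3 := prod_le_prod (s := univ) (fun i _ => by positivity) fun i _ =>
          (log_bd (e0 i)).1
        have e4 := prod_le_prod (s := univ)
          (fun i _ => le_trans (by positivity) (log_bd (e0 i)).1) fun i _ => (log_bd (e0 i)).2
        have e5 := mul_le_mul_of_nonneg_left e4 (L_bd hs (vm jv)).1
        rw [lo, e1, e2]
        split_ifs <;> linarith

end BdG

open BdG

theorem bdG (hB : Bas) (hX : Box) (h1 : TupSt) (h2 : NNSt) (h3 : LinSt) (h4 : MertSt) : BdG := by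
  intro s ε j₀ R hs hε hj hJ hR
  have l0 : Lin 1 w0 := h3.2.2.1
  have lim : Tendsto (fun y : ℝ => ∑ r ∈ range (R + 1),
      ((∑ jv ∈ Fintype.piFinset fun _ : Fin r => Ico j₀ (s.J₂ + 1), lo s (vm jv) * cell y w0 jv) /
        r.factorial - (1 + 100 * 2 ^ r) * r ^ r * (y ^ j₀) ^ (-(1 / 4) : ℝ))) atTop
      (𝓝 (∑ r ∈ range (R + 1), ((∑ jv ∈ Fintype.piFinset fun _ : Fin r => Ico j₀ (s.J₂ + 1),
        lo s (vm jv) * ∏ i, Real.log (((jv i : ℝ) + 1) / jv i)) / r.factorial -
          (1 + 100 * 2 ^ r) * r ^ r * 0))) :=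
    tendsto_finsetSum _ fun r _ => ((tendsto_finsetSum _ fun jv hv => (cell_lim hB h4
      fun i => hj.trans (mem_Ico.1 (Fintype.mem_piFinset.1 hv i)).1).const_mul _).div_const _).sub
        ((small hj).const_mul _)
  simp only [mul_zero, sub_zero] at lim
  filter_upwards [lim.eventually_const_le ((sub_lt_self _ hε).trans_le
    (lim_ge hs hj hJ (one_le hR))), (tend hj).eventually (h2 R),
    eventually_ge_atTop (2 : ℝ)] with y e1 e2 e3
  have y1 : 1 ≤ y := by linarith
  refine e1.trans ?_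
  calc _ ≤ ∑ r ∈ range (R + 1), ∑ S ∈ (PP y j₀ (s.J₂ + 1)).powerset with #S = r,
        lo s (im y S) * w0 (∏ π ∈ S, π) := by
        refine sum_le_sum fun r hr => ?_
        have f1 := abs_le.1 (h1 y j₀ (s.J₂ + 1) s.J₁ s.J₂ r w0 (lo s) (1 + 100 * 2 ^ r) l0.1 e3
          (by positivity) (fun M hM => hM ▸ lo_abs hs M) fun M hM => mem_Icc.1 (by
            by_contra h
            exact hM (if_neg h)))
        have f2 := e2 1 w0 (y ^ s.J₁) (y ^ (s.J₂ + r)) l0
          (by simpa using pow_le_pow_right₀ y1 hJ) (by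
            have := mem_range.1 hr
            rw [← pow_mul, mul_comm]
            exact pow_le_pow_right₀ y1 (by omega))
        have f3 := mul_le_mul_of_nonneg_left f2
          (show (0 : ℝ) ≤ (1 + 100 * 2 ^ r) * r ^ r by positivity)
        linarith [f1.1]
    _ ≤ _ := by
        rw [sum_fiberwise_eq_sum_filter, sum_filter, Sv.sc, sum_filter]
        refine sum_le_sum fun S hS => ?_
        have f1 := (hX.nm_set y j₀ _ S (by linarith) (mem_powerset.1 hS)).2.2.1
        by_cases h : (im y S).sum ∈ Icc s.J₁ s.J₂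
        · have f2 : #S ∈ range (R + 1) := by
            have f3 := (mem_Icc.1 h).2
            rw [mem_range]
            by_contra f4
            have := Nat.mul_le_mul_left j₀ (show R ≤ #S by omega)
            rw [mul_comm] at this
            omega
          rw [if_pos f2, if_pos (mem_Icc.1 h)]
          exact mul_le_mul_of_nonneg_right (lo_le hs h) (l0.1 _)
        · rw [if_neg fun h' => h (mem_Icc.2 h'), lo, if_neg h, zero_mul, ite_self]

end

end Pool.Agent.Lib.MP_f6c7cf_nt.FO
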