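import Pool.Agent.Lib.MP_f6c7cf_nt.FO.St

/-!
One block of digits: the law, its support, and the size of one binomial coefficient.
-/

namespace Pool.Agent.Lib.MP_f6c7cf_nt.FO

open Finset Filter Topology Polynomial
open scoped Classical ComplexConjugate

noncomputable section

namespace Blk

theorem s2_zero : s2 0 = 0 := by simp [s2]

theorem s2_one : s2 1 = 1 := by simp [s2]

theorem s2_two : s2 2 = 1 := by simp [s2]

theorem s2_top (hB : Bas) (b c : ℕ) (hc : c < 2 ^ b) : s2 (2 ^ b + c) = s2 c + 1 := by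
  have h := hB.s2_add b c 1 hc
  rw [mul_one, s2_one, add_comm c] at h
  exact h

theorem cnt (hB : Bas) (b : ℕ) :
    ∀ κ : ℕ, ∑ c ∈ range (2 ^ b), (if s2 c = κ then 1 else 0) = b.choose κ := by
  induction b with
  | zero =>
    intro κ
    rw [pow_zero, sum_range_one, s2_zero]
    rcases κ with _ | κ <;> simp
  | succ b ih =>
    intro κ
    rw [pow_succ, mul_two, sum_range_add, ih κ]
    have h : ∑ c ∈ range (2 ^ b), (if s2 (2 ^ b + c) = κ then 1 else 0) =
        ∑ c ∈ range (2 ^ b), (if s2 c + 1 = κ then 1 else 0) :=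
      sum_congr rfl fun c hc => by rw [s2_top hB b c (mem_range.1 hc)]
    rw [h]
    rcases κ with _ | κ
    · simp
    · simp only [add_left_inj]
      rw [ih κ, Nat.choose_succ_succ', add_comm]

theorem card_eq (hB : Bas) (b κ : ℕ) : #{c ∈ range (2 ^ b) | s2 c = κ} = b.choose κ := by
  rw [card_filter, cnt hB b κ]

theorem coeff_blk (b κ n : ℕ) :
    (blk b κ).coeff n = if n < 2 ^ b ∧ s2 n = κ then 1 / (b.choose κ : ℝ) else 0 := by
  unfold blk
  rw [finsetSum_coeff]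
  simp only [coeff_monomial]
  rw [sum_ite_eq']
  simp only [mem_filter, mem_range]

theorem mem_blk (b κ : ℕ) (h : κ ≤ b) (c : ℕ) :
    c ∈ (blk b κ).support ↔ c < 2 ^ b ∧ s2 c = κ := by
  have hp : (0 : ℝ) < b.choose κ := by exact_mod_cast Nat.choose_pos h
  rw [mem_support_iff, coeff_blk]
  by_cases hc : c < 2 ^ b ∧ s2 c = κ
  · rw [if_pos hc]
    exact iff_of_true (one_div_pos.2 hp).ne' hc
  · rw [if_neg hc]
    exact iff_of_false (fun h => h rfl) hc

theorem prob_blk (hB : Bas) (b κ : ℕ) (h : κ ≤ b) : Prob (blk b κ) := by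
  have hp : (0 : ℝ) < b.choose κ := by exact_mod_cast Nat.choose_pos h
  refine ⟨fun n => ?_, ?_⟩
  · rw [coeff_blk]
    split_ifs
    · exact (one_div_pos.2 hp).le
    · exact le_rfl
  · unfold blk
    rw [eval_finsetSum]
    simp only [eval_monomial, one_pow, mul_one]
    rw [sum_const, card_eq hB, nsmul_eq_mul, mul_one_div_cancel hp.ne']

theorem sp_blk (b κ : ℕ) (h : κ ≤ b) : Sp b (blk b κ) (1 / (b.choose κ : ℝ)) := by
  have hp : (0 : ℝ) < b.choose κ := by exact_mod_cast Nat.choose_pos h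
  intro a
  have h1 : #{y ∈ (blk b κ).support | y ≡ a [MOD 2 ^ b]} ≤ 1 := by
    refine card_le_one.2 fun x hx y hy => ?_
    rw [mem_filter, mem_blk b κ h] at hx hy
    exact Nat.ModEq.eq_of_lt_of_lt (hx.2.trans hy.2.symm) hx.1.1 hy.1.1
  calc ∑ y ∈ (blk b κ).support with y ≡ a [MOD 2 ^ b], (blk b κ).coeff y
      ≤ #{y ∈ (blk b κ).support | y ≡ a [MOD 2 ^ b]} • (1 / (b.choose κ : ℝ)) := by
        refine sum_le_card_nsmul _ _ _ fun y _ => ?_
        rw [coeff_blk]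
        split_ifs
        · exact le_rfl
        · exact (one_div_pos.2 hp).le
    _ ≤ 1 / (b.choose κ : ℝ) := by
        rw [nsmul_eq_mul]
        refine mul_le_of_le_one_left (one_div_pos.2 hp).le ?_
        exact_mod_cast h1

theorem s2_ones (hB : Bas) (j : ℕ) : s2 (2 ^ j - 1) = j := by
  induction j with
  | zero => simp [s2_zero]
  | succ j ih =>
    have h0 : 0 < 2 ^ j := Nat.two_pow_pos j
    have h1 : 2 ^ (j + 1) - 1 = 2 ^ j + (2 ^ j - 1) := by
      rw [pow_succ]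
      omega
    rw [h1, s2_top hB j _ (by omega), ih]

theorem pair (hB : Bas) (b κ : ℕ) (h1 : 1 ≤ κ) (h2 : κ < b) :
    ∃ c, c ∈ (blk b κ).support ∧ c + 1 ∈ (blk b κ).support := by
  obtain ⟨k, rfl⟩ : ∃ k, κ = k + 1 := ⟨κ - 1, by omega⟩
  have h0 : 0 < 2 ^ k := Nat.two_pow_pos k
  have h3 : 2 ^ (k + 2) ≤ 2 ^ b := Nat.pow_le_pow_right (by norm_num) (by omega)
  have h4 : 2 ^ (k + 2) = 4 * 2 ^ k := by rw [pow_add]; ring
  refine ⟨1 + 2 ^ 2 * (2 ^ k - 1), (mem_blk b _ h2.le _).2 ⟨by omega, ?_⟩,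
    (mem_blk b _ h2.le _).2 ⟨by omega, ?_⟩⟩
  · rw [hB.s2_add 2 1 _ (by norm_num), s2_one, s2_ones hB, add_comm]
  · have h5 : 1 + 2 ^ 2 * (2 ^ k - 1) + 1 = 2 + 2 ^ 2 * (2 ^ k - 1) := by ring
    rw [h5, hB.s2_add 2 2 _ (by norm_num), s2_two, s2_ones hB, add_comm]

theorem big : 2 ^ 11618 ≤ Nat.choose 20000 2780 := by
  rw [Nat.choose_eq_descFactorial_div_factorial]
  decide +kernel

end Blk

theorem blkS (hB : Bas) : BlkSt :=
  ⟨fun b κ h => ⟨Blk.prob_blk hB b κ h, Blk.sp_blk b κ h, Blk.mem_blk b κ h⟩,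
    Blk.pair hB, Blk.big⟩

end

end Pool.Agent.Lib.MP_f6c7cf_nt.FO
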