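import Pool.Agent.Lib.MP_f6c7cf_nt.FO.St

/-! Boxes of primes. -/

namespace Pool.Agent.Lib.MP_f6c7cf_nt.FO

open Finset Filter Topology Polynomial
open Pool.Agent.Lib.MP_9d27bc_nt.C (pr Rough)
open Pool.Agent.Lib.MP_9d27bc_nt.C.Mer (mem_pr second)
open scoped Classical

namespace BoxA

variable {y : ℝ} {j J p : ℕ}

theorem mem : p ∈ PP y j J ↔ p.Prime ∧ y ^ j < p ∧ (p : ℝ) ≤ y ^ J := mem_pr

theorem ix_eq' (hy : 1 < y) (h : p ∈ Bx y j) : ix y p = j := by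
  obtain ⟨-, h2, h3⟩ := mem.1 h
  have h0 : (0 : ℝ) < p := lt_of_le_of_lt (by positivity) h2
  have : ⌈Real.logb y p⌉₊ = j + 1 := by
    rw [Nat.ceil_eq_iff (by omega), Real.lt_logb_iff_rpow_lt hy h0,
      Real.logb_le_iff_le_rpow hy h0, Real.rpow_natCast, Real.rpow_natCast]
    exact ⟨h2, h3⟩
  rw [ix, this]
  rfl

theorem ex_ix {x : ℝ} (hy : 1 < y) (h1 : y ^ j < x) (h2 : x ≤ y ^ J) :
    ∃ k ∈ Ico j J, y ^ k < x ∧ x ≤ y ^ (k + 1) := by
  induction J with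
  | zero => exact absurd ((pow_lt_pow_iff_right₀ hy).1 (h1.trans_le h2)) (by omega)
  | succ J ih =>
    by_cases h : x ≤ y ^ J
    · obtain ⟨k, hk, a⟩ := ih h
      have := mem_Ico.1 hk
      exact ⟨k, mem_Ico.2 ⟨this.1, by omega⟩, a⟩
    · have := (pow_lt_pow_iff_right₀ hy).1 (h1.trans_le h2)
      exact ⟨J, mem_Ico.2 ⟨by omega, by omega⟩, not_le.1 h, h2⟩

theorem sub {k : ℕ} (hy : 1 < y) (h1 : j ≤ k) (h2 : k < J) : Bx y k ⊆ PP y j J := by
  intro p hp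
  obtain ⟨a, b, c⟩ := mem.1 hp
  exact mem.2 ⟨a, (pow_le_pow_right₀ hy.le h1).trans_lt b, c.trans (pow_le_pow_right₀ hy.le h2)⟩

theorem ix_PP' (hy : 1 < y) (h : p ∈ PP y j J) :
    j ≤ ix y p ∧ ix y p < J ∧ p ∈ Bx y (ix y p) := by
  obtain ⟨a, b, c⟩ := mem.1 h
  obtain ⟨k, hk, d⟩ := ex_ix hy b c
  have h1 : p ∈ Bx y k := mem.2 ⟨a, d⟩
  rw [ix_eq' hy h1]
  exact ⟨(mem_Ico.1 hk).1, (mem_Ico.1 hk).2, h1⟩

theorem PP_eq (hy : 1 < y) (j J : ℕ) : PP y j J = (Ico j J).biUnion (Bx y) := by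
  ext p
  rw [mem_biUnion]
  constructor
  · intro h
    obtain ⟨a, b, c⟩ := ix_PP' hy h
    exact ⟨_, mem_Ico.2 ⟨a, b⟩, c⟩
  · rintro ⟨k, hk, h⟩
    exact sub hy (mem_Ico.1 hk).1 (mem_Ico.1 hk).2 h

theorem gen {κ : Type} (s : Finset κ) (jv : κ → ℕ) (f : κ → ℕ) (hy : 1 < y)
    (h : ∀ k ∈ s, j ≤ jv k ∧ f k ∈ Bx y (jv k)) : y ^ (∑ k ∈ s, jv k) ≤ (∏ k ∈ s, f k : ℕ) ∧
    ((∏ k ∈ s, f k : ℕ) : ℝ) ≤ y ^ (∑ k ∈ s, jv k + #s) ∧ Rough (y ^ j) (∏ k ∈ s, f k) := by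
  have h1 : ∀ k ∈ s, (f k).Prime ∧ y ^ jv k < f k ∧ (f k : ℝ) ≤ y ^ (jv k + 1) :=
    fun k hk => mem.1 (h k hk).2
  refine ⟨?_, ?_, fun l hl hd => ?_⟩
  · rw [← prod_pow_eq_pow_sum, Nat.cast_prod]
    exact prod_le_prod (fun k _ => by positivity) fun k hk => (h1 k hk).2.1.le
  · rw [card_eq_sum_ones, ← sum_add_distrib, ← prod_pow_eq_pow_sum, Nat.cast_prod]
    exact prod_le_prod (fun k _ => by positivity) fun k hk => (h1 k hk).2.2
  · obtain ⟨k, hk, a⟩ := hl.prime.exists_mem_finset_dvd hd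
    rw [(Nat.prime_dvd_prime_iff_eq hl (h1 k hk).1).1 a]
    exact (pow_le_pow_right₀ hy.le (h k hk).1).trans_lt (h1 k hk).2.1

theorem set {S : Finset ℕ} (hy : 1 < y) (hS : S ⊆ PP y j J) :
    y ^ (im y S).sum ≤ (∏ π ∈ S, π : ℕ) ∧ ((∏ π ∈ S, π : ℕ) : ℝ) ≤ y ^ ((im y S).sum + #S) ∧
    j * #S ≤ (im y S).sum ∧ Rough (y ^ j) (∏ π ∈ S, π) := by
  have h := gen (j := j) S (ix y) (fun π => π) hy fun k hk =>
    ⟨(ix_PP' hy (hS hk)).1, (ix_PP' hy (hS hk)).2.2⟩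
  refine ⟨h.1, h.2.1, ?_, h.2.2⟩
  rw [mul_comm]
  exact card_nsmul_le_sum S (ix y) j fun k hk => (ix_PP' hy (hS hk)).1

theorem D0_bd : ∃ C : ℝ, ∀ (y : ℝ) (j J R : ℕ), 2 ≤ y → 1 ≤ j → 1 ≤ R → J ≤ R * j →
    D0 (PP y j J) id ≤ C + Real.log R := by
  obtain ⟨C, -, h, -⟩ := second
  refine ⟨C, fun y j J R hy hj hR hJ => ?_⟩
  have hy1 : 1 < y := by linarith
  have hR' : (1 : ℝ) ≤ R := by exact_mod_cast hR
  have hj' : (1 : ℝ) ≤ j := by exact_mod_cast hj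
  have hl := Real.log_pos hy1
  have h1 : y ^ j ≤ y ^ (R * j) := pow_le_pow_right₀ hy1.le (Nat.le_mul_of_pos_left _ hR)
  have h2 := (abs_le.1 (h (y ^ j) (y ^ (R * j)) (hy.trans (le_self_pow₀ hy1.le (by omega))) h1)).2
  have e : Real.log (y ^ (R * j)) / Real.log (y ^ j) = R := by
    rw [Real.log_pow, Real.log_pow]
    push_cast
    field_simp
  rw [e] at h2
  refine le_trans (sum_le_sum_of_subset_of_nonneg (fun l hl => ?_) fun l _ _ => by positivity)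
    (sub_le_iff_le_add.1 h2)
  have := mem.1 hl
  exact mem_pr.2 ⟨this.1, this.2.1, this.2.2.trans (pow_le_pow_right₀ hy1.le hJ)⟩

theorem dvd_prod {S : Finset ℕ} (hS : ∀ l ∈ S, l.Prime) (hp : p.Prime) :
    p ∣ ∏ π ∈ S, π ↔ p ∈ S := by
  refine ⟨fun h => ?_, fun h => dvd_prod_of_mem (fun π => π) h⟩
  obtain ⟨q, hq, hd⟩ := hp.prime.exists_mem_finset_dvd h
  rwa [(Nat.prime_dvd_prime_iff_eq hp (hS q hq)).1 hd]

theorem prod_dvd {S : Finset ℕ} {a : ℕ} (hS : ∀ l ∈ S, l.Prime) (h : ∀ p ∈ S, p ∣ a) :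
    ∏ π ∈ S, π ∣ a :=
  Finset.prod_primes_dvd a (fun p hp => (hS p hp).prime) h

theorem VV_bd : ∃ C : ℝ, 0 < C ∧ ∀ z : ℝ, 2 ≤ z → 0 ≤ VV z ∧ VV z ≤ C / Real.log z := by
  obtain ⟨C, -, h, -⟩ := second
  refine ⟨Real.exp C, Real.exp_pos _, fun z hz => ?_⟩
  have n0 : ∀ l ∈ pr 0 z, (0 : ℝ) ≤ 1 - 1 / (l : ℝ) := fun l hl => by
    have : (1 : ℝ) ≤ l := by exact_mod_cast (mem_pr.1 hl).1.one_le
    exact sub_nonneg.2 (div_le_one_of_le₀ this (by positivity))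
  refine ⟨prod_nonneg n0, ?_⟩
  have h1 : VV z ≤ Real.exp (-∑ l ∈ pr 0 z, 1 / (l : ℝ)) := by
    rw [← sum_neg_distrib, Real.exp_sum]
    exact prod_le_prod n0 fun l _ => Real.one_sub_le_exp_neg _
  have h2 : ∑ l ∈ pr 2 z, 1 / (l : ℝ) ≤ ∑ l ∈ pr 0 z, 1 / (l : ℝ) :=
    sum_le_sum_of_subset_of_nonneg (fun l hl => by
      have := mem_pr.1 hl
      exact mem_pr.2 ⟨this.1, by linarith [this.2.1], this.2.2⟩) fun l _ _ => by positivity
  have h3 := (abs_le.1 (h 2 z le_rfl hz)).1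
  have l2 : 0 < Real.log 2 := Real.log_pos one_lt_two
  have lz : 0 < Real.log z := Real.log_pos (by linarith)
  have l3 : Real.log 2 ≤ 1 := by linarith [Real.log_two_lt_d9]
  calc VV z ≤ Real.exp (C - Real.log (Real.log z / Real.log 2)) :=
        h1.trans (Real.exp_le_exp.2 (by linarith))
    _ = Real.exp C * Real.log 2 / Real.log z := by
        rw [Real.exp_sub, Real.exp_log (by positivity)]
        field_simp
    _ ≤ Real.exp C * 1 / Real.log z := by gcongr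
    _ = _ := by rw [mul_one]

end BoxA

open BoxA in
theorem box : Box where
  mem_PP _ _ _ _ _ := mem
  ix_eq _ _ _ := ix_eq'
  ix_PP _ _ _ _ := ix_PP'
  Bx_sub _ _ _ _ := sub
  sum_PP y j J f hy := by
    rw [PP_eq hy]
    exact sum_biUnion fun a _ b _ hab => disjoint_left.2 fun p h1 h2 =>
      hab ((ix_eq' hy h1).symm.trans (ix_eq' hy h2))
  nm_set _ _ _ _ := BoxA.set
  nm_tup _ _ _ _ jv f hy h := gen univ jv f hy fun k _ => h k
  odd z n hz hr := by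
    rw [← Nat.not_even_iff_odd, even_iff_two_dvd]
    intro h
    have h1 := hr 2 Nat.prime_two h
    push_cast at h1
    linarith
  rough_mul z m n :=
    ⟨fun h => ⟨fun l hl hd => h l hl (hd.mul_right _), fun l hl hd => h l hl (hd.mul_left _)⟩,
      fun h l hl hd => ((Nat.Prime.dvd_mul hl).1 hd).elim (h.1 l hl) (h.2 l hl)⟩
  D0_box := by
    obtain ⟨C, h⟩ := D0_bd
    exact ⟨⌈C + Real.log (2 : ℕ)⌉₊, fun y j hy hj =>
      (h y j (j + 1) 2 hy hj (by omega) (by omega)).trans (Nat.le_ceil _)⟩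
  exp_PP := by
    obtain ⟨C, h⟩ := D0_bd
    refine ⟨Real.exp C, by positivity, fun y j J R hy hj hR hJ => ?_⟩
    have hR' : (0 : ℝ) < R := by exact_mod_cast hR
    have h1 : Real.exp (D0 (PP y j J) id) ≤ Real.exp C * R := by
      rw [← Real.exp_log hR', ← Real.exp_add]
      exact Real.exp_le_exp.2 (h y j J R hy hj hR hJ)
    have e : D0 (PP y j J).powerset (fun S => ∏ π ∈ S, π) =
        ∏ π ∈ PP y j J, (1 + 1 / (π : ℝ)) := by
      rw [prod_one_add, D0]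
      refine sum_congr rfl fun S _ => ?_
      rw [Nat.cast_prod, prod_div_distrib, prod_const_one]
    have h4 : ∏ π ∈ PP y j J, (1 + 1 / (π : ℝ)) ≤ Real.exp (D0 (PP y j J) id) := by
      rw [D0, Real.exp_sum]
      exact prod_le_prod (fun _ _ => by positivity) fun π _ => by
        rw [add_comm]
        exact Real.add_one_le_exp _
    rw [e]
    exact h4.trans h1
  VV_le := VV_bd
  dvd_prod _ _ := BoxA.dvd_prod
  prod_dvd _ _ := BoxA.prod_dvd
  card_dvd y j J R a hy hj ha hn := by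
    have hS : {p ∈ PP y j J | p ∣ a} ⊆ PP y j J := filter_subset _ _
    obtain ⟨h1, -, h2, -⟩ := BoxA.set hy hS
    have h3 := Nat.le_of_dvd (Nat.pos_of_ne_zero ha)
      (BoxA.prod_dvd (fun l hl => (mem.1 (hS hl)).1) fun p hp => (mem_filter.1 hp).2)
    have h4 := (pow_le_pow_iff_right₀ hy).1 ((h1.trans (Nat.cast_le.2 h3)).trans hn)
    exact Nat.le_of_mul_le_mul_left (h2.trans (h4.trans_eq (mul_comm _ _))) hj
  mult_set P hP a := by
    refine card_le_one.2 fun S hS S' hS' => ?_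
    obtain ⟨h1, h2⟩ := mem_filter.1 hS
    obtain ⟨h3, h4⟩ := mem_filter.1 hS'
    rw [mem_powerset] at h1 h3
    rw [← Nat.primeFactors_prod fun l hl => hP l (h1 hl),
      ← Nat.primeFactors_prod fun l hl => hP l (h3 hl)]
    exact congrArg _ (h2.trans h4.symm)
  mult_tup κ _ _ S hS a := by
    rcases ({f ∈ Fintype.piFinset S | ∏ k, f k = a}).eq_empty_or_nonempty with h | ⟨f₀, h₀⟩
    · exact (congrArg card h).trans_le (Nat.zero_le _)
    · obtain ⟨h1, h2⟩ := mem_filter.1 h₀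
      rw [Fintype.mem_piFinset] at h1
      refine (card_le_card (t := Fintype.piFinset fun _ : κ => univ.image f₀)
        fun f hf => ?_).trans ?_
      · obtain ⟨h3, h4⟩ := mem_filter.1 hf
        rw [Fintype.mem_piFinset] at h3 ⊢
        intro k
        have h5 : f k ∣ ∏ k, f₀ k := by
          rw [h2.trans h4.symm]
          exact dvd_prod_of_mem f (mem_univ k)
        obtain ⟨k', -, hd⟩ := (hS k _ (h3 k)).prime.exists_mem_finset_dvd h5
        exact mem_image.2 ⟨k', mem_univ _,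
          ((Nat.prime_dvd_prime_iff_eq (hS k _ (h3 k)) (hS k' _ (h1 k'))).1 hd).symm⟩
      · rw [Fintype.card_piFinset, prod_const, card_univ]
        exact Nat.pow_le_pow_left (card_image_le.trans_eq card_univ) _
  nice y j J a _ hs hr hl :=
    ⟨a.primeFactors, fun p hp => mem.2 ⟨Nat.prime_of_mem_primeFactors hp,
      hr p (Nat.prime_of_mem_primeFactors hp) (Nat.dvd_of_mem_primeFactors hp),
      hl p (Nat.prime_of_mem_primeFactors hp) (Nat.dvd_of_mem_primeFactors hp)⟩,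
      (Nat.prod_primeFactors_of_squarefree hs).symm⟩
  sqf S hS :=
    Finset.squarefree_prod_of_pairwise_isCoprime (fun p hp q hq hne =>
      Nat.coprime_iff_isRelPrime.1 ((Nat.coprime_primes (hS p hp) (hS q hq)).2 hne))
      fun p hp => (hS p hp).squarefree

end Pool.Agent.Lib.MP_f6c7cf_nt.FO
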