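import Pool.Agent.Lib.MP_f6c7cf_nt.FO.Wt

/-!
Primes with few binary ones: the loss is smaller than the main term.
-/

namespace Pool.Agent.Lib.MP_f6c7cf_nt.FO

open Finset
open Pool.Agent.Lib.MP_4b1228_nt.GS (vm)
open scoped Classical

noncomputable section

namespace Loss

theorem vm_cons {r : ℕ} (jv : Fin (r + 1) → ℕ) (m : Fin (r + 1)) :
    vm jv = jv m ::ₘ vm (m.removeNth jv) := by
  rw [vm, vm, Fin.univ_succAbove r m]
  simp only [cons_val, Multiset.map_cons, map_val, Multiset.map_map]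
  rfl

theorem vm_split {r : ℕ} {jv : Fin (r + 1) → ℕ} {a : ℕ} {O : Multiset ℕ} (h : vm jv = a ::ₘ O) :
    ∃ m, a = jv m ∧ O = vm (m.removeNth jv) := by
  have : a ∈ vm jv := h ▸ Multiset.mem_cons_self _ _
  obtain ⟨m, -, rfl⟩ := Multiset.mem_map.1 this
  exact ⟨m, rfl, ((Multiset.cons_inj_right _).1 ((vm_cons jv m).symm.trans h)).symm⟩

theorem vm_sum {r : ℕ} (jv : Fin r → ℕ) : (vm jv).sum = ∑ i, jv i := rfl

theorem vm_card {r : ℕ} (jv : Fin r → ℕ) : (vm jv).card = r := by simp [vm]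

theorem vm_mem {r : ℕ} (jv : Fin r → ℕ) (i : Fin r) : jv i ∈ vm jv :=
  Multiset.mem_map_of_mem _ (mem_univ i)

theorem ind {r J : ℕ} {X : Finset (Fin (r + 1) → ℕ)} (hX : ∀ jv ∈ X, ∑ i, jv i = J)
    (m : Fin (r + 1)) (Y : Finset (Fin r → ℕ)) {c : ℝ} (hc : 0 ≤ c) :
    ∑ jv ∈ X, (if m.removeNth jv ∈ Y then c else 0) ≤ #Y * c := by
  rw [← sum_filter, sum_const, nsmul_eq_mul]
  refine mul_le_mul_of_nonneg_right (Nat.cast_le.2 ?_) hc
  refine card_le_card_of_injOn (fun jv => m.removeNth jv) (fun jv h => (mem_filter.1 h).2) ?_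
  intro f hf g hg e
  have e1 := hX f (mem_filter.1 hf).1
  have e2 := hX g (mem_filter.1 hg).1
  rw [Fin.sum_univ_succAbove _ m] at e1 e2
  have e3 : ∑ i, f (m.succAbove i) = ∑ i, g (m.succAbove i) :=
    sum_congr rfl fun i _ => congrFun e i
  rw [← Fin.insertNth_self_removeNth m f, ← Fin.insertNth_self_removeNth m g]
  have e4 : f m = g m := by omega
  have e5 : m.removeNth f = m.removeNth g := e
  rw [e4, e5]

theorem bound {r J : ℕ} {X : Finset (Fin (r + 1) → ℕ)} (hX : ∀ jv ∈ X, ∑ i, jv i = J)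
    (f : (Fin (r + 1) → ℕ) → ℝ) (Y₁ Y₂ Y₃ : Finset (Fin r → ℕ)) {c₁ c₂ c₃ : ℝ} (h₁ : 0 ≤ c₁)
    (h₂ : 0 ≤ c₂) (h₃ : 0 ≤ c₃)
    (hf : ∀ jv ∈ X, f jv ≤ 0 ∨ ((∀ m : Fin (r + 1), m.removeNth jv ∈ Y₁) ∧ f jv ≤ (r + 1 : ℕ) * c₁) ∨
      ∃ m : Fin (r + 1), (m.removeNth jv ∈ Y₂ ∧ f jv ≤ c₂) ∨ (m.removeNth jv ∈ Y₃ ∧ f jv ≤ c₃)) :
    ∑ jv ∈ X, f jv ≤ (r + 1 : ℕ) * (#Y₁ * c₁ + #Y₂ * c₂ + #Y₃ * c₃) := by
  set W : (Fin r → ℕ) → ℝ := fun kv => (if kv ∈ Y₁ then c₁ else 0) + (if kv ∈ Y₂ then c₂ else 0) +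
    (if kv ∈ Y₃ then c₃ else 0) with hW
  have W0 : ∀ kv, 0 ≤ W kv := fun kv => by simp only [hW]; positivity
  have e1 : ∀ jv ∈ X, f jv ≤ ∑ m : Fin (r + 1), W (m.removeNth jv) := by
    intro jv hj
    rcases hf jv hj with c | c | ⟨m, c⟩
    · exact c.trans (sum_nonneg fun m _ => W0 _)
    · refine c.2.trans ?_
      have := card_nsmul_le_sum univ (fun m : Fin (r + 1) => W (m.removeNth jv)) c₁ fun m _ => by
        simp only [hW, if_pos (c.1 m)]
        split_ifs <;> linarith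
      simpa using this
    · refine le_trans ?_ (single_le_sum (fun m _ => W0 (m.removeNth jv)) (mem_univ m))
      simp only [hW]
      rcases c with c | c <;> rw [if_pos c.1] <;> split_ifs <;> linarith [c.2]
  refine (sum_le_sum e1).trans ?_
  rw [sum_comm]
  have := sum_le_card_nsmul univ (fun m : Fin (r + 1) => ∑ jv ∈ X, W (m.removeNth jv))
    (#Y₁ * c₁ + #Y₂ * c₂ + #Y₃ * c₃) fun m _ => by
      simp only [hW, sum_add_distrib]
      linarith [ind hX m Y₁ h₁, ind hX m Y₂ h₂, ind hX m Y₃ h₃]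
  rwa [card_univ, Fintype.card_fin, nsmul_eq_mul] at this

/-- a triangle -/
def tri (n : ℕ) : Finset (ℕ × ℕ) := {w ∈ range n ×ˢ range n | w.1 + w.2 + 1 < n}

theorem tri_card (n : ℕ) : (#(tri n) : ℝ) ≤ (n : ℝ) ^ 2 / 2 := by
  have e : #(tri n) ≤ ∑ u ∈ range n, (n - 1 - u) := by
    rw [tri, card_filter, sum_product]
    refine sum_le_sum fun u _ => ?_
    rw [← card_filter]
    refine (card_le_card (t := range (n - 1 - u)) fun v hv => ?_).trans (card_range _).le
    have := (mem_filter.1 hv).2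
    rw [mem_range]
    omega
  rw [sum_range_reflect (fun u => u) n] at e
  have e2 := sum_range_id_mul_two n
  have e3 : #(tri n) * 2 ≤ n * n := by
    have := Nat.mul_le_mul_left n (Nat.sub_le n 1)
    omega
  have : (#(tri n) : ℝ) * 2 ≤ n * n := by exact_mod_cast e3
  nlinarith

/-- a triangle below a corner -/
def dn (B n : ℕ) : Finset (Fin 2 → ℕ) := (tri n).image fun w => ![B - 1 - w.1, B - 1 - w.2]

/-- a triangle above a corner -/
def up (B n : ℕ) : Finset (Fin 2 → ℕ) := (tri n).image fun w => ![B + 1 + w.1, B + 1 + w.2]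

/-- a thin slab -/
def sl (A G n : ℕ) : Finset (Fin 3 → ℕ) :=
  (range G ×ˢ range G ×ˢ range n).image fun w => ![w.1, w.2.1, A + w.2.2 - w.1 - w.2.1]

theorem mem_dn {B n : ℕ} {k : Fin 2 → ℕ} (h : k 0 < B ∧ k 1 < B ∧ 2 * B ≤ k 0 + k 1 + n) :
    k ∈ dn B n := by
  refine mem_image.2 ⟨(B - 1 - k 0, B - 1 - k 1), by simp [tri]; omega, funext fun i => ?_⟩
  fin_cases i <;> simp <;> omega

theorem mem_up {B n : ℕ} {k : Fin 2 → ℕ} (h : B < k 0 ∧ B < k 1 ∧ k 0 + k 1 ≤ 2 * B + n) :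
    k ∈ up B n := by
  refine mem_image.2 ⟨(k 0 - 1 - B, k 1 - 1 - B), by simp [tri]; omega, funext fun i => ?_⟩
  fin_cases i <;> simp <;> omega

theorem mem_sl {A G n : ℕ} {k : Fin 3 → ℕ}
    (h : k 0 < G ∧ k 1 < G ∧ A ≤ k 0 + k 1 + k 2 ∧ k 0 + k 1 + k 2 < A + n) : k ∈ sl A G n := by
  refine mem_image.2 ⟨(k 0, k 1, k 0 + k 1 + k 2 - A), by simp; omega, funext fun i => ?_⟩
  fin_cases i <;> simp
  omega

theorem sq_le {n : ℕ} {c N : ℝ} (h : (n : ℝ) ≤ c * N) : (n : ℝ) ^ 2 / 2 ≤ c ^ 2 / 2 * N ^ 2 := by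
  have := pow_le_pow_left₀ (Nat.cast_nonneg n) h 2
  rw [mul_pow] at this
  linarith

theorem dn_card (B : ℕ) {n : ℕ} {c N : ℝ} (h : (n : ℝ) ≤ c * N) :
    (#(dn B n) : ℝ) ≤ c ^ 2 / 2 * N ^ 2 :=
  le_trans (Nat.cast_le.2 card_image_le) ((tri_card n).trans (sq_le h))

theorem up_card (B : ℕ) {n : ℕ} {c N : ℝ} (h : (n : ℝ) ≤ c * N) :
    (#(up B n) : ℝ) ≤ c ^ 2 / 2 * N ^ 2 :=
  le_trans (Nat.cast_le.2 card_image_le) ((tri_card n).trans (sq_le h))

theorem dv {r : ℕ} (jv : Fin (r + 1) → ℕ) (m : Fin (r + 1)) {t t₀ K : ℝ} (h0 : 0 ≤ t)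
    (ht : t ≤ t₀) (hK : 0 < K) (h : K ≤ jv m * ∏ i, (m.removeNth jv i : ℝ)) :
    t * ∏ i, 1 / (jv i : ℝ) ≤ t₀ / K := by
  rw [prod_div_distrib, prod_const_one, Fin.prod_univ_succAbove _ m, mul_one_div]
  exact div_le_div₀ (h0.trans ht) ht hK h

theorem wei {α a u v N : ℝ} (h0 : 0 ≤ α) (ha : 0 ≤ a) (h1 : a ≤ α) (h2 : u ≤ α) (h3 : v ≤ α)
    (h : N ≤ a + u + v) : α ^ 2 * (N - 2 * α) ≤ a * (u * v) := by
  have e1 : α * (u + v - α) ≤ u * v := by nlinarith [mul_nonneg (sub_nonneg.2 h2) (sub_nonneg.2 h3)]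
  have e2 : α * (N - 2 * α) ≤ a * (u + v - α) := by
    nlinarith [mul_nonneg (sub_nonneg.2 h1) (show 0 ≤ α - (u + v - α) by linarith),
      mul_le_mul_of_nonneg_left h h0]
  nlinarith [mul_le_mul_of_nonneg_left e1 ha, mul_le_mul_of_nonneg_left e2 h0]

theorem mid {γ s a u v N : ℝ} (h0 : 0 ≤ γ) (ha : 0 ≤ a) (h2 : u ≤ γ) (h3 : v ≤ γ) (h4 : s ≤ u + v)
    (h5 : γ ≤ s) (h6 : s + γ ≤ N) (h : N ≤ a + u + v) : γ * ((s - γ) * (N - s)) ≤ a * (u * v) := by
  have e1 : γ * (u + v - γ) ≤ u * v := by nlinarith [mul_nonneg (sub_nonneg.2 h2) (sub_nonneg.2 h3)]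
  have e2 : (s - γ) * (N - s) ≤ a * (u + v - γ) := by
    nlinarith [mul_nonneg (sub_nonneg.2 h4) (show 0 ≤ N + γ - s - (u + v) by linarith),
      mul_le_mul_of_nonneg_right (show N - (u + v) ≤ a by linarith)
        (show 0 ≤ u + v - γ by linarith)]
  nlinarith [mul_le_mul_of_nonneg_left e1 ha, mul_le_mul_of_nonneg_left e2 h0]

theorem cast {a b n N : ℕ} (hb : 0 < b) (h : b * n ≤ a * N) : (n : ℝ) ≤ (a : ℝ) / b * N := by
  have h1 : (b : ℝ) * n ≤ a * N := by exact_mod_cast h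
  have h2 : (0 : ℝ) < b := by exact_mod_cast hb
  rw [div_mul_eq_mul_div, le_div_iff₀ h2]
  linarith

theorem cast' {a b n N : ℕ} (hb : 0 < b) (h : a * N ≤ b * n) : (a : ℝ) / b * N ≤ (n : ℝ) := by
  have h1 : (a : ℝ) * N ≤ b * n := by exact_mod_cast h
  have h2 : (0 : ℝ) < b := by exact_mod_cast hb
  rw [div_mul_eq_mul_div, div_le_iff₀ h2]
  linarith

variable {p : Fp} {J : ℕ}

theorem L0 (p : Fp) (M : Multiset ℕ) : 0 ≤ p.L M := by
  rw [Fp.L]
  split_ifs
  · exact le_rfl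
  · exact le_max_left _ _

theorem S2 (h : p.OK) (hJ : p.J₁ ≤ J) (hJ' : J ≤ p.J₂) {X : Finset (Fin 2 → ℕ)}
    (hX : ∀ jv ∈ X, ∑ i, jv i = J) :
    ∑ jv ∈ X, p.L (vm jv) * ∏ i, 1 / (jv i : ℝ) ≤ 1 / 100 / p.J₁ := by
  have h' := h
  obtain ⟨h1, h2, h3, h4, h5, h6⟩ := h'
  have N0 : (0 : ℝ) < p.J₁ := by exact_mod_cast h1
  refine (bound (r := 1) hX _ ∅ (Fintype.piFinset fun _ => Ico p.A (p.A + (p.J₂ - p.J₁))) ∅
    (c₁ := 0) (c₂ := 1 / 2 / (172 / 1000 * (p.J₁ : ℝ) ^ 2)) (c₃ := 0) le_rfl (by positivity) le_rfl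
    fun jv hj => ?_).trans ?_
  · have s := hX jv hj
    rcases reg h (M := vm jv) (hJ.trans s.ge) (s.le.trans hJ') with
      c | c | ⟨a, O, e, c⟩
    · left; rw [c, zero_mul]
    · have := vm_card jv; omega
    · obtain ⟨m, rfl, rfl⟩ := vm_split e
      have k := vm_card (m.removeNth jv)
      rcases c with c | c | c | c | c <;> try omega
      obtain ⟨-, c1, c2, c3, c4⟩ := c
      rw [vm_sum, Fin.sum_univ_one] at c2 c3
      refine Or.inr (Or.inr ⟨m, Or.inl ⟨?_, dv jv m (L0 _ _) c4 (by positivity) ?_⟩⟩)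
      · rw [Fintype.mem_piFinset]
        intro i
        rw [Subsingleton.elim i 0, mem_Ico]
        omega
      · rw [Fin.prod_univ_one]
        have a1 := cast' (a := 4148) (b := 10000) (N := p.J₁) (n := jv m) (by norm_num) (by omega)
        have a2 := cast' (a := 4148) (b := 10000) (N := p.J₁) (n := m.removeNth jv 0) (by norm_num)
          (by omega)
        refine le_trans ?_ (mul_le_mul a1 a2 (by positivity) (by positivity))
        push_cast
        nlinarith [sq_nonneg (p.J₁ : ℝ)]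
  · have a1 := cast (a := 14) (b := 10000) (N := p.J₁) (n := p.J₂ - p.J₁) (by norm_num) (by omega)
    simp only [Fintype.card_piFinset, Nat.card_Ico, Nat.add_sub_cancel_left, Fin.prod_univ_one,
      mul_zero, zero_add, add_zero]
    calc _ ≤ ((1 + 1 : ℕ) : ℝ) * ((((14 : ℕ) : ℝ) / (10000 : ℕ) * p.J₁) *
          (1 / 2 / (172 / 1000 * (p.J₁ : ℝ) ^ 2))) := by gcongr
      _ ≤ _ := by
        push_cast
        field_simp
        norm_num

theorem S3 (h : p.OK) (hJ : p.J₁ ≤ J) (hJ' : J ≤ p.J₂) {X : Finset (Fin 3 → ℕ)}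
    (hX : ∀ jv ∈ X, ∑ i, jv i = J) :
    ∑ jv ∈ X, p.L (vm jv) * ∏ i, 1 / (jv i : ℝ) ≤ 9 / 2 / p.J₁ := by
  have h' := h
  obtain ⟨h1, h2, h3, h4, h5, h6⟩ := h'
  have N0 : (0 : ℝ) < p.J₁ := by exact_mod_cast h1
  have N3 : (0 : ℝ) < (p.J₁ : ℝ) ^ 3 := by positivity
  refine (bound (r := 2) hX _ (dn p.A (3 * p.A - p.J₁)) (dn p.G (2 * p.G - p.A))
    (up (p.J₁ - 2 * p.A) (5 * p.A - 2 * p.J₁))
    (c₁ := 2 / 3 / (292 / 10000 * (p.J₁ : ℝ) ^ 3)) (c₂ := 1 / (209 / 10000 * (p.J₁ : ℝ) ^ 3))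
    (c₃ := 3 / 5 / (168 / 10000 * (p.J₁ : ℝ) ^ 3)) (by positivity) (by positivity) (by positivity)
    fun jv hj => ?_).trans ?_
  · have s := hX jv hj
    have s' : ∀ m : Fin 3, jv m + (m.removeNth jv 0 + m.removeNth jv 1) = J := fun m => by
      rw [← s, Fin.sum_univ_succAbove _ m, Fin.sum_univ_two]
      rfl
    have sr : ∀ m : Fin 3, (p.J₁ : ℝ) ≤ jv m + (m.removeNth jv 0 : ℕ) + (m.removeNth jv 1 : ℕ) :=
      fun m => by
        have := s' m
        exact_mod_cast (show p.J₁ ≤ jv m + m.removeNth jv 0 + m.removeNth jv 1 by omega)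
    rcases reg h (M := vm jv) (hJ.trans s.ge) (s.le.trans hJ') with
      c | c | ⟨a, O, e, c⟩
    · left; rw [c, zero_mul]
    · obtain ⟨-, c1, c2⟩ := c
      have l : ∀ i, jv i < p.A := fun i => c1 _ (vm_mem jv i)
      have l' : ∀ i, (jv i : ℝ) ≤ ((4152 : ℕ) : ℝ) / (10000 : ℕ) * p.J₁ := fun i =>
        cast (by norm_num) (by have := l i; omega)
      refine Or.inr (Or.inl ⟨fun m => mem_dn ⟨l _, l _, ?_⟩, ?_⟩)
      · have := s' m
        have := l m
        omega
      · refine (dv jv 0 (K := 292 / 10000 * (p.J₁ : ℝ) ^ 3) (L0 _ _) c2 (by positivity) ?_).trans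
          (le_of_eq (by push_cast; ring))
        rw [Fin.prod_univ_two]
        refine le_trans ?_ (wei (by positivity) (by positivity) (l' 0) (l' _) (l' _) (sr 0))
        push_cast
        nlinarith
    · obtain ⟨m, rfl, rfl⟩ := vm_split e
      have k := vm_card (m.removeNth jv)
      have s1 := s' m
      rcases c with c | c | c | c | c <;> try omega
      · obtain ⟨-, c1, c2, c3⟩ := c
        rw [vm_sum, Fin.sum_univ_two] at c2
        have l0 := c1 _ (vm_mem _ 0)
        have l1 := c1 _ (vm_mem _ 1)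
        refine Or.inr (Or.inr ⟨m, Or.inl ⟨mem_dn (by omega), dv jv m (L0 _ _) c3 (by positivity) ?_⟩⟩)
        rw [Fin.prod_univ_two]
        have a0 := cast (a := 2926) (b := 10000) (N := p.J₁) (n := m.removeNth jv 0) (by norm_num)
          (by omega)
        have a1 := cast (a := 2926) (b := 10000) (N := p.J₁) (n := m.removeNth jv 1) (by norm_num)
          (by omega)
        have a2 := cast' (a := 4148) (b := 10000) (N := p.J₁)
          (n := m.removeNth jv 0 + m.removeNth jv 1) (by norm_num) (by omega)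
        rw [Nat.cast_add] at a2
        refine le_trans ?_ (mid (by positivity) (by positivity) a0 a1 a2 ?_ ?_ (sr m)) <;>
          push_cast <;> nlinarith
      · obtain ⟨-, c1, c2, c3⟩ := c
        rw [vm_sum, Fin.sum_univ_two] at c2
        have l0 := c1 _ (vm_mem _ 0)
        have l1 := c1 _ (vm_mem _ 1)
        refine Or.inr (Or.inr ⟨m, Or.inr ⟨mem_up (by omega), dv jv m (L0 _ _) c3 (by positivity) ?_⟩⟩)
        rw [Fin.prod_univ_two]
        have a0 := cast' (a := 1696) (b := 10000) (N := p.J₁) (n := m.removeNth jv 0) (by norm_num)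
          (by omega)
        have a1 := cast' (a := 1696) (b := 10000) (N := p.J₁) (n := m.removeNth jv 1) (by norm_num)
          (by omega)
        have a2 := cast' (a := 5848) (b := 10000) (N := p.J₁) (n := jv m) (by norm_num) (by omega)
        refine le_trans ?_ (mul_le_mul a2 (mul_le_mul a0 a1 (by positivity) (by positivity))
          (by positivity) (by positivity))
        push_cast
        nlinarith
  · have a1 := dn_card p.A (cast (a := 2456)
      (b := 10000) (N := p.J₁) (n := 3 * p.A - p.J₁) (by norm_num) (by omega))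
    have a2 := dn_card p.G (cast (a := 1704)
      (b := 10000) (N := p.J₁) (n := 2 * p.G - p.A) (by norm_num) (by omega))
    have a3 := up_card (p.J₁ - 2 * p.A) (cast (a := 760)
      (b := 10000) (N := p.J₁) (n := 5 * p.A - 2 * p.J₁) (by norm_num) (by omega))
    refine (mul_le_mul_of_nonneg_left (add_le_add (add_le_add
      (mul_le_mul_of_nonneg_right a1 (by positivity))
      (mul_le_mul_of_nonneg_right a2 (by positivity)))
      (mul_le_mul_of_nonneg_right a3 (by positivity))) (by positivity)).trans ?_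
    push_cast
    field_simp
    norm_num

theorem S4 (h : p.OK) (hJ : p.J₁ ≤ J) (hJ' : J ≤ p.J₂) {X : Finset (Fin 4 → ℕ)}
    (hX : ∀ jv ∈ X, ∑ i, jv i = J) :
    ∑ jv ∈ X, p.L (vm jv) * ∏ i, 1 / (jv i : ℝ) ≤ 2 / p.J₁ := by
  have h' := h
  obtain ⟨h1, h2, h3, h4, h5, h6⟩ := h'
  have N0 : (0 : ℝ) < p.J₁ := by exact_mod_cast h1
  have N3 : (0 : ℝ) < (p.J₁ : ℝ) ^ 4 := by positivity
  refine (bound (r := 3) hX _ ∅ (Fintype.piFinset fun _ =>
      Ico (p.J₁ - 2 * p.A) (p.J₁ - 2 * p.A + (5 * p.A - 2 * p.J₁))) (sl p.A p.G (p.J₂ - p.J₁))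
    (c₁ := 0) (c₂ := 9 / 5 / (184 / 100000 * (p.J₁ : ℝ) ^ 4))
    (c₃ := 1 / 2 / (105 / 100000 * (p.J₁ : ℝ) ^ 4)) le_rfl (by positivity) (by positivity)
    fun jv hj => ?_).trans ?_
  · have s := hX jv hj
    rcases reg h (M := vm jv) (hJ.trans s.ge) (s.le.trans hJ') with
      c | c | ⟨a, O, e, c⟩
    · left; rw [c, zero_mul]
    · have := vm_card jv; omega
    · obtain ⟨m, rfl, rfl⟩ := vm_split e
      have k := vm_card (m.removeNth jv)
      have s1 : jv m + (m.removeNth jv 0 + m.removeNth jv 1 + m.removeNth jv 2) = J := by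
        rw [← s, Fin.sum_univ_succAbove _ m, Fin.sum_univ_three]
        rfl
      rcases c with c | c | c | c | c <;> try omega
      · obtain ⟨-, c1, c3⟩ := c
        rw [vm_sum, Fin.sum_univ_three] at c1
        have l0 := c1 _ (vm_mem _ 0)
        have l1 := c1 _ (vm_mem _ 1)
        have l2 := c1 _ (vm_mem _ 2)
        refine Or.inr (Or.inr ⟨m, Or.inl ⟨?_, dv jv m (L0 _ _) c3 (by positivity) ?_⟩⟩)
        · rw [Fintype.mem_piFinset]
          intro i
          rw [mem_Ico]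
          fin_cases i <;> simp only [Fin.zero_eta, Fin.mk_one, Fin.reduceFinMk] <;> omega
        rw [Fin.prod_univ_three]
        have a0 := cast' (a := 1696) (b := 10000) (N := p.J₁) (n := m.removeNth jv 0) (by norm_num)
          (by omega)
        have a1 := cast' (a := 1696) (b := 10000) (N := p.J₁) (n := m.removeNth jv 1) (by norm_num)
          (by omega)
        have a2 := cast' (a := 1696) (b := 10000) (N := p.J₁) (n := m.removeNth jv 2) (by norm_num)
          (by omega)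
        have a3 := cast' (a := 3772) (b := 10000) (N := p.J₁) (n := jv m) (by norm_num) (by omega)
        refine le_trans ?_ (mul_le_mul a3 (mul_le_mul (mul_le_mul a0 a1 (by positivity)
          (by positivity)) a2 (by positivity) (by positivity)) (by positivity) (by positivity))
        push_cast
        nlinarith
      · obtain ⟨-, c0, c2, c1, c3⟩ := c
        rw [vm_sum, Fin.sum_univ_three] at c0 c1 c2
        have l0 := c1 _ (vm_mem _ 0)
        have l1 := c1 _ (vm_mem _ 1)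
        have l2 := c1 _ (vm_mem _ 2)
        refine Or.inr (Or.inr ⟨m, Or.inr ⟨mem_sl (by omega), dv jv m (L0 _ _) c3 (by positivity) ?_⟩⟩)
        rw [Fin.prod_univ_three]
        have a0 := cast' (a := 1222) (b := 10000) (N := p.J₁) (n := m.removeNth jv 0) (by norm_num)
          (by omega)
        have a1 := cast' (a := 1222) (b := 10000) (N := p.J₁) (n := m.removeNth jv 1) (by norm_num)
          (by omega)
        have a2 := cast' (a := 1222) (b := 10000) (N := p.J₁) (n := m.removeNth jv 2) (by norm_num)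
          (by omega)
        have a3 := cast' (a := 5834) (b := 10000) (N := p.J₁) (n := jv m) (by norm_num) (by omega)
        refine le_trans ?_ (mul_le_mul a3 (mul_le_mul (mul_le_mul a0 a1 (by positivity)
          (by positivity)) a2 (by positivity) (by positivity)) (by positivity) (by positivity))
        push_cast
        nlinarith
  · have a1 := cast (a := 760) (b := 10000) (N := p.J₁) (n := 5 * p.A - 2 * p.J₁) (by norm_num)
      (by omega)
    have a2 := cast (a := 14) (b := 10000) (N := p.J₁) (n := p.J₂ - p.J₁) (by norm_num) (by omega)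
    have a3 := cast (a := 2926) (b := 10000) (N := p.J₁) (n := p.G) (by norm_num) (by omega)
    have a4 : (#(sl p.A p.G (p.J₂ - p.J₁)) : ℝ) ≤ p.G * (p.G * (p.J₂ - p.J₁ : ℕ)) :=
      le_trans (Nat.cast_le.2 card_image_le) (by simp)
    have a5 := a4.trans (mul_le_mul a3 (mul_le_mul a3 a2 (by positivity) (by positivity))
      (by positivity) (by positivity))
    simp only [Fintype.card_piFinset, Nat.card_Ico, Nat.add_sub_cancel_left, prod_const, card_univ,
      Fintype.card_fin, mul_zero, zero_add, Nat.cast_pow]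
    refine (mul_le_mul_of_nonneg_left (add_le_add
      (mul_le_mul_of_nonneg_right (pow_le_pow_left₀ (by positivity) a1 3) (by positivity))
      (mul_le_mul_of_nonneg_right a5 (by positivity))) (by positivity)).trans ?_
    push_cast
    field_simp
    norm_num

end Loss

open Loss in
/-- The loss is smaller than the main term. -/
theorem loss {p : Fp} (h : p.OK) (J j₀ J' R : ℕ) (hJ : p.J₁ ≤ J) (hJ' : J ≤ p.J₂) :
    p.sv.ls j₀ J' R J ≤ 9 / 10 / J := by
  have h' := h
  obtain ⟨h1, h2, h3, h4, h5, h6⟩ := h'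
  have N0 : (0 : ℝ) < p.J₁ := by exact_mod_cast h1
  have J0 : (0 : ℝ) < J := by exact_mod_cast (show 0 < J by omega)
  have a1 := cast (a := 10014) (b := 10000) (N := p.J₁) (n := J) (by norm_num) (by omega)
  have e : ∀ r ∈ range (R + 1), (∑ jv ∈ (Fintype.piFinset fun _ : Fin r => Ico j₀ J') with
      ∑ i, jv i = J, p.L (vm jv) * ∏ i, 1 / (jv i : ℝ)) / r.factorial ≤
      (if r = 2 then 1 / 200 / (p.J₁ : ℝ) else 0) + (if r = 3 then 3 / 4 / (p.J₁ : ℝ) else 0) +
        (if r = 4 then 1 / 12 / (p.J₁ : ℝ) else 0) := by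
    intro r _
    have hX : ∀ jv ∈ {jv ∈ (Fintype.piFinset fun _ : Fin r => Ico j₀ J') | ∑ i, jv i = J},
        ∑ i, jv i = J := fun jv hj => (mem_filter.1 hj).2
    by_cases c2 : r = 2
    · subst c2
      refine (div_le_div_of_nonneg_right (S2 h hJ hJ' hX) (by positivity)).trans (le_of_eq ?_)
      simp [Nat.factorial]
      ring
    by_cases c3 : r = 3
    · subst c3
      refine (div_le_div_of_nonneg_right (S3 h hJ hJ' hX) (by positivity)).trans (le_of_eq ?_)
      simp [Nat.factorial]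
      ring
    by_cases c4 : r = 4
    · subst c4
      refine (div_le_div_of_nonneg_right (S4 h hJ hJ' hX) (by positivity)).trans (le_of_eq ?_)
      simp [Nat.factorial]
      ring
    rw [if_neg c2, if_neg c3, if_neg c4, sum_eq_zero, zero_div]
    · norm_num
    intro jv hj
    have s := hX jv hj
    have k := vm_card jv
    rcases reg h (M := vm jv) (hJ.trans s.ge) (s.le.trans hJ') with
      c | c | ⟨a, O, e, c⟩
    · rw [c, zero_mul]
    · omega
    · rw [e, Multiset.card_cons] at k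
      omega
  refine le_trans (sum_le_sum e) ?_
  simp only [sum_add_distrib, sum_ite_eq']
  have b : 1 / 200 / (p.J₁ : ℝ) + 3 / 4 / (p.J₁ : ℝ) + 1 / 12 / (p.J₁ : ℝ) ≤ 9 / 10 / J := by
    rw [← add_div, ← add_div, div_le_div_iff₀ N0 J0]
    push_cast at a1
    linarith
  refine le_trans ?_ b
  gcongr <;> split_ifs <;> first | rfl | positivity

end

end Pool.Agent.Lib.MP_f6c7cf_nt.FO
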