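import Pool.Agent.Lib.MP_f6c7cf_nt.FO.Main
import Pool.Agent.Lib.MP_f6c7cf_nt.FO.Loss

/-!
Primes with few binary ones: the certificate.
-/

namespace Pool.Agent.Lib.MP_f6c7cf_nt.FO

theorem cert : CertSt := by
  refine ⟨1 / 10, 1, 1, by norm_num, fun h Δ h1 h2 => ?_⟩
  have ok : Fp.OK ⟨4150 * h, 2923 * h, 10000 * h, 10000 * h + Δ⟩ := by
    simp only [Fp.OK]
    omega
  refine ⟨Fp.yy ⟨4150 * h, 2923 * h, 10000 * h, 10000 * h + Δ⟩, (wt ok).1, (wt ok).2,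
    fun J j₀ J' R h3 h4 _ => (loss ok J j₀ J' R h3 h4).trans (le_of_eq (by norm_num))⟩

end Pool.Agent.Lib.MP_f6c7cf_nt.FO
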