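import Pool.Agent.Lib.MP_f6c7cf_nt.FO.St

/-!
The sums over all sets of primes agree.
-/

namespace Pool.Agent.Lib.MP_f6c7cf_nt.FO

open Finset Filter Topology Polynomial
open scoped Classical ComplexConjugate

noncomputable section

namespace Co

theorem tend {j : ℕ} (hj : 1 ≤ j) : Tendsto (fun y : ℝ => y ^ j) atTop atTop :=
  tendsto_pow_atTop (by omega)

theorem small {j : ℕ} (hj : 1 ≤ j) :
    Tendsto (fun y : ℝ => (y ^ j) ^ (-(1 / 4) : ℝ)) atTop (𝓝 0) :=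
  (tendsto_rpow_neg_atTop (by norm_num : (0 : ℝ) < 1 / 4)).comp (tend hj)

theorem pw {y : ℝ} (hy : 1 ≤ y) {j c g a : ℕ} (h : c * j + g ≤ a) :
    (y ^ j) ^ c * y ^ g ≤ y ^ a := by
  rw [← pow_mul, ← pow_add, mul_comm j]
  exact pow_le_pow_right₀ hy h

end Co

open Co in
theorem coG (h1 : TIG) (h2 : IDG) (h3 : NNSt) (h4 : UBSt) : CoG := by
  obtain ⟨C1, p1, k1⟩ := h1
  obtain ⟨c, C4, p4, k4⟩ := h4
  refine ⟨c + 1, C1 + 200 * (1 + 8 * C4), by positivity,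
    fun Cl p η ε j₀ R g hC hp hη hε hj hR hg hv => ?_⟩
  have R1 : 1 ≤ R := by
    rcases R with _ | R
    · omega
    · omega
  obtain ⟨q1, q4, -⟩ := id hp
  rw [add_mul] at hg
  have j0 : (0 : ℝ) < j₀ := by exact_mod_cast hj
  have R0 : (1 : ℝ) ≤ R := by exact_mod_cast R1
  filter_upwards [k1 Cl p η ε j₀ R hC.1 hp hη hε hj hR hv, (tend hj).eventually (h3 R),
    (small hj).eventually_le_const (div_pos (one_pos.trans_le R0) j0),
    eventually_ge_atTop (3 : ℝ)] with y e1 e2 e4 e5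
  have y1 : 1 ≤ y := by linarith
  have l1 : 1 ≤ Real.log y := (Real.le_log_iff_exp_le (by linarith)).2
    (Real.exp_one_lt_d9.le.trans (by linarith))
  have z2 : 2 ≤ y ^ j₀ := (show (2 : ℝ) ≤ y by linarith).trans (le_self_pow₀ y1 (by omega))
  have up : ∀ b : ℕ, b ≤ R * j₀ → y ^ b ≤ (y ^ j₀) ^ R := fun b hb => by
    rw [← pow_mul, mul_comm]
    exact pow_le_pow_right₀ y1 hb
  have key : ∀ ω, Cl y ω → |p.TI y j₀ R ω - p.sc y j₀ ω p.T| ≤
      100 * 2 ^ R * ((1 + 8 * C4) * R / j₀) := fun ω hω => by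
    have hL := hC.2 y ω y1 hω
    have lb : ∀ a b : ℕ, c * j₀ + g ≤ a → a ≤ b → b ≤ a + (2 * R + 1) →
        lay (y ^ j₀) ω (y ^ a) (y ^ b) ≤ 4 * C4 * R / j₀ := fun a b f1 f2 f3 => by
      refine (k4 (y ^ j₀) (y ^ g) ω _ _ z2 hL (pw y1 f1) (pow_le_pow_right₀ y1 f2)).trans ?_
      have f5 : (b : ℝ) ≤ a + (2 * R + 1) := by exact_mod_cast f3
      rw [Real.log_div (by positivity) (by positivity), Real.log_pow, Real.log_pow, Real.log_pow,
        div_le_div_iff₀ (by positivity) j0]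
      have f6 : 1 + (b * Real.log y - a * Real.log y) ≤ 4 * R * Real.log y := by nlinarith
      nlinarith [mul_le_mul_of_nonneg_left f6 (mul_pos p4 j0).le]
    have f0 := pw (j := j₀) (c := 1) (g := g) (a := p.J₁ - 1) y1 (by omega)
    rw [pow_one] at f0
    have f1 := (e2 (y ^ g) ω _ _ hL f0 (up _ hR)).trans e4
    have f2 := lb (p.J₁ - 1) (p.J₁ + R) (by omega) (by omega) (by omega)
    have f3 := lb p.J₂ (p.J₂ + 2 * R + 1) (by omega) (by omega) (by omega)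
    refine (h2 p y j₀ R ω hL.1 hp e5 hj hR).trans (mul_le_mul_of_nonneg_left
      ((add_le_add (add_le_add f1 f2) f3).trans (le_of_eq (by ring))) (by positivity))
  intro ω hω
  have a1 := abs_le.1 (e1 ω hω)
  have a2 := abs_le.1 (key ω hω)
  have a3 := abs_le.1 (key w0 (hC.1 y))
  have q6 : (p.J₁ : ℝ) ≤ p.J₂ := by exact_mod_cast q4
  have b1 : 0 ≤ η * R * ((p.J₂ : ℝ) - p.J₁ + R + 2) / j₀ :=
    div_nonneg (mul_nonneg (by positivity) (by linarith)) (by positivity)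
  have b2 : 0 ≤ 2 ^ R * (R : ℝ) / j₀ := by positivity
  simp only [mul_assoc, mul_div_assoc] at *
  generalize η * (R * (((p.J₂ : ℝ) - p.J₁ + R + 2) / j₀)) = u at *
  have b3 : (2 : ℝ) ^ R * ((1 + 8 * C4) * (R / j₀)) = (1 + 8 * C4) * (2 ^ R * (R / j₀)) := by ring
  rw [b3] at a2 a3
  generalize 2 ^ R * ((R : ℝ) / j₀) = v at *
  have b4 := mul_nonneg p1.le b1
  have b5 := mul_nonneg p4.le b1
  have b6 := mul_nonneg p1.le b2
  have b7 := mul_nonneg p4.le b2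
  exact abs_le.2 ⟨by nlinarith, by nlinarith⟩

end

end Pool.Agent.Lib.MP_f6c7cf_nt.FO
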