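import Pool.Agent.Lib.MP_f6c7cf_nt.FO.Sp0

/-!
Binary digit sums and the laws of blocks of digits.
-/

namespace Pool.Agent.Lib.MP_f6c7cf_nt.FO.Sp0

open Finset Polynomial
open scoped Classical

noncomputable section

/-- the binary digit sum -/
def s2 (n : ℕ) : ℕ := (Nat.digits 2 n).sum

theorem s2_zero : s2 0 = 0 := by simp [s2]

theorem s2_one : s2 1 = 1 := by simp [s2]

theorem s2_rec (n : ℕ) : s2 n = n % 2 + s2 (n / 2) := by
  rcases Nat.eq_zero_or_pos n with rfl | h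
  · simp [s2]
  · rw [s2, Nat.digits_def' (by norm_num) h, List.sum_cons, s2]

theorem s2_place (k a b : ℕ) (h : a < 2 ^ k) : s2 (a + 2 ^ k * b) = s2 a + s2 b := by
  induction k generalizing a with
  | zero =>
    obtain rfl : a = 0 := by simpa using h
    simp [s2_zero]
  | succ k ih =>
    have e : 2 ^ (k + 1) * b = 2 * (2 ^ k * b) := by ring
    rw [pow_succ] at h
    rw [s2_rec, s2_rec a, e, Nat.add_mul_mod_self_left, Nat.add_mul_div_left _ _ two_pos,
      ih _ (by omega), add_assoc]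

theorem gen {R : Type*} [CommSemiring R] (x : R) (b : ℕ) :
    ∑ c ∈ range (2 ^ b), x ^ s2 c = (1 + x) ^ b := by
  induction b with
  | zero => simp [s2_zero]
  | succ b ih =>
    rw [pow_succ, mul_two, sum_range_add, ih, pow_succ, mul_add, mul_one, ← ih, sum_mul]
    congr 1
    refine sum_congr rfl fun c hc => ?_
    have := s2_place b c 1 (mem_range.1 hc)
    rw [mul_one, s2_one] at this
    rw [add_comm, this, pow_succ]

theorem card_s2 (b κ : ℕ) : #{c ∈ range (2 ^ b) | s2 c = κ} = b.choose κ := by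
  have := congrArg (fun P : ℕ[X] => P.coeff κ) (gen (X : ℕ[X]) b)
  simp only [finsetSum_coeff, coeff_X_pow, coeff_one_add_X_pow, Nat.cast_id] at this
  rw [← this, card_filter]
  exact sum_congr rfl fun c _ => if_congr eq_comm rfl rfl

/-- few numbers have many ones -/
theorem heavy (m : ℕ) (x T : ℝ) (hx : 1 ≤ x) :
    (#{u ∈ range (2 ^ m) | T ≤ s2 u} : ℝ) * x ^ T ≤ (1 + x) ^ m := by
  rw [← gen x m, ← nsmul_eq_mul]
  refine (card_nsmul_le_sum _ (fun c => x ^ s2 c) _ fun u hu => ?_).trans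
    (sum_le_sum_of_subset_of_nonneg (filter_subset _ _) fun _ _ _ => by positivity)
  rw [← Real.rpow_natCast]
  exact Real.rpow_le_rpow_of_exponent_le hx (mem_filter.1 hu).2

/-- the law of one block -/
def blk (b κ : ℕ) : ℝ[X] :=
  ∑ c ∈ range (2 ^ b) with s2 c = κ, monomial c (1 / (b.choose κ : ℝ))

theorem blk_coeff (b κ c : ℕ) :
    (blk b κ).coeff c = if c < 2 ^ b ∧ s2 c = κ then 1 / (b.choose κ : ℝ) else 0 := by
  simp only [blk, finsetSum_coeff, coeff_monomial, sum_ite_eq', mem_filter, mem_range]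

theorem blk_law {b κ : ℕ} (h : κ ≤ b) : Law (blk b κ) := by
  refine ⟨fun n => ?_, ?_⟩
  · rw [blk_coeff]
    split_ifs <;> positivity
  · have : (0 : ℝ) < b.choose κ := by exact_mod_cast Nat.choose_pos h
    simp only [blk, eval_finsetSum, eval_monomial, one_pow, mul_one, sum_const, card_s2,
      nsmul_eq_mul]
    field_simp

theorem blk_supp {b κ c : ℕ} (h : c ∈ (blk b κ).support) : c < 2 ^ b ∧ s2 c = κ := by
  by_contra n
  rw [mem_support_iff, blk_coeff, if_neg n] at h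
  exact h rfl

theorem blk_cm (b κ : ℕ) (a : ℤ) : cm (2 ^ b) (blk b κ) a ≤ 1 / (b.choose κ : ℝ) := by
  have a1 : #((blk b κ).support.filter fun y : ℕ => ((2 ^ b : ℕ) : ℤ) ∣ (y : ℤ) - a) ≤ 1 := by
    refine card_le_one.2 fun y hy z hz => ?_
    have e := dvd_sub (mem_filter.1 hy).2 (mem_filter.1 hz).2
    rw [sub_sub_sub_cancel_right, ← Nat.modEq_iff_dvd] at e
    exact (Nat.ModEq.eq_of_lt_of_lt e (blk_supp (mem_filter.1 hz).1).1
      (blk_supp (mem_filter.1 hy).1).1).symm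
  refine (sum_le_card_nsmul _ _ (1 / (b.choose κ : ℝ)) fun y _ => ?_).trans ?_
  · rw [blk_coeff]
    split_ifs
    · exact le_rfl
    · positivity
  · rw [nsmul_eq_mul]
    exact mul_le_of_le_one_left (by positivity) (by exact_mod_cast a1)

theorem s2_ones (k : ℕ) : s2 (2 ^ k - 1) = k := by
  induction k with
  | zero => simp [s2_zero]
  | succ k ih =>
    have : 0 < 2 ^ k := by positivity
    rw [s2_rec, pow_succ, show (2 ^ k * 2 - 1) % 2 = 1 by omega,
      show (2 ^ k * 2 - 1) / 2 = 2 ^ k - 1 by omega, ih, add_comm]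

theorem blk_mix {b κ : ℕ} (h1 : 1 ≤ κ) (h : κ < b) :
    ∃ l : ℕ, 0 < l ∧ ∀ a, cm (2 ^ b) (blk b κ ^ l) a ≤ 2 / (2 ^ b : ℕ) := by
  obtain ⟨k, rfl⟩ : ∃ k, κ = k + 1 := ⟨κ - 1, by omega⟩
  have c0 : (0 : ℝ) < 1 / (b.choose (k + 1) : ℝ) := by
    have : (0 : ℝ) < b.choose (k + 1) := by exact_mod_cast Nat.choose_pos h.le
    positivity
  have p0 : 0 < 2 ^ k := by positivity
  have p1 : 2 ^ (k + 2) ≤ 2 ^ b := Nat.pow_le_pow_right two_pos h
  rw [pow_add] at p1
  refine mix (c := 1 + 2 ^ 2 * (2 ^ k - 1)) (by positivity) (blk_law h.le) ?_ ?_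
  · rwa [blk_coeff, if_pos ⟨by omega, by rw [s2_place 2 1 _ (by norm_num), s2_one, s2_ones, add_comm]⟩]
  · rwa [blk_coeff, if_pos ⟨by omega, by
      rw [show 1 + 2 ^ 2 * (2 ^ k - 1) + 1 = 2 + 2 ^ 2 * (2 ^ k - 1) by ring,
        s2_place 2 2 _ (by norm_num), s2_ones, s2_rec 2, s2_one, add_comm]⟩]

theorem supp_places (b κ N : ℕ) (y : ℕ)
    (hy : y ∈ (∏ j ∈ range N, expand ℝ ((2 ^ b) ^ j) (blk b κ)).support) :
    y < (2 ^ b) ^ N ∧ s2 y = κ * N := by
  induction N generalizing y with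
  | zero =>
    have : y = 0 := by
      by_contra n
      simp [coeff_one, n] at hy
    simp [this, s2_zero]
  | succ N ih =>
    rw [prod_range_succ, mem_support_iff, coeff_mul] at hy
    obtain ⟨x, hx, h0⟩ := exists_ne_zero_of_sum_ne_zero hy
    have e : x.1 + x.2 = y := HasAntidiagonal.mem_antidiagonal.1 hx
    obtain ⟨a1, a2⟩ := ih x.1 (mem_support_iff.2 (left_ne_zero_of_mul h0))
    have b1 := right_ne_zero_of_mul h0
    rw [coeff_expand (by positivity)] at b1
    split_ifs at b1 with d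
    · obtain ⟨c, hc⟩ := d
      rw [hc, Nat.mul_div_cancel_left _ (by positivity)] at b1
      obtain ⟨c1, c2⟩ := blk_supp (mem_support_iff.2 b1)
      rw [← e, hc]
      refine ⟨?_, ?_⟩
      · rw [pow_succ]
        nlinarith
      · rw [← pow_mul] at a1 ⊢
        rw [s2_place _ _ _ a1, a2, c2, mul_add, mul_one]
    · exact absurd rfl b1

/-- the law of a group of `n` blocks -/
def grp (b κ n i : ℕ) : ℝ[X] := ∏ j ∈ range n, expand ℝ ((2 ^ b) ^ (i * n + j)) (blk b κ)

theorem grp_law {b κ : ℕ} (h : κ ≤ b) (n i : ℕ) : Law (grp b κ n i) :=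
  Law.prod _ _ fun _ _ => (blk_law h).expand (by positivity)

theorem prod_rng {M : Type*} [CommMonoid M] (f : ℕ → M) (n k : ℕ) :
    ∏ i ∈ range k, ∏ j ∈ range n, f (i * n + j) = ∏ j ∈ range (k * n), f j := by
  induction k with
  | zero => simp
  | succ k ih => rw [prod_range_succ, ih, add_mul, one_mul, prod_range_add]

theorem grp_supp (b κ n k y : ℕ) (hy : y ∈ (∏ i ∈ range k, grp b κ n i).support) :
    y < 2 ^ (b * (k * n)) ∧ s2 y = κ * (k * n) := by
  simp only [grp] at hy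
  rw [prod_rng fun j => expand ℝ ((2 ^ b) ^ j) (blk b κ)] at hy
  rw [pow_mul]
  exact supp_places b κ _ y hy

theorem grp_sp {b κ : ℕ} (h : κ ≤ b) (n k : ℕ) (T : Finset ℕ) (hT : T ⊆ range k) (a : ℤ) :
    cm (2 ^ (b * (k * n))) (∏ i ∈ T, grp b κ n i) a ≤ (1 / (b.choose κ : ℝ)) ^ (n * #T) := by
  have e : ∏ i ∈ T, grp b κ n i = ∏ i ∈ range k, expand ℝ (((2 ^ b) ^ n) ^ i)
      (if i ∈ T then ∏ j ∈ range n, expand ℝ ((2 ^ b) ^ j) (blk b κ) else 1) := by
    rw [← prod_subset hT fun i _ hi => by rw [if_neg hi, map_one]]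
    refine prod_congr rfl fun i hi => ?_
    rw [if_pos hi, map_prod, grp]
    refine prod_congr rfl fun j _ => ?_
    rw [expand_expand, ← pow_mul (2 ^ b), ← pow_add, mul_comm n]
  have := sp_places (m := (2 ^ b) ^ n) (by positivity) k
    (fun i => if i ∈ T then ∏ j ∈ range n, expand ℝ ((2 ^ b) ^ j) (blk b κ) else 1)
    (fun i => if i ∈ T then (1 / (b.choose κ : ℝ)) ^ n else 1) (fun i => by
      split_ifs
      · exact Law.prod _ _ fun _ _ => (blk_law h).expand (by positivity)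
      · exact Law.one) (fun i a => by
      split_ifs
      · simpa using sp_places (m := 2 ^ b) (by positivity) n (fun _ => blk b κ)
          (fun _ => 1 / (b.choose κ : ℝ)) (fun _ => blk_law h) (fun _ => blk_cm b κ) a
      · exact cm_le_one Law.one _ a) a
  rw [← e, ← pow_mul, ← pow_mul, prod_ite_mem, inter_eq_right.2 hT, prod_const, ← pow_mul,
    mul_comm n k] at this
  exact this

theorem grp_mix {b κ : ℕ} (h1 : 1 ≤ κ) (h : κ < b) : ∃ l : ℕ, 0 < l ∧ ∀ (n k : ℕ) (a : ℤ),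
    cm (2 ^ (b * (k * n))) ((∏ i ∈ range k, grp b κ n i) ^ l) a ≤ (2 / 2 ^ b) ^ (k * n) := by
  obtain ⟨l, l0, hl⟩ := blk_mix h1 h
  refine ⟨l, l0, fun n k a => ?_⟩
  simp only [grp]
  rw [prod_rng fun j => expand ℝ ((2 ^ b) ^ j) (blk b κ), ← prod_pow, pow_mul]
  simp only [← map_pow]
  simpa [div_pow] using sp_places (m := 2 ^ b) (by positivity) (k * n) (fun _ => blk b κ ^ l)
    (fun _ => 2 / (2 ^ b : ℕ)) (fun _ => (blk_law h.le).pow l) (fun _ => hl) a

end

end Pool.Agent.Lib.MP_f6c7cf_nt.FO.Sp0
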