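import Pool.Agent.Lib.MP_f6c7cf_nt.FO.Sp
import Pool.Agent.Lib.MP_f6c7cf_nt.FO.Dig0

/-!
The laws exist.
-/

namespace Pool.Agent.Lib.MP_f6c7cf_nt.FO

open Finset Polynomial

namespace Dig

theorem gen (b κ k m u v : ℕ) (H δ : ℝ) (huv : u * κ ≤ v * b) (h1 : 1 ≤ κ) (h : κ < b) (hk : 0 < k)
    (hm : 2 ^ m ≤ b.choose κ) (hH : H * b = m) (hδ : 1 ≤ δ * b) :
    ∃ l : ℕ, ∀ n : ℕ, ∃ (t : ℕ) (F : Fin k → ℝ[X]), n ≤ t ∧ Ok k l H δ t F ∧
      ∀ y ∈ (∏ i, F i).support, y < 2 ^ t ∧ u * s2 y ≤ v * t := by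
  obtain ⟨l, -, hl⟩ := Sp0.grp_mix h1 h
  refine ⟨l, fun n => ⟨b * (k * n), fun i => Sp0.grp b κ n i,
    (Nat.le_mul_of_pos_left n hk).trans (Nat.le_mul_of_pos_left _ (by omega)),
    ⟨fun i => Sp0.grp_law h.le n i, fun T => ?_, ?_⟩, ?_⟩⟩
  · rw [SpA.sp_iff]
    intro a
    have := Sp0.grp_sp h.le n k (T.map Fin.valEmbedding) (fun i hi => by
      obtain ⟨j, -, rfl⟩ := mem_map.1 hi
      exact mem_range.2 j.2) a
    rw [prod_map, card_map] at this
    refine this.trans ?_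
    have k0 : (k : ℝ) ≠ 0 := by positivity
    have e : H * (b * (k * n) : ℕ) * #T / k = (m * (n * #T) : ℕ) := by
      push_cast
      rw [← hH]
      field_simp
    rw [e, Real.rpow_neg zero_le_two, Real.rpow_natCast, pow_mul (2 : ℝ), ← inv_pow, one_div]
    have : (2 : ℝ) ^ m ≤ b.choose κ := by exact_mod_cast hm
    gcongr
  · rw [SpA.sp_iff, Fin.prod_univ_eq_prod_range (fun i => Sp0.grp b κ n i)]
    intro a
    refine (hl n k a).trans ?_
    have e : ((2 : ℝ) / 2 ^ b) ^ (k * n) = 2 ^ ((1 - (b : ℝ)) * (k * n : ℕ)) := by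
      rw [Real.rpow_mul zero_le_two, Real.rpow_natCast, Real.rpow_sub two_pos, Real.rpow_one,
        Real.rpow_natCast]
    rw [e]
    refine Real.rpow_le_rpow_of_exponent_le one_le_two ?_
    rw [Nat.cast_mul b, ← mul_assoc]
    exact mul_le_mul_of_nonneg_right (by linarith) (Nat.cast_nonneg _)
  · rw [Fin.prod_univ_eq_prod_range (fun i => Sp0.grp b κ n i)]
    intro y hy
    obtain ⟨c, d⟩ := Sp0.grp_supp b κ n k y hy
    refine ⟨c, ?_⟩
    rw [show s2 y = κ * (k * n) from d, ← mul_assoc, ← mul_assoc v]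
    exact Nat.mul_le_mul_right _ huv

end Dig

theorem dig (_hB : Bas) (h1 : BlkSt) (_h2 : UniSt) (_h3 : SpSt) : DigSt :=
  Dig.gen 20000 2780 1000 11618 1000 139 (5809 / 10000) (1 / 10000) (by norm_num) (by norm_num)
    (by norm_num) (by norm_num) h1.2.2 (by norm_num) (by norm_num)

end Pool.Agent.Lib.MP_f6c7cf_nt.FO
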