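import Pool.Agent.Lib.MP_f6c7cf_nt.FO.St

/-!
One arbitrary factor: the Cauchy-Schwarz inequality and the two mean values.
-/

namespace Pool.Agent.Lib.MP_f6c7cf_nt.FO

open Finset Filter Topology Polynomial
open Pool.Agent.Lib.MP_9d27bc_nt.C (pr Rough)
open Pool.Agent.Lib.MP_4b1228_nt.GS (vm)
open scoped Classical ComplexConjugate

noncomputable section

namespace E

lemma logb (A : ℕ) (w : ℝ) (hw : 1 ≤ w) :
    (1 + 2 * A * Real.log w) ^ 8 ≤ (1 + 16 * (A : ℝ)) ^ 8 * w := by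
  have h0 : (0 : ℝ) ≤ w := by linarith
  have h1 : Real.log w ≤ w ^ (1 / 8 : ℝ) / (1 / 8) := Real.log_le_rpow_div h0 (by norm_num)
  have h2 : 1 ≤ w ^ (1 / 8 : ℝ) := Real.one_le_rpow hw (by norm_num)
  have hA : (0 : ℝ) ≤ A := Nat.cast_nonneg A
  have hl : 0 ≤ Real.log w := Real.log_nonneg hw
  have h3 : 1 + 2 * A * Real.log w ≤ (1 + 16 * (A : ℝ)) * w ^ (1 / 8 : ℝ) := by
    have : Real.log w ≤ 8 * w ^ (1 / 8 : ℝ) := by linarith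
    nlinarith [mul_le_mul_of_nonneg_left this hA]
  have h4 : (w ^ (1 / 8 : ℝ)) ^ 8 = w := by
    rw [← Real.rpow_natCast, ← Real.rpow_mul h0]; norm_num
  calc (1 + 2 * A * Real.log w) ^ 8 ≤ ((1 + 16 * (A : ℝ)) * w ^ (1 / 8 : ℝ)) ^ 8 :=
        pow_le_pow_left₀ (by positivity) h3 8
    _ = (1 + 16 * (A : ℝ)) ^ 8 * w := by rw [mul_pow, h4]

lemma row (W q π P Y : ℝ) (hW : 0 < W) (hP : 0 < P) (hY : 0 < Y) (h : Row W q π P Y) :
    (1 + q * 1 / Y) * (q / P ^ 2 + q * π / P) ≤ 4 / W := by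
  obtain ⟨h1, h2, h3, h4⟩ := h
  have e1 : q / P ^ 2 ≤ 1 / W := by
    rw [div_le_div_iff₀ (by positivity) hW]; linarith
  have e2 : q * π / P ≤ 1 / W := by
    rw [div_le_div_iff₀ hP hW]; linarith
  have e3 : q ^ 2 / (P ^ 2 * Y) ≤ 1 / W := by
    rw [div_le_div_iff₀ (by positivity) hW]; linarith
  have e4 : q * (q * π) / (P * Y) ≤ 1 / W := by
    rw [div_le_div_iff₀ (by positivity) hW]; linarith
  have e : (1 + q * 1 / Y) * (q / P ^ 2 + q * π / P) =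
      q / P ^ 2 + q * π / P + q ^ 2 / (P ^ 2 * Y) + q * (q * π) / (P * Y) := by
    field_simp
    ring
  have e' : 4 / W = 1 / W + 1 / W + 1 / W + 1 / W := by ring
  rw [e, e']
  linarith

lemma tle (A t : ℕ) (w : ℝ) (hw : 1 ≤ w) (h : ((qq t : ℕ) : ℝ) ≤ w ^ (2 * A)) :
    (t : ℝ) + 1 ≤ 1 + 2 * A * Real.log w := by
  have h1 : ((qq t : ℕ) : ℝ) = (4 : ℝ) ^ t := by
    simp only [qq]; push_cast; rw [pow_mul]; norm_num
  rw [h1] at h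
  have h2 := Real.log_le_log (by positivity) h
  rw [Real.log_pow, Real.log_pow] at h2
  have h3 : 1 ≤ Real.log 4 := by
    have : Real.log 4 = 2 * Real.log 2 := by
      rw [show (4 : ℝ) = 2 ^ 2 by norm_num, Real.log_pow]; norm_num
    have := Real.log_two_gt_d9
    linarith
  have h4 : (0 : ℝ) ≤ t := Nat.cast_nonneg t
  push_cast at h2
  nlinarith

end E

theorem ea (hB : Bas) (h1 : MSt) (h2 : RSt) : ESt := by
  obtain ⟨C₁, hC₁, h1⟩ := h1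
  obtain ⟨C₂, hC₂, h2⟩ := h2
  intro A B
  filter_upwards [eventually_ge_atTop (1 : ℝ),
    eventually_ge_atTop (4 * C₁ * C₂ * (B : ℝ) ^ 2 * (1 + 16 * (A : ℝ)) ^ 8)] with w hw hwK
  intro ι S v t F π P₁ P₂ Y hM hY hv ht hF hπ hP hPP hP2 hR
  have hw0 : 0 < w := by linarith
  rcases S.eq_empty_or_nonempty with rfl | ⟨i, hi⟩
  · simp only [hat, sum_empty, norm_zero, mul_zero, zero_mul, sum_const_zero]
    positivity
  have hYw : Y ≤ w ^ A := (hv i hi).1.trans (hv i hi).2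
  have a1 := h1 ι S v B t 1 1 Y (w ^ A) hM ht hB.prob_one (hB.sp_one t 1 hB.prob_one) hY hYw hv
  have a2 := h2 t F π P₁ P₂ ht hF hπ hP hPP
  simp only [hB.WW_one, norm_one, one_pow, one_mul] at a1
  set L : ℝ := 1 + 2 * A * Real.log w with hL
  have hl : 0 ≤ Real.log w := Real.log_nonneg hw
  have hA : (0 : ℝ) ≤ A := Nat.cast_nonneg A
  have hq : ((qq t : ℕ) : ℝ) ≤ w ^ (2 * A) := by
    have b1 := hR.1
    have b2 : P₁ ^ 2 ≤ (w ^ A) ^ 2 := pow_le_pow_left₀ (by linarith) (hPP.trans hP2) 2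
    have b3 : (1 : ℝ) ≤ w ^ 12 := one_le_pow₀ hw
    have b4 : (0 : ℝ) ≤ ((qq t : ℕ) : ℝ) := Nat.cast_nonneg _
    rw [← pow_mul, mul_comm A 2] at b2
    nlinarith
  have ht1 : (t : ℝ) + 1 ≤ L := E.tle A t w hw hq
  have hl1 : 1 + Real.log (w ^ A) ≤ L := by
    rw [Real.log_pow, hL]; nlinarith
  have hl2 : 1 + Real.log P₂ ≤ L :=
    le_trans (by have := Real.log_le_log (by linarith) hP2; linarith) hl1
  have hl1' : 0 ≤ 1 + Real.log (w ^ A) := by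
    have := Real.log_nonneg (one_le_pow₀ hw : 1 ≤ w ^ A); linarith
  have hl2' : 0 ≤ 1 + Real.log P₂ := by
    have := Real.log_nonneg (hP.trans hPP); linarith
  have ht0 : (0 : ℝ) ≤ (t : ℝ) + 1 := by positivity
  have hL0 : 0 ≤ L := ht0.trans ht1
  have hπ0 : 0 ≤ π := by
    have := hB.sp_ge t F π hF hπ
    by_contra hc
    have : (2 : ℝ) ^ t * π < 0 := mul_neg_of_pos_of_neg (by positivity) (not_le.mp hc)
    linarith
  set X₁ : ℝ := 1 + (qq t : ℕ) * 1 / Y with hX₁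
  set X₂ : ℝ := (qq t : ℕ) / P₁ ^ 2 + (qq t : ℕ) * π / P₁ with hX₂
  have hX1 : 0 ≤ X₁ := by rw [hX₁]; positivity
  have hX2 : 0 ≤ X₂ := by rw [hX₂]; positivity
  have hX : X₁ * X₂ ≤ 4 / w ^ 12 :=
    E.row (w ^ 12) _ π P₁ Y (by positivity) (by linarith) (by linarith) hR
  have c1 : ∑ χ ∈ nz t, ‖hat S v χ‖ ^ 2 ≤ C₁ * (B : ℝ) ^ 2 * L * L ^ 2 * X₁ := by
    refine le_trans (sum_le_sum_of_subset_of_nonneg (subset_univ _) fun _ _ _ => by positivity)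
      (a1.trans ?_)
    gcongr
  have c2 : ∑ χ ∈ nz t, (‖WW F χ‖ * ‖sm χ P₁ P₂‖) ^ 2 ≤ C₂ * L ^ 3 * L ^ 2 * X₂ := by
    simp only [mul_pow]
    refine a2.trans ?_
    gcongr
  have cs := sum_mul_sq_le_sq_mul_sq (nz t) (fun χ => ‖hat S v χ‖)
    (fun χ => ‖WW F χ‖ * ‖sm χ P₁ P₂‖)
  have c3 : (∑ χ ∈ nz t, ‖WW F χ‖ * ‖hat S v χ‖ * ‖sm χ P₁ P₂‖) ^ 2 ≤ (1 / w ^ 5) ^ 2 := by
    have e : ∑ χ ∈ nz t, ‖WW F χ‖ * ‖hat S v χ‖ * ‖sm χ P₁ P₂‖ =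
        ∑ χ ∈ nz t, ‖hat S v χ‖ * (‖WW F χ‖ * ‖sm χ P₁ P₂‖) :=
      sum_congr rfl fun _ _ => by ring
    rw [e]
    refine cs.trans ?_
    have hL8 : L ^ 8 ≤ (1 + 16 * (A : ℝ)) ^ 8 * w := E.logb A w hw
    calc (∑ χ ∈ nz t, ‖hat S v χ‖ ^ 2) * ∑ χ ∈ nz t, (‖WW F χ‖ * ‖sm χ P₁ P₂‖) ^ 2
        ≤ (C₁ * (B : ℝ) ^ 2 * L * L ^ 2 * X₁) * (C₂ * L ^ 3 * L ^ 2 * X₂) :=
          mul_le_mul c1 c2 (sum_nonneg fun _ _ => by positivity) (by positivity)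
      _ = C₁ * C₂ * (B : ℝ) ^ 2 * L ^ 8 * (X₁ * X₂) := by ring
      _ ≤ C₁ * C₂ * (B : ℝ) ^ 2 * ((1 + 16 * (A : ℝ)) ^ 8 * w) * (4 / w ^ 12) := by gcongr
      _ = (4 * C₁ * C₂ * (B : ℝ) ^ 2 * (1 + 16 * (A : ℝ)) ^ 8) * (w / w ^ 12) := by ring
      _ ≤ w * (w / w ^ 12) := by gcongr
      _ = (1 / w ^ 5) ^ 2 := by field_simp
  exact (pow_le_pow_iff_left₀ (sum_nonneg fun _ _ => by positivity) (by positivity)
    two_ne_zero).mp c3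

end

end Pool.Agent.Lib.MP_f6c7cf_nt.FO
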