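import Pool.Agent.Lib.MP_f6c7cf_nt.FO.St

/-!
The end: from the weight of the primes to primes with few ones.
-/

namespace Pool.Agent.Lib.MP_f6c7cf_nt.FO

open Finset Filter Topology Polynomial
open Pool.Agent.Lib.MP_9d27bc_nt.C (pr Rough)
open Pool.Agent.Lib.MP_4b1228_nt.GS (vm)
open scoped Classical ComplexConjugate

namespace End

/-- the numbers with the same upper part weigh little -/
theorem fib (hB : Bas) (t u : ℕ) (F : ℝ[X]) (hF : Prob F) (S : Finset ℕ)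
    (hS : ∀ n ∈ S, n / qq t = u ∧ 1 ≤ u) : ∑ n ∈ S, ww t F n ≤ 1 / (u : ℝ) := by
  have hq : 0 < qq t := by positivity
  have h1 : ∀ n ∈ S, ww t F n ≤
      (∑ y ∈ F.support with 1 + 2 ^ t * y ≡ n [MOD qq t], F.coeff y) * (1 / (u : ℝ)) := by
    intro n hn
    obtain ⟨h2, h3⟩ := hS n hn
    have h4 : qq t * u ≤ n := by rw [← h2]; exact Nat.mul_div_le n _
    have h5 : (Nat.totient (qq t) : ℝ) ≤ (qq t : ℕ) := by exact_mod_cast Nat.totient_le _
    have h6 : ((qq t : ℕ) : ℝ) * u ≤ n := by exact_mod_cast h4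
    have h7 : (0 : ℝ) < u := by exact_mod_cast h3
    have h8 : (0 : ℝ) < (qq t : ℕ) := by exact_mod_cast hq
    have h9 : (0 : ℝ) < n := lt_of_lt_of_le (mul_pos h8 h7) h6
    have h10 : 0 ≤ ∑ y ∈ F.support with 1 + 2 ^ t * y ≡ n [MOD qq t], F.coeff y :=
      sum_nonneg fun y _ => hF.1 y
    have h11 : (Nat.totient (qq t) : ℝ) / n ≤ 1 / u := by
      rw [div_le_div_iff₀ h9 h7]
      nlinarith
    unfold ww
    calc _ = (∑ y ∈ F.support with 1 + 2 ^ t * y ≡ n [MOD qq t], F.coeff y) *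
          ((Nat.totient (qq t) : ℝ) / n) := by ring
      _ ≤ _ := mul_le_mul_of_nonneg_left h11 h10
  have h2 : ∑ n ∈ S, ∑ y ∈ F.support with 1 + 2 ^ t * y ≡ n [MOD qq t], F.coeff y ≤ 1 := by
    simp_rw [sum_filter]
    rw [sum_comm, ← hB.sum_coeff F hF]
    refine sum_le_sum fun y _ => ?_
    rw [← sum_filter, sum_const, nsmul_eq_mul]
    have h3 : #{n ∈ S | 1 + 2 ^ t * y ≡ n [MOD qq t]} ≤ 1 := by
      rw [card_le_one]
      intro a ha b hb
      rw [mem_filter] at ha hb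
      have h4 : a % qq t = b % qq t := (ha.2.symm.trans hb.2)
      rw [← Nat.div_add_mod a (qq t), ← Nat.div_add_mod b (qq t), (hS a ha.1).1, (hS b hb.1).1, h4]
    have h4 : (#{n ∈ S | 1 + 2 ^ t * y ≡ n [MOD qq t]} : ℝ) ≤ 1 := by exact_mod_cast h3
    nlinarith [hF.1 y]
  calc _ ≤ _ := sum_le_sum h1
    _ = (∑ n ∈ S, ∑ y ∈ F.support with 1 + 2 ^ t * y ≡ n [MOD qq t], F.coeff y) * (1 / (u : ℝ)) := by
      rw [sum_mul]
    _ ≤ 1 * (1 / (u : ℝ)) := mul_le_mul_of_nonneg_right h2 (by positivity)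
    _ = _ := one_mul _

/-- a number with a positive weight and a light upper part -/
theorem pick (hB : Bas) (t U : ℕ) (F : ℝ[X]) (hF : Prob F) (P : Finset ℕ) (H : ℕ → Prop) (c : ℝ)
    (hP : ∀ p ∈ P, U ≤ p / qq t ∧ 1 ≤ p / qq t)
    (hH : ∀ V : ℕ, ∑ u ∈ Ico U V with H u, 1 / (u : ℝ) < c) (hc : c ≤ ∑ p ∈ P, ww t F p) :
    ∃ p ∈ P, ¬H (p / qq t) ∧ ww t F p ≠ 0 := by
  by_contra h
  push Not at h
  have h1 : ∑ p ∈ P, ww t F p = ∑ p ∈ P with H (p / qq t), ww t F p := by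
    rw [sum_filter]
    refine sum_congr rfl fun p hp => ?_
    split_ifs with h2
    · rfl
    · exact h p hp h2
  have h2 : ∀ p ∈ ({p ∈ P | H (p / qq t)} : Finset ℕ),
      p / qq t ∈ ({u ∈ Ico U (P.sup id + 1) | H u} : Finset ℕ) := by
    intro p hp
    rw [mem_filter] at hp ⊢
    refine ⟨mem_Ico.2 ⟨(hP p hp.1).1, ?_⟩, hp.2⟩
    have h3 : p ≤ P.sup id := le_sup (f := id) hp.1
    have h4 : p / qq t ≤ p := Nat.div_le_self _ _
    omega
  rw [h1, ← sum_fiberwise_of_maps_to h2] at hc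
  refine absurd (hc.trans (sum_le_sum fun u _ => fib hB t u F hF _ fun n hn => ?_))
    (not_le.2 (hH (P.sup id + 1)))
  rw [mem_filter, mem_filter] at hn
  exact ⟨hn.2, hn.2 ▸ (hP n hn.1.1).2⟩

/-- the digits of a number with a positive weight -/
theorem dig (hB : Bas) (t p : ℕ) (F : ℝ[X]) (ht : 1 ≤ t) (hw : ww t F p ≠ 0)
    (hF : ∀ y ∈ F.support, y < 2 ^ t ∧ 1000 * s2 y ≤ 139 * t) :
    1000 * s2 p ≤ 1000 + 139 * t + 1000 * s2 (p / qq t) := by
  have h1 : ({y ∈ F.support | 1 + 2 ^ t * y ≡ p [MOD qq t]} : Finset ℕ).Nonempty := by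
    rw [nonempty_iff_ne_empty]
    intro h
    apply hw
    unfold ww
    rw [h]
    simp
  obtain ⟨y, hy⟩ := h1
  rw [mem_filter] at hy
  obtain ⟨h2, h3⟩ := hF y hy.1
  have h4 : 1 < 2 ^ t := Nat.one_lt_two_pow (by omega)
  have h5 : qq t = 2 ^ t * 2 ^ t := by rw [qq, two_mul, pow_add]
  have h6 : 1 + 2 ^ t * y < qq t := by
    rw [h5]
    have : 2 ^ t * (y + 1) ≤ 2 ^ t * 2 ^ t := Nat.mul_le_mul_left _ h2
    rw [mul_add, mul_one] at this
    omega
  have h7 : p % qq t = 1 + 2 ^ t * y := by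
    have := hy.2.symm
    unfold Nat.ModEq at this
    rw [this, Nat.mod_eq_of_lt h6]
  have h8 : p = (1 + 2 ^ t * y) + 2 ^ (2 * t) * (p / qq t) := by
    rw [← h7]; exact (Nat.mod_add_div p (qq t)).symm
  have h9 : s2 p = s2 (1 + 2 ^ t * y) + s2 (p / qq t) := by
    rw [← hB.s2_add (2 * t) _ _ h6, ← h8]
  have h10 : s2 1 = 1 := by simp [s2]
  rw [h9, hB.s2_add t 1 y h4, h10]
  omega

end End

open End in
theorem fin (hB : Bas) (hX : Box) (h1 : DigSt) (h2 : TailSt) (h3 : MainSt) : FinSt := by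
  obtain ⟨l, h1⟩ := h1
  obtain ⟨h, c, hh, hc, h3⟩ := h3 l
  obtain ⟨U, h2⟩ := h2 (1 / 10000) (c / 2) (by norm_num) (by positivity)
  obtain ⟨y0, h3⟩ := eventually_atTop.1 h3
  refine Set.infinite_of_forall_exists_gt fun a => ?_
  obtain ⟨t, F, ht, hO, hF⟩ := h1 (a + U + 10000 + 2920 * h * ⌈y0⌉₊)
  have hh' : (1 : ℝ) ≤ h := by exact_mod_cast hh
  have ht1 : 1 ≤ t := by omega
  have ht2 : (10000 : ℝ) ≤ t := by exact_mod_cast (by omega : 10000 ≤ t)
  set y : ℝ := 2 ^ ((t : ℝ) / (2920 * h)) with hy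
  have hy0 : 0 ≤ y := by positivity
  have hp : ∀ m : ℕ, y ^ (m * h) = 2 ^ ((m : ℝ) * t / 2920) := by
    intro m
    rw [hy, ← Real.rpow_natCast, ← Real.rpow_mul (by norm_num)]
    congr 1
    push_cast
    field_simp
  have hy1 : y0 ≤ y := by
    have e1 : ((2920 * h * ⌈y0⌉₊ : ℕ) : ℝ) ≤ t := by exact_mod_cast (by omega : 2920 * h * ⌈y0⌉₊ ≤ t)
    have e2 : ((⌈y0⌉₊ : ℕ) : ℝ) ≤ (t : ℝ) / (2920 * h) := by
      rw [le_div_iff₀ (by positivity)]
      push_cast at e1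
      linarith
    have e3 : ((⌈y0⌉₊ : ℕ) : ℝ) ≤ 2 ^ ((⌈y0⌉₊ : ℕ) : ℝ) := by
      rw [Real.rpow_natCast]
      exact_mod_cast (Nat.lt_two_pow_self).le
    exact (Nat.le_ceil y0).trans (e3.trans (Real.rpow_le_rpow_of_exponent_le (by norm_num) e2))
  have hq : ((qq t : ℕ) : ℝ) = 2 ^ ((2 : ℝ) * t) := by
    rw [qq]; push_cast
    rw [← Real.rpow_natCast]; push_cast; rfl
  have hq1 : ((qq t : ℕ) : ℝ) ≤ y ^ (5840 * h) := by
    rw [hp, hq]
    refine le_of_eq ?_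
    congr 1
    push_cast
    ring
  have hlow : ∀ p ∈ PP y (10000 * h) (10001 * h), 2 ^ (3 * t) ≤ p := by
    intro p hp'
    have e1 := ((hX.mem_PP y _ _ p hy0).1 hp').2.1
    rw [hp] at e1
    have e2 : (2 : ℝ) ^ ((3 * t : ℕ) : ℝ) ≤ 2 ^ (((10000 : ℕ) : ℝ) * t / 2920) :=
      Real.rpow_le_rpow_of_exponent_le (by norm_num) (by push_cast; linarith)
    rw [Real.rpow_natCast] at e2
    exact_mod_cast e2.trans e1.le
  have hu : ∀ p ∈ PP y (10000 * h) (10001 * h), t < p / qq t := by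
    intro p hp'
    refine lt_of_lt_of_le (Nat.lt_two_pow_self) ?_
    rw [Nat.le_div_iff_mul_le (by positivity), qq, ← pow_add]
    exact le_trans (le_of_eq (by congr 1; ring)) (hlow p hp')
  have hPr : Prob (∏ i, F i) := hB.prob_prod _ _ _ fun i _ => hO.1 i
  obtain ⟨p, hp1, hp2, hp3⟩ := pick hB t U _ hPr (PP y (10000 * h) (10001 * h))
    (fun u => (1 / 2 + 1 / 10000) * Real.logb 2 (u : ℕ) < s2 u) c
    (fun p hp' => by have := hu p hp'; omega)
    (fun V => lt_of_le_of_lt (by convert h2 V) (half_lt_self hc)) (h3 y hy1 t F ht1 hO hq1)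
  have e0 := (hX.mem_PP y _ _ p hy0).1 hp1
  have e1 := dig hB t p _ ht1 hp3 hF
  have e2 := hu p hp1
  have e3 : p / qq t ≤ p := Nat.div_le_self _ _
  refine ⟨p, ⟨e0.1, ?_⟩, by omega⟩
  have e4 : (0 : ℝ) < p := by exact_mod_cast e0.1.pos
  have e5 : (0 : ℝ) < (p / qq t : ℕ) := by exact_mod_cast (by omega : 0 < p / qq t)
  have e6 : Real.logb 2 p ≤ 10001 * t / 2920 := by
    rw [Real.logb_le_iff_le_rpow (by norm_num) e4]
    have := e0.2.2
    rw [hp] at this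
    exact_mod_cast this
  have e7 : 3 * (t : ℝ) ≤ Real.logb 2 p := by
    rw [Real.le_logb_iff_rpow_le (by norm_num) e4]
    have : (((2 ^ (3 * t) : ℕ)) : ℝ) ≤ p := by exact_mod_cast hlow p hp1
    push_cast at this
    rw [← Real.rpow_natCast] at this
    push_cast at this
    exact this
  have e8 : 2 * (t : ℝ) + Real.logb 2 (p / qq t : ℕ) ≤ Real.logb 2 p := by
    have e9 : ((qq t : ℕ) : ℝ) * (p / qq t : ℕ) ≤ p := by exact_mod_cast Nat.mul_div_le p (qq t)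
    have e10 : (0 : ℝ) < (qq t : ℕ) := by positivity
    have e11 := Real.logb_le_logb_of_le (b := 2) (by norm_num) (mul_pos e10 e5) e9
    rw [Real.logb_mul e10.ne' e5.ne', hq, Real.logb_rpow (by norm_num) (by norm_num)] at e11
    exact e11
  have e9 : (1000 : ℝ) * s2 p ≤ 1000 + 139 * t + 1000 * s2 (p / qq t) := by exact_mod_cast e1
  have e10 := not_lt.1 hp2
  change (s2 p : ℝ) ≤ _
  linarith

end Pool.Agent.Lib.MP_f6c7cf_nt.FO
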