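import Pool.Agent.Lib.MP_f6c7cf_nt.FO.St

/-! The good sets and the bad sets of primes, for general weights. -/

namespace Pool.Agent.Lib.MP_f6c7cf_nt.FO

open Finset Filter Topology Polynomial
open Pool.Agent.Lib.MP_9d27bc_nt.C (pr Rough)
open Pool.Agent.Lib.MP_4b1228_nt.GS (vm)
open scoped Classical ComplexConjugate

noncomputable section

namespace GdG

theorem T_abs {s : Sv} (hs : s.Wt) (M : Multiset ℕ) : |s.T M| ≤ 100 * 2 ^ M.card := by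
  have h := hs.2.2.2.1
  have a1 : (M.powerset.map s.yy).sum ≤ (M.powerset.map s.yy).card • (100 : ℝ) :=
    Multiset.sum_le_card_nsmul _ _ fun x hx => by
      obtain ⟨A, -, rfl⟩ := Multiset.mem_map.1 hx
      exact (abs_le.1 (h A)).2
  have a2 : (M.powerset.map s.yy).card • (-100 : ℝ) ≤ (M.powerset.map s.yy).sum :=
    Multiset.card_nsmul_le_sum fun x hx => by
      obtain ⟨A, -, rfl⟩ := Multiset.mem_map.1 hx
      exact (abs_le.1 (h A)).1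
  rw [Multiset.card_map, Multiset.card_powerset, nsmul_eq_mul] at a1 a2
  push_cast at a1 a2
  exact abs_le.2 ⟨by unfold Sv.T; linarith, by unfold Sv.T; linarith⟩

theorem T_one {s : Sv} (hs : s.Wt) {j : ℕ} (hj : s.J₁ ≤ j) : s.T {j} = 1 := by
  have e : ({j} : Multiset ℕ) = j ::ₘ 0 := rfl
  have e1 : s.yy {j} = 0 := hs.2.2.2.2.1 _ (by simpa using hj)
  rw [Sv.T, e, Multiset.powerset_cons]
  simp [hs.2.2.1, e1]

theorem split (hX : Box) (s : Sv) {y : ℝ} (hy : 1 < y) {j₀ : ℕ} (hj : 1 ≤ j₀) (ω : ℕ → ℝ)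
    (F : Multiset ℕ → ℝ) : s.sc y j₀ ω F = ∑ r ∈ range (s.J₂ + 1),
      ∑ S ∈ (PP y j₀ (s.J₂ + 1)).powerset with #S = r, (fun M : Multiset ℕ =>
        if s.J₁ ≤ M.sum ∧ M.sum ≤ s.J₂ then F M else 0) (im y S) * ω (∏ π ∈ S, π) := by
  rw [Sv.sc, ← sum_fiberwise_of_maps_to (t := range (s.J₂ + 1)) (g := fun S => #S) fun S hS => ?_]
  · refine sum_congr rfl fun r _ => ?_
    rw [filter_comm, sum_filter]
    exact sum_congr rfl fun S _ => by split_ifs <;> simp [*]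
  · obtain ⟨k1, -, k2⟩ := mem_filter.1 hS
    have := (hX.nm_set y j₀ _ S hy (mem_powerset.1 k1)).2.2.1
    have := Nat.le_mul_of_pos_left (#S) hj
    exact mem_range.2 (by omega)

theorem memP (hX : Box) {y : ℝ} (hy : 1 < y) {j J a b π : ℕ} (h : π ∈ PP y j J)
    (h1 : a ≤ ix y π) (h2 : ix y π < b) : π ∈ PP y a b :=
  hX.Bx_sub y a b _ hy h1 h2 (hX.ix_PP y j J π hy h).2.2

theorem bad (hX : Box) {s : Sv} (hs : s.Wt) {y : ℝ} (hy : 1 < y) (j₀ : ℕ) {ω : ℕ → ℝ}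
    (h0 : ∀ n, 0 ≤ ω n) :
    (s.sc y j₀ ω fun M => if s.G M then 0 else s.T M) ≤ ∑ π ∈ PP y s.J₁ (s.J₂ + 1), ω π := by
  have a1 : ∑ S ∈ {S ∈ (PP y j₀ (s.J₂ + 1)).powerset |
      s.J₁ ≤ (im y S).sum ∧ (im y S).sum ≤ s.J₂} with #S = 1, ω (∏ π ∈ S, π) ≤
        ∑ π ∈ PP y s.J₁ (s.J₂ + 1), ω π := by
    refine (sum_le_sum_of_subset_of_nonneg (t := (PP y s.J₁ (s.J₂ + 1)).image fun π => {π})
      (fun S hS => ?_) fun _ _ _ => h0 _).trans ((sum_image_le_of_nonneg fun _ _ => h0 _).trans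
        (by simp))
    obtain ⟨k1, k2⟩ := mem_filter.1 hS
    obtain ⟨π, rfl⟩ := card_eq_one.1 k2
    obtain ⟨k3, k4, k5⟩ := mem_filter.1 k1
    have e : (im y {π}).sum = ix y π := by simp [im]
    rw [e] at k4 k5
    exact mem_image.2 ⟨π, memP hX hy (mem_powerset.1 k3 (mem_singleton_self π)) k4 (by omega), rfl⟩
  refine le_trans ?_ a1
  rw [Sv.sc, sum_filter (fun S : Finset ℕ => #S = 1)]
  refine sum_le_sum fun S hS => ?_
  obtain ⟨-, k4, k5⟩ := mem_filter.1 hS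
  have e : (im y S).card = #S := by simp [im]
  rw [← e]
  generalize im y S = M at k4 k5
  have w1 := h0 (∏ π ∈ S, π)
  generalize ω (∏ π ∈ S, π) = w at w1
  by_cases g : s.G M
  · rw [if_pos g, zero_mul]
    split_ifs <;> simp [w1]
  rw [if_neg g]
  rcases Nat.lt_trichotomy M.card 1 with k | k | k
  · obtain rfl := Multiset.card_eq_zero.1 (Nat.lt_one_iff.1 k)
    rw [Multiset.sum_zero] at k4
    have o1 := hs.1
    omega
  · obtain ⟨j, rfl⟩ := Multiset.card_eq_one.1 k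
    rw [T_one hs (by simpa using k4)]
    simp
  · have := hs.2.2.2.2.2.2 M k4 k5 k g
    rw [if_neg k.ne']
    nlinarith

/-- large `y`, uniformly in the weight. -/
def fl (Cl : ℝ → (ℕ → ℝ) → Prop) : Filter (ℝ × (ℕ → ℝ)) :=
  comap Prod.fst atTop ⊓ 𝓟 {q | Cl q.1 q.2}

theorem ev {Cl : ℝ → (ℕ → ℝ) → Prop} {P : ℝ × (ℕ → ℝ) → Prop} : (∀ᶠ q in fl Cl, P q) ↔
    ∀ᶠ y : ℝ in atTop, ∀ ω, Cl y ω → P (y, ω) := by
  rw [fl, eventually_inf_principal, eventually_comap]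
  refine eventually_congr (Eventually.of_forall fun y => ⟨fun h ω a => h (y, ω) rfl a, ?_⟩)
  rintro h ⟨y', ω⟩ rfl k
  exact h ω k

theorem tz {Cl : ℝ → (ℕ → ℝ) → Prop} {f : ℝ × (ℕ → ℝ) → ℝ} : Tendsto f (fl Cl) (𝓝 0) ↔
    ∀ ε : ℝ, 0 < ε → ∀ᶠ y : ℝ in atTop, ∀ ω, Cl y ω → |f (y, ω)| ≤ ε := by
  rw [Metric.nhds_basis_closedBall.tendsto_right_iff]
  simp only [mem_closedBall_zero_iff, Real.norm_eq_abs, ev]

theorem nn (h3 : NNSt) {Cl : ℝ → (ℕ → ℝ) → Prop} {j₀ g a : ℕ} (hC : Cls Cl g) (b : ℕ)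
    (hj : 1 ≤ j₀) (ha : g + j₀ ≤ a) (ε : ℝ) (hε : 0 < ε) :
    ∀ᶠ y : ℝ in atTop, ∀ ω, Cl y ω → NN (y ^ j₀) ω (y ^ a) (y ^ b) ≤ ε := by
  have t : Tendsto (fun y : ℝ => y ^ j₀) atTop atTop := tendsto_pow_atTop (by omega)
  filter_upwards [t.eventually (h3 b), ((tendsto_rpow_neg_atTop (y := 1 / 4) (by norm_num)).comp
    t).eventually (ge_mem_nhds hε), eventually_ge_atTop (1 : ℝ)] with y k1 k2 k3 ω z1
  refine (k1 (y ^ g) ω _ _ (hC.2 y ω k3 z1) ?_ ?_).trans k2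
  · rw [← pow_add]
    exact pow_le_pow_right₀ k3 (by omega)
  · rw [← pow_mul]
    exact pow_le_pow_right₀ k3 (Nat.le_mul_of_pos_left _ hj)

/-- the error of the passage to cells. -/
def er (j₀ J r : ℕ) (F : Multiset ℕ → ℝ) (y : ℝ) (ω : ℕ → ℝ) : ℝ :=
  ∑ S ∈ (PP y j₀ J).powerset with #S = r, F (im y S) * ω (∏ π ∈ S, π) -
    (∑ jv ∈ Fintype.piFinset fun _ : Fin r => Ico j₀ J, F (vm jv) * cell y ω jv) / r.factorial

theorem er_small (h1 : TupSt) (h3 : NNSt) {Cl : ℝ → (ℕ → ℝ) → Prop} {j₀ g a b : ℕ}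
    (hC : Cls Cl g) (J r : ℕ) {F : Multiset ℕ → ℝ} {F₀ : ℝ} (hj : 1 ≤ j₀) (ha : g + j₀ ≤ a)
    (h0 : 0 < F₀) (hF : ∀ M, M.card = r → |F M| ≤ F₀)
    (hs : ∀ M, F M ≠ 0 → a ≤ M.sum ∧ M.sum ≤ b) (ε : ℝ) (hε : 0 < ε) :
    ∀ᶠ y : ℝ in atTop, ∀ ω, Cl y ω → |er j₀ J r F y ω| ≤ ε := by
  have hr : (0 : ℝ) < F₀ * (r : ℝ) ^ r := mul_pos h0 (by
    rcases Nat.eq_zero_or_pos r with rfl | k
    · simp
    · positivity)
  filter_upwards [nn h3 hC (b + r) hj ha (ε / (F₀ * (r : ℝ) ^ r)) (div_pos hε hr),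
    eventually_ge_atTop (2 : ℝ)] with y k1 k2 ω z1
  refine (h1 y j₀ J a b r ω F F₀ (hC.2 y ω (by linarith) z1).1 k2 h0.le hF hs).trans ?_
  exact (le_div_iff₀' hr).1 (k1 ω z1)

end GdG

open GdG

theorem gdG (hX : Box) (h1 : TupSt) (h2 : NNSt) : GdG := by
  intro Cl s ε j₀ g hC hs hε hj hg t1
  let F : Multiset ℕ → ℝ := fun M =>
    if s.J₁ ≤ M.sum ∧ M.sum ≤ s.J₂ then (if s.G M then s.T M else 0) else 0
  have f1 : ∀ r M, M.card = r → |F M| ≤ 100 * 2 ^ r := fun r M k => by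
    have : |s.T M| ≤ 100 * 2 ^ r := k ▸ T_abs hs M
    simp only [F]
    split_ifs
    · exact this
    all_goals rw [abs_zero]; positivity
  have f2 : ∀ M, F M ≠ 0 → s.J₁ ≤ M.sum ∧ M.sum ≤ s.J₂ := fun M k => by
    by_contra k'
    exact k (if_neg k')
  have e1 : ∀ r, Tendsto (fun q : ℝ × (ℕ → ℝ) => er j₀ (s.J₂ + 1) r F q.1 q.2) (fl Cl) (𝓝 0) :=
    fun r => tz.2 (er_small h1 h2 hC _ r hj hg (by positivity) (f1 r) f2)
  have e2 : ∀ r, Tendsto (fun q : ℝ × (ℕ → ℝ) => er j₀ (s.J₂ + 1) r F q.1 w0) (fl Cl) (𝓝 0) :=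
    fun r => tz.2 fun δ hδ => (er_small h1 h2 hC _ r hj hg (by positivity)
      (f1 r) f2 δ hδ).mono fun y k _ _ => k w0 (hC.1 y)
  have e3 : ∀ r, ∀ jv ∈ Fintype.piFinset fun _ : Fin r => Ico j₀ (s.J₂ + 1), Tendsto
      (fun q : ℝ × (ℕ → ℝ) => F (vm jv) * (cell q.1 q.2 jv - cell q.1 w0 jv)) (fl Cl) (𝓝 0) :=
    fun r jv k => by
      by_cases g : s.G (vm jv) ∧ s.J₁ ≤ (vm jv).sum
      · simpa using (tz.2 fun δ hδ => t1 r jv δ
          (fun i => (mem_Ico.1 (Fintype.mem_piFinset.1 k i)).1) g.2 g.1 hδ :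
          Tendsto (fun q : ℝ × (ℕ → ℝ) => cell q.1 q.2 jv - cell q.1 w0 jv) _ _).const_mul
            (F (vm jv))
      · have : F (vm jv) = 0 := by
          simp only [F]
          split_ifs with a b
          · exact absurd ⟨b, a.1⟩ g
          all_goals rfl
        simp only [this, zero_mul]
        exact tendsto_const_nhds
  have e4 := tendsto_finsetSum (range (s.J₂ + 1)) fun r _ => ((e1 r).sub (e2 r)).add
    ((tendsto_finsetSum _ (e3 r)).div_const (r.factorial : ℝ))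
  simp only [sub_self, sum_const_zero, zero_div, add_zero] at e4
  filter_upwards [tz.1 e4 ε hε, eventually_gt_atTop (1 : ℝ)] with y k1 k3 ω z1
  refine ⟨le_of_eq_of_le (congrArg _ ?_) (k1 ω z1), bad hX hs k3 j₀ (hC.2 y ω k3.le z1).1⟩
  rw [split hX s k3 hj, split hX s k3 hj, ← sum_sub_distrib]
  refine sum_congr rfl fun r _ => ?_
  simp only [er, mul_sub, sum_sub_distrib, F]
  ring

end

end Pool.Agent.Lib.MP_f6c7cf_nt.FO
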