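import Pool.Agent.Lib.MP_f6c7cf_nt.FO.St

/-! The sum of the first type as a sum over sets of primes. -/

namespace Pool.Agent.Lib.MP_f6c7cf_nt.FO

open Finset Filter Topology Polynomial
open Pool.Agent.Lib.MP_9d27bc_nt.C (pr Rough)
open Pool.Agent.Lib.MP_4b1228_nt.GS (vm)
open scoped Classical ComplexConjugate

noncomputable section

namespace IDG

theorem pw {α : Type} (g : α → ℕ) (S : Finset α) (f : Multiset ℕ → ℝ) :
    ((S.val.map g).powerset.map f).sum = ∑ T ∈ S.powerset, f (T.val.map g) := by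
  induction S using Finset.induction_on generalizing f with
  | empty => simp
  | insert a S h ih =>
    rw [insert_val_of_notMem h, Multiset.map_cons, Multiset.powerset_cons, Multiset.map_add,
      Multiset.sum_add, Multiset.map_map, ih, ih, sum_powerset_insert h]
    refine congrArg _ (sum_congr rfl fun T hT => ?_)
    rw [insert_val_of_notMem fun e => h (mem_powerset.1 hT e), Multiset.map_cons]
    rfl

theorem un {α : Type} [DecidableEq α] {w : α → ℝ} (h : ∀ a, 0 ≤ w a) (A B : Finset α) :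
    ∑ a ∈ A ∪ B, w a ≤ ∑ a ∈ A, w a + ∑ a ∈ B, w a := by
  rw [← sum_union_inter]
  exact le_add_of_nonneg_right (sum_nonneg fun a _ => h a)

theorem p1 (J : ℕ) {y : ℝ} (hy : 0 < y) (a : ℕ) : pA J y a * y ^ a * y = y ^ J := by
  rw [pA, ← Real.rpow_natCast, ← Real.rpow_add hy, ← Real.rpow_add_one hy.ne',
    ← Real.rpow_natCast]
  congr 1
  ring

theorem p2 (J : ℕ) {y : ℝ} (hy : 0 < y) (R a : ℕ) : pB J y R a * y ^ a = y ^ (J + R) := by
  rw [pB, ← Real.rpow_natCast, ← Real.rpow_add hy, ← Real.rpow_natCast]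
  congr 1
  push_cast
  ring

/-- the multiples of a product of primes by the admissible cofactors -/
def II (s : Sv) (y : ℝ) (j₀ R : ℕ) (S : Finset ℕ) : Finset ℕ :=
  ({m ∈ iv (pA s.J₁ y (im y S).sum) (pB s.J₂ y R (im y S).sum) | Rough (y ^ j₀) m}).image
    fun m => (∏ π ∈ S, π) * m

/-- the sum of the weights of the divisors -/
def GG (s : Sv) (y : ℝ) (j₀ R : ℕ) (z : ℕ) : ℝ :=
  ∑ S ∈ (PP y j₀ (s.J₂ + 1)).powerset, if z ∈ II s y j₀ R S then s.yy (im y S) else 0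

/-- the sets of primes with total index in the range -/
def co (s : Sv) (y : ℝ) (j₀ : ℕ) : Finset (Finset ℕ) :=
  {S ∈ (PP y j₀ (s.J₂ + 1)).powerset | s.J₁ ≤ (im y S).sum ∧ (im y S).sum ≤ s.J₂}

variable (hB : Bas) (hX : Box) {s : Sv} {y : ℝ} {j₀ R : ℕ} (hy : 3 ≤ y) (hj : 1 ≤ j₀)

include hX hy in
theorem prm {J : ℕ} {S : Finset ℕ} (h : S ⊆ PP y j₀ J) : ∀ l ∈ S, l.Prime := fun l hl =>
  ((hX.mem_PP y j₀ J l (by linarith)).1 (h hl)).1

include hX hy in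
theorem ne0 {J : ℕ} {S : Finset ℕ} (h : S ⊆ PP y j₀ J) : ∏ π ∈ S, π ≠ 0 :=
  prod_ne_zero_iff.2 fun l hl => (prm hX hy h l hl).ne_zero

include hB hX hy hj in
theorem bounds {S : Finset ℕ} (h : S ⊆ PP y j₀ (s.J₂ + 1)) (h1 : 1 ≤ s.J₁)
    (ha : (im y S).sum ≤ R * j₀) {z : ℕ} (hz : z ∈ II s y j₀ R S) :
    y ^ (s.J₁ - 1) ≤ z ∧ (z : ℝ) ≤ y ^ (s.J₂ + 2 * R + 1) ∧ Rough (y ^ j₀) z := by
  have y0 : 0 < y := by linarith
  obtain ⟨m, hm, rfl⟩ := mem_image.1 hz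
  obtain ⟨hm, r⟩ := mem_filter.1 hm
  have a0 : 0 ≤ pA s.J₁ y (im y S).sum := Real.rpow_nonneg y0.le _
  have b0 : 0 ≤ pB s.J₂ y R (im y S).sum := Real.rpow_nonneg y0.le _
  obtain ⟨m1, m2⟩ := (hB.mem_iv _ _ _ a0 b0).1 hm
  obtain ⟨n1, n2, n3, n4⟩ := hX.nm_set y j₀ _ S (by linarith) h
  have cS : #S ≤ R := Nat.le_of_mul_le_mul_left (n3.trans (ha.trans (mul_comm _ _).le)) hj
  refine ⟨le_of_mul_le_mul_right ?_ y0, ?_, (hX.rough_mul _ _ _).2 ⟨n4, r⟩⟩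
  · rw [← pow_succ, Nat.sub_add_cancel h1, ← p1 s.J₁ y0 (im y S).sum, Nat.cast_mul,
      mul_comm (((∏ π ∈ S, π : ℕ)) : ℝ)]
    gcongr
  · rw [Nat.cast_mul]
    calc _ ≤ y ^ ((im y S).sum + R) * pB s.J₂ y R (im y S).sum :=
          mul_le_mul (n2.trans (pow_le_pow_right₀ (by linarith) (by omega))) m2
            (by positivity) (by positivity)
      _ = pB s.J₂ y R (im y S).sum * y ^ (im y S).sum * y ^ R := by ring
      _ = y ^ (s.J₂ + 2 * R) := by rw [p2 _ y0]; ring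
      _ ≤ _ := pow_le_pow_right₀ (by linarith) (by omega)

include hB hX hy hj in
theorem val (hR : s.J₂ ≤ R * j₀) {S₀ : Finset ℕ} (h : S₀ ∈ co s y j₀) :
    GG s y j₀ R (∏ π ∈ S₀, π) = s.T (im y S₀) := by
  have y0 : 0 < y := by linarith
  have y1 : 1 < y := by linarith
  obtain ⟨h0, a1, a2⟩ := mem_filter.1 h
  have h0 := mem_powerset.1 h0
  have c0 : #S₀ ≤ R := Nat.le_of_mul_le_mul_left
    ((hX.nm_set y j₀ _ S₀ y1 h0).2.2.1.trans (a2.trans (hR.trans (mul_comm _ _).le))) hj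
  rw [Sv.T, im, pw, GG, ← sum_filter]
  refine sum_congr (Finset.ext fun S => ?_) fun _ _ => rfl
  rw [mem_filter, mem_powerset, mem_powerset]
  refine ⟨fun ⟨a, b⟩ π hπ => ?_, fun a => ⟨a.trans h0, mem_image.2 ⟨∏ π ∈ S₀ \ S, π, ?_, ?_⟩⟩⟩
  · obtain ⟨m, -, e⟩ := mem_image.1 b
    exact (hX.dvd_prod S₀ π (prm hX hy h0) (prm hX hy a π hπ)).1
      (e ▸ (dvd_prod_of_mem _ hπ).mul_right m)
  · obtain ⟨n1, n2, -, n4⟩ := hX.nm_set y j₀ _ (S₀ \ S) y1 (sdiff_subset.trans h0)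
    have e : (im y (S₀ \ S)).sum + (im y S).sum = (im y S₀).sum := sum_sdiff (f := ix y) a
    have c := card_le_card (sdiff_subset (s := S₀) (t := S))
    have a0 : 0 ≤ pA s.J₁ y (im y S).sum := Real.rpow_nonneg y0.le _
    have b0 : 0 ≤ pB s.J₂ y R (im y S).sum := Real.rpow_nonneg y0.le _
    rw [mem_filter, hB.mem_iv _ _ _ a0 b0]
    generalize ∏ π ∈ S₀ \ S, π = m at *
    have q : 0 < y ^ (im y S).sum := pow_pos y0 _
    refine ⟨⟨lt_of_mul_lt_mul_right ?_ (mul_pos q y0).le, le_of_mul_le_mul_right ?_ q⟩, n4⟩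
    · rw [← mul_assoc, p1 s.J₁ y0]
      have := pow_pos y0 (im y (S₀ \ S)).sum
      calc _ ≤ y ^ (im y (S₀ \ S)).sum * y ^ (im y S).sum := by
            rw [← pow_add]; exact pow_le_pow_right₀ y1.le (by omega)
        _ ≤ (m : ℝ) * y ^ (im y S).sum := by gcongr
        _ < _ := by nlinarith [mul_pos (show 0 < (m : ℝ) by linarith) q]
    · refine le_of_le_of_eq ?_ (p2 s.J₂ y0 R _).symm
      calc _ ≤ y ^ ((im y (S₀ \ S)).sum + #(S₀ \ S)) * y ^ (im y S).sum := by gcongr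
        _ ≤ _ := by rw [← pow_add]; exact pow_le_pow_right₀ y1.le (by omega)
  · rw [mul_comm (∏ π ∈ S, π), prod_sdiff a]

end IDG

open IDG in
theorem idG (hB : Bas) (hX : Box) : IDG := fun p y j₀ R ω hω ok hy hj hR => by
  obtain ⟨o1, o4, -, s1, s2, -⟩ := ok
  have y0 : 0 < y := by linarith
  have y1 : 1 < y := by linarith
  have bd := fun {S : Finset ℕ} (h : S ⊆ PP y j₀ (p.J₂ + 1)) (e : p.yy (im y S) ≠ 0) {z : ℕ} =>
    bounds hB hX hy hj (s := p) (R := R) h (show 1 ≤ p.J₁ by omega)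
      (by have := mt (s2 _) e; omega) (z := z)
  have md : ∀ (Y : ℝ) (n : ℕ), 0 ≤ Y → (n ∈ range (⌊Y⌋₊ + 1) ↔ (n : ℝ) ≤ Y) := fun Y n h => by
    rw [mem_range, Nat.lt_succ_iff, Nat.le_floor_iff h]
  have pw0 : ∀ n : ℕ, 0 ≤ y ^ n := fun n => (pow_pos y0 n).le
  let D := range (⌊y ^ (p.J₂ + 2 * R + 1)⌋₊ + 1)
  let E := (co p y j₀).image fun S => ∏ π ∈ S, π
  have cs : ∀ S ∈ co p y j₀, S ⊆ PP y j₀ (p.J₂ + 1) := fun S h =>
    mem_powerset.1 (mem_filter.1 h).1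
  have e1 : p.TI y j₀ R ω = ∑ z ∈ D, GG p y j₀ R z * ω z := by
    simp only [GG, sum_mul]
    rw [sum_comm]
    refine sum_congr rfl fun S hS => ?_
    by_cases e : p.yy (im y S) = 0
    · simp [e]
    have hS := mem_powerset.1 hS
    rw [← sum_image (g := fun m => (∏ π ∈ S, π) * m) (f := ω)
      fun a _ b _ e => mul_left_cancel₀ (ne0 hX hy hS) e, mul_sum]
    simp only [ite_mul, zero_mul]
    rw [← sum_filter, filter_mem_eq_inter, inter_eq_right.2 fun z hz =>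
      show z ∈ D from (md _ _ (pw0 _)).2 (bd hS e hz).2.1]
    rfl
  have e2 : p.sc y j₀ ω p.T = ∑ z ∈ E, GG p y j₀ R z * ω z := by
    rw [sum_image]
    · exact sum_congr rfl fun S hS => by rw [val hB hX hy hj (by omega) hS]
    · intro S a S' b e
      have a2 := cs _ (mem_coe.1 a)
      have b2 := cs _ (mem_coe.1 b)
      have k : ∀ π : ℕ, π.Prime → (π ∈ S ↔ π ∈ S') := fun π hπ => by
        rw [← hX.dvd_prod S π (prm hX hy a2) hπ, ← hX.dvd_prod S' π (prm hX hy b2) hπ]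
        exact iff_of_eq (congrArg _ e)
      exact Finset.ext fun π =>
        ⟨fun c => (k π (prm hX hy a2 π c)).1 c, fun c => (k π (prm hX hy b2 π c)).2 c⟩
  have e3 : E ⊆ D := fun z hz => by
    obtain ⟨S, a2, rfl⟩ := mem_image.1 hz
    obtain ⟨-, n2, n3, -⟩ := hX.nm_set y j₀ _ S y1 (cs _ a2)
    have : (im y S).sum ≤ p.J₂ := (mem_filter.1 a2).2.2
    have : #S ≤ R := Nat.le_of_mul_le_mul_left (n3.trans (by rw [mul_comm]; omega)) hj
    exact (md _ _ (pw0 _)).2 (n2.trans (pow_le_pow_right₀ y1.le (by omega)))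
  have nz : ∀ z, GG p y j₀ R z ≠ 0 → y ^ (p.J₁ - 1) ≤ z ∧
      (z : ℝ) ≤ y ^ (p.J₂ + 2 * R + 1) ∧ Rough (y ^ j₀) z := fun z hz => by
    obtain ⟨S, hS, e⟩ := exists_ne_zero_of_sum_ne_zero hz
    rw [ne_eq, ite_eq_right_iff, Classical.not_imp] at e
    exact bd (mem_powerset.1 hS) e.2 e.1
  have gb : ∀ z, GG p y j₀ R z ≠ 0 → |GG p y j₀ R z| ≤ 100 * 2 ^ R := fun z hz => by
    obtain ⟨a, b, -⟩ := nz z hz
    have z0 : z ≠ 0 := by
      rintro rfl
      exact absurd a (by simp; positivity)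
    have c := hX.card_dvd y j₀ (p.J₂ + 1) R z y1 hj z0 (b.trans (pow_le_pow_right₀ y1.le hR))
    rw [GG, ← sum_filter]
    refine (abs_sum_le_sum_abs _ _).trans ((sum_le_card_nsmul _ _ 100 fun S _ => s1 _).trans ?_)
    rw [nsmul_eq_mul, mul_comm]
    gcongr
    have := (card_le_card (t := {π ∈ PP y j₀ (p.J₂ + 1) | π ∣ z}.powerset) (s :=
      {S ∈ (PP y j₀ (p.J₂ + 1)).powerset | z ∈ II p y j₀ R S}) fun S hS => by
        obtain ⟨a, b⟩ := mem_filter.1 hS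
        obtain ⟨m, -, e⟩ := mem_image.1 b
        exact mem_powerset.2 fun π hπ => mem_filter.2
          ⟨mem_powerset.1 a hπ, e ▸ (dvd_prod_of_mem _ hπ).mul_right m⟩).trans
      ((card_powerset _).trans_le (Nat.pow_le_pow_right two_pos c))
    exact_mod_cast this
  rw [e1, e2, ← sum_sdiff_eq_sub e3, ← sum_filter_of_ne (p := fun z => GG p y j₀ R z ≠ 0)
    fun z _ e => left_ne_zero_of_mul e]
  refine (abs_sum_le_sum_abs _ _).trans ((sum_le_sum (g := fun z => 100 * 2 ^ R * ω z)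
    fun z hz => ?_).trans ?_)
  · rw [abs_mul, abs_of_nonneg (hω z)]
    exact mul_le_mul_of_nonneg_right (gb z (mem_filter.1 hz).2) (hω z)
  rw [← mul_sum]
  gcongr
  refine (sum_le_sum_of_subset_of_nonneg (fun z hz => ?_) fun z _ _ => hω z).trans
    ((un hω _ _).trans (add_le_add_left (un hω _ _) _))
  obtain ⟨hz, g⟩ := mem_filter.1 hz
  obtain ⟨a, b, r⟩ := nz z g
  simp only [mem_union, mem_filter, md _ _ (pw0 _)]
  by_cases q : Squarefree z
  swap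
  · obtain ⟨l, hl, d⟩ : ∃ l : ℕ, l.Prime ∧ l * l ∣ z := by
      simpa [Nat.squarefree_iff_prime_squarefree] using q
    exact Or.inl (Or.inl ⟨b, a, r, l, hl, sq l ▸ d⟩)
  obtain ⟨S, hS, rfl⟩ := hX.nice y j₀ (p.J₂ + 2 * R + 1) z y0.le q r
    fun l _ d => (Nat.cast_le.2 (Nat.le_of_dvd (Nat.pos_of_ne_zero q.ne_zero) d)).trans b
  obtain ⟨n1, n2, n3, -⟩ := hX.nm_set y j₀ _ S y1 hS
  have c : (im y S).sum ≤ p.J₂ + 2 * R + 1 := (pow_le_pow_iff_right₀ y1).1 (n1.trans b)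
  have c' : #S ≤ R := Nat.le_of_mul_le_mul_left (n3.trans (by rw [mul_comm]; omega)) hj
  by_cases t1 : (im y S).sum < p.J₁
  · exact Or.inl (Or.inr ⟨n2.trans (pow_le_pow_right₀ y1.le (by omega)), a, r⟩)
  by_cases t2 : p.J₂ < (im y S).sum
  · exact Or.inr ⟨b, (pow_le_pow_right₀ y1.le t2.le).trans n1, r⟩
  refine absurd (mem_image.2 ⟨S, mem_filter.2
    ⟨mem_powerset.2 fun π hπ => ?_, not_lt.1 t1, not_lt.1 t2⟩, rfl⟩) (mem_sdiff.1 hz).2
  obtain ⟨i1, -, i3⟩ := hX.ix_PP y j₀ _ π y1 (hS hπ)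
  have : ix y π ≤ (im y S).sum := single_le_sum (f := ix y) (fun _ _ => Nat.zero_le _) hπ
  exact hX.Bx_sub y j₀ _ _ y1 i1 (show _ < p.J₂ + 1 by omega) i3

end

end Pool.Agent.Lib.MP_f6c7cf_nt.FO
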