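import Mathlib

/-!
Counting the solutions of `h (1 + Q y') = h' (1 + Q y)` modulo `Q Q'`.
-/

namespace Pool.Agent.Lib.MP_f6c7cf_nt.FO.J0

open Finset

theorem cls (S : Finset ℤ) (K m : ℕ) (hm : 0 < m) (h1 : ∀ x ∈ S, |x| ≤ K)
    (h2 : ∀ x ∈ S, ∀ y ∈ S, (m : ℤ) ∣ x - y) : (#S : ℝ) ≤ 2 * K / m + 1 := by
  have m0 : (0 : ℤ) < m := by exact_mod_cast hm
  have a : #S ≤ #(range (2 * K / m + 1)) := by
    refine card_le_card_of_injOn (fun x => ((x + K) / m).toNat) (fun x hx => ?_) ?_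
    · have b := abs_le.1 (h1 x hx)
      have c : (x + K) / m ≤ ((2 * K : ℕ) : ℤ) / m := Int.ediv_le_ediv m0 (by push_cast; omega)
      have c' : (((2 * K : ℕ) : ℤ) / m) = ((2 * K / m : ℕ) : ℤ) := (Int.natCast_div _ _).symm
      rw [c'] at c
      simp only [coe_range, Set.mem_Iio]
      generalize 2 * K / m = u at c ⊢
      generalize (x + K) / m = v at c ⊢
      omega
    · intro x hx y hy e
      have b := abs_le.1 (h1 x hx)
      have b' := abs_le.1 (h1 y hy)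
      have c : 0 ≤ (x + K) / m := Int.ediv_nonneg (by omega) m0.le
      have c' : 0 ≤ (y + K) / m := Int.ediv_nonneg (by omega) m0.le
      have e1 : (x + K) / m = (y + K) / m := by
        simp only at e
        omega
      have e2 : (x + K) % m = (y + K) % m :=
        (Int.emod_emod_of_dvd _ dvd_rfl).symm.trans (by
          rw [Int.emod_emod_of_dvd _ dvd_rfl]
          exact Int.emod_eq_emod_iff_emod_sub_eq_zero.2 (Int.emod_eq_zero_of_dvd (by
            simpa using h2 x hx y hy)))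
      have e3 := Int.mul_ediv_add_emod (x + K) m
      have e4 := Int.mul_ediv_add_emod (y + K) m
      rw [e1, e2] at e3
      omega
  rw [card_range] at a
  have b : ((2 * K / m : ℕ) : ℝ) ≤ (2 * K : ℕ) / m := Nat.cast_div_le
  have c : (#S : ℝ) ≤ (2 * K / m : ℕ) + 1 := by exact_mod_cast a
  push_cast at b
  linarith

theorem mul (S : Finset ℤ) (K m : ℕ) (hm : 0 < m) (h1 : ∀ x ∈ S, |x| ≤ K) (h0 : ∀ x ∈ S, x ≠ 0)
    (h2 : ∀ x ∈ S, (m : ℤ) ∣ x) : (#S : ℝ) ≤ 2 * K / m := by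
  have a := cls (insert 0 S) K m hm (by
    intro x hx
    rcases mem_insert.1 hx with rfl | hx
    · simp
    · exact h1 x hx) (by
    have : ∀ x ∈ insert 0 S, (m : ℤ) ∣ x := by
      intro x hx
      rcases mem_insert.1 hx with rfl | hx
      · simp
      · exact h2 x hx
    exact fun x hx y hy => dvd_sub (this x hx) (this y hy))
  rw [card_insert_of_notMem fun h => h0 0 h rfl] at a
  push_cast at a
  linarith

/-- the count for fixed digits -/
theorem cnt (Q Q' K : ℕ) (hQ : 0 < Q) (hd : Q' ∣ Q) (y y' : ℤ) (S : Finset (ℤ × ℤ))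
    (hS : ∀ w ∈ S, w.1 ≠ 0 ∧ |w.1| ≤ K ∧ |w.2| ≤ K ∧
      ((Q * Q' : ℕ) : ℤ) ∣ w.1 * (1 + Q * y') - w.2 * (1 + Q * y)) :
    (#S : ℝ) ≤ 16 * (K : ℝ) ^ 2 / (Q * Q') + 2 * K * (Int.gcd (y' - y) Q') / Q' := by
  have q0 : 0 < Q' := Nat.pos_of_dvd_of_pos hd hQ
  have Q0 : (Q : ℤ) ≠ 0 := by exact_mod_cast hQ.ne'
  set g := Int.gcd (y' - y) Q' with hg
  have g0 : 0 < g := Int.gcd_pos_of_ne_zero_right _ (by exact_mod_cast q0.ne')
  obtain ⟨m, hm⟩ : g ∣ Q' := by
    have := Int.gcd_dvd_right (y' - y) Q'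
    exact_mod_cast this
  have m0 : 0 < m := Nat.pos_of_ne_zero fun h => by simp [h] at hm; omega
  obtain ⟨d, hd'⟩ : (g : ℤ) ∣ y' - y := Int.gcd_dvd_left _ _
  have cop : IsCoprime (m : ℤ) d := by
    rw [Int.isCoprime_iff_gcd_eq_one]
    have e : Int.gcd (g * d) (g * m) = g := by
      rw [← hd']
      exact_mod_cast hm ▸ hg.symm
    rw [Int.gcd_mul_left] at e
    simp only [Int.natAbs_natCast] at e
    rw [Int.gcd_comm]
    exact Nat.eq_of_mul_eq_mul_left g0 (by simpa using e)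
  set j : ℤ × ℤ → ℤ := fun w => (w.2 - w.1) / Q with hj
  have k1 : ∀ w ∈ S, w.2 = w.1 + Q * j w ∧ (Q' : ℤ) ∣ w.1 * (y' - y) - j w := by
    intro w hw
    obtain ⟨-, -, -, c, hc⟩ := hS w hw
    push_cast at hc
    have a : (Q : ℤ) ∣ w.2 - w.1 := ⟨w.1 * y' - w.2 * y - Q' * c, by linear_combination -hc⟩
    have b : w.2 = w.1 + Q * j w := by
      have := Int.mul_ediv_cancel' a
      simp only [hj]
      linarith
    refine ⟨b, ?_⟩
    obtain ⟨u, hu⟩ := hd
    have hu' : (Q : ℤ) = Q' * u := by exact_mod_cast hu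
    refine ⟨c + u * j w * y, mul_left_cancel₀ Q0 ?_⟩
    rw [b] at hc
    linear_combination hc + Q * j w * y * hu'
  have k2 : ∀ i : ℤ, ∀ w ∈ S, ∀ v ∈ S, j w = i → j v = i → (m : ℤ) ∣ w.1 - v.1 := by
    intro i w hw v hv e1 e2
    have a := dvd_sub (k1 w hw).2 (k1 v hv).2
    rw [e1, e2, hd', hm] at a
    refine cop.dvd_of_dvd_mul_right (Int.dvd_of_mul_dvd_mul_left
      (a := (g : ℤ)) (by exact_mod_cast g0.ne') ?_)
    push_cast at a
    have e : (g : ℤ) * ((w.1 - v.1) * d) = w.1 * (g * d) - i - (v.1 * (g * d) - i) := by ring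
    rwa [e]
  have inj : ∀ i : ℤ, Set.InjOn Prod.fst (↑({w ∈ S | j w = i} : Finset (ℤ × ℤ)) : Set (ℤ × ℤ)) := by
    intro i w hw v hv e
    simp only [coe_filter, Set.mem_ofPred_eq] at hw hv
    refine Prod.ext e ?_
    rw [(k1 w hw.1).1, (k1 v hv.1).1, hw.2, hv.2, e]
  have gr : (0 : ℝ) < g := by exact_mod_cast g0
  have mr : (0 : ℝ) < m := by exact_mod_cast m0
  have Qr : (0 : ℝ) < Q := by exact_mod_cast hQ
  have hm' : (Q' : ℝ) = g * m := by exact_mod_cast hm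
  have f0 : (#{w ∈ S | j w = 0} : ℝ) ≤ 2 * K / m := by
    rw [← card_image_of_injOn (inj 0)]
    refine mul _ K m m0 ?_ ?_ ?_ <;> intro x hx <;> obtain ⟨w, hw, rfl⟩ := mem_image.1 hx <;>
      rw [mem_filter] at hw
    · exact (hS w hw.1).2.1
    · exact (hS w hw.1).1
    · have a := (k1 w hw.1).2
      rw [hw.2, hd', hm] at a
      refine cop.dvd_of_dvd_mul_right (Int.dvd_of_mul_dvd_mul_left
        (a := (g : ℤ)) (by exact_mod_cast g0.ne') ?_)
      push_cast at a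
      convert a using 1
      ring
  have f1 : ∀ i : ℤ, (#{w ∈ S | j w = i} : ℝ) ≤ 2 * K / m + 1 := by
    intro i
    rw [← card_image_of_injOn (inj i)]
    refine cls _ K m m0 ?_ ?_
    · intro x hx
      obtain ⟨w, hw, rfl⟩ := mem_image.1 hx
      exact (hS w (mem_filter.1 hw).1).2.1
    · intro x hx x' hx'
      obtain ⟨w, hw, rfl⟩ := mem_image.1 hx
      obtain ⟨v, hv, rfl⟩ := mem_image.1 hx'
      exact k2 i w (mem_filter.1 hw).1 v (mem_filter.1 hv).1 (mem_filter.1 hw).2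
        (mem_filter.1 hv).2
  set T := (S.image j).erase 0 with hT
  have t1 : ∀ i ∈ T, i ≠ 0 ∧ |Q * i| ≤ (2 * K : ℕ) ∧ ((Q * g : ℕ) : ℤ) ∣ Q * i := by
    intro i hi
    obtain ⟨i0, hi⟩ := mem_erase.1 hi
    obtain ⟨w, hw, rfl⟩ := mem_image.1 hi
    refine ⟨i0, ?_, ?_⟩
    · have a := (k1 w hw).1
      have b := abs_le.1 (hS w hw).2.1
      have c := abs_le.1 (hS w hw).2.2.1
      rw [abs_le]
      push_cast
      constructor <;> linarith [b.1, b.2, c.1, c.2]
    · push_cast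
      refine mul_dvd_mul_left _ ?_
      have a := (k1 w hw).2
      rw [hd', hm] at a
      have b : (g : ℤ) ∣ w.1 * (g * d) - j w := dvd_trans ⟨m, by push_cast; ring⟩ a
      have c : (g : ℤ) ∣ w.1 * (g * d) := ⟨w.1 * d, by ring⟩
      simpa using dvd_sub c b
  have t2 : (#T : ℝ) ≤ 4 * K / (Q * g) := by
    rw [← card_image_of_injective T (mul_right_injective₀ Q0)]
    have := mul (T.image fun i => (Q : ℤ) * i) (2 * K) (Q * g) (Nat.mul_pos hQ g0) (by
      intro x hx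
      obtain ⟨i, hi, rfl⟩ := mem_image.1 hx
      exact (t1 i hi).2.1) (by
      intro x hx
      obtain ⟨i, hi, rfl⟩ := mem_image.1 hx
      exact mul_ne_zero Q0 (t1 i hi).1) (by
      intro x hx
      obtain ⟨i, hi, rfl⟩ := mem_image.1 hx
      exact (t1 i hi).2.2)
    push_cast at this
    convert this using 1
    ring
  have s1 : (#S : ℝ) ≤ #{w ∈ S | j w = 0} + ∑ i ∈ T, (#{w ∈ S | j w = i} : ℝ) := by
    have a : #S ≤ #{w ∈ S | j w = 0} + ∑ i ∈ T, #{w ∈ S | j w = i} := by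
      rw [card_eq_sum_card_fiberwise (f := j) (t := insert 0 T) (fun w hw => by
        by_cases e : j w = 0
        · simp [e]
        · exact mem_coe.2 (mem_insert_of_mem (mem_erase.2 ⟨e, mem_image_of_mem j hw⟩))),
        sum_insert (notMem_erase _ _)]
    exact_mod_cast a
  have s2 : ∑ i ∈ T, (#{w ∈ S | j w = i} : ℝ) ≤ 16 * (K : ℝ) ^ 2 / (Q * Q') := by
    rcases T.eq_empty_or_nonempty with e | ⟨i, hi⟩
    · rw [e, sum_empty]
      positivity
    · have a : (Q : ℝ) ≤ 2 * K := by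
        have b := (t1 i hi).2.1
        rw [abs_mul, Nat.abs_cast] at b
        have c : 1 ≤ |i| := Int.one_le_abs (t1 i hi).1
        have : (Q : ℤ) ≤ (2 * K : ℕ) := le_trans (by nlinarith [Int.natCast_nonneg Q]) b
        exact_mod_cast this
      have b : (Q' : ℝ) ≤ Q := by exact_mod_cast Nat.le_of_dvd hQ hd
      have c : (m : ℝ) ≤ 2 * K := by
        have : (1 : ℝ) ≤ g := by exact_mod_cast g0
        nlinarith
      calc _ ≤ #T * (2 * K / m + 1 : ℝ) := by
            rw [← nsmul_eq_mul]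
            exact sum_le_card_nsmul _ _ _ fun i _ => f1 i
        _ ≤ 4 * K / (Q * g) * (2 * K / m + 2 * K / m) := by
            gcongr
            rw [le_div_iff₀ mr]
            linarith
        _ = _ := by
            rw [hm']
            field_simp
            ring
  have s3 : (2 * K / m : ℝ) = 2 * K * g / Q' := by
    rw [hm']
    field_simp
  linarith

open scoped Classical in
theorem coarse {ι : Type*} (Y : Finset ι) (v : ι → ℤ) (w : ι → ℝ) (Q g : ℕ) (π : ℝ) (hQ : 0 < Q)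
    (hg : g ∣ Q) (hπ : ∀ a : ℤ, ∑ i ∈ Y with (Q : ℤ) ∣ v i - a, w i ≤ π) (a : ℤ) :
    g * ∑ i ∈ Y with (g : ℤ) ∣ v i - a, w i ≤ Q * π := by
  obtain ⟨u, rfl⟩ := hg
  have g0 : 0 < g := Nat.pos_of_mul_pos_right hQ
  have u0 : 0 < u := Nat.pos_of_mul_pos_left hQ
  have gz : (g : ℤ) ≠ 0 := by exact_mod_cast g0.ne'
  have uz : (0 : ℤ) < u := by exact_mod_cast u0
  have a1 : ∑ i ∈ Y with (g : ℤ) ∣ v i - a, w i ≤ u * π := by
    rw [← sum_fiberwise_of_maps_to (t := Ico (0 : ℤ) u) (g := fun i => (v i - a) / g % u)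
      (fun i _ => mem_Ico.2 ⟨Int.emod_nonneg _ uz.ne', Int.emod_lt_of_pos _ uz⟩)]
    refine (sum_le_card_nsmul _ _ π fun r hr => ?_).trans (by simp)
    refine le_trans (le_of_eq ?_) (hπ (a + g * r))
    rw [filter_filter]
    refine sum_congr (filter_congr fun i _ => ⟨?_, ?_⟩) fun _ _ => rfl
    · rintro ⟨⟨c, hc⟩, h2⟩
      rw [hc, Int.mul_ediv_cancel_left _ gz] at h2
      refine ⟨c / u, ?_⟩
      have := Int.mul_ediv_add_emod c u
      push_cast
      rw [h2] at this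
      linear_combination hc - g * this
    · rintro ⟨c, hc⟩
      push_cast at hc
      have e : v i - a = g * (r + u * c) := by linear_combination hc
      refine ⟨⟨_, e⟩, ?_⟩
      rw [e, Int.mul_ediv_cancel_left _ gz, Int.add_mul_emod_self_left,
        Int.emod_eq_of_lt (mem_Ico.1 hr).1 (mem_Ico.1 hr).2]
  push_cast
  rw [mul_assoc]
  gcongr

open scoped Classical in
theorem egcd {ι : Type*} (Y : Finset ι) (v : ι → ℤ) (w : ι → ℝ) (Q Q' : ℕ) (π : ℝ) (hQ : 0 < Q)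
    (hd : Q' ∣ Q) (hw : ∀ i ∈ Y, 0 ≤ w i)
    (hπ : ∀ a : ℤ, ∑ i ∈ Y with (Q : ℤ) ∣ v i - a, w i ≤ π) (a : ℤ) :
    ∑ i ∈ Y, w i * (Int.gcd (v i - a) Q') ≤ #Q'.divisors * (Q * π) := by
  have q0 : 0 < Q' := Nat.pos_of_dvd_of_pos hd hQ
  calc _ ≤ ∑ i ∈ Y, ∑ g ∈ Q'.divisors, if (g : ℤ) ∣ v i - a then g * w i else 0 := by
        refine sum_le_sum fun i hi => ?_
        have m : Int.gcd (v i - a) Q' ∈ Q'.divisors := Nat.mem_divisors.2
          ⟨by exact_mod_cast Int.gcd_dvd_right (v i - a) Q', q0.ne'⟩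
        refine le_trans (le_of_eq ?_) (single_le_sum
          (f := fun g : ℕ => if (g : ℤ) ∣ v i - a then g * w i else 0) (fun g _ => ?_) m)
        · rw [if_pos (Int.gcd_dvd_left _ _), mul_comm]
        · have := hw i hi
          split_ifs <;> positivity
    _ ≤ _ := by
        rw [sum_comm, ← nsmul_eq_mul]
        refine sum_le_card_nsmul _ _ _ fun g hg => ?_
        rw [← sum_filter, ← mul_sum]
        exact coarse Y v w Q g π hQ ((Nat.dvd_of_mem_divisors hg).trans hd) hπ a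

open scoped Classical in
/-- the mean number of solutions -/
theorem mean {ι : Type*} (Y : Finset ι) (v : ι → ℤ) (w : ι → ℝ) (Q Q' K : ℕ) (π : ℝ) (hQ : 0 < Q)
    (hd : Q' ∣ Q) (hw : ∀ i ∈ Y, 0 ≤ w i) (h1 : ∑ i ∈ Y, w i ≤ 1)
    (hπ : ∀ a : ℤ, ∑ i ∈ Y with (Q : ℤ) ∣ v i - a, w i ≤ π) (S : ι → ι → Finset (ℤ × ℤ))
    (hS : ∀ i ∈ Y, ∀ i' ∈ Y, ∀ x ∈ S i i', x.1 ≠ 0 ∧ |x.1| ≤ K ∧ |x.2| ≤ K ∧
      ((Q * Q' : ℕ) : ℤ) ∣ x.1 * (1 + Q * v i') - x.2 * (1 + Q * v i)) :
    ∑ i ∈ Y, ∑ i' ∈ Y, w i * w i' * #(S i i') ≤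
      16 * (K : ℝ) ^ 2 / (Q * Q') + 2 * K * #Q'.divisors * (Q * π) / Q' := by
  have p0 : 0 ≤ π := le_trans (sum_nonneg fun i hi => hw i (mem_filter.1 hi).1) (hπ 0)
  set B := 16 * (K : ℝ) ^ 2 / (Q * Q') + 2 * K * #Q'.divisors * (Q * π) / Q' with hB
  have B0 : 0 ≤ B := by positivity
  calc _ ≤ ∑ i ∈ Y, w i * B := by
        refine sum_le_sum fun i hi => ?_
        simp_rw [mul_assoc]
        rw [← mul_sum]
        refine mul_le_mul_of_nonneg_left ?_ (hw i hi)
        calc _ ≤ ∑ i' ∈ Y, (w i' * (16 * (K : ℝ) ^ 2 / (Q * Q')) +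
              2 * K / Q' * (w i' * (Int.gcd (v i' - v i) Q'))) := by
              refine sum_le_sum fun i' hi' => ?_
              refine (mul_le_mul_of_nonneg_left
                (cnt Q Q' K hQ hd (v i) (v i') _ (hS i hi i' hi')) (hw i' hi')).trans (le_of_eq ?_)
              ring
          _ ≤ 1 * (16 * (K : ℝ) ^ 2 / (Q * Q')) + 2 * K / Q' * (#Q'.divisors * (Q * π)) := by
              rw [sum_add_distrib, ← sum_mul, ← mul_sum]
              gcongr
              exact egcd Y v w Q Q' π hQ hd hw hπ (v i)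
          _ = B := by
              rw [hB]
              ring
    _ ≤ B := by
        rw [← sum_mul]
        exact mul_le_of_le_one_left B0 h1

end Pool.Agent.Lib.MP_f6c7cf_nt.FO.J0
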