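import Pool.Agent.Lib.MP_f6c7cf_nt.FO.Sp
import Pool.Agent.Lib.MP_f6c7cf_nt.FO.J0

/-!
The weighted number of solutions of the congruence.
-/

namespace Pool.Agent.Lib.MP_f6c7cf_nt.FO

open Finset Filter Topology Polynomial
open scoped Classical

theorem jn (hB : Bas) : JSt := by
  intro t K F π _ hF hS
  have p0 : 0 ≤ π := le_trans (sum_nonneg fun i _ => hF.1 i) (hS 0)
  have := J0.mean F.support (fun y => (y : ℤ)) F.coeff (2 ^ t) (2 ^ t) K π (by positivity)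
    dvd_rfl (fun i _ => hF.1 i) (hB.sum_coeff F hF).le ((SpA.sp_iff _ _ _).1 hS)
    (fun y y' => {h ∈ Icc (-(K : ℤ)) K ×ˢ Icc (-(K : ℤ)) K | h.1 ≠ 0 ∧ h.2 ≠ 0 ∧
      h.1 * (1 + 2 ^ t * y') ≡ h.2 * (1 + 2 ^ t * y) [ZMOD (qq t : ℕ)]}) (by
      intro y _ y' _ x hx
      obtain ⟨h1, h2, -, h3⟩ := mem_filter.1 hx
      obtain ⟨a, b⟩ := mem_product.1 h1
      refine ⟨h2, abs_le.2 (mem_Icc.1 a), abs_le.2 (mem_Icc.1 b), ?_⟩
      have := h3.symm.dvd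
      rw [← pow_add, ← two_mul]
      simpa using this)
  rw [Nat.divisors_prime_pow Nat.prime_two, card_map, card_range] at this
  refine this.trans ?_
  have e : ((qq t : ℕ) : ℝ) = ((2 ^ t : ℕ) : ℝ) * ((2 ^ t : ℕ) : ℝ) := by
    rw [qq, two_mul, pow_add, Nat.cast_mul]
  have q : (0 : ℝ) < ((2 ^ t : ℕ) : ℝ) := by positivity
  rw [e, mul_div_assoc _ (_ * π), mul_div_cancel_left₀ _ q.ne']
  push_cast
  have : 0 ≤ ((t : ℝ) + 1) * K * π := by positivity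
  nlinarith

end Pool.Agent.Lib.MP_f6c7cf_nt.FO
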