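import Pool.Agent.Lib.MP_f6c7cf_nt.FO.St

/-! Reciprocals in progressions. -/

namespace Pool.Agent.Lib.MP_f6c7cf_nt.FO

open Finset Filter Topology Polynomial
open scoped Classical ComplexConjugate

namespace Lin

theorem low {x q : ℝ} (hx : 0 < x) (hq : 0 < q) (k : ℕ) :
    Real.log ((x + q * k) / x) / q ≤ ∑ i ∈ range k, 1 / (x + q * i) := by
  induction k with
  | zero => simp [hx.ne']
  | succ k ih =>
    have h1 : 0 < x + q * k := by positivity
    have h2 : 0 < x + q * (k + 1 : ℕ) := by positivity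
    have e : (x + q * (k + 1 : ℕ)) / x = (x + q * k) / x * ((x + q * (k + 1 : ℕ)) / (x + q * k)) := by
      field_simp
    have l := Real.log_le_sub_one_of_pos (div_pos h2 h1)
    have e2 : (x + q * (k + 1 : ℕ)) / (x + q * k) - 1 = q * (1 / (x + q * k)) := by
      push_cast; field_simp; ring
    rw [sum_range_succ, e, Real.log_mul (by positivity) (by positivity), add_div]
    exact add_le_add ih ((div_le_iff₀' hq).2 (e2 ▸ l))

theorem upp {x q : ℝ} (hx : 0 < x) (hq : 0 < q) (k : ℕ) :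
    ∑ i ∈ range (k + 1), 1 / (x + q * i) ≤ 1 / x + Real.log ((x + q * k) / x) / q := by
  induction k with
  | zero => simp [hx.ne']
  | succ k ih =>
    have h1 : 0 < x + q * k := by positivity
    have h2 : 0 < x + q * (k + 1 : ℕ) := by positivity
    have e : (x + q * (k + 1 : ℕ)) / x = (x + q * k) / x * ((x + q * (k + 1 : ℕ)) / (x + q * k)) := by
      field_simp
    have l := Real.one_sub_inv_le_log_of_pos (div_pos h2 h1)
    have e2 : 1 - ((x + q * (k + 1 : ℕ)) / (x + q * k))⁻¹ = q * (1 / (x + q * (k + 1 : ℕ))) := by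
      rw [inv_div]
      field_simp
      push_cast
      ring
    rw [sum_range_succ, e, Real.log_mul (by positivity) (by positivity), add_div, ← add_assoc]
    exact add_le_add ih ((le_div_iff₀' hq).2 (e2 ▸ l))

theorem img {q a m N b : ℕ} (hq : 1 ≤ q) (h1 : m < b) (h2 : b ≤ m + q) (h3 : b ≡ a [MOD q])
    (hN : m ≤ N) : {n ∈ Ioc m N | n ≡ a [MOD q]} =
      (range ((N + q - b) / q)).image fun i => b + q * i := by
  ext n
  simp only [mem_filter, mem_Ioc, mem_image, mem_range]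
  have k : ∀ i, i < (N + q - b) / q ↔ b + q * i ≤ N := fun i => by
    rw [Nat.lt_iff_add_one_le, Nat.le_div_iff_mul_le hq, add_mul, mul_comm i]
    omega
  constructor
  · rintro ⟨⟨a1, a2⟩, a3⟩
    have a4 : b ≤ n := by
      by_contra h
      have := Nat.le_of_dvd (by omega) ((Nat.modEq_iff_dvd' (by omega : n ≤ b)).1 (a3.trans h3.symm))
      omega
    obtain ⟨i, hi⟩ := (Nat.modEq_iff_dvd' a4).1 (h3.trans a3.symm)
    exact ⟨i, (k i).2 (by omega), by omega⟩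
  · rintro ⟨i, hi, rfl⟩
    exact ⟨⟨by omega, (k i).1 hi⟩, by simpa [Nat.ModEq] using h3⟩

theorem one (q a : ℕ) (P₁ P₂ : ℝ) (hq : 1 ≤ q) (h0 : 0 < P₁) (h12 : P₁ ≤ P₂) :
    |∑ n ∈ iv P₁ P₂ with n ≡ a [MOD q], 1 / (n : ℝ) - Real.log (P₂ / P₁) / q| ≤ 1 / P₁ := by
  have q0 : (0 : ℝ) < q := by exact_mod_cast hq
  have hN : ⌊P₁⌋₊ ≤ ⌊P₂⌋₊ := Nat.floor_le_floor h12
  obtain ⟨b, h1, h2, h3⟩ : ∃ b, ⌊P₁⌋₊ < b ∧ b ≤ ⌊P₁⌋₊ + q ∧ b ≡ a [MOD q] := by
    refine ⟨⌊P₁⌋₊ + 1 + (a + (q - 1) * (⌊P₁⌋₊ + 1)) % q, by omega, ?_, ?_⟩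
    · have := Nat.mod_lt (a + (q - 1) * (⌊P₁⌋₊ + 1)) hq
      omega
    · refine ((Nat.mod_modEq _ _).add_left _).trans ?_
      obtain ⟨r, rfl⟩ : ∃ r, q = r + 1 := ⟨q - 1, by omega⟩
      have : ⌊P₁⌋₊ + 1 + (a + (r + 1 - 1) * (⌊P₁⌋₊ + 1)) = a + (r + 1) * (⌊P₁⌋₊ + 1) := by
        rw [Nat.add_sub_cancel]; ring
      rw [this]
      simp [Nat.ModEq]
  have b1 : P₁ < b := (Nat.floor_lt h0.le).1 h1
  have b0 : (0 : ℝ) < b := h0.trans b1
  have b2 : (b : ℝ) ≤ P₁ + q := by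
    have : (b : ℝ) ≤ ⌊P₁⌋₊ + q := by exact_mod_cast h2
    linarith [Nat.floor_le h0.le]
  have p2 : 0 < P₂ := h0.trans_le h12
  rw [iv, img hq h1 h2 h3 hN, sum_image fun i _ j _ h => Nat.eq_of_mul_eq_mul_left hq (by omega)]
  push_cast
  obtain ⟨k, hk⟩ : ∃ k, k = (⌊P₂⌋₊ + q - b) / q := ⟨_, rfl⟩
  have k1 : ⌊P₂⌋₊ + q - b < q * (k + 1) := hk ▸ Nat.lt_mul_div_succ _ hq
  have k2 : q * k ≤ ⌊P₂⌋₊ + q - b := hk ▸ Nat.mul_div_le _ _
  rw [← hk, abs_le]
  constructor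
  · have c1 : P₂ < b + q * k := by
      have : ⌊P₂⌋₊ < b + q * k := by rw [mul_add] at k1; omega
      exact_mod_cast (Nat.floor_lt p2.le).1 this
    have c2 := low b0 q0 k
    have c3 : Real.log (P₂ / P₁) ≤ Real.log ((b + q * k) / b) + q * (1 / P₁) := by
      have e : P₂ / P₁ = P₂ / b * (b / P₁) := by field_simp
      have l := Real.log_le_sub_one_of_pos (div_pos b0 h0)
      have l2 : b / P₁ - 1 ≤ q * (1 / P₁) := by
        rw [div_sub_one h0.ne', mul_one_div]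
        exact div_le_div_of_nonneg_right (by linarith) h0.le
      rw [e, Real.log_mul (by positivity) (by positivity)]
      exact add_le_add (Real.log_le_log (by positivity) (by gcongr)) (l.trans l2)
    have c4 := div_le_div_of_nonneg_right c3 q0.le
    rw [add_div, mul_div_cancel_left₀ _ q0.ne'] at c4
    linarith
  · have l0 : 0 ≤ Real.log (P₂ / P₁) / q :=
      div_nonneg (Real.log_nonneg ((one_le_div h0).2 h12)) q0.le
    have i0 : 1 / (b : ℝ) ≤ 1 / P₁ := one_div_le_one_div_of_le h0 b1.le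
    rcases k with _ | k
    · have := one_div_pos.2 h0
      simp only [range_zero, sum_empty]
      linarith
    · have c1 : (b : ℝ) + q * k ≤ P₂ := by
        have : b + q * k ≤ ⌊P₂⌋₊ := by rw [mul_add] at k2; omega
        have h : ((b + q * k : ℕ) : ℝ) ≤ P₂ := (Nat.le_floor_iff p2.le).1 this
        exact_mod_cast h
      have c2 := upp b0 q0 k
      have c3 : Real.log ((b + q * k) / b) ≤ Real.log (P₂ / P₁) :=
        Real.log_le_log (by positivity) (by gcongr)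
      have c4 := div_le_div_of_nonneg_right c3 q0.le
      linarith

theorem two (d : ℕ) (P₁ P₂ : ℝ) (hd : Odd d) (h0 : 0 < P₁) (h12 : P₁ ≤ P₂) :
    |∑ n ∈ iv P₁ P₂ with Odd n ∧ d ∣ n, 1 / (n : ℝ) - Real.log (P₂ / P₁) / (2 * d)| ≤ 1 / P₁ := by
  have h := one (2 * d) d P₁ P₂ (by have := hd.pos; omega) h0 h12
  have e : ∀ n, n ≡ d [MOD 2 * d] ↔ Odd n ∧ d ∣ n := fun n => by
    rw [← Nat.modEq_and_modEq_iff_modEq_mul (Nat.coprime_two_left.2 hd), Nat.odd_iff, Nat.ModEq,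
      Nat.odd_iff.1 hd, Nat.ModEq, Nat.mod_self, Nat.dvd_iff_mod_eq_zero]
  simp only [e] at h
  exact_mod_cast h

theorem tot {t : ℕ} (ht : 1 ≤ t) : 2 * (Nat.totient (qq t) : ℝ) = qq t := by
  obtain ⟨r, hr⟩ : ∃ r, 2 * t = r + 1 := ⟨2 * t - 1, by omega⟩
  rw [qq, hr, Nat.totient_prime_pow_succ Nat.prime_two]
  push_cast
  ring

theorem pt {t : ℕ} {F : ℝ[X]} {π : ℝ} (hF : Prob F) (hS : Sp t F π) (h0 : 0 ≤ π) (n : ℕ) :
    ∑ y ∈ F.support with 1 + 2 ^ t * y ≡ n [MOD qq t], F.coeff y ≤ π := by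
  rcases ({y ∈ F.support | 1 + 2 ^ t * y ≡ n [MOD qq t]}).eq_empty_or_nonempty with h | ⟨z, hz⟩
  · rw [h, sum_empty]; exact h0
  · refine le_trans (sum_le_sum_of_subset_of_nonneg (fun y hy => ?_) fun y _ _ => hF.1 y) (hS z)
    rw [mem_filter] at hy hz ⊢
    refine ⟨hy.1, ?_⟩
    have a := Nat.ModEq.add_left_cancel' 1 (hy.2.trans hz.2.symm)
    rw [qq, two_mul, pow_add] at a
    exact Nat.ModEq.mul_left_cancel' (by positivity) a

theorem cls {t d : ℕ} (ht : 1 ≤ t) (hd : Odd d) (y : ℕ) : ∃ c : ℕ, ∀ n : ℕ,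
    ((Odd n ∧ d ∣ n) ∧ 1 + 2 ^ t * y ≡ n [MOD qq t]) ↔ n ≡ c [MOD qq t * d] := by
  have co : Nat.Coprime (qq t) d := (Nat.coprime_two_left.2 hd).pow_left _
  obtain ⟨c, c1, c2⟩ := Nat.chineseRemainder co (1 + 2 ^ t * y) 0
  refine ⟨c, fun n => ?_⟩
  rw [← Nat.modEq_and_modEq_iff_modEq_mul co]
  constructor
  · rintro ⟨⟨_, a⟩, b⟩
    exact ⟨b.symm.trans c1.symm, ((Nat.modEq_zero_iff_dvd).2 a).trans c2.symm⟩
  · rintro ⟨a, b⟩
    have e := (a.trans c1).of_dvd (dvd_pow_self 2 (by omega : 2 * t ≠ 0))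
    obtain ⟨r, rfl⟩ : ∃ r, t = r + 1 := ⟨t - 1, by omega⟩
    refine ⟨⟨?_, (Nat.modEq_zero_iff_dvd).1 (b.trans c2)⟩, (a.trans c1).symm⟩
    rw [Nat.odd_iff, show n % 2 = _ from e, pow_succ', mul_assoc]
    omega

end Lin

theorem lin (hB : Bas) : LinSt := by
  refine ⟨Lin.one, Lin.two, ⟨fun n => by unfold w0; positivity, 1, 1, le_rfl, le_rfl, by norm_num,
    fun n => le_rfl, Lin.two⟩, fun t F π ht hF hS => ?_⟩
  have g := hB.sp_ge t F π hF hS
  have Q0 : (0 : ℝ) < 2 ^ t := by positivity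
  have π0 : 0 < π := by nlinarith
  have q1 : (2 : ℝ) ^ t ≤ qq t := by
    push_cast
    exact pow_le_pow_right₀ one_le_two (by omega)
  have q2 : (1 : ℝ) ≤ qq t := (one_le_pow₀ one_le_two).trans q1
  have e := Lin.tot ht
  have φ0 : (0 : ℝ) ≤ Nat.totient (qq t) := Nat.cast_nonneg _
  refine ⟨fun n => hB.ww_nonneg t F n hF, qq t, qq t * π, q2, by nlinarith, le_rfl, fun n => ?_,
    fun d P₁ P₂ hd h0 h12 => ?_⟩
  · refine div_le_div_of_nonneg_right (mul_le_mul (by linarith) (Lin.pt hF hS π0.le n)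
      (sum_nonneg fun y _ => hF.1 y) (by linarith)) (Nat.cast_nonneg _)
  · have d0 : (0 : ℝ) < d := by exact_mod_cast hd.pos
    have e1 : ∑ n ∈ iv P₁ P₂ with Odd n ∧ d ∣ n, ww t F n = ∑ y ∈ F.support,
        Nat.totient (qq t) * F.coeff y * ∑ n ∈ iv P₁ P₂ with
          (Odd n ∧ d ∣ n) ∧ 1 + 2 ^ t * y ≡ n [MOD qq t], 1 / (n : ℝ) := by
      simp only [ww, mul_sum, sum_div, sum_filter]
      have z : ∀ (p : Prop) [Decidable p] (f : ℕ → ℝ), (if p then ∑ y ∈ F.support, f y else 0) =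
          ∑ y ∈ F.support, if p then f y else 0 := fun p _ f => by split_ifs <;> simp
      simp only [z]
      rw [sum_comm]
      refine sum_congr rfl fun y _ => sum_congr rfl fun n _ => ?_
      by_cases a : Odd n ∧ d ∣ n <;> by_cases b : 1 + 2 ^ t * y ≡ n [MOD qq t] <;>
        simp only [a, b, and_self, and_true, and_false, if_true, if_false, mul_zero, zero_div]
      ring
    have e2 : Real.log (P₂ / P₁) / (2 * d) = ∑ y ∈ F.support,
        Nat.totient (qq t) * F.coeff y * (Real.log (P₂ / P₁) / (qq t * d : ℕ)) := by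
      rw [← sum_mul, ← mul_sum, hB.sum_coeff F hF, Nat.cast_mul, ← e]
      have : (Nat.totient (qq t) : ℝ) ≠ 0 := by linarith
      field_simp
    rw [e1, e2, ← sum_sub_distrib]
    refine (abs_sum_le_sum_abs _ _).trans ((sum_le_sum (g := fun y =>
      Nat.totient (qq t) * F.coeff y * (1 / P₁)) fun y _ => ?_).trans ?_)
    · obtain ⟨c, hc⟩ := Lin.cls ht hd y
      have n0 := mul_nonneg φ0 (hF.1 y)
      rw [← mul_sub, abs_mul, abs_of_nonneg n0]
      refine mul_le_mul_of_nonneg_left ?_ n0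
      simp only [hc]
      exact Lin.one _ c P₁ P₂ (Nat.mul_pos (by positivity) hd.pos) h0 h12
    · rw [← sum_mul, ← mul_sum, hB.sum_coeff F hF, mul_one, mul_one_div]
      exact div_le_div_of_nonneg_right (by linarith) h0.le

end Pool.Agent.Lib.MP_f6c7cf_nt.FO
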