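import Pool.Agent.Lib.MP_f6c7cf_nt.FO.St

/-!
The mean value of a family against the transform of a law.
-/

namespace Pool.Agent.Lib.MP_f6c7cf_nt.FO

open Finset Filter Topology Polynomial
open Pool.Agent.Lib.MP_9d27bc_nt.C (pr Rough)
open Pool.Agent.Lib.MP_4b1228_nt.GS (vm)
open scoped Classical ComplexConjugate

noncomputable section

namespace M

/-- the energy of the push-forward of a weight -/
theorem fib_sq {α β : Type} [Fintype β] [DecidableEq β] (T : Finset α) (c : α → β) (a : α → ℝ) :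
    ∑ b, (∑ x ∈ T with c x = b, a x) ^ 2 =
      ∑ x ∈ T, ∑ x' ∈ T, if c x' = c x then a x * a x' else 0 := by
  rw [← Finset.sum_fiberwise T c]
  refine Finset.sum_congr rfl fun b _ => ?_
  rw [sq, Finset.sum_mul]
  refine Finset.sum_congr rfl fun x hx => ?_
  rw [(Finset.mem_filter.1 hx).2, Finset.mul_sum, Finset.sum_filter]

/-- pairs of indices against pairs of values -/
theorem cnt {ι : Type} (S : Finset ι) (v : ι → ℕ) (B t K y y' : ℕ) (hM : Mult S v B)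
    (hv : ∀ i ∈ S, 1 ≤ v i ∧ v i ≤ K) :
    #{p ∈ S ×ˢ S | ((v p.2 * (1 + 2 ^ t * y') : ℕ) : ZMod (qq t)) =
        ((v p.1 * (1 + 2 ^ t * y) : ℕ) : ZMod (qq t))} ≤
      B ^ 2 * #{h ∈ Icc (-(K : ℤ)) K ×ˢ Icc (-(K : ℤ)) K | h.1 ≠ 0 ∧ h.2 ≠ 0 ∧
        h.1 * (1 + 2 ^ t * y') ≡ h.2 * (1 + 2 ^ t * y) [ZMOD (qq t : ℕ)]} := by
  refine Finset.card_le_mul_card_image_of_maps_to
    (f := fun p : ι × ι => ((v p.2 : ℤ), (v p.1 : ℤ))) (fun p hp => ?_) _ fun h _ => ?_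
  · obtain ⟨h1, h2⟩ := Finset.mem_filter.1 hp
    obtain ⟨a1, a2⟩ := Finset.mem_product.1 h1
    have b1 := hv _ a1
    have b2 := hv _ a2
    refine Finset.mem_filter.2 ⟨Finset.mem_product.2 ⟨Finset.mem_Icc.2 ⟨?_, ?_⟩,
      Finset.mem_Icc.2 ⟨?_, ?_⟩⟩, ?_, ?_, ?_⟩
    · show -(K : ℤ) ≤ v p.2
      omega
    · show (v p.2 : ℤ) ≤ K
      omega
    · show -(K : ℤ) ≤ v p.1
      omega
    · show (v p.1 : ℤ) ≤ K
      omega
    · show (v p.2 : ℤ) ≠ 0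
      omega
    · show (v p.1 : ℤ) ≠ 0
      omega
    · have := Int.natCast_modEq_iff.2 ((ZMod.natCast_eq_natCast_iff _ _ _).1 h2)
      push_cast at this ⊢
      exact this
  · refine (Finset.card_le_card (t := {i ∈ S | v i = h.2.toNat} ×ˢ {i ∈ S | v i = h.1.toNat})
      fun p hp => ?_).trans ?_
    · obtain ⟨h1, h2⟩ := Finset.mem_filter.1 hp
      obtain ⟨a1, a2⟩ := Finset.mem_product.1 (Finset.mem_filter.1 h1).1
      subst h2
      exact Finset.mem_product.2 ⟨Finset.mem_filter.2 ⟨a1, by simp⟩,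
        Finset.mem_filter.2 ⟨a2, by simp⟩⟩
    · rw [Finset.card_product, sq]
      exact Nat.mul_le_mul (hM _) (hM _)

/-- one piece -/
theorem piece (hB : Bas) {ι : Type} (S : Finset ι) (v : ι → ℕ) (B t K : ℕ) (F : ℝ[X]) (U : ℝ)
    (hM : Mult S v B) (hF : Prob F) (hU : 1 ≤ U) (hv : ∀ i ∈ S, U ≤ v i ∧ v i ≤ K) :
    ∑ χ : Ch t, ‖WW F χ‖ ^ 2 * ‖hat S v χ‖ ^ 2 ≤
      (qq t : ℝ) * ((B : ℝ) ^ 2 / U ^ 2 * JN t F K) := by
  set c : ℕ × ι → ZMod (qq t) := fun x => ((v x.2 * (1 + 2 ^ t * x.1) : ℕ) : ZMod (qq t)) with hc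
  set a : ℕ × ι → ℝ := fun x => F.coeff x.1 / v x.2 with ha
  set g : ZMod (qq t) → ℝ := fun b => ∑ x ∈ F.support ×ˢ S with c x = b, a x with hg
  have e1 : ∀ χ : Ch t, WW F χ * hat S v χ = ∑ b, χ b * (g b : ℂ) := fun χ => by
    rw [hB.WW_eq, hat, Finset.sum_mul_sum, ← Finset.sum_product',
      ← Finset.sum_fiberwise (F.support ×ˢ S) c]
    refine Finset.sum_congr rfl fun b _ => ?_
    rw [hg]
    push_cast
    rw [Finset.mul_sum]
    refine Finset.sum_congr rfl fun x hx => ?_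
    rw [← (Finset.mem_filter.1 hx).2, hc, ha]
    simp only [Nat.cast_mul (v x.2), map_mul]
    push_cast
    ring
  have e2 : ∑ χ : Ch t, ‖WW F χ‖ ^ 2 * ‖hat S v χ‖ ^ 2 =
      ∑ χ : Ch t, ‖∑ b, χ b * (g b : ℂ)‖ ^ 2 :=
    Finset.sum_congr rfl fun χ _ => by rw [← e1, norm_mul, mul_pow]
  have e3 : ∑ b, ‖(g b : ℂ)‖ ^ 2 = ∑ b, g b ^ 2 :=
    Finset.sum_congr rfl fun b _ => by rw [Complex.norm_real, Real.norm_eq_abs, sq_abs]
  have hU0 : 0 < U := by linarith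
  have e4 : ∑ b, g b ^ 2 ≤ (B : ℝ) ^ 2 / U ^ 2 * JN t F K := by
    rw [hg, fib_sq, Finset.sum_product, JN, Finset.mul_sum]
    refine Finset.sum_le_sum fun y _ => ?_
    simp only [Finset.sum_product]
    rw [Finset.sum_comm, Finset.mul_sum]
    refine Finset.sum_le_sum fun y' _ => ?_
    have hn : 0 ≤ F.coeff y * F.coeff y' := mul_nonneg (hF.1 y) (hF.1 y')
    have h1 := cnt S v B t K y y' hM fun i hi => ⟨by
      have := (hv i hi).1
      exact_mod_cast hU.trans this, (hv i hi).2⟩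
    have h2 : ((#{p ∈ S ×ˢ S | ((v p.2 * (1 + 2 ^ t * y') : ℕ) : ZMod (qq t)) =
        ((v p.1 * (1 + 2 ^ t * y) : ℕ) : ZMod (qq t))} : ℕ) : ℝ) ≤ _ := Nat.cast_le.2 h1
    rw [← Finset.sum_product', ← Finset.sum_filter]
    refine (Finset.sum_le_card_nsmul _ _ (F.coeff y * F.coeff y' / U ^ 2) fun p hp => ?_).trans ?_
    · obtain ⟨a1, a2⟩ := Finset.mem_product.1 (Finset.mem_filter.1 hp).1
      have b1 := (hv _ a1).1
      have b2 := (hv _ a2).1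
      rw [ha]
      simp only
      rw [div_mul_div_comm]
      exact div_le_div_of_nonneg_left hn (by positivity)
        (by rw [sq]; exact mul_le_mul b1 b2 hU0.le (hU0.le.trans b1))
    · rw [nsmul_eq_mul]
      refine (mul_le_mul_of_nonneg_right h2 (by positivity)).trans (le_of_eq ?_)
      push_cast
      ring
  rw [e2]
  refine (hB.orth t _).trans ?_
  rw [e3]
  exact mul_le_mul (Nat.cast_le.2 (Nat.totient_le _)) e4
    (Finset.sum_nonneg fun _ _ => sq_nonneg _) (Nat.cast_nonneg _)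

theorem log_two_le {Y : ℝ} (h : 1 ≤ Y) :
    ((Nat.log 2 ⌊Y⌋₊ + 1 : ℕ) : ℝ) ≤ 2 * (1 + Real.log Y) := by
  have h0 : ⌊Y⌋₊ ≠ 0 := (Nat.floor_pos.2 h).ne'
  have h1 : ((2 : ℝ)) ^ Nat.log 2 ⌊Y⌋₊ ≤ Y := by
    have : ((2 ^ Nat.log 2 ⌊Y⌋₊ : ℕ) : ℝ) ≤ ⌊Y⌋₊ := Nat.cast_le.2 (Nat.pow_log_le_self 2 h0)
    push_cast at this
    exact this.trans (Nat.floor_le (by linarith))
  have h2 := Real.log_le_log (by positivity) h1
  rw [Real.log_pow] at h2
  have h3 := Real.log_two_gt_d9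
  have h4 : (0 : ℝ) ≤ Nat.log 2 ⌊Y⌋₊ := Nat.cast_nonneg _
  push_cast
  nlinarith

end M

theorem mv (hB : Bas) (h1 : JSt) : MSt := by
  refine ⟨256, by norm_num, fun ι S v B t F π Y₁ Y₂ hM ht hF hS hY1 hY hv => ?_⟩
  set N := Nat.log 2 ⌊Y₂⌋₊ + 1 with hN
  have hq : (0 : ℝ) < qq t := by positivity
  have hπ : 0 ≤ π := by
    have := hB.sp_ge t F π hF hS
    by_contra h
    have h2 : (0 : ℝ) < 2 ^ t := by positivity
    nlinarith
  have hY0 : 0 < Y₁ := by linarith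
  set R : ℝ := 64 * (B : ℝ) ^ 2 * ((t : ℝ) + 1) * (1 + qq t * π / Y₁) with hR
  have hR0 : 0 ≤ R := by positivity
  have hp : ∀ j : ℕ, ∑ χ : Ch t,
      ‖WW F χ‖ ^ 2 * ‖hat {i ∈ S | Nat.log 2 (v i) = j} v χ‖ ^ 2 ≤ R := fun j => by
    rcases ({i ∈ S | Nat.log 2 (v i) = j} : Finset ι).eq_empty_or_nonempty with h | ⟨i₀, h₀⟩
    · rw [h]
      simpa [hat] using hR0
    have hlt : ∀ i ∈ ({i ∈ S | Nat.log 2 (v i) = j} : Finset ι),
        2 ^ j ≤ v i ∧ v i < 2 ^ (j + 1) := fun i hi => by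
      obtain ⟨a, b⟩ := Finset.mem_filter.1 hi
      have c : 1 ≤ v i := by exact_mod_cast hY1.trans (hv i a).1
      rw [← b]
      exact ⟨Nat.pow_log_le_self 2 (by omega), Nat.lt_pow_succ_log_self one_lt_two _⟩
    have hU : (1 : ℝ) ≤ 2 ^ j := one_le_pow₀ one_le_two
    have hU0 : (0 : ℝ) < 2 ^ j := by positivity
    have hY2 : Y₁ ≤ 2 * 2 ^ j := by
      have a := (hv i₀ (Finset.mem_filter.1 h₀).1).1
      have b : ((v i₀ : ℕ) : ℝ) ≤ ((2 ^ (j + 1) : ℕ) : ℝ) := Nat.cast_le.2 (hlt i₀ h₀).2.le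
      push_cast at b
      rw [pow_succ] at b
      linarith
    refine (M.piece hB _ v B t (2 ^ (j + 1)) F (2 ^ j) (fun a => le_trans
      (Finset.card_le_card (Finset.filter_subset_filter _ (Finset.filter_subset _ _))) (hM a)) hF hU
      fun i hi => ⟨by exact_mod_cast (hlt i hi).1, (hlt i hi).2.le⟩).trans ?_
    have hJ := h1 t (2 ^ (j + 1)) F π ht hF hS
    refine (mul_le_mul_of_nonneg_left (mul_le_mul_of_nonneg_left hJ (by positivity)) hq.le).trans ?_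
    have e : (qq t : ℝ) * ((B : ℝ) ^ 2 / (2 ^ j) ^ 2 * (16 * ((2 ^ (j + 1) : ℕ) : ℝ) ^ 2 / qq t +
        8 * ((t : ℝ) + 1) * ((2 ^ (j + 1) : ℕ) : ℝ) * π)) =
        (B : ℝ) ^ 2 * (64 + 32 * ((t : ℝ) + 1) * (qq t * π / (2 * 2 ^ j))) := by
      rw [Nat.cast_pow 2 (j + 1), pow_succ (((2 : ℕ) : ℝ)), Nat.cast_ofNat]
      field_simp
      ring
    rw [e, hR]
    have a1 : qq t * π / (2 * 2 ^ j) ≤ qq t * π / Y₁ :=
      div_le_div_of_nonneg_left (by positivity) hY0 hY2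
    have a2 : 0 ≤ qq t * π / Y₁ := by positivity
    have a3 : (0 : ℝ) ≤ t := Nat.cast_nonneg _
    have a4 : 64 + 32 * ((t : ℝ) + 1) * (qq t * π / (2 * 2 ^ j)) ≤
        64 * ((t : ℝ) + 1) * (1 + qq t * π / Y₁) := by
      nlinarith [mul_le_mul_of_nonneg_left a1 (by positivity : (0 : ℝ) ≤ t + 1),
        mul_nonneg (by positivity : (0 : ℝ) ≤ t + 1) a2]
    refine (mul_le_mul_of_nonneg_left a4 (sq_nonneg _)).trans (le_of_eq ?_)
    ring
  have hs : ∀ χ : Ch t, ‖hat S v χ‖ ^ 2 ≤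
      N * ∑ j ∈ range N, ‖hat {i ∈ S | Nat.log 2 (v i) = j} v χ‖ ^ 2 := fun χ => by
    have e : hat S v χ = ∑ j ∈ range N, hat {i ∈ S | Nat.log 2 (v i) = j} v χ := by
      unfold hat
      refine (Finset.sum_fiberwise_of_maps_to (fun i hi => ?_) _).symm
      rw [Finset.mem_range, hN, Nat.lt_succ_iff]
      exact Nat.log_mono_right (Nat.le_floor (hv i hi).2)
    rw [e]
    refine (pow_le_pow_left₀ (norm_nonneg _) (norm_sum_le _ _) 2).trans ?_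
    simpa using sq_sum_le_card_mul_sum_sq (s := range N)
      (f := fun j => ‖hat {i ∈ S | Nat.log 2 (v i) = j} v χ‖)
  have hN2 : (N : ℝ) ≤ 2 * (1 + Real.log Y₂) := M.log_two_le (hY1.trans hY)
  have hN0 : (0 : ℝ) ≤ N := Nat.cast_nonneg _
  calc ∑ χ : Ch t, ‖WW F χ‖ ^ 2 * ‖hat S v χ‖ ^ 2
      ≤ ∑ χ : Ch t, ‖WW F χ‖ ^ 2 *
          (N * ∑ j ∈ range N, ‖hat {i ∈ S | Nat.log 2 (v i) = j} v χ‖ ^ 2) :=
        Finset.sum_le_sum fun χ _ => mul_le_mul_of_nonneg_left (hs χ) (sq_nonneg _)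
    _ = N * ∑ j ∈ range N, ∑ χ : Ch t,
          ‖WW F χ‖ ^ 2 * ‖hat {i ∈ S | Nat.log 2 (v i) = j} v χ‖ ^ 2 := by
        rw [Finset.sum_comm, Finset.mul_sum]
        refine Finset.sum_congr rfl fun χ _ => ?_
        rw [← Finset.mul_sum]
        ring
    _ ≤ N * (N * R) := by
        refine mul_le_mul_of_nonneg_left ?_ hN0
        simpa using Finset.sum_le_card_nsmul (range N) _ R fun j _ => hp j
    _ = (N : ℝ) ^ 2 * R := by ring
    _ ≤ (2 * (1 + Real.log Y₂)) ^ 2 * R :=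
        mul_le_mul_of_nonneg_right (pow_le_pow_left₀ hN0 hN2 2) hR0
    _ = _ := by rw [hR]; ring

end

end Pool.Agent.Lib.MP_f6c7cf_nt.FO
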