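import Pool.Agent.Lib.MP_f6c7cf_nt.FO.St

/-! Mean values of products of boxes of primes. -/

namespace Pool.Agent.Lib.MP_f6c7cf_nt.FO

open Finset Filter Topology Polynomial
open Pool.Agent.Lib.MP_9d27bc_nt.C (pr Rough)
open Pool.Agent.Lib.MP_4b1228_nt.GS (vm)
open scoped Classical ComplexConjugate

namespace MB

lemma fam (hB : Bas) (hX : Box) {r : ℕ} (jv : Fin r → ℕ) (I : Finset (Fin r)) (j₀ : ℕ)
    (hj : ∀ i, j₀ ≤ jv i) (y : ℝ) (hy : 1 < y) :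
    Mult (Fintype.piFinset fun k : I => Bx y (jv k)) (fun f => ∏ k, f k) (#I ^ #I) ∧
    (∀ f ∈ Fintype.piFinset fun k : I => Bx y (jv k),
      y ^ (∑ i ∈ I, jv i) ≤ (∏ k, f k : ℕ) ∧ ((∏ k, f k : ℕ) : ℝ) ≤ y ^ (∑ i ∈ I, jv i + #I) ∧
        Rough (y ^ j₀) (∏ k, f k)) ∧
    ∀ (t : ℕ) (χ : Ch t),
      hat (Fintype.piFinset fun k : I => Bx y (jv k)) (fun f => ∏ k, f k) χ = hp y jv I χ := by
  refine ⟨?_, fun f hf => ?_, fun t χ => ?_⟩
  · have h := hX.mult_tup I (fun k => Bx y (jv k)) fun k l hl =>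
      ((hX.mem_PP y _ _ l (by linarith)).1 hl).1
    rwa [Fintype.card_coe] at h
  · have h := hX.nm_tup I y j₀ (fun k => jv k) f hy fun k => ⟨hj k, Fintype.mem_piFinset.1 hf k⟩
    rwa [Fintype.card_coe, sum_coe_sort I jv] at h
  · have h := hB.hat_pi I ℕ (fun k => Bx y (jv k)) id t χ
    simp only [id] at h
    rw [h, hp, prod_coe_sort I fun i => hat (Bx y (jv i)) id χ]

lemma t_le {t g : ℕ} {y : ℝ} (h : (qq t : ℝ) ≤ y ^ g) : (t : ℝ) ≤ g * Real.log y := by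
  have h0 : (0 : ℝ) < qq t := by positivity
  have h1 := Real.log_le_log h0 h
  have h2 : Real.log (qq t : ℝ) = 2 * t * Real.log 2 := by
    simp only [qq]
    push_cast
    rw [Real.log_pow]
    push_cast
    ring
  rw [h2, Real.log_pow] at h1
  have h3 := Real.log_two_gt_d9
  have h4 : (0 : ℝ) ≤ t := by positivity
  nlinarith

end MB

open MB

theorem mb (hB : Bas) (hX : Box) (h1 : MSt) : MBSt := by
  obtain ⟨C, hC, h1⟩ := h1
  intro r g jv I ε hε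
  set s := ∑ i ∈ I, jv i with hs
  set K : ℝ := 2 * C * ((#I ^ #I : ℕ) : ℝ) ^ 2 * (g + 1) * (s + #I + 1) ^ 2 + 1 with hK
  have hK0 : 0 < K := by positivity
  have h2 := (isLittleO_log_rpow_rpow_atTop 3 hε).bound (inv_pos.2 hK0)
  filter_upwards [h2, eventually_gt_atTop 1, Real.tendsto_log_atTop.eventually_ge_atTop 1]
    with y h2 hy hl t F π ht hF hS hq hπ
  obtain ⟨m1, m2, m3⟩ := fam hB hX jv I 0 (fun _ => Nat.zero_le _) y hy
  have hs1 : 1 ≤ y ^ s := one_le_pow₀ hy.le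
  have h3 := h1 _ _ _ _ t F π (y ^ s) (y ^ (s + #I)) m1 ht hF hS hs1
    (pow_le_pow_right₀ hy.le (by omega)) fun f hf => ⟨(m2 f hf).1, (m2 f hf).2.1⟩
  simp only [m3] at h3
  refine h3.trans ?_
  have e1 : (t : ℝ) + 1 ≤ (g + 1) * Real.log y := by
    have := t_le hq
    linarith
  have e2 : 1 + Real.log (y ^ (s + #I)) ≤ (s + #I + 1) * Real.log y := by
    rw [Real.log_pow]
    push_cast
    linarith
  have e3 : 1 + qq t * π / y ^ s ≤ 2 := by
    have := (div_le_one (by linarith : 0 < y ^ s)).2 hπ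
    linarith
  have e4 : 0 ≤ 1 + Real.log (y ^ (s + #I)) := by
    have := Real.log_nonneg (one_le_pow₀ hy.le : 1 ≤ y ^ (s + #I))
    linarith
  have hy0 : 0 < y ^ ε := Real.rpow_pos_of_pos (by linarith) _
  have e5 : K * Real.log y ^ 3 ≤ y ^ ε := by
    rw [Real.norm_of_nonneg hy0.le, show (3 : ℝ) = (3 : ℕ) by norm_num, Real.rpow_natCast,
      Real.norm_of_nonneg (by positivity), inv_mul_eq_div, le_div_iff₀ hK0] at h2
    linarith
  calc _ ≤ C * ((#I ^ #I : ℕ) : ℝ) ^ 2 * ((t : ℝ) + 1) * (1 + Real.log (y ^ (s + #I))) ^ 2 * 2 := by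
        gcongr
    _ ≤ C * ((#I ^ #I : ℕ) : ℝ) ^ 2 * ((g + 1) * Real.log y) *
          ((s + #I + 1) * Real.log y) ^ 2 * 2 := by gcongr
    _ = (K - 1) * Real.log y ^ 3 := by rw [hK]; ring
    _ ≤ K * Real.log y ^ 3 := by gcongr; linarith
    _ ≤ _ := e5

theorem hb (hB : Bas) (hX : Box) (h1 : HLSt) : HBSt := by
  obtain ⟨c, θ, C, hθ, hC, h1⟩ := h1
  refine ⟨⌈((c : ℝ) + 2) / θ⌉₊, fun r g j₀ G jv I hj hjv hc hg hG => ?_⟩
  set s := ∑ i ∈ I, jv i with hs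
  refine ⟨C * (((#I ^ #I : ℕ) : ℝ) * (1 + #I)) ^ 2, ?_⟩
  filter_upwards [eventually_ge_atTop 2, Real.tendsto_log_atTop.eventually_ge_atTop 1]
    with y hy hl t U ht hq hU
  have hy1 : 1 < y := by linarith
  obtain ⟨m1, m2, m3⟩ := fam hB hX jv I j₀ hjv y hy1
  have hj1 : (1 : ℝ) ≤ j₀ := by exact_mod_cast hj
  have a1 : (2 : ℝ) ≤ y ^ j₀ := hy.trans (le_self_pow₀ hy1.le (by omega))
  have a2 : (qq t : ℝ) ≤ (y ^ s) ^ 3 := by
    rw [← pow_mul]
    exact hq.trans (pow_le_pow_right₀ hy1.le (by omega))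
  have a3 : (y ^ j₀) ^ c * (#U + 1) ≤ (y ^ s) ^ θ := by
    have b1 : ((c : ℝ) + 2) * j₀ ≤ s * θ := by
      have b2 := (div_le_iff₀ hθ).1 (Nat.le_ceil (((c : ℝ) + 2) / θ))
      have b3 : ((⌈((c : ℝ) + 2) / θ⌉₊ * j₀ : ℕ) : ℝ) ≤ s := by exact_mod_cast hc.trans hG
      push_cast at b3
      nlinarith
    calc (y ^ j₀) ^ c * (#U + 1) ≤ (y ^ j₀) ^ c * y ^ 2 := by gcongr; nlinarith
      _ = y ^ ((j₀ * c + 2 : ℕ) : ℝ) := by rw [Real.rpow_natCast]; ring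
      _ ≤ y ^ ((s : ℝ) * θ) := by
          refine Real.rpow_le_rpow_of_exponent_le hy1.le (le_trans ?_ b1)
          push_cast
          nlinarith
      _ = _ := by rw [Real.rpow_mul (by linarith), Real.rpow_natCast]
  have h3 := h1 _ _ _ _ t U (y ^ j₀) (y ^ s) (y ^ (s + #I)) m1 ht a1 (one_le_pow₀ hy1.le) a2 a3
    (pow_le_pow_right₀ hy1.le (by omega)) m2
  simp only [m3] at h3
  refine h3.trans ?_
  have e1 : y ^ (s + #I) / y ^ s = y ^ #I := by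
    rw [pow_add]
    field_simp
  rw [e1, Real.log_pow, Real.log_pow, mul_div_assoc]
  have e2 : (0 : ℝ) ≤ #I := by positivity
  gcongr
  rw [div_le_iff₀ (by positivity)]
  nlinarith [mul_nonneg e2 (by linarith : 0 ≤ Real.log y), mul_nonneg (mul_nonneg e2
    (by linarith : 0 ≤ Real.log y)) (by linarith : (0 : ℝ) ≤ j₀ - 1)]

end Pool.Agent.Lib.MP_f6c7cf_nt.FO
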