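import Pool.Agent.Lib.MP_f6c7cf_nt.FO.St
import Pool.Agent.Lib.MP_4b1228_nt.GS.Main

/-!
The choice of the parameters.
-/

namespace Pool.Agent.Lib.MP_f6c7cf_nt.FO

open Finset Filter Topology Polynomial
open scoped Classical

/-- The lower bound for a general system of weights. -/
def CoreG : Prop :=
  ∃ (c : ℕ) (C : ℝ), 0 < C ∧ ∀ (Cl : ℝ → (ℕ → ℝ) → Prop) (s : Sv) (η ε : ℝ) (j₀ R g : ℕ),
    Cls Cl g → s.Wt → 0 ≤ η → 0 < ε → 1 ≤ j₀ → s.J₂ + 2 * R + 1 ≤ R * j₀ →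
    g + c * j₀ + 2 ≤ s.J₁ → j₀ ≤ s.J₁ → s.Vis Cl η R j₀ → Asy Cl s.G j₀ s.J₁ →
    ∀ᶠ y : ℝ in atTop, ∀ ω, Cl y ω →
      ∑ J ∈ Icc s.J₁ s.J₂, (1 / ((J : ℝ) + 1) - s.ls j₀ (s.J₂ + 1) R J) -
        (C * η * R * ((s.J₂ : ℝ) - s.J₁ + R + 2) / j₀ + C * 2 ^ R * R / j₀ + ε) ≤
        ∑ π ∈ PP y s.J₁ (s.J₂ + 1), ω π

/-- the system of weights at scale `h` -/
def sv (h Δ : ℕ) (yy : Multiset ℕ → ℝ) : Sv :=
  ⟨10000 * h, 10000 * h + Δ, yy, Good (4150 * h) (2923 * h)⟩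

/-- The certificate. -/
def CertSt : Prop :=
  ∃ (c : ℝ) (h₀ D : ℕ), 0 < c ∧ ∀ h Δ : ℕ, h₀ ≤ h → D * Δ ≤ h → ∃ yy : Multiset ℕ → ℝ,
    (sv h Δ yy).Wt ∧ (∀ M, yy M ≠ 0 → M.sum + 4150 * h ≤ 10000 * h) ∧
    ∀ J j₀ J' R : ℕ, 10000 * h ≤ J → J ≤ 10000 * h + Δ → 1 ≤ j₀ →
      (sv h Δ yy).ls j₀ J' R J ≤ (1 - c) / J

namespace Main

lemma sc_add (s : Sv) (y : ℝ) (j₀ : ℕ) (ω : ℕ → ℝ) :
    s.sc y j₀ ω s.T = (s.sc y j₀ ω fun M => if s.G M then s.T M else 0) +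
      s.sc y j₀ ω fun M => if s.G M then 0 else s.T M := by
  simp only [Sv.sc, ← sum_add_distrib]
  refine sum_congr rfl fun S _ => ?_
  split_ifs <;> simp

lemma lin_mono {K K' : ℝ} {ω : ℕ → ℝ} (h : Lin K ω) (hK : K ≤ K') : Lin K' ω := by
  obtain ⟨a, K₁, K₂, b, c, d, e⟩ := h
  exact ⟨a, K₁, K₂, b, c, d.trans hK, e⟩

lemma c1_lin (hB : Bas) (hL : LinSt) {g γ : ℕ} {y : ℝ} {ω : ℕ → ℝ} (hy : 1 ≤ y)
    (h : C1 g γ y ω) : Lin (y ^ (g + γ)) ω := by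
  rcases h with rfl | ⟨t, F, π, a, b, c, d, e, rfl⟩
  · exact lin_mono hL.2.2.1 (one_le_pow₀ hy)
  · refine lin_mono (hL.2.2.2 t F π a b c) ?_
    have h1 := hB.sp_ge t F π b c
    have h2 : (0 : ℝ) < 2 ^ t := by positivity
    have h3 : 0 ≤ π := by
      by_contra h
      nlinarith [not_le.1 h]
    rw [pow_add]
    have h4 : 0 ≤ (qq t : ℝ) * π := by positivity
    have h5 : 0 ≤ y ^ g := by positivity
    exact mul_le_mul d e h4 h5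

lemma c2_c1 (hB : Bas) {l h : ℕ} {δ y : ℝ} {ω : ℕ → ℝ} (hy : 1 ≤ y)
    (hc : C2 1000 l (5809 / 10000) δ (5840 * h) y ω) : C1 (5840 * h) (4144 * h) y ω := by
  rcases hc with rfl | ⟨t, F, a, ⟨b, c, -⟩, d, rfl⟩
  · exact Or.inl rfl
  · refine Or.inr ⟨t, ∏ i, F i, _, a, hB.prob_prod _ _ _ fun i _ => b i, c univ, d, ?_, rfl⟩
    have e1 : (qq t : ℝ) = (2 : ℝ) ^ (2 * (t : ℝ)) := by
      rw [show 2 * (t : ℝ) = ((2 * t : ℕ) : ℝ) by push_cast; ring, Real.rpow_natCast]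
      push_cast
      rfl
    have e2 : (qq t : ℝ) * (2 : ℝ) ^ (-(5809 / 10000 * (t : ℝ) *
        (#(univ : Finset (Fin 1000)) : ℝ) / ((1000 : ℕ) : ℝ))) =
        (qq t : ℝ) ^ (14191 / 20000 : ℝ) := by
      rw [e1, ← Real.rpow_add two_pos, ← Real.rpow_mul zero_le_two, card_univ, Fintype.card_fin]
      congr 1
      push_cast
      ring
    rw [e2]
    have h0 : (0 : ℝ) ≤ h := Nat.cast_nonneg h
    calc (qq t : ℝ) ^ (14191 / 20000 : ℝ) ≤ (y ^ (5840 * h)) ^ (14191 / 20000 : ℝ) :=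
          Real.rpow_le_rpow (Nat.cast_nonneg _) d (by norm_num)
      _ = y ^ (((5840 * h : ℕ) : ℝ) * (14191 / 20000)) := by
          rw [Real.rpow_mul (by linarith), Real.rpow_natCast]
      _ ≤ y ^ ((4144 * h : ℕ) : ℝ) := by
          apply Real.rpow_le_rpow_of_exponent_le hy
          push_cast
          linarith
      _ = y ^ (4144 * h) := Real.rpow_natCast _ _

lemma spl {h : ℕ} (hh : 1 ≤ h) :
    Spl 1000 (5809 / 10000) (5840 * h) (4150 * h) (10000 * h) := by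
  intro D D' h1 h2 h3
  have hh' : (1 : ℝ) ≤ h := by exact_mod_cast hh
  have a1 : (4150 : ℝ) * h ≤ D := by exact_mod_cast h1
  have a2 : (4150 : ℝ) * h ≤ D' := by exact_mod_cast h2
  have a3 : (10000 : ℝ) * h ≤ D + D' := by exact_mod_cast h3
  obtain ⟨u, hu⟩ : ∃ u : ℝ, u = 1696228 / 1000000 * h := ⟨_, rfl⟩
  have u0 : 0 < u := by rw [hu]; positivity
  obtain ⟨x, hx⟩ : ∃ x : ℝ, x = max 0 (5840 * (h : ℝ) - D) / u := ⟨_, rfl⟩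
  have x0 : 0 ≤ x := by rw [hx]; exact div_nonneg (le_max_left _ _) u0.le
  have x1 : x * u = max 0 (5840 * (h : ℝ) - D) := by rw [hx]; field_simp
  have n1 := Nat.le_ceil x
  have n2 := (Nat.ceil_lt_add_one x0).le
  have x2 : x ≤ 997 := by
    by_contra hc
    have : 997 * u ≤ x * u := by nlinarith [not_le.1 hc]
    rw [x1, hu] at this
    rcases le_max_iff.1 this with k | k <;> linarith
  have n3 : ⌈x⌉₊ ≤ 997 := Nat.ceil_le.2 (by exact_mod_cast x2)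
  obtain ⟨n', hn'⟩ : ∃ n' : ℕ, ⌈x⌉₊ + n' + 1 = 1000 := ⟨999 - ⌈x⌉₊, by omega⟩
  have n4 : (⌈x⌉₊ : ℝ) + n' + 1 = 1000 := by exact_mod_cast hn'
  have e : ∀ n : ℝ, ((5840 * h : ℕ) : ℝ) * (1 - 5809 / 10000 * n / (2 * ((1000 : ℕ) : ℝ))) =
      5840 * h - n * u := fun n => by rw [hu]; push_cast; ring
  refine ⟨⌈x⌉₊, n', hn', ?_, ?_⟩
  · rw [e]
    have : x * u ≤ ⌈x⌉₊ * u := by gcongr
    linarith [le_max_right 0 (5840 * (h : ℝ) - D)]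
  · rw [e]
    have k1 : (998 - x) * u ≤ n' * u := by
      apply mul_le_mul_of_nonneg_right _ u0.le
      linarith
    rw [sub_mul, x1] at k1
    rcases le_total 0 (5840 * (h : ℝ) - D) with k | k
    · rw [max_eq_right k] at k1
      linarith
    · rw [max_eq_left k] at k1
      linarith

end Main

open Main in
theorem coreG (h1 : CoG) (h3 : GdG) (h4 : BdG) : CoreG := by
  obtain ⟨c₁, C₁, hC₁, h1⟩ := h1
  refine ⟨c₁ + 1, C₁, hC₁, ?_⟩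
  intro Cl s η ε j₀ R g hCl hs hη hε hj hR hg hjJ hV hA
  rw [add_mul, one_mul] at hg
  filter_upwards [h1 Cl s η (ε / 3) j₀ R g hCl hs hη (by positivity) hj hR (by omega) hV,
    h3 Cl s (ε / 3) j₀ g hCl hs (by positivity) hj (by omega) hA,
    h4 s (ε / 3) j₀ R hs (by positivity) hj hjJ hR] with y a1 a3 a4 ω hω
  have b1 := (abs_le.1 (a1 ω hω)).1
  obtain ⟨b3, b4⟩ := a3 ω hω
  have b3' := (abs_le.1 b3).2
  have s1 := sc_add s y j₀ ω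
  have s2 := sc_add s y j₀ w0
  linarith

open Main Pool.Agent.Lib.MP_4b1228_nt in
theorem main (hB : Bas) (hX : Box) (hL : LinSt) (h1 : CoreG) (h2 : VisSt) (h3 : T3St)
    (h4 : CertSt) : MainSt := by
  intro l
  obtain ⟨c₁, C₁, hC₁, h1⟩ := h1
  obtain ⟨CV, hCV, h2⟩ := h2
  obtain ⟨c₃, h3⟩ := h3
  obtain ⟨c, h₀, D, hc, h4⟩ := h4
  obtain ⟨k, hk⟩ := GS.Main.ex_k (10000 * 56) (10000 * (87 + c₁ + c₃ + D) + 1)
    (32 * (C₁ * CV) / c + CV) (by positivity)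
  obtain ⟨R', hR'⟩ : ∃ R' : ℕ, R' = 14 * (4 * k + 6) + 3 + c₁ + c₃ + D := ⟨_, rfl⟩
  obtain ⟨R, hR⟩ : ∃ R : ℕ, R = 10000 * R' + 1 := ⟨_, rfl⟩
  have hkR : 10000 * 56 * k + (10000 * (87 + c₁ + c₃ + D) + 1) = R := by
    rw [hR, hR']; ring
  rw [hkR] at hk
  have hR1 : (1 : ℝ) ≤ R := by exact_mod_cast (by omega : 1 ≤ R)
  have hR2 : (1 : ℝ) ≤ (R : ℝ) ^ 2 := one_le_pow₀ hR1
  have hq1 : 0 ≤ 32 * (C₁ * CV) / c := by positivity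
  have hka : 32 * (C₁ * CV) / c * (R : ℝ) ^ 2 ≤ 2 ^ k := by nlinarith
  have hkb : CV ≤ 2 ^ k := by nlinarith
  obtain ⟨Δ, hΔ1, hΔ2⟩ : ∃ Δ : ℕ, R ≤ Δ ∧ 16 * C₁ * 2 ^ R * (R : ℝ) ^ 2 / c ≤ Δ := by
    refine ⟨⌈16 * C₁ * 2 ^ R * (R : ℝ) ^ 2 / c⌉₊ + R, by omega, ?_⟩
    push_cast
    linarith [Nat.le_ceil (16 * C₁ * 2 ^ R * (R : ℝ) ^ 2 / c)]
  obtain ⟨j₀, hj1, hj2, hj3, hj4⟩ : ∃ j₀ : ℕ, Δ + 2 * R + 1 ≤ j₀ ∧ h₀ ≤ j₀ ∧ 2 / c ≤ j₀ ∧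
      64 * 1 * ((Δ : ℝ) + 1) * R / c ≤ j₀ := by
    refine ⟨Δ + 2 * R + 1 + h₀ + ⌈2 / c⌉₊ + ⌈64 * 1 * ((Δ : ℝ) + 1) * R / c⌉₊,
      by omega, by omega, ?_, ?_⟩
    · exact (Nat.le_ceil _).trans (by exact_mod_cast (by omega))
    · exact (Nat.le_ceil _).trans (by exact_mod_cast (by omega))
  have hj0 : 1 ≤ j₀ := by omega
  have hj0' : (1 : ℝ) ≤ j₀ := by exact_mod_cast hj0
  obtain ⟨h, hh⟩ : ∃ h : ℕ, h = R' * j₀ := ⟨_, rfl⟩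
  have hsj : h = 14 * (4 * k + 6) * j₀ + 3 * j₀ + c₁ * j₀ + c₃ * j₀ + D * j₀ := by
    rw [hh, hR']; ring
  have hRj : R * j₀ = 10000 * h + j₀ := by rw [hR, hh]; ring
  have hD : D * Δ ≤ D * j₀ := Nat.mul_le_mul_left _ (by omega)
  obtain ⟨yy, hW, hS, hLs⟩ := h4 h Δ (by omega) (by omega)
  have hCl : Cls (C2 1000 l (5809 / 10000) (1 / 10000) (5840 * h)) (5840 * h + 4144 * h) :=
    ⟨fun _ => Or.inl rfl, fun y ω hy hω => c1_lin hB hL hy (c2_c1 hB hy hω)⟩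
  set p := sv h Δ yy with hp
  have eJ₁ : p.J₁ = 10000 * h := rfl
  have eJ₂ : p.J₂ = 10000 * h + Δ := rfl
  have hV : p.Vis (C2 1000 l (5809 / 10000) (1 / 10000) (5840 * h)) (CV / 2 ^ k) R j₀ := by
    intro M hM ε hε
    filter_upwards [h2 k hkb (5840 * h) (4144 * h) (4150 * h) p.J₁ p.J₂ R j₀ M hj0 (by omega)
      (by omega) (by omega) (by omega) (hS M hM) ε hε, eventually_ge_atTop (1 : ℝ)]
      with y a hy ω hω
    exact a ω (c2_c1 hB hy hω)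
  have hA : Asy (C2 1000 l (5809 / 10000) (1 / 10000) (5840 * h)) p.G j₀ p.J₁ := by
    refine h3 1000 l _ _ _ (4150 * h) (2923 * h) (10000 * h) j₀ (by norm_num) (by norm_num)
      (by norm_num) (spl (by omega)) ?_ hj0 (by omega)
    have : (0 : ℝ) ≤ h := Nat.cast_nonneg h
    push_cast
    linarith
  set m : ℝ := ((Δ : ℝ) + 1) * (c / (2 * ((R : ℝ) * j₀))) with hm
  have hm0 : 0 < m := by positivity
  have k1 := h1 _ p (CV / 2 ^ k) (m / 8) j₀ R _ hCl hW (by positivity) (by positivity) hj0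
    (by omega) (by omega) (by omega) hV hA
  have k4 := GS.Main.low c hc (10000 * h) Δ (R * j₀) (fun J => p.ls j₀ (p.J₂ + 1) R J)
    (hj3.trans (by exact_mod_cast (by omega))) (by omega)
    (fun J ha hb => hLs J j₀ (p.J₂ + 1) R ha hb hj0)
  have hΔ1' : (R : ℝ) ≤ Δ := by exact_mod_cast hΔ1
  have hU : 0 < (2 : ℝ) ^ R / CV := by positivity
  obtain ⟨e1, e2, -⟩ := GS.Main.errs c (C₁ * CV) 1 R Δ j₀ (2 ^ k) (2 ^ R / CV) hc (by positivity)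
    one_pos hR1 (by linarith) (by positivity) hU hΔ1' hka
    (le_trans (le_of_eq (by field_simp)) hΔ2) hj4
  refine ⟨h, m / 4, by omega, by positivity, ?_⟩
  filter_upwards [k1, eventually_ge_atTop (1 : ℝ)] with y a1 hy t F ht hF hq
  have b1 := a1 _ (Or.inr ⟨t, F, ht, hF, hq, rfl⟩)
  have y1 : (p.J₂ : ℝ) - p.J₁ = Δ := by rw [eJ₁, eJ₂]; push_cast; ring
  rw [y1] at b1
  have k4' : m ≤ ∑ J ∈ Icc p.J₁ p.J₂, (1 / ((J : ℝ) + 1) - p.ls j₀ (p.J₂ + 1) R J) := by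
    rw [hm]
    have := k4
    rw [Nat.cast_mul] at this
    exact this
  have f1 : C₁ * (CV / 2 ^ k) * R * ((Δ : ℝ) + R + 2) / j₀ =
      C₁ * CV * R * (Δ + R + 2) / (2 ^ k * j₀) := by field_simp
  have f2 : C₁ * CV * (2 ^ R / CV) * R / j₀ = C₁ * 2 ^ R * R / j₀ := by field_simp
  rw [f1] at b1
  rw [f2] at e2
  have f3 : ∑ π ∈ PP y p.J₁ (p.J₂ + 1), ww t (∏ i, F i) π ≤
      ∑ π ∈ PP y (10000 * h) (10001 * h), ww t (∏ i, F i) π := by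
    refine sum_le_sum_of_subset_of_nonneg (fun π hπ => ?_) fun π _ _ =>
      hB.ww_nonneg _ _ _ (hB.prob_prod _ _ _ fun i _ => hF.1 i)
    rw [hX.mem_PP _ _ _ _ (by linarith)] at hπ ⊢
    exact ⟨hπ.1, hπ.2.1, hπ.2.2.trans (pow_le_pow_right₀ hy (by omega))⟩
  linarith

end Pool.Agent.Lib.MP_f6c7cf_nt.FO
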