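import Pool.Agent.Lib.MP_4b1228_nt.GS.St

/-!
Primes with few ones in the binary expansion: definitions and the statements of all blocks.
-/

namespace Pool.Agent.Lib.MP_f6c7cf_nt.FO

open Finset Filter Topology Polynomial
open Pool.Agent.Lib.MP_9d27bc_nt.C (pr Rough)
open Pool.Agent.Lib.MP_4b1228_nt.GS (vm)
open scoped Classical ComplexConjugate

noncomputable section

/-! ### Definitions -/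

/-- the sum of the binary digits -/
def s2 (n : ℕ) : ℕ := (Nat.digits 2 n).sum

/-- the modulus -/
abbrev qq (t : ℕ) : ℕ := 2 ^ (2 * t)

/-- the characters -/
abbrev Ch (t : ℕ) : Type := DirichletCharacter ℂ (qq t)

/-- the characters other than the principal one -/
def nz (t : ℕ) : Finset (Ch t) := univ.erase 1

/-- the coefficients form a probability law -/
def Prob (F : ℝ[X]) : Prop := (∀ n, 0 ≤ F.coeff n) ∧ F.eval 1 = 1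

/-- every class modulo `2 ^ t` has mass at most `π` -/
def Sp (t : ℕ) (F : ℝ[X]) (π : ℝ) : Prop :=
  ∀ a : ℕ, ∑ y ∈ F.support with y ≡ a [MOD 2 ^ t], F.coeff y ≤ π

/-- the transform of the law -/
def WW {t : ℕ} (F : ℝ[X]) (χ : Ch t) : ℂ := aeval (χ ((1 + 2 ^ t : ℕ) : ZMod (qq t))) F

/-- the weight -/
def ww (t : ℕ) (F : ℝ[X]) (n : ℕ) : ℝ :=
  (Nat.totient (qq t) : ℝ) * (∑ y ∈ F.support with 1 + 2 ^ t * y ≡ n [MOD qq t], F.coeff y) / n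

/-- the model -/
def w0 (n : ℕ) : ℝ := 1 / n

/-- the integers in `(P₁, P₂]` -/
def iv (P₁ P₂ : ℝ) : Finset ℕ := Ioc ⌊P₁⌋₊ ⌊P₂⌋₊

/-- the smooth sums -/
def sm {t : ℕ} (χ : Ch t) (P₁ P₂ : ℝ) : ℂ := ∑ n ∈ iv P₁ P₂, χ n / (n : ℂ)

/-- the density of the rough numbers -/
def VV (z : ℝ) : ℝ := ∏ l ∈ pr 0 z, (1 - 1 / (l : ℝ))

/-- the polynomial of a family -/
def hat {ι : Type} {t : ℕ} (S : Finset ι) (v : ι → ℕ) (χ : Ch t) : ℂ :=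
  ∑ i ∈ S, χ (v i) / (v i : ℂ)

/-- the mass of a family -/
def D0 {ι : Type} (S : Finset ι) (v : ι → ℕ) : ℝ := ∑ i ∈ S, 1 / (v i : ℝ)

/-- every value is taken at most `B` times -/
def Mult {ι : Type} (S : Finset ι) (v : ι → ℕ) (B : ℕ) : Prop := ∀ a : ℕ, #{i ∈ S | v i = a} ≤ B

/-- the weight is well distributed in progressions -/
def Lin (K : ℝ) (ω : ℕ → ℝ) : Prop :=
  (∀ n, 0 ≤ ω n) ∧ ∃ K₁ K₂ : ℝ, 1 ≤ K₁ ∧ 1 ≤ K₂ ∧ K₁ * K₂ ≤ K ∧ (∀ n : ℕ, ω n ≤ K₂ / n) ∧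
    ∀ (d : ℕ) (P₁ P₂ : ℝ), Odd d → 0 < P₁ → P₁ ≤ P₂ →
      |∑ n ∈ iv P₁ P₂ with Odd n ∧ d ∣ n, ω n - Real.log (P₂ / P₁) / (2 * d)| ≤ K₁ / P₁

/-- the weight of the multiples of a family by rough cofactors -/
def AA {ι : Type} (z : ℝ) (ω : ℕ → ℝ) (S : Finset ι) (v : ι → ℕ) (P₁ P₂ : ℝ) : ℝ :=
  ∑ i ∈ S, ∑ m ∈ iv P₁ P₂ with Rough z m, ω (v i * m)

/-- the weight of the rough numbers in `[Y, Y']` -/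
def lay (z : ℝ) (ω : ℕ → ℝ) (Y Y' : ℝ) : ℝ :=
  ∑ n ∈ range (⌊Y'⌋₊ + 1) with Y ≤ (n : ℕ) ∧ Rough z n, ω n

/-- the weight of the rough numbers in `[Y, Y']` divisible by the square of a prime -/
def NN (z : ℝ) (ω : ℕ → ℝ) (Y Y' : ℝ) : ℝ :=
  ∑ n ∈ range (⌊Y'⌋₊ + 1) with Y ≤ (n : ℕ) ∧ Rough z n ∧ ∃ l : ℕ, l.Prime ∧ l ^ 2 ∣ n, ω n

/-- the primes in `(y ^ j, y ^ J]` -/
def PP (y : ℝ) (j J : ℕ) : Finset ℕ := pr (y ^ j) (y ^ J)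

/-- the primes in `(y ^ j, y ^ (j + 1)]` -/
def Bx (y : ℝ) (j : ℕ) : Finset ℕ := PP y j (j + 1)

/-- the index of the box -/
def ix (y : ℝ) (p : ℕ) : ℕ := ⌈Real.logb y p⌉₊ - 1

/-- the multiset of the indices -/
def im (y : ℝ) (S : Finset ℕ) : Multiset ℕ := S.val.map (ix y)

/-- the weight of a cell -/
def cell (y : ℝ) (ω : ℕ → ℝ) {r : ℕ} (jv : Fin r → ℕ) : ℝ :=
  ∑ f ∈ Fintype.piFinset fun i => Bx y (jv i), ω (∏ i, f i)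

/-- the product of the polynomials of some boxes -/
def hp {t r : ℕ} (y : ℝ) (jv : Fin r → ℕ) (I : Finset (Fin r)) (χ : Ch t) : ℂ :=
  ∏ i ∈ I, hat (Bx y (jv i)) id χ

/-- the values at the primes -/
def fp {t : ℕ} (χ : Ch t) (l : ℕ) : ℂ := if l.Prime then χ l else 0

/-! ### Basic facts -/

/-- Laws, characters, weights, families. -/
structure Bas : Prop where
  s2_add : ∀ s a b : ℕ, a < 2 ^ s → s2 (a + 2 ^ s * b) = s2 a + s2 b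
  sum_coeff : ∀ F : ℝ[X], Prob F → ∑ y ∈ F.support, F.coeff y = 1
  prob_one : Prob 1
  prob_mul : ∀ F G : ℝ[X], Prob F → Prob G → Prob (F * G)
  prob_pow : ∀ (F : ℝ[X]) (l : ℕ), Prob F → Prob (F ^ l)
  prob_prod : ∀ (ι : Type) (T : Finset ι) (F : ι → ℝ[X]), (∀ i ∈ T, Prob (F i)) →
    Prob (∏ i ∈ T, F i)
  prob_expand : ∀ (F : ℝ[X]) (p : ℕ), 0 < p → Prob F → Prob (expand ℝ p F)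
  sp_one : ∀ (t : ℕ) (F : ℝ[X]), Prob F → Sp t F 1
  sp_mono : ∀ (t : ℕ) (F : ℝ[X]) (π π' : ℝ), π ≤ π' → Sp t F π → Sp t F π'
  sp_ge : ∀ (t : ℕ) (F : ℝ[X]) (π : ℝ), Prob F → Sp t F π → 1 ≤ 2 ^ t * π
  chi_pow : ∀ (t y : ℕ) (χ : Ch t),
    χ ((1 + 2 ^ t * y : ℕ) : ZMod (qq t)) = χ ((1 + 2 ^ t : ℕ) : ZMod (qq t)) ^ y
  chi_even : ∀ (t n : ℕ) (χ : Ch t), 1 ≤ t → Even n → χ n = 0
  norm_chi : ∀ (t n : ℕ) (χ : Ch t), Odd n → ‖χ n‖ = 1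
  WW_eq : ∀ (t : ℕ) (F : ℝ[X]) (χ : Ch t),
    WW F χ = ∑ y ∈ F.support, (F.coeff y : ℂ) * χ ((1 + 2 ^ t * y : ℕ) : ZMod (qq t))
  WW_le : ∀ (t : ℕ) (F : ℝ[X]) (χ : Ch t), Prob F → ‖WW F χ‖ ≤ 1
  WW_one : ∀ (t : ℕ) (χ : Ch t), WW 1 χ = 1
  WW_mul : ∀ (t : ℕ) (F G : ℝ[X]) (χ : Ch t), WW (F * G) χ = WW F χ * WW G χ
  WW_pow : ∀ (t l : ℕ) (F : ℝ[X]) (χ : Ch t), WW (F ^ l) χ = WW F χ ^ l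
  WW_prod : ∀ (t : ℕ) (ι : Type) (T : Finset ι) (F : ι → ℝ[X]) (χ : Ch t),
    WW (∏ i ∈ T, F i) χ = ∏ i ∈ T, WW (F i) χ
  orth : ∀ (t : ℕ) (g : ZMod (qq t) → ℂ),
    ∑ χ : Ch t, ‖∑ b, χ b * g b‖ ^ 2 ≤ (Nat.totient (qq t) : ℝ) * ∑ b, ‖g b‖ ^ 2
  ww_nonneg : ∀ (t : ℕ) (F : ℝ[X]) (n : ℕ), Prob F → 0 ≤ ww t F n
  ww_eq : ∀ (t : ℕ) (F : ℝ[X]) (n : ℕ), 1 ≤ t →
    (ww t F n : ℂ) = ∑ χ : Ch t, conj (WW F χ) * χ n / (n : ℂ)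
  expand : ∀ (ι : Type) (S : Finset ι) (v : ι → ℕ) (t : ℕ) (F : ℝ[X]), 1 ≤ t → Prob F →
    (∀ i ∈ S, Odd (v i)) →
    |∑ i ∈ S, ww t F (v i) - D0 S v| ≤ ∑ χ ∈ nz t, ‖WW F χ‖ * ‖hat S v χ‖
  hat_le : ∀ (ι : Type) (S : Finset ι) (v : ι → ℕ) (t : ℕ) (χ : Ch t), ‖hat S v χ‖ ≤ D0 S v
  hat_mul : ∀ (ι κ : Type) (S : Finset ι) (v : ι → ℕ) (S' : Finset κ) (v' : κ → ℕ) (t : ℕ)
    (χ : Ch t), hat (S ×ˢ S') (fun w => v w.1 * v' w.2) χ = hat S v χ * hat S' v' χ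
  hat_pi : ∀ (κ : Type) [Fintype κ] [DecidableEq κ] (ι : Type) (S : κ → Finset ι) (v : ι → ℕ)
    (t : ℕ) (χ : Ch t), hat (Fintype.piFinset S) (fun f => ∏ k, v (f k)) χ = ∏ k, hat (S k) v χ
  hat_dvd : ∀ (t d : ℕ) (χ : Ch t) (P₁ P₂ : ℝ), 1 ≤ t → 1 ≤ d → 0 ≤ P₁ → 0 ≤ P₂ →
    ‖hat {n ∈ iv P₁ P₂ | Odd n ∧ d ∣ n} id χ‖ ≤ ‖sm χ (P₁ / d) (P₂ / d)‖
  D0_mul : ∀ (ι κ : Type) (S : Finset ι) (v : ι → ℕ) (S' : Finset κ) (v' : κ → ℕ),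
    D0 (S ×ˢ S') (fun w => v w.1 * v' w.2) = D0 S v * D0 S' v'
  D0_pi : ∀ (κ : Type) [Fintype κ] [DecidableEq κ] (ι : Type) (S : κ → Finset ι) (v : ι → ℕ),
    D0 (Fintype.piFinset S) (fun f => ∏ k, v (f k)) = ∏ k, D0 (S k) v
  D0_le : ∀ (ι : Type) (S : Finset ι) (v : ι → ℕ) (B : ℕ) (Y : ℝ), Mult S v B → 1 ≤ Y →
    (∀ i ∈ S, (v i : ℝ) ≤ Y) → D0 S v ≤ B * (1 + Real.log Y)
  mem_iv : ∀ (P₁ P₂ : ℝ) (n : ℕ), 0 ≤ P₁ → 0 ≤ P₂ → (n ∈ iv P₁ P₂ ↔ P₁ < n ∧ (n : ℝ) ≤ P₂)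

/-- Boxes of primes. -/
structure Box : Prop where
  mem_PP : ∀ (y : ℝ) (j J p : ℕ), 0 ≤ y → (p ∈ PP y j J ↔ p.Prime ∧ y ^ j < p ∧ (p : ℝ) ≤ y ^ J)
  ix_eq : ∀ (y : ℝ) (j p : ℕ), 1 < y → p ∈ Bx y j → ix y p = j
  ix_PP : ∀ (y : ℝ) (j J p : ℕ), 1 < y → p ∈ PP y j J →
    j ≤ ix y p ∧ ix y p < J ∧ p ∈ Bx y (ix y p)
  Bx_sub : ∀ (y : ℝ) (j J k : ℕ), 1 < y → j ≤ k → k < J → Bx y k ⊆ PP y j J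
  sum_PP : ∀ (y : ℝ) (j J : ℕ) (f : ℕ → ℝ), 1 < y →
    ∑ p ∈ PP y j J, f p = ∑ k ∈ Ico j J, ∑ p ∈ Bx y k, f p
  nm_set : ∀ (y : ℝ) (j J : ℕ) (S : Finset ℕ), 1 < y → S ⊆ PP y j J →
    y ^ (im y S).sum ≤ (∏ π ∈ S, π : ℕ) ∧ ((∏ π ∈ S, π : ℕ) : ℝ) ≤ y ^ ((im y S).sum + #S) ∧
    j * #S ≤ (im y S).sum ∧ Rough (y ^ j) (∏ π ∈ S, π)
  nm_tup : ∀ (κ : Type) [Fintype κ] (y : ℝ) (j : ℕ) (jv : κ → ℕ) (f : κ → ℕ), 1 < y →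
    (∀ k, j ≤ jv k ∧ f k ∈ Bx y (jv k)) → y ^ (∑ k, jv k) ≤ (∏ k, f k : ℕ) ∧
    ((∏ k, f k : ℕ) : ℝ) ≤ y ^ (∑ k, jv k + Fintype.card κ) ∧ Rough (y ^ j) (∏ k, f k)
  odd : ∀ (z : ℝ) (n : ℕ), 2 ≤ z → Rough z n → Odd n
  rough_mul : ∀ (z : ℝ) (m n : ℕ), Rough z (m * n) ↔ Rough z m ∧ Rough z n
  D0_box : ∃ C : ℕ, ∀ (y : ℝ) (j : ℕ), 2 ≤ y → 1 ≤ j → D0 (Bx y j) id ≤ C
  exp_PP : ∃ C : ℝ, 0 < C ∧ ∀ (y : ℝ) (j J R : ℕ), 2 ≤ y → 1 ≤ j → 1 ≤ R → J ≤ R * j →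
    D0 (PP y j J).powerset (fun S => ∏ π ∈ S, π) ≤ C * R
  VV_le : ∃ C : ℝ, 0 < C ∧ ∀ z : ℝ, 2 ≤ z → 0 ≤ VV z ∧ VV z ≤ C / Real.log z
  dvd_prod : ∀ (S : Finset ℕ) (p : ℕ), (∀ l ∈ S, l.Prime) → p.Prime → (p ∣ ∏ π ∈ S, π ↔ p ∈ S)
  prod_dvd : ∀ (S : Finset ℕ) (a : ℕ), (∀ l ∈ S, l.Prime) → (∀ p ∈ S, p ∣ a) → ∏ π ∈ S, π ∣ a
  card_dvd : ∀ (y : ℝ) (j J R a : ℕ), 1 < y → 1 ≤ j → a ≠ 0 → (a : ℝ) ≤ y ^ (R * j) →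
    #{p ∈ PP y j J | p ∣ a} ≤ R
  mult_set : ∀ P : Finset ℕ, (∀ l ∈ P, l.Prime) → Mult P.powerset (fun S => ∏ π ∈ S, π) 1
  mult_tup : ∀ (κ : Type) [Fintype κ] [DecidableEq κ] (S : κ → Finset ℕ),
    (∀ k, ∀ l ∈ S k, l.Prime) →
    Mult (Fintype.piFinset S) (fun f => ∏ k, f k) (Fintype.card κ ^ Fintype.card κ)
  nice : ∀ (y : ℝ) (j J a : ℕ), 0 ≤ y → Squarefree a → Rough (y ^ j) a →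
    (∀ l : ℕ, l.Prime → l ∣ a → (l : ℝ) ≤ y ^ J) → ∃ S ⊆ PP y j J, a = ∏ π ∈ S, π
  sqf : ∀ S : Finset ℕ, (∀ l ∈ S, l.Prime) → Squarefree (∏ π ∈ S, π)

/-- The theorem of Mertens. -/
def MertSt : Prop :=
  (∀ a b : ℝ, 0 < a → a ≤ b →
    Tendsto (fun y : ℝ => ∑ l ∈ pr (y ^ a) (y ^ b), 1 / (l : ℝ)) atTop (𝓝 (Real.log (b / a)))) ∧
  ∃ C : ℝ, 1 ≤ C ∧ ∀ σ : ℝ, 1 < σ → σ ≤ 2 →
    (Summable fun n : ℕ => ArithmeticFunction.vonMangoldt n / (n : ℝ) ^ σ) ∧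
    ∑' n : ℕ, ArithmeticFunction.vonMangoldt n / (n : ℝ) ^ σ ≤ 11 / 10 / (σ - 1) + C ∧
    (Summable fun l : ℕ => if l.Prime then Real.log l / (l : ℝ) ^ σ else 0) ∧
    ∑' l : ℕ, (if l.Prime then Real.log l / (l : ℝ) ^ σ else 0) ≤ 11 / 10 / (σ - 1) + C

/-- Progressions. -/
def LinSt : Prop :=
  (∀ (q a : ℕ) (P₁ P₂ : ℝ), 1 ≤ q → 0 < P₁ → P₁ ≤ P₂ →
    |∑ n ∈ iv P₁ P₂ with n ≡ a [MOD q], 1 / (n : ℝ) - Real.log (P₂ / P₁) / q| ≤ 1 / P₁) ∧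
  (∀ (d : ℕ) (P₁ P₂ : ℝ), Odd d → 0 < P₁ → P₁ ≤ P₂ →
    |∑ n ∈ iv P₁ P₂ with Odd n ∧ d ∣ n, 1 / (n : ℝ) - Real.log (P₂ / P₁) / (2 * d)| ≤ 1 / P₁) ∧
  Lin 1 w0 ∧
  ∀ (t : ℕ) (F : ℝ[X]) (π : ℝ), 1 ≤ t → Prob F → Sp t F π → Lin (qq t * (qq t * π)) (ww t F)

/-- The sieve. -/
def TCSt : Prop :=
  ∃ C : ℝ, 0 < C ∧ ∀ k : ℕ, C ≤ 2 ^ k → ∀ (A : Finset ℕ) (w : ℕ → ℝ) (z M E : ℝ), 2 ≤ z →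
    (∀ n ∈ A, 0 ≤ w n) → 0 ≤ M → 0 ≤ E →
    (∀ d : ℕ, Odd d → (d : ℝ) ≤ z ^ (4 * k + 6) →
      |∑ n ∈ A with Odd n ∧ d ∣ n, w n - M / (2 * d)| ≤ E) →
    |∑ n ∈ A with Rough z n, w n - M * VV z| ≤ C / 2 ^ k * (M * VV z) + E * z ^ (2 * (4 * k + 6))

/-- The upper bound for rough numbers. -/
def UBSt : Prop :=
  ∃ (c : ℕ) (C : ℝ), 0 < C ∧ ∀ (z K : ℝ) (ω : ℕ → ℝ) (Y Y' : ℝ), 2 ≤ z → Lin K ω →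
    z ^ c * K ≤ Y → Y ≤ Y' → lay z ω Y Y' ≤ C * (1 + Real.log (Y' / Y)) / Real.log z

/-- Squares are rare. -/
def NNSt : Prop :=
  ∀ A : ℕ, ∀ᶠ z : ℝ in atTop, ∀ (K : ℝ) (ω : ℕ → ℝ) (Y Y' : ℝ), Lin K ω → z * K ≤ Y →
    Y' ≤ z ^ A → NN z ω Y Y' ≤ z ^ (-(1 / 4) : ℝ)

/-! ### Mean values -/

/-- the expected number of solutions -/
def JN (t : ℕ) (F : ℝ[X]) (K : ℕ) : ℝ :=
  ∑ y ∈ F.support, ∑ y' ∈ F.support, F.coeff y * F.coeff y' *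
    #{h ∈ Icc (-(K : ℤ)) K ×ˢ Icc (-(K : ℤ)) K | h.1 ≠ 0 ∧ h.2 ≠ 0 ∧
      h.1 * (1 + 2 ^ t * y') ≡ h.2 * (1 + 2 ^ t * y) [ZMOD (qq t : ℕ)]}

/-- The number of solutions. -/
def JSt : Prop :=
  ∀ (t K : ℕ) (F : ℝ[X]) (π : ℝ), 1 ≤ t → Prob F → Sp t F π →
    JN t F K ≤ 16 * (K : ℝ) ^ 2 / qq t + 8 * ((t : ℝ) + 1) * K * π

/-- The mean value of a family. -/
def MSt : Prop :=
  ∃ C : ℝ, 0 < C ∧ ∀ (ι : Type) (S : Finset ι) (v : ι → ℕ) (B t : ℕ) (F : ℝ[X]) (π Y₁ Y₂ : ℝ),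
    Mult S v B → 1 ≤ t → Prob F → Sp t F π → 1 ≤ Y₁ → Y₁ ≤ Y₂ →
    (∀ i ∈ S, Y₁ ≤ v i ∧ (v i : ℝ) ≤ Y₂) →
    ∑ χ : Ch t, ‖WW F χ‖ ^ 2 * ‖hat S v χ‖ ^ 2 ≤
      C * (B : ℝ) ^ 2 * ((t : ℝ) + 1) * (1 + Real.log Y₂) ^ 2 * (1 + qq t * π / Y₁)

/-- The mean value of a smooth sum. -/
def RSt : Prop :=
  ∃ C : ℝ, 0 < C ∧ ∀ (t : ℕ) (F : ℝ[X]) (π P₁ P₂ : ℝ), 1 ≤ t → Prob F → Sp t F π → 1 ≤ P₁ →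
    P₁ ≤ P₂ → ∑ χ ∈ nz t, ‖WW F χ‖ ^ 2 * ‖sm χ P₁ P₂‖ ^ 2 ≤
      C * ((t : ℝ) + 1) ^ 3 * (1 + Real.log P₂) ^ 2 * (qq t / P₁ ^ 2 + qq t * π / P₁)

/-- the conditions on the lengths -/
def Row (W q π P Y : ℝ) : Prop :=
  W * q ≤ P ^ 2 ∧ W * (q * π) ≤ P ∧ W * q ^ 2 ≤ P ^ 2 * Y ∧ W * (q * (q * π)) ≤ P * Y

/-- One arbitrary factor. -/
def ESt : Prop :=
  ∀ A B : ℕ, ∀ᶠ w : ℝ in atTop, ∀ (ι : Type) (S : Finset ι) (v : ι → ℕ) (t : ℕ) (F : ℝ[X])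
    (π P₁ P₂ Y : ℝ), Mult S v B → 1 ≤ Y → (∀ i ∈ S, Y ≤ v i ∧ (v i : ℝ) ≤ w ^ A) → 1 ≤ t →
    Prob F → Sp t F π → 1 ≤ P₁ → P₁ ≤ P₂ → P₂ ≤ w ^ A → Row (w ^ 12) (qq t) π P₁ Y →
    ∑ χ ∈ nz t, ‖WW F χ‖ * ‖hat S v χ‖ * ‖sm χ P₁ P₂‖ ≤ 1 / w ^ 5

/-- Sums of the first type. -/
def T1St : Prop :=
  ∃ C : ℝ, 0 < C ∧ ∀ k : ℕ, C ≤ 2 ^ k → ∀ A B : ℕ, ∀ᶠ z : ℝ in atTop,
    ∀ (ι : Type) (S : Finset ι) (v : ι → ℕ) (ω : ℕ → ℝ) (P₁ P₂ Y : ℝ), Mult S v B → 1 ≤ Y →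
      (∀ i ∈ S, Y ≤ v i ∧ (v i : ℝ) ≤ z ^ A ∧ Odd (v i)) → (z ^ (4 * k + 6)) ^ 7 ≤ P₁ → P₁ ≤ P₂ →
      P₂ ≤ z ^ A → (ω = w0 ∨ ∃ (t : ℕ) (F : ℝ[X]) (π : ℝ), 1 ≤ t ∧ Prob F ∧ Sp t F π ∧
        Row ((z ^ (4 * k + 6)) ^ 14) (qq t) π P₁ Y ∧ ω = ww t F) →
      |AA z ω S v P₁ P₂ - D0 S v * Real.log (P₂ / P₁) * VV z| ≤
        C / 2 ^ k * (D0 S v * Real.log (P₂ / P₁) * VV z) + 1 / z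

/-! ### Cancellation -/

/-- A power saving for intervals of any polynomial length. -/
def PSt : Prop :=
  ∀ A : ℕ, ∃ θ : ℝ, 0 < θ ∧ θ ≤ 1 / 2 ∧ ∃ C : ℝ, 1 ≤ C ∧
    ∀ (m : ℕ) (χ : DirichletCharacter ℂ (2 ^ m)), χ ≠ 1 → ∀ (a : ℤ) (N : ℕ), 2 ^ m ≤ N ^ A →
      ‖∑ i ∈ range N, χ ((a + i : ℤ) : ZMod (2 ^ m))‖ ≤ C * (N : ℝ) ^ (1 - θ)

/-- The pointwise bound for the smooth sums. -/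
def SmSt : Prop :=
  ∀ A : ℕ, ∃ θ C : ℝ, 0 < θ ∧ θ ≤ 1 / 2 ∧ 1 ≤ C ∧ ∀ (t : ℕ) (χ : Ch t) (P₁ P₂ : ℝ), χ ≠ 1 →
    1 ≤ P₁ → (qq t : ℝ) ≤ P₁ ^ A → ‖sm χ P₁ P₂‖ ≤ C * P₁ ^ (-θ)

/-- The mean value over a thin set of characters, without logarithms. -/
def HLSt : Prop :=
  ∃ (c : ℕ) (θ C : ℝ), 0 < θ ∧ 0 < C ∧ ∀ (ι : Type) (S : Finset ι) (v : ι → ℕ) (B t : ℕ)
    (U : Finset (Ch t)) (z Y Y' : ℝ), Mult S v B → 1 ≤ t → 2 ≤ z → 1 ≤ Y → (qq t : ℝ) ≤ Y ^ 3 →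
    z ^ c * (#U + 1) ≤ Y ^ θ → Y ≤ Y' → (∀ i ∈ S, Y ≤ v i ∧ (v i : ℝ) ≤ Y' ∧ Rough z (v i)) →
    ∑ χ ∈ U, ‖hat S v χ‖ ^ 2 ≤ C * (B * (1 + Real.log (Y' / Y)) / Real.log z) ^ 2

/-- The real characters. -/
def RealSt : Prop :=
  ∃ C : ℝ, ∀ (t : ℕ) (χ : Ch t), χ ≠ 1 → χ ^ 2 = 1 → ∀ σ : ℝ, 1 < σ → σ ≤ 2 →
    ‖LSeries (fun n : ℕ => χ n * (ArithmeticFunction.vonMangoldt n : ℂ)) σ‖ ≤ C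

/-- The logarithmic derivative is small. -/
def DSt : Prop :=
  ∀ (A : ℕ) (ε : ℝ), 0 < ε → ∀ᶠ y : ℝ in atTop, ∀ (t : ℕ) (χ : Ch t), χ ≠ 1 →
    (qq t : ℝ) ≤ y ^ A → ∀ σ : ℝ, 1 < σ → σ ≤ 2 →
      ‖∑' l : ℕ, (Real.log l : ℂ) * fp χ l / (((l : ℝ) ^ σ : ℝ) : ℂ)‖ ≤ ε * Real.log y

/-- Cancellation in a box of primes. -/
def PBSt : Prop :=
  ∀ (j A : ℕ) (ε : ℝ), 1 ≤ j → 0 < ε → ∀ᶠ y : ℝ in atTop, ∀ (t : ℕ) (χ : Ch t), χ ≠ 1 →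
    (qq t : ℝ) ≤ y ^ A → ‖hat (Bx y j) id χ‖ ≤ ε

/-- The mean value of a product of boxes. -/
def MBSt : Prop :=
  ∀ (r g : ℕ) (jv : Fin r → ℕ) (I : Finset (Fin r)) (ε : ℝ), 0 < ε →
    ∀ᶠ y : ℝ in atTop, ∀ (t : ℕ) (F : ℝ[X]) (π : ℝ), 1 ≤ t → Prob F → Sp t F π →
      (qq t : ℝ) ≤ y ^ g → qq t * π ≤ y ^ (∑ i ∈ I, jv i) →
      ∑ χ : Ch t, ‖WW F χ‖ ^ 2 * ‖hp y jv I χ‖ ^ 2 ≤ y ^ ε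

/-- The mean value of a product of boxes over a thin set. -/
def HBSt : Prop :=
  ∃ c : ℕ, ∀ (r g j₀ G : ℕ) (jv : Fin r → ℕ) (I : Finset (Fin r)), 1 ≤ j₀ →
    (∀ i, j₀ ≤ jv i) → c * j₀ ≤ G → g ≤ 3 * G → G ≤ ∑ i ∈ I, jv i → ∃ C : ℝ,
    ∀ᶠ y : ℝ in atTop, ∀ (t : ℕ) (U : Finset (Ch t)), 1 ≤ t → (qq t : ℝ) ≤ y ^ g →
      (#U : ℝ) ≤ y → ∑ χ ∈ U, ‖hp y jv I χ‖ ^ 2 ≤ C

/-! ### Classes of weights, good cells and visible divisors -/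

/-- a class of weights that contains the model -/
def Cls (Cl : ℝ → (ℕ → ℝ) → Prop) (g : ℕ) : Prop :=
  (∀ y, Cl y w0) ∧ ∀ y ω, 1 ≤ y → Cl y ω → Lin (y ^ g) ω

/-- the weights of one law -/
def C1 (g γ : ℕ) (y : ℝ) (ω : ℕ → ℝ) : Prop :=
  ω = w0 ∨ ∃ (t : ℕ) (F : ℝ[X]) (π : ℝ), 1 ≤ t ∧ Prob F ∧ Sp t F π ∧ (qq t : ℝ) ≤ y ^ g ∧
    qq t * π ≤ y ^ γ ∧ ω = ww t F

/-- a product of laws that spread out -/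
def Ok (k l : ℕ) (H δ : ℝ) (t : ℕ) (F : Fin k → ℝ[X]) : Prop :=
  (∀ i, Prob (F i)) ∧ (∀ T : Finset (Fin k), Sp t (∏ i ∈ T, F i) (2 ^ (-(H * t * #T / k)))) ∧
    Sp t ((∏ i, F i) ^ l) (2 ^ ((δ - 1) * t))

/-- the weights of such products -/
def C2 (k l : ℕ) (H δ : ℝ) (g : ℕ) (y : ℝ) (ω : ℕ → ℝ) : Prop :=
  ω = w0 ∨ ∃ (t : ℕ) (F : Fin k → ℝ[X]), 1 ≤ t ∧ Ok k l H δ t F ∧ (qq t : ℝ) ≤ y ^ g ∧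
    ω = ww t (∏ i, F i)

/-- all factors but one can be shared between the two sides -/
def Spl (k : ℕ) (H : ℝ) (g A N : ℕ) : Prop :=
  ∀ D D' : ℕ, A ≤ D → A ≤ D' → N ≤ D + D' → ∃ n n' : ℕ, n + n' + 1 = k ∧
    g * (1 - H * n / (2 * k)) ≤ D ∧ g * (1 - H * n' / (2 * k)) ≤ D'

/-- the good cells -/
def Good (A G : ℕ) (M : Multiset ℕ) : Prop :=
  (∃ D D' : Multiset ℕ, M = D + D' ∧ A ≤ D.sum ∧ A ≤ D'.sum) ∧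
    ∃ U V C : Multiset ℕ, M = U + V + C ∧ C ≠ 0 ∧ G ≤ U.sum ∧ G ≤ V.sum

/-- the weights of the cells with the property `G` agree with the model -/
def Asy (Cl : ℝ → (ℕ → ℝ) → Prop) (G : Multiset ℕ → Prop) (j₀ N : ℕ) : Prop :=
  ∀ (r : ℕ) (jv : Fin r → ℕ) (ε : ℝ), (∀ i, j₀ ≤ jv i) → N ≤ ∑ i, jv i → G (vm jv) → 0 < ε →
    ∀ᶠ y : ℝ in atTop, ∀ ω, Cl y ω → |cell y ω jv - cell y w0 jv| ≤ ε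

/-- Good cells. -/
def T3St : Prop :=
  ∃ c : ℕ, ∀ (k l : ℕ) (H δ : ℝ) (g A G N j₀ : ℕ), 0 ≤ H → H ≤ 2 → 0 ≤ δ → Spl k H g A N →
    (1 + δ) * g ≤ 2 * G → 1 ≤ j₀ → c * j₀ ≤ G → Asy (C2 k l H δ g) (Good A G) j₀ N

/-- the lower end of the range of the cofactor -/
def pA (J₁ : ℕ) (y : ℝ) (a : ℕ) : ℝ := y ^ ((J₁ : ℝ) - a - 1)

/-- the upper end of the range of the cofactor -/
def pB (J₂ : ℕ) (y : ℝ) (R a : ℕ) : ℝ := y ^ ((J₂ : ℝ) + R - a)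

/-- the sets of primes with given indices -/
def FM (y : ℝ) (j₀ J : ℕ) (M : Multiset ℕ) : Finset (Finset ℕ) :=
  {S ∈ (PP y j₀ J).powerset | im y S = M}

/-- the main term for these sets -/
def mT (J₁ J₂ R j₀ : ℕ) (M : Multiset ℕ) (y : ℝ) : ℝ :=
  D0 (FM y j₀ (J₂ + 1) M) (fun S => ∏ π ∈ S, π) *
    Real.log (pB J₂ y R M.sum / pA J₁ y M.sum) * VV (y ^ j₀)

/-- the multiples of these sets have the expected weight -/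
def AsyI (Cl : ℝ → (ℕ → ℝ) → Prop) (η : ℝ) (J₁ J₂ R j₀ : ℕ) (M : Multiset ℕ) : Prop :=
  ∀ ε : ℝ, 0 < ε → ∀ᶠ y : ℝ in atTop, ∀ ω, Cl y ω →
    |AA (y ^ j₀) ω (FM y j₀ (J₂ + 1) M) (fun S => ∏ π ∈ S, π) (pA J₁ y M.sum) (pB J₂ y R M.sum) -
      mT J₁ J₂ R j₀ M y| ≤ η * mT J₁ J₂ R j₀ M y + ε

/-- Visible divisors. -/
def VisSt : Prop :=
  ∃ C : ℝ, 0 < C ∧ ∀ k : ℕ, C ≤ 2 ^ k → ∀ (g γ A J₁ J₂ R j₀ : ℕ) (M : Multiset ℕ), 1 ≤ j₀ →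
    J₁ ≤ J₂ → g ≤ 2 * γ → γ + 14 * (4 * k + 6) * j₀ + 2 ≤ A →
    g + γ + 14 * (4 * k + 6) * j₀ + 2 ≤ J₁ → M.sum + A ≤ J₁ →
    AsyI (C1 g γ) (C / 2 ^ k) J₁ J₂ R j₀ M

/-! ### Sieve weights in general form -/

/-- a system of sieve weights -/
structure Sv where
  /-- the smallest total -/
  J₁ : ℕ
  /-- the largest total -/
  J₂ : ℕ
  /-- the weights -/
  yy : Multiset ℕ → ℝ
  /-- the good cells -/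
  G : Multiset ℕ → Prop

/-- the sum over all divisors -/
def Sv.T (s : Sv) (M : Multiset ℕ) : ℝ := (M.powerset.map s.yy).sum

/-- admissible systems -/
def Sv.Wt (s : Sv) : Prop :=
  2 ≤ s.J₁ ∧ s.J₁ ≤ s.J₂ ∧ s.yy 0 = 1 ∧ (∀ M, |s.yy M| ≤ 100) ∧
  (∀ M, s.J₁ ≤ M.sum → s.yy M = 0) ∧ (∀ M, s.G M → 2 ≤ M.card) ∧
  ∀ M : Multiset ℕ, s.J₁ ≤ M.sum → M.sum ≤ s.J₂ → 2 ≤ M.card → ¬s.G M → s.T M ≤ 0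

/-- the loss -/
def Sv.L (s : Sv) (M : Multiset ℕ) : ℝ := if s.G M then 0 else max 0 (-s.T M)

/-- the sum of the first type -/
def Sv.TI (s : Sv) (y : ℝ) (j₀ R : ℕ) (ω : ℕ → ℝ) : ℝ :=
  ∑ S ∈ (PP y j₀ (s.J₂ + 1)).powerset, s.yy (im y S) *
    ∑ m ∈ iv (pA s.J₁ y (im y S).sum) (pB s.J₂ y R (im y S).sum) with Rough (y ^ j₀) m,
      ω ((∏ π ∈ S, π) * m)

/-- a sum over the sets of primes with total index in the range -/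
def Sv.sc (s : Sv) (y : ℝ) (j₀ : ℕ) (ω : ℕ → ℝ) (F : Multiset ℕ → ℝ) : ℝ :=
  ∑ S ∈ (PP y j₀ (s.J₂ + 1)).powerset with s.J₁ ≤ (im y S).sum ∧ (im y S).sum ≤ s.J₂,
    F (im y S) * ω (∏ π ∈ S, π)

/-- the discrete form of the loss -/
def Sv.ls (s : Sv) (j₀ J' R J : ℕ) : ℝ :=
  ∑ r ∈ range (R + 1), (∑ jv ∈ (Fintype.piFinset fun _ : Fin r => Ico j₀ J') with ∑ i, jv i = J,
    s.L (vm jv) * ∏ i, 1 / (jv i : ℝ)) / r.factorial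

/-- all divisors with a weight are visible -/
def Sv.Vis (s : Sv) (Cl : ℝ → (ℕ → ℝ) → Prop) (η : ℝ) (R j₀ : ℕ) : Prop :=
  ∀ M, s.yy M ≠ 0 → AsyI Cl η s.J₁ s.J₂ R j₀ M

/-- All sums of the first type. -/
def TIG : Prop :=
  ∃ C : ℝ, 0 < C ∧ ∀ (Cl : ℝ → (ℕ → ℝ) → Prop) (s : Sv) (η ε : ℝ) (j₀ R : ℕ), (∀ y, Cl y w0) →
    s.Wt → 0 ≤ η → 0 < ε → 1 ≤ j₀ → s.J₂ + 2 * R + 1 ≤ R * j₀ → s.Vis Cl η R j₀ →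
    ∀ᶠ y : ℝ in atTop, ∀ ω, Cl y ω →
      |s.TI y j₀ R ω - s.TI y j₀ R w0| ≤ C * η * R * ((s.J₂ : ℝ) - s.J₁ + R + 2) / j₀ + ε

/-- The sum of the first type as a sum over sets of primes. -/
def IDG : Prop :=
  ∀ (s : Sv) (y : ℝ) (j₀ R : ℕ) (ω : ℕ → ℝ), (∀ n, 0 ≤ ω n) → s.Wt → 3 ≤ y → 1 ≤ j₀ →
    s.J₂ + 2 * R + 1 ≤ R * j₀ →
    |s.TI y j₀ R ω - s.sc y j₀ ω s.T| ≤
      100 * 2 ^ R * (NN (y ^ j₀) ω (y ^ (s.J₁ - 1)) (y ^ (s.J₂ + 2 * R + 1)) +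
        lay (y ^ j₀) ω (y ^ (s.J₁ - 1)) (y ^ (s.J₁ + R)) +
        lay (y ^ j₀) ω (y ^ s.J₂) (y ^ (s.J₂ + 2 * R + 1)))

/-- The sums over all sets of primes agree. -/
def CoG : Prop :=
  ∃ (c : ℕ) (C : ℝ), 0 < C ∧ ∀ (Cl : ℝ → (ℕ → ℝ) → Prop) (s : Sv) (η ε : ℝ) (j₀ R g : ℕ),
    Cls Cl g → s.Wt → 0 ≤ η → 0 < ε → 1 ≤ j₀ → s.J₂ + 2 * R + 1 ≤ R * j₀ →
    g + c * j₀ + 2 ≤ s.J₁ → s.Vis Cl η R j₀ → ∀ᶠ y : ℝ in atTop, ∀ ω, Cl y ω →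
      |s.sc y j₀ ω s.T - s.sc y j₀ w0 s.T| ≤
        C * η * R * ((s.J₂ : ℝ) - s.J₁ + R + 2) / j₀ + C * 2 ^ R * R / j₀ + ε

/-- From sets of primes to cells. -/
def TupSt : Prop :=
  ∀ (y : ℝ) (j₀ J a b r : ℕ) (ω : ℕ → ℝ) (F : Multiset ℕ → ℝ) (F₀ : ℝ), (∀ n, 0 ≤ ω n) → 2 ≤ y →
    0 ≤ F₀ → (∀ M, M.card = r → |F M| ≤ F₀) → (∀ M, F M ≠ 0 → a ≤ M.sum ∧ M.sum ≤ b) →
    |∑ S ∈ (PP y j₀ J).powerset with #S = r, F (im y S) * ω (∏ π ∈ S, π) -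
        (∑ jv ∈ Fintype.piFinset fun _ : Fin r => Ico j₀ J, F (vm jv) * cell y ω jv) /
          r.factorial| ≤ F₀ * r ^ r * NN (y ^ j₀) ω (y ^ a) (y ^ (b + r))

/-- The sums over the good sets agree; the bad sets. -/
def GdG : Prop :=
  ∀ (Cl : ℝ → (ℕ → ℝ) → Prop) (s : Sv) (ε : ℝ) (j₀ g : ℕ), Cls Cl g → s.Wt → 0 < ε → 1 ≤ j₀ →
    g + j₀ ≤ s.J₁ → Asy Cl s.G j₀ s.J₁ → ∀ᶠ y : ℝ in atTop, ∀ ω, Cl y ω →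
      |(s.sc y j₀ ω fun M => if s.G M then s.T M else 0) -
        s.sc y j₀ w0 fun M => if s.G M then s.T M else 0| ≤ ε ∧
      (s.sc y j₀ ω fun M => if s.G M then 0 else s.T M) ≤ ∑ π ∈ PP y s.J₁ (s.J₂ + 1), ω π

/-- The bad sets in the model. -/
def BdG : Prop :=
  ∀ (s : Sv) (ε : ℝ) (j₀ R : ℕ), s.Wt → 0 < ε → 1 ≤ j₀ → j₀ ≤ s.J₁ → s.J₂ + 2 * R + 1 ≤ R * j₀ →
    ∀ᶠ y : ℝ in atTop, ∑ J ∈ Icc s.J₁ s.J₂, (1 / ((J : ℝ) + 1) - s.ls j₀ (s.J₂ + 1) R J) - ε ≤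
      s.sc y j₀ w0 fun M => if s.G M then 0 else s.T M

/-! ### Digits -/

/-- the law of a block of `b` digits with `κ` ones -/
def blk (b κ : ℕ) : ℝ[X] :=
  ∑ c ∈ range (2 ^ b) with s2 c = κ, monomial c (1 / (b.choose κ : ℝ))

/-- One block. -/
def BlkSt : Prop :=
  (∀ b κ : ℕ, κ ≤ b → Prob (blk b κ) ∧ Sp b (blk b κ) (1 / (b.choose κ : ℝ)) ∧
    ∀ c : ℕ, c ∈ (blk b κ).support ↔ c < 2 ^ b ∧ s2 c = κ) ∧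
  (∀ b κ : ℕ, 1 ≤ κ → κ < b → ∃ c, c ∈ (blk b κ).support ∧ c + 1 ∈ (blk b κ).support) ∧
  2 ^ 11618 ≤ Nat.choose 20000 2780

/-- A high power of a law is almost uniform. -/
def UniSt : Prop :=
  ∀ (b c : ℕ) (B : ℝ[X]), Prob B → c ∈ B.support → c + 1 ∈ B.support →
    ∃ l : ℕ, Sp b (B ^ l) (2 / 2 ^ b)

/-- Laws on different positions. -/
def SpSt : Prop :=
  ∀ (s k : ℕ) (G : ℕ → ℝ[X]), (∀ i, Prob (G i)) →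
    (∀ π : ℕ → ℝ, (∀ i < k, Sp s (G i) (π i)) →
      Sp (k * s) (∏ i ∈ range k, expand ℝ (2 ^ (i * s)) (G i)) (∏ i ∈ range k, π i)) ∧
    ∀ κ : ℕ, (∀ i < k, ∀ c ∈ (G i).support, c < 2 ^ s ∧ s2 c ≤ κ) →
      ∀ y ∈ (∏ i ∈ range k, expand ℝ (2 ^ (i * s)) (G i)).support, y < 2 ^ (k * s) ∧ s2 y ≤ k * κ

/-- The laws exist. -/
def DigSt : Prop :=
  ∃ l : ℕ, ∀ n : ℕ, ∃ (t : ℕ) (F : Fin 1000 → ℝ[X]), n ≤ t ∧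
    Ok 1000 l (5809 / 10000) (1 / 10000) t F ∧
    ∀ y ∈ (∏ i, F i).support, y < 2 ^ t ∧ 1000 * s2 y ≤ 139 * t

/-- Numbers with many ones are rare. -/
def TailSt : Prop :=
  ∀ ε η : ℝ, 0 < ε → 0 < η → ∃ U : ℕ, ∀ V : ℕ,
    ∑ u ∈ Ico U V with (1 / 2 + ε) * Real.logb 2 (u : ℕ) < s2 u, 1 / (u : ℝ) ≤ η

/-! ### The end -/

/-- The lower bound for the weight of the primes. -/
def MainSt : Prop :=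
  ∀ l : ℕ, ∃ (h : ℕ) (c : ℝ), 1 ≤ h ∧ 0 < c ∧ ∀ᶠ y : ℝ in atTop, ∀ (t : ℕ) (F : Fin 1000 → ℝ[X]),
    1 ≤ t → Ok 1000 l (5809 / 10000) (1 / 10000) t F → (qq t : ℝ) ≤ y ^ (5840 * h) →
      c ≤ ∑ p ∈ PP y (10000 * h) (10001 * h), ww t (∏ i, F i) p

/-- The theorem. -/
def FinSt : Prop :=
  {p : ℕ | p.Prime ∧ ((Nat.digits 2 p).sum : ℝ) ≤ 2487 / 10000 * Real.logb 2 p}.Infinite

end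

end Pool.Agent.Lib.MP_f6c7cf_nt.FO
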