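import Pool.Agent.Lib.MP_f6c7cf_nt.FO.St

/-!
Numbers divisible by the square of a large prime have a small weight.
-/

namespace Pool.Agent.Lib.MP_f6c7cf_nt.FO

open Finset Filter Topology Polynomial
open Pool.Agent.Lib.MP_9d27bc_nt.C (pr Rough)
open Pool.Agent.Lib.MP_4b1228_nt.GS (vm)
open scoped Classical ComplexConjugate

namespace NNa

theorem harm (hB : Bas) (S : Finset ℕ) (X : ℝ) (hX : 1 ≤ X) (hS : ∀ n ∈ S, (n : ℝ) ≤ X) :
    ∑ n ∈ S, 1 / (n : ℝ) ≤ 1 + Real.log X := by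
  have := hB.D0_le ℕ S id 1 X (fun a => card_le_one.2 fun x hx y hy =>
    (mem_filter.1 hx).2.trans (mem_filter.1 hy).2.symm) hX hS
  simpa [D0] using this

theorem one (hB : Bas) (z X K Y Y' : ℝ) (ω : ℕ → ℝ) (l : ℕ) (S : Finset ℕ) (hz : 1 ≤ z)
    (hL : Lin K ω) (hY : z * K ≤ Y) (hYY : Y ≤ Y') (hX : Y' ≤ X) (hl : z < l) (ho : Odd l)
    (hS : ∀ n ∈ S, Y ≤ n ∧ (n : ℝ) ≤ Y' ∧ Odd n ∧ l ^ 2 ∣ n) :
    ∑ n ∈ S, ω n ≤ 1 / (l : ℝ) * (3 * (1 + Real.log (2 * X)) / √z) := by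
  obtain ⟨h0, K₁, K₂, k1, k2, k3, h1, h2⟩ := hL
  have k4 : 1 ≤ K₁ * K₂ := one_le_mul_of_one_le_of_one_le k1 k2
  have k5 : z * (K₁ * K₂) ≤ Y := (mul_le_mul_of_nonneg_left k3 (by linarith)).trans hY
  have Y1 : 1 ≤ Y := (one_le_mul_of_one_le_of_one_le hz k4).trans k5
  have l1 : (1 : ℝ) < l := hz.trans_lt hl
  have l0 : (0 : ℝ) < l := by linarith
  have sz : 1 ≤ √z := Real.one_le_sqrt.2 hz
  have s0 : 0 < √z := by linarith
  have sz2 := Real.mul_self_sqrt (zero_le_one.trans hz)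
  set Λ := 1 + Real.log (2 * X) with hΛ
  have Λ1 : 1 ≤ Λ := le_add_of_nonneg_right (Real.log_nonneg (by linarith))
  rcases le_total (l : ℝ) (K₂ * √z) with c | c
  · have e1 : ∑ n ∈ S, ω n ≤ ∑ n ∈ iv (Y / 2) Y' with Odd n ∧ l ^ 2 ∣ n, ω n := by
      refine sum_le_sum_of_subset_of_nonneg (fun n hn => ?_) fun n _ _ => h0 n
      obtain ⟨a1, a2, a3, a4⟩ := hS n hn
      exact mem_filter.2 ⟨(hB.mem_iv _ _ n (by linarith) (by linarith)).2 ⟨by linarith, a2⟩, a3, a4⟩
    have e2 := (abs_le.1 (h2 (l ^ 2) (Y / 2) Y' ho.pow (by linarith) (by linarith))).2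
    have e3 : Real.log (Y' / (Y / 2)) ≤ Λ := by
      have : Real.log (Y' / (Y / 2)) ≤ Real.log (2 * X) :=
        Real.log_le_log (div_pos (by linarith) (by linarith))
          (by rw [div_le_iff₀ (by linarith)]; nlinarith)
      linarith
    have e4 : Real.log (Y' / (Y / 2)) / (2 * ((l ^ 2 : ℕ) : ℝ)) ≤ 1 / (l : ℝ) * (Λ / √z) := by
      have a : √z ≤ l := by nlinarith
      calc _ ≤ Λ / (l * √z) := by
            push_cast
            exact div_le_div₀ (by linarith) e3 (by positivity) (by nlinarith)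
        _ = _ := by field_simp
    have e5 : K₁ / (Y / 2) ≤ 1 / (l : ℝ) * (2 * Λ / √z) := by
      calc _ ≤ 2 / (l * √z) := by
            rw [div_le_div_iff₀ (by linarith) (by positivity)]
            have a : (l : ℝ) * √z ≤ K₂ * z := by nlinarith
            have := mul_le_mul_of_nonneg_left a (zero_le_one.trans k1)
            nlinarith
        _ ≤ 2 * Λ / (l * √z) := by gcongr; linarith
        _ = _ := by field_simp
    calc _ ≤ 1 / (l : ℝ) * (Λ / √z) + 1 / (l : ℝ) * (2 * Λ / √z) := by linarith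
      _ = _ := by ring
  · have e1 : ∑ n ∈ S, ω n ≤ ∑ r ∈ range (⌊X⌋₊ + 1), ω (l ^ 2 * r) := by
      have l2 : l ^ 2 ≠ 0 := pow_ne_zero _ (by exact_mod_cast l0.ne')
      rw [← sum_image (f := ω) fun _ _ _ _ e => mul_left_cancel₀ l2 e]
      refine sum_le_sum_of_subset_of_nonneg (fun n hn => ?_) fun n _ _ => h0 n
      obtain ⟨-, a2, -, r, rfl⟩ := hS n hn
      refine mem_image_of_mem _ (mem_range.2 (Nat.lt_succ_of_le (Nat.le_floor ?_)))
      have : (r : ℝ) ≤ ((l ^ 2 * r : ℕ) : ℝ) := by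
        exact_mod_cast Nat.le_mul_of_pos_left r (Nat.pos_of_ne_zero l2)
      linarith
    have e2 : ∑ r ∈ range (⌊X⌋₊ + 1), ω (l ^ 2 * r) ≤
        K₂ / (l : ℝ) ^ 2 * ∑ r ∈ range (⌊X⌋₊ + 1), 1 / (r : ℝ) := by
      rw [mul_sum]
      refine sum_le_sum fun r _ => (h1 _).trans_eq ?_
      push_cast
      rw [div_mul_div_comm, mul_one]
    have e3 := harm hB (range (⌊X⌋₊ + 1)) X (by linarith) fun n hn =>
      (Nat.le_floor_iff (by linarith)).1 (Nat.le_of_lt_succ (mem_range.1 hn))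
    have e4 : Real.log X ≤ Real.log (2 * X) := Real.log_le_log (by linarith) (by linarith)
    have e5 : K₂ / (l : ℝ) ^ 2 ≤ 1 / (l * √z) := by
      rw [div_le_div_iff₀ (by positivity) (by positivity)]
      nlinarith
    calc _ ≤ 1 / (l * √z) * (3 * Λ) := by
          refine e1.trans (e2.trans (mul_le_mul e5 (by linarith) ?_ (by positivity)))
          exact sum_nonneg fun _ _ => by positivity
      _ = _ := by field_simp

end NNa

open NNa in
theorem nn (hB : Bas) : NNSt := by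
  intro A
  have t := (isLittleO_log_rpow_rpow_atTop 2 (show (0 : ℝ) < 1 / 4 by norm_num)).bound
    (c := 1 / (3 * ((A : ℝ) + 2) ^ 2)) (by positivity)
  filter_upwards [t, eventually_ge_atTop 3] with z t1 hz K ω Y Y' hL hY hY'
  have z0 : 0 < z := by linarith
  have Y0 : 0 < Y := by
    obtain ⟨-, K₁, K₂, k1, k2, k3, -⟩ := hL
    have := one_le_mul_of_one_le_of_one_le k1 k2
    nlinarith
  have mr : ∀ n ∈ range (⌊Y'⌋₊ + 1), Y ≤ (n : ℝ) → (n : ℝ) ≤ Y' := fun n hn h => by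
    have n0 : 0 < n := by exact_mod_cast Y0.trans_le h
    have a := Nat.le_of_lt_succ (mem_range.1 hn)
    exact (Nat.le_floor_iff' n0.ne').1 a
  rcases lt_or_ge Y' Y with l | l
  · rw [NN, sum_eq_zero fun a ha => ?_]
    · positivity
    · have := mr a (mem_filter.1 ha).1 (mem_filter.1 ha).2.1
      linarith [(mem_filter.1 ha).2.1]
  have X1 : 1 ≤ z ^ A := one_le_pow₀ (by linarith)
  set M := 3 * (1 + Real.log (2 * z ^ A)) / √z with hM
  have L0 : 0 ≤ Real.log (2 * z ^ A) := Real.log_nonneg (by linarith)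
  have M0 : 0 ≤ M := by positivity
  have mp : ∀ p, p ∈ pr z (z ^ A) ↔ p.Prime ∧ z < p ∧ (p : ℝ) ≤ z ^ A := fun p => by
    rw [pr, mem_filter, mem_range, Nat.lt_succ_iff, Nat.le_floor_iff (by linarith)]
    tauto
  have e1 : NN z ω Y Y' ≤ ∑ p ∈ pr z (z ^ A),
      ∑ n ∈ range (⌊Y'⌋₊ + 1) with Y ≤ (n : ℕ) ∧ Odd n ∧ p ^ 2 ∣ n, ω n := by
    simp only [NN, sum_filter]
    rw [sum_comm]
    refine sum_le_sum fun a ha => ?_
    have nn : ∀ p ∈ pr z (z ^ A),
        0 ≤ if Y ≤ (a : ℝ) ∧ Odd a ∧ p ^ 2 ∣ a then ω a else 0 := fun i _ =>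
      ite_nonneg (hL.1 a) le_rfl
    split_ifs with g
    · obtain ⟨g1, g2, p, hp, g3⟩ := g
      have g4 : p ∣ a := (dvd_pow_self p two_ne_zero).trans g3
      have a0 : 0 < a := by exact_mod_cast Y0.trans_le g1
      have g5 : (p : ℝ) ≤ a := by exact_mod_cast Nat.le_of_dvd a0 g4
      have g6 : Odd a := by
        refine Nat.not_even_iff_odd.1 fun e => ?_
        have := g2 2 Nat.prime_two e.two_dvd
        push_cast at this
        linarith
      refine (if_pos ⟨g1, g6, g3⟩).ge.trans (single_le_sum nn (a := p) ((mp p).2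
        ⟨hp, g2 p hp g4, g5.trans ((mr a ha g1).trans hY')⟩))
    · exact sum_nonneg nn
  have e2 : NN z ω Y Y' ≤ (∑ p ∈ pr z (z ^ A), 1 / (p : ℝ)) * M := by
    rw [sum_mul]
    refine e1.trans (sum_le_sum fun p hp => one hB z (z ^ A) K Y Y' ω p _ (by linarith) hL hY l
      hY' ((mp p).1 hp).2.1 (((mp p).1 hp).1.odd_of_ne_two ?_) fun a ha =>
        ⟨(mem_filter.1 ha).2.1, mr a (mem_filter.1 ha).1 (mem_filter.1 ha).2.1,
          (mem_filter.1 ha).2.2⟩)
    rintro rfl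
    have := ((mp 2).1 hp).2.1
    push_cast at this
    linarith
  have e3 := harm hB (pr z (z ^ A)) (z ^ A) X1 fun p hp => ((mp p).1 hp).2.2
  have lz : 1 ≤ Real.log z := by
    rw [Real.le_log_iff_exp_le z0]
    linarith [Real.exp_one_lt_d9]
  have e4 : 1 + Real.log (2 * z ^ A) ≤ (A + 2) * Real.log z := by
    rw [Real.log_mul two_ne_zero (by positivity), Real.log_pow]
    linarith [Real.log_two_lt_d9]
  have e5 : Real.log (z ^ A) ≤ Real.log (2 * z ^ A) := Real.log_le_log (by positivity) (by linarith)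
  rw [Real.norm_of_nonneg (by positivity), Real.norm_of_nonneg (by positivity), Real.rpow_two,
    one_div_mul_eq_div, le_div_iff₀ (by positivity)] at t1
  calc _ ≤ ((A + 2) * Real.log z) * (3 * ((A + 2) * Real.log z) / √z) := by
        refine e2.trans (mul_le_mul (by linarith) ?_ (by positivity) (by positivity))
        rw [hM]
        gcongr
    _ = Real.log z ^ 2 * (3 * ((A : ℝ) + 2) ^ 2) / √z := by ring
    _ ≤ z ^ (1 / 4 : ℝ) / √z := by gcongr
    _ = _ := by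
        rw [Real.sqrt_eq_rpow, ← Real.rpow_sub z0]
        norm_num

end Pool.Agent.Lib.MP_f6c7cf_nt.FO
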