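import Mathlib

set_option autoImplicit false

/-! Short character sums to the modulus `2 ^ m`: a power saving for every polynomial range. -/

namespace Pool.Agent.Lib.MP_f6c7cf_nt.FO.P

open Finset Polynomial
open scoped ComplexConjugate Classical

/-- the sum over an interval -/
noncomputable def sm (f : ℤ → ℂ) (a : ℤ) (N : ℕ) : ℂ := ∑ i ∈ range N, f (a + i)

lemma sm_le {f : ℤ → ℂ} (hf : ∀ n, ‖f n‖ ≤ 1) (a : ℤ) (N : ℕ) : ‖sm f a N‖ ≤ N :=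
  (norm_sum_le _ _).trans <| by
    simpa using sum_le_card_nsmul (range N) (fun i => ‖f (a + i)‖) 1 fun i _ => hf _

lemma shift {f : ℤ → ℂ} (hf : ∀ n, ‖f n‖ ≤ 1) (a : ℤ) (N w : ℕ) :
    ‖sm f (a + w) N - sm f a N‖ ≤ 2 * w := by
  induction w with
  | zero => simp
  | succ w ih =>
    have h : sm f (a + (w + 1 : ℕ)) N - sm f (a + w) N = f (a + w + N) - f (a + w) := by
      have h1 := sum_range_succ (fun i : ℕ => f (a + w + i)) N
      have h2 := sum_range_succ' (fun i : ℕ => f (a + w + i)) N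
      have h3 : sm f (a + (w + 1 : ℕ)) N = ∑ i ∈ range N, f (a + w + (i + 1 : ℕ)) :=
        sum_congr rfl fun i _ => by congr 1; push_cast; ring
      rw [h3, sm]
      simp only [Nat.cast_zero, add_zero] at h2
      linear_combination h1 - h2
    have h4 := norm_sub_le (f (a + w + N)) (f (a + w))
    have h5 := norm_add_le (sm f (a + (w + 1 : ℕ)) N - sm f (a + w) N) (sm f (a + w) N - sm f a N)
    rw [sub_add_sub_cancel, h] at h5
    have := hf (a + w + N)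
    have := hf (a + w)
    push_cast at *
    linarith

lemma anti {f : ℤ → ℂ} (hf : ∀ n, ‖f n‖ ≤ 1) {w : ℕ} (h : ∀ n, f (n + w) = -f n) (a : ℤ) (N : ℕ) :
    ‖sm f a N‖ ≤ w := by
  have h1 := shift hf a N w
  have h2 : sm f (a + w) N = -sm f a N := by
    rw [sm, sm, ← sum_neg_distrib]
    exact sum_congr rfl fun i _ => by rw [← h]; congr 1; ring
  have h3 : -sm f a N - sm f a N = (-2) * sm f a N := by ring
  rw [h2, h3, norm_mul] at h1
  simp at h1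
  linarith

lemma vdc {f : ℤ → ℂ} (hf : ∀ n, ‖f n‖ ≤ 1) {t H N : ℕ} (hH : 1 ≤ H) {B : ℝ} (hB : 0 ≤ B)
    (h : ∀ k : ℤ, k ≠ 0 → |k| < H → ∀ a, ‖sm (fun n => f (n + t * k) * conj (f n)) a N‖ ≤ B)
    (a : ℤ) : ‖sm f a N‖ ≤ Real.sqrt (N * (N / H + B)) + 2 * (t * H) := by
  have H0 : (0 : ℝ) < H := by exact_mod_cast hH
  set G : ℕ → ℂ := fun i => ∑ k ∈ range H, f (a + i + t * k) with hG
  have e1 : ∑ i ∈ range N, G i = ∑ k ∈ range H, sm f (a + (t * k : ℕ)) N := by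
    rw [hG, sum_comm]
    exact sum_congr rfl fun k _ => sum_congr rfl fun i _ => by congr 1; push_cast; ring
  have e2 : ‖∑ i ∈ range N, G i - H * sm f a N‖ ≤ H * (2 * (t * H)) := by
    have : (H : ℂ) * sm f a N = ∑ _k ∈ range H, sm f a N := by simp
    rw [e1, this, ← sum_sub_distrib]
    refine (norm_sum_le _ _).trans ?_
    have := sum_le_card_nsmul (range H) (fun k => ‖sm f (a + (t * k : ℕ)) N - sm f a N‖)
      (2 * (t * H) : ℝ) fun k hk => (shift hf a N _).trans <| by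
        have : (k : ℝ) ≤ H := by exact_mod_cast (mem_range.1 hk).le
        push_cast; gcongr
    simpa using this
  have e3 : ∑ i ∈ range N, ‖G i‖ ^ 2 ≤ H * (N + H * B) := by
    have e4 : ((∑ i ∈ range N, ‖G i‖ ^ 2 : ℝ) : ℂ) = ∑ k ∈ range H, ∑ l ∈ range H,
        sm (fun n => f (n + t * ((k : ℤ) - l)) * conj (f n)) (a + t * l) N := by
      push_cast
      simp only [← Complex.mul_conj', hG, map_sum, sum_mul_sum]
      rw [sum_comm]
      refine sum_congr rfl fun k _ => ?_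
      rw [sum_comm]
      refine sum_congr rfl fun l _ => sum_congr rfl fun i _ => ?_
      congr 2
      · ring
      · congr 1; ring
    have e5 : ∑ i ∈ range N, ‖G i‖ ^ 2 = ‖((∑ i ∈ range N, ‖G i‖ ^ 2 : ℝ) : ℂ)‖ := by
      rw [Complex.norm_real, Real.norm_of_nonneg (sum_nonneg fun _ _ => by positivity)]
    rw [e5, e4]
    refine (norm_sum_le _ _).trans ?_
    have e6 : ∀ k ∈ range H, ‖∑ l ∈ range H,
        sm (fun n => f (n + t * ((k : ℤ) - l)) * conj (f n)) (a + t * l) N‖ ≤ N + H * B := by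
      intro k hk
      refine (norm_sum_le _ _).trans ?_
      have e7 : ∀ l ∈ range H, ‖sm (fun n => f (n + t * ((k : ℤ) - l)) * conj (f n)) (a + t * l) N‖ ≤
          (if l = k then (N : ℝ) else 0) + B := by
        intro l hl
        split_ifs with c
        · refine (sm_le (fun n => ?_) _ _).trans (by linarith)
          rw [norm_mul, Complex.norm_conj]
          exact mul_le_one₀ (hf _) (norm_nonneg _) (hf _)
        · rw [zero_add]
          have := mem_range.1 hk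
          have := mem_range.1 hl
          exact h _ (by omega) (by rw [abs_lt]; omega) _
      refine (sum_le_sum e7).trans ?_
      rw [sum_add_distrib, sum_ite_eq' , if_pos hk]
      simp
    simpa only [card_range, nsmul_eq_mul] using sum_le_card_nsmul _ _ _ e6
  have e8 : ‖∑ i ∈ range N, G i‖ ≤ H * Real.sqrt (N * (N / H + B)) := by
    refine (norm_sum_le _ _).trans ?_
    have e9 := sq_sum_le_card_mul_sum_sq (s := range N) (f := fun i => ‖G i‖)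
    rw [card_range] at e9
    refine abs_le_of_sq_le_sq' ?_ (by positivity) |>.2
    rw [mul_pow, Real.sq_sqrt (by positivity)]
    calc _ ≤ N * (H * (N + H * B)) := e9.trans (by gcongr)
      _ = _ := by field_simp
  have e10 := norm_sub_le (∑ i ∈ range N, G i) (∑ i ∈ range N, G i - H * sm f a N)
  rw [sub_sub_cancel, norm_mul, Complex.norm_natCast] at e10
  refine le_of_mul_le_mul_left ?_ H0
  linarith

section alg

variable {R : Type} [CommRing R]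

lemma inv_ex {E : R} (hE : IsNilpotent E) (z : R) : ∃ v, (1 + E * z) * v = 1 :=
  ((Commute.all E z).isNilpotent_mul_right hE).isUnit_one_add.exists_right_inv

lemma step {T : R} (hT : IsNilpotent T) {r : ℕ} (hr : 1 ≤ r) (c h : R) (Q : R[X]) :
    ∃ Q' : R[X], ∀ u u' : R, u' * (1 + T * h * u) = u →
      1 + T ^ r * (c * u' ^ r + T * Q.eval u') = (1 + T ^ r * (c * u ^ r + T * Q.eval u)) *
        (1 + T ^ (r + 1) * (-(c * r * h) * u ^ (r + 1) + T * Q'.eval u)) := by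
  obtain ⟨r, rfl⟩ : ∃ s, r = s + 1 := ⟨r - 1, by omega⟩
  have hE : IsNilpotent (C T : R[X]) := hT.map C
  obtain ⟨v, hv⟩ := inv_ex hE (C h * X)
  obtain ⟨w, hw⟩ := inv_ex hE (C T ^ r * (C c * X ^ (r + 1) + C T * Q))
  obtain ⟨k₁, hk₁⟩ := powAddExpansion (X : R[X]) (X * v - X) (r + 1)
  obtain ⟨k₂, hk₂⟩ := sub_dvd_eval_sub (X * v) (X : R[X]) (Q.map C)
  set δ : R[X] := -(C h * X ^ 2 * v) with hδ
  set W : R[X] := C c * ((r + 1 : ℕ) : R[X]) * X ^ r * (C h ^ 2 * X ^ 3 * v) + C c * k₁ * δ ^ 2 + δ * k₂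
  set L : R[X] := -(C c * ((r + 1 : ℕ) : R[X]) * C h) * X ^ (r + 2)
  refine ⟨W * w - L * (C T ^ r * (C c * X ^ (r + 1) + C T * Q)) * w, fun u u' hu => ?_⟩
  have a1 := congrArg (eval u) hv
  have a2 := congrArg (eval u) hw
  have a3 := congrArg (eval u) hk₁
  have a4 := congrArg (eval u) hk₂
  have a5 : ∀ p : R[X], eval u (eval p (Q.map C)) = Q.eval (p.eval u) := fun p => by
    rw [eval_map, ← comp, eval_comp]
  simp only [eval_sub, a5] at a4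
  simp only [W, L, hδ, eval_mul, eval_add, eval_sub, eval_neg, eval_pow, eval_C, eval_X, eval_one,
    eval_natCast, Nat.add_sub_cancel] at a1 a2 a3 a4 ⊢
  have a6 : u' = u * eval u v := by linear_combination (eval u v) * hu - u' * a1
  have a7 : u * eval u v - u = T * -(h * u ^ 2 * eval u v) := by linear_combination u * a1
  have a8 : u * eval u v - u = T * (-(h * u ^ 2) + T * (h ^ 2 * u ^ 3 * eval u v)) := by
    linear_combination (u - T * h * u ^ 2) * a1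
  rw [add_sub_cancel] at a3
  nth_rewrite 1 [a8] at a3
  rw [a7] at a3 a4
  rw [a6, a3]
  linear_combination (T ^ (r + 1) * T) * a4 - T ^ (r + 3) *
    (c * (r + 1 : ℕ) * u ^ r * (h ^ 2 * u ^ 3 * eval u v) +
      c * eval u k₁ * (h * u ^ 2 * eval u v) ^ 2 - h * u ^ 2 * eval u v * eval u k₂ +
      c * (r + 1 : ℕ) * h * u ^ (r + 2) * (T ^ r * (c * u ^ (r + 1) + T * eval u Q))) * a2

end alg

section chi

variable {m : ℕ} (χ : DirichletCharacter ℂ (2 ^ m))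

lemma two_pow_zero : (2 : ZMod (2 ^ m)) ^ m = 0 := by exact_mod_cast ZMod.natCast_self (2 ^ m)

lemma nil_two (y : ZMod (2 ^ m)) : IsNilpotent (2 * y) :=
  (Commute.all _ y).isNilpotent_mul_right ⟨m, two_pow_zero⟩

lemma unit_add {a : ZMod (2 ^ m)} (ha : IsUnit a) (y : ZMod (2 ^ m)) : IsUnit (a + 2 * y) :=
  (nil_two y).isUnit_add_left_of_commute ha (Commute.all _ _)

lemma unit_add_iff (a y : ZMod (2 ^ m)) : IsUnit (a + 2 * y) ↔ IsUnit a :=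
  ⟨fun h => by simpa using unit_add h (-y), fun h => unit_add h y⟩

lemma even_or_odd (x : ZMod (2 ^ m)) : (∃ y, x = 2 * y) ∨ ∃ y, x = 1 + 2 * y := by
  obtain ⟨n, rfl⟩ := ZMod.intCast_surjective x
  rcases Int.even_or_odd' n with ⟨k, rfl | rfl⟩
  · exact Or.inl ⟨k, by push_cast; ring⟩
  · exact Or.inr ⟨k, by push_cast; ring⟩

lemma unit_odd (hm : 1 ≤ m) {x : ZMod (2 ^ m)} (hx : IsUnit x) : ∃ y, x = 1 + 2 * y := by
  rcases even_or_odd x with ⟨y, rfl⟩ | h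
  · have : Fact (1 < 2 ^ m) := ⟨Nat.one_lt_two_pow (by omega)⟩
    exact absurd hx (nil_two y).not_isUnit
  · exact h

/-- `2 ^ (j + 1)` is the conductor. -/
def Cd (j : ℕ) : Prop :=
  1 ≤ j ∧ j < m ∧ ∀ a b y : ZMod (2 ^ m), IsUnit a → IsUnit b →
    χ (a + 2 ^ j * b + 2 ^ (j + 1) * y) = -χ a

lemma exists_cd (h : χ ≠ 1) : ∃ j, Cd χ j := by
  have hm : 1 ≤ m := by
    by_contra c
    obtain rfl : m = 0 := by omega
    exact h (DirichletCharacter.level_one χ)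
  have ex : ∃ j, ∀ y, χ (1 + 2 ^ (j + 1) * y) = 1 :=
    ⟨m, fun y => by rw [pow_succ (2 : ZMod (2 ^ m)), two_pow_zero]; simp⟩
  have h1 := Nat.find_spec ex
  have h0 : Nat.find ex ≠ 0 := fun c => h <| MulChar.ext fun x => by
    obtain ⟨y, hy⟩ := unit_odd hm x.isUnit
    rw [c] at h1
    rw [MulChar.one_apply_coe, hy]
    simpa using h1 y
  obtain ⟨i, hi⟩ : ∃ i, Nat.find ex = i + 1 := ⟨Nat.find ex - 1, by omega⟩
  have h2 := Nat.find_min ex (m := i) (by omega)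
  rw [hi] at h1
  have hlt : i + 1 < m := by
    by_contra c
    refine h2 fun y => ?_
    obtain ⟨e, he⟩ : ∃ e, i + 1 = m + e := ⟨i + 1 - m, by omega⟩
    rw [he, pow_add (2 : ZMod (2 ^ m)), two_pow_zero]; simp
  have h3 : ∀ y, χ (1 + 2 ^ (i + 1) * (1 + 2 * y)) = χ (1 + 2 ^ (i + 1)) := fun y => by
    obtain ⟨v, hv⟩ := (unit_add isUnit_one ((2 : ZMod (2 ^ m)) ^ i)).exists_right_inv
    rw [← mul_one (χ (1 + 2 ^ (i + 1))), ← h1 (y * v), ← map_mul]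
    congr 1
    linear_combination (-(2 ^ (i + 2) * y)) * hv
  have h4 : χ (1 + 2 ^ (i + 1)) = -1 := by
    have h5 : χ (1 + 2 ^ (i + 1)) ^ 2 = 1 := by
      rw [← map_pow, ← h1 (1 + 2 ^ i)]
      congr 1; ring
    refine (mul_self_eq_one_iff.1 (sq (χ _) ▸ h5)).resolve_left fun c => h2 fun x => ?_
    rcases even_or_odd x with ⟨y, rfl⟩ | ⟨y, rfl⟩
    · rw [← h1 y]; congr 1; ring
    · rw [h3, c]
  refine ⟨i + 1, by omega, hlt, fun a b y ha hb => ?_⟩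
  obtain ⟨v, hv⟩ := ha.exists_right_inv
  obtain ⟨z, hz⟩ := unit_odd hm ((IsUnit.of_mul_eq_one_right _ hv).mul (unit_add hb y))
  rw [← mul_neg_one, ← h4, ← h3 z, ← map_mul, ← hz]
  congr 1
  linear_combination (-(2 ^ (i + 1) * (b + 2 * y))) * hv

/-- the function of level `r` -/
noncomputable def FF (k r : ℕ) (c : ℤ) (Q : (ZMod (2 ^ m))[X]) (n : ℤ) : ℂ :=
  if IsUnit (n : ZMod (2 ^ m)) then
    χ (1 + (2 ^ k) ^ r * (c * (n : ZMod (2 ^ m))⁻¹ ^ r + 2 ^ k * Q.eval (n : ZMod (2 ^ m))⁻¹))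
  else 0

lemma FF_le (k r : ℕ) (c : ℤ) (Q : (ZMod (2 ^ m))[X]) (n : ℤ) : ‖FF χ k r c Q n‖ ≤ 1 := by
  unfold FF
  split_ifs
  · exact χ.norm_le_one _
  · simp

lemma mul_conj_unit {a : ZMod (2 ^ m)} (ha : IsUnit a) (b : ZMod (2 ^ m)) :
    χ (a * b) * conj (χ a) = χ b := by
  have h := χ.unit_norm_eq_one ha.unit
  rw [IsUnit.unit_spec] at h
  rw [map_mul, mul_right_comm, Complex.mul_conj', h]
  simp

lemma inv_rel {x s : ZMod (2 ^ m)} (hx : IsUnit x) (hs : IsUnit (x + s)) :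
    (x + s)⁻¹ * (1 + s * x⁻¹) = x⁻¹ := by
  have h1 := ZMod.mul_inv_of_unit _ hx
  have h2 := ZMod.mul_inv_of_unit _ hs
  linear_combination x⁻¹ * h2 - (x + s)⁻¹ * h1

lemma unit_sh {k : ℕ} (hk : 1 ≤ k) (x h : ZMod (2 ^ m)) : IsUnit (x + 2 ^ k * h) ↔ IsUnit x := by
  obtain ⟨k, rfl⟩ : ∃ s, k = s + 1 := ⟨k - 1, by omega⟩
  rw [← unit_add_iff x (2 ^ k * h)]
  congr! 2; ring

lemma FF_zero {k : ℕ} (hk : 1 ≤ k) (h n : ℤ) :
    χ ((n + (2 ^ k : ℕ) * h : ℤ) : ZMod (2 ^ m)) * conj (χ (n : ZMod (2 ^ m))) = FF χ k 1 h 0 n := by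
  unfold FF
  split_ifs with c
  · rw [← mul_conj_unit χ c (1 + _)]
    congr 2
    push_cast
    simp only [eval_zero]
    linear_combination (-(2 ^ k * (h : ZMod (2 ^ m)))) * ZMod.mul_inv_of_unit _ c
  · rw [χ.map_nonunit c]; simp

lemma FF_step {k r : ℕ} (hk : 1 ≤ k) (hr : 1 ≤ r) (c h : ℤ) (Q : (ZMod (2 ^ m))[X]) :
    ∃ Q', ∀ n : ℤ, FF χ k r c Q (n + (2 ^ k : ℕ) * h) * conj (FF χ k r c Q n) =
      FF χ k (r + 1) (-(c * r * h)) Q' n := by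
  have hT : IsNilpotent ((2 : ZMod (2 ^ m)) ^ k) :=
    IsNilpotent.pow_of_pos ⟨m, two_pow_zero⟩ (by omega)
  obtain ⟨Q', hQ⟩ := step hT hr (c : ZMod (2 ^ m)) h Q
  refine ⟨Q', fun n => ?_⟩
  unfold FF
  push_cast
  by_cases c1 : IsUnit (n : ZMod (2 ^ m))
  · have c2 := (unit_sh hk (n : ZMod (2 ^ m)) h).2 c1
    rw [if_pos c1, if_pos c1, if_pos c2, hQ _ _ (inv_rel c1 c2), mul_conj_unit]
    rw [← pow_mul]
    exact (unit_sh (Nat.mul_pos hk hr) _ _).2 isUnit_one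
  · simp [c1]

/-- the power of two in `c` is at most `V` -/
def Vl (V : ℕ) (c : ℤ) : Prop := ∃ v ≤ V, ∃ o : ℤ, Odd o ∧ c = 2 ^ v * o

lemma Vl.mul {V W : ℕ} {c e : ℤ} (h : Vl V c) (h' : Vl W e) : Vl (V + W) (c * e) := by
  obtain ⟨v, hv, o, ho, rfl⟩ := h
  obtain ⟨w, hw, p, hp, rfl⟩ := h'
  exact ⟨v + w, by omega, o * p, ho.mul hp, by ring⟩

lemma Vl.neg {V : ℕ} {c : ℤ} (h : Vl V c) : Vl V (-c) := by
  obtain ⟨v, hv, o, ho, rfl⟩ := h
  exact ⟨v, hv, -o, ho.neg, by ring⟩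

lemma vl_of {g : ℕ} {h : ℤ} (h0 : h ≠ 0) (h1 : |h| < (2 ^ g : ℕ)) : Vl g h := by
  obtain ⟨v, o, ho, e⟩ := Nat.exists_eq_two_pow_mul_odd (n := h.natAbs) (by omega)
  have h2 : 2 ^ v < 2 ^ g := by
    have : 2 ^ v ≤ h.natAbs := e ▸ Nat.le_mul_of_pos_right _ ho.pos
    rw [Int.abs_eq_natAbs] at h1
    omega
  have h3 : Vl g (h.natAbs : ℤ) :=
    ⟨v, ((Nat.pow_lt_pow_iff_right (by norm_num)).1 h2).le, o, by exact_mod_cast ho, by
      rw [e]; push_cast; rfl⟩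
  rcases Int.natAbs_eq h with c | c
  · rwa [c]
  · rw [c]; exact h3.neg

lemma FF_top {j k d V : ℕ} (hj : Cd χ j) (h1 : j + 1 ≤ k * (d + 1)) (h2 : k * d + 2 * V + 1 ≤ j)
    {c : ℤ} (hc : Vl V (c * d)) (Q : (ZMod (2 ^ m))[X]) (a : ℤ) (N : ℕ) (hk : 1 ≤ k) (hd : 1 ≤ d) :
    ‖sm (FF χ k d c Q) a N‖ ≤ 2 ^ k := by
  obtain ⟨v, hv, o, ⟨p, rfl⟩, hc⟩ := hc
  obtain ⟨e, he⟩ : ∃ e, j = k * d + v + e := ⟨j - (k * d + v), by omega⟩
  obtain ⟨e₁, he₁⟩ : ∃ e₁, k * d + 2 * e = j + 1 + e₁ := ⟨k * d + 2 * e - (j + 1), by omega⟩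
  obtain ⟨e₂, he₂⟩ : ∃ e₂, k * d + k = j + 1 + e₂ := ⟨k * d + k - (j + 1), by
    rw [mul_add] at h1; omega⟩
  refine (anti (FF_le χ k d c Q) (w := 2 ^ e) (fun n => ?_) a N).trans ?_
  · unfold FF
    push_cast
    by_cases c1 : IsUnit (n : ZMod (2 ^ m))
    · have c2 := (unit_sh (k := e) (by omega) (n : ZMod (2 ^ m)) 1).2 c1
      rw [mul_one] at c2
      have r1 := inv_rel c1 c2
      have c3 : IsUnit (n : ZMod (2 ^ m))⁻¹ :=
        IsUnit.of_mul_eq_one_right _ (ZMod.mul_inv_of_unit _ c1)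
      rw [if_pos c1, if_pos c2]
      set u := (n : ZMod (2 ^ m))⁻¹
      set u' := ((n : ZMod (2 ^ m)) + 2 ^ e)⁻¹
      obtain ⟨k₁, hk₁⟩ := powAddExpansion u (u' - u) d
      have hc' : (c : ZMod (2 ^ m)) * d = 2 ^ v * (2 * p + 1) := by exact_mod_cast congrArg _ hc
      have c4 : IsUnit (-((1 + 2 * (p : ZMod (2 ^ m))) * u ^ (d + 1))) :=
        ((unit_add isUnit_one _).mul (c3.pow _)).neg
      have c5 : IsUnit (1 + (2 ^ k) ^ d * ((c : ZMod (2 ^ m)) * u ^ d + 2 ^ k * Q.eval u)) := by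
        rw [← pow_mul]
        exact (unit_sh (Nat.mul_pos hk hd) _ _).2 isUnit_one
      rw [← hj.2.2 _ _ (2 ^ e₁ * (c * d * u ^ (d + 1) * u' + c * k₁ * (u * u') ^ 2) +
        2 ^ e₂ * (Q.eval u' - Q.eval u)) c5 c4]
      congr 1
      obtain ⟨d, rfl⟩ : ∃ s, d = s + 1 := ⟨d - 1, by omega⟩
      have a7 : u' - u = -(2 ^ e * (u * u')) := by linear_combination r1
      have a8 : u' - u = -(2 ^ e * u ^ 2) + (2 ^ e) ^ 2 * (u ^ 2 * u') := by
        linear_combination (1 - 2 ^ e * u) * r1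
      rw [add_sub_cancel, Nat.add_sub_cancel] at hk₁
      nth_rewrite 1 [a8] at hk₁
      rw [a7] at hk₁
      have b1 : (2 : ZMod (2 ^ m)) ^ j = (2 ^ k) ^ (d + 1) * 2 ^ v * 2 ^ e := by
        rw [he, ← pow_mul, pow_add, pow_add]
      have b2 : (2 : ZMod (2 ^ m)) ^ (j + 1) * 2 ^ e₁ = (2 ^ k) ^ (d + 1) * (2 ^ e) ^ 2 := by
        rw [← pow_add, ← he₁, ← pow_mul, ← pow_mul, pow_add, mul_comm e]
      have b3 : (2 : ZMod (2 ^ m)) ^ (j + 1) * 2 ^ e₂ = (2 ^ k) ^ (d + 1) * 2 ^ k := by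
        rw [← pow_add, ← he₂, ← pow_mul, pow_add]
      rw [hk₁]
      linear_combination (-((2 ^ k) ^ (d + 1) * 2 ^ e * u ^ (d + 2))) * hc' +
        (1 + 2 * p) * u ^ (d + 2) * b1 - (Q.eval u' - Q.eval u) * b3 -
        (c * (d + 1 : ℕ) * u ^ (d + 2) * u' + c * k₁ * (u * u') ^ 2) * b2
    · have c2 := (unit_sh (k := e) (by omega) (n : ZMod (2 ^ m)) 1).not.2 c1
      rw [mul_one] at c2
      simp [c1, c2]
  · exact_mod_cast Nat.pow_le_pow_right (by norm_num) (by omega)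

lemma lev {j k d g N : ℕ} {γ : ℝ} (hj : Cd χ j) (hk : 1 ≤ k) (h1 : j + 1 ≤ k * (d + 1))
    (h2 : k * d + 2 * (d * (g + d) + d) + 1 ≤ j) (γ0 : 0 < γ) (γ1 : γ ≤ 1)
    (h3 : 1 / (2 ^ g : ℝ) ≤ γ ^ 2 ^ d) (h4 : 2 * (2 ^ k * 2 ^ g : ℝ) ≤ N * γ ^ 2 ^ d) :
    (∀ {f : ℤ → ℂ} {r : ℕ}, r < d → (∀ n, ‖f n‖ ≤ 1) →
      (∀ h : ℤ, h ≠ 0 → |h| < (2 ^ g : ℕ) → ∀ a, ‖sm (fun n => f (n + (2 ^ k : ℕ) * h) * conj (f n)) a N‖ ≤
        3 * N * γ ^ 2 ^ (r + 1)) → ∀ a, ‖sm f a N‖ ≤ 3 * N * γ ^ 2 ^ r) ∧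
    ∀ i r : ℕ, r + i = d → 1 ≤ r → ∀ (c : ℤ) (Q : (ZMod (2 ^ m))[X]), Vl (r * (g + d)) c → ∀ a,
      ‖sm (FF χ k r c Q) a N‖ ≤ 3 * N * γ ^ 2 ^ r := by
  have hvl : ∀ r : ℕ, 1 ≤ r → r ≤ d → Vl d r := fun r a b => vl_of (by omega) <| by
    have := @Nat.lt_two_pow_self d
    rw [Nat.abs_cast]; omega
  have key : ∀ {f : ℤ → ℂ} {r : ℕ}, r < d → (∀ n, ‖f n‖ ≤ 1) →
      (∀ h : ℤ, h ≠ 0 → |h| < (2 ^ g : ℕ) → ∀ a, ‖sm (fun n => f (n + (2 ^ k : ℕ) * h) * conj (f n)) a N‖ ≤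
        3 * N * γ ^ 2 ^ (r + 1)) → ∀ a, ‖sm f a N‖ ≤ 3 * N * γ ^ 2 ^ r := by
    intro f r hr hf h a
    refine (vdc hf Nat.one_le_two_pow (by positivity) h a).trans ?_
    have e1 : γ ^ 2 ^ d ≤ γ ^ 2 ^ (r + 1) :=
      pow_le_pow_of_le_one γ0.le γ1 (Nat.pow_le_pow_right (by norm_num) hr)
    have e2 : γ ^ 2 ^ d ≤ γ ^ 2 ^ r :=
      pow_le_pow_of_le_one γ0.le γ1 (Nat.pow_le_pow_right (by norm_num) hr.le)
    have e3 : Real.sqrt (N * (N / (2 ^ g : ℕ) + 3 * N * γ ^ 2 ^ (r + 1))) ≤ 2 * N * γ ^ 2 ^ r := by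
      refine Real.sqrt_le_iff.2 ⟨by positivity, ?_⟩
      have e4 : (N : ℝ) / (2 ^ g : ℕ) ≤ N * γ ^ 2 ^ (r + 1) := by
        rw [div_eq_mul_one_div]; push_cast; gcongr; exact h3.trans e1
      calc _ ≤ N * (N * γ ^ 2 ^ (r + 1) + 3 * N * γ ^ 2 ^ (r + 1)) := by gcongr
        _ = _ := by rw [pow_succ 2 r, pow_mul]; ring
    have e5 : (N : ℝ) * γ ^ 2 ^ d ≤ N * γ ^ 2 ^ r := by gcongr
    push_cast at e3 ⊢
    linarith
  refine ⟨key, fun i => ?_⟩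
  induction i with
  | zero =>
    intro r hr hr1 c Q hc a
    obtain rfl : r = d := by omega
    refine (FF_top χ hj h1 h2 (hc.mul (hvl r hr1 le_rfl)) Q a N hk hr1).trans ?_
    have : (1 : ℝ) ≤ 2 ^ g := one_le_pow₀ one_le_two
    have : (0 : ℝ) < 2 ^ k := by positivity
    nlinarith
  | succ i ih =>
    intro r hr hr1 c Q hc
    refine key (by omega) (FF_le χ k r c Q) fun h h0 hh a => ?_
    obtain ⟨Q', hQ⟩ := FF_step χ hk hr1 c h Q
    simp only [hQ]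
    refine ih (r + 1) (by omega) (by omega) _ _ ?_ a
    have := ((hc.mul (hvl r hr1 (by omega))).mul (vl_of h0 hh)).neg
    convert this using 1
    ring

end chi

/-- A power saving for intervals of any polynomial length. -/
theorem short (A : ℕ) : ∃ θ : ℝ, 0 < θ ∧ θ ≤ 1 / 2 ∧ ∃ C : ℝ, 1 ≤ C ∧
    ∀ (m : ℕ) (χ : DirichletCharacter ℂ (2 ^ m)), χ ≠ 1 → ∀ (a : ℤ) (N : ℕ), 2 ^ m ≤ N ^ A →
      ‖∑ i ∈ range N, χ ((a + i : ℤ) : ZMod (2 ^ m))‖ ≤ C * (N : ℝ) ^ (1 - θ) := by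
  obtain ⟨d, hd⟩ : ∃ d, d = 8 * A + 1 := ⟨_, rfl⟩
  obtain ⟨D, hD⟩ : ∃ D, D = 16 * (d + 1) ^ 2 := ⟨_, rfl⟩
  have D1 : 1 ≤ D := by rw [hD]; exact Nat.succ_le_of_lt (by positivity)
  have D2 : (1 : ℝ) ≤ D := by exact_mod_cast D1
  have d2 : (1 : ℝ) ≤ 2 ^ d := one_le_pow₀ one_le_two
  set θ : ℝ := 1 / (4 * D * 2 ^ d) with hθ
  have θ0 : 0 < θ := by positivity
  have θ1 : θ ≤ 1 / 2 := one_div_le_one_div_of_le two_pos (by nlinarith)
  refine ⟨θ, θ0, θ1, 3 * 2 ^ (D * D), by nlinarith [one_le_pow₀ (n := D * D) (one_le_two (α := ℝ))],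
    fun m χ hχ a N hN => ?_⟩
  obtain ⟨j, hj⟩ := exists_cd χ hχ
  have hf : ∀ n : ℤ, ‖χ (n : ZMod (2 ^ m))‖ ≤ 1 := fun n => χ.norm_le_one _
  change ‖sm (fun n : ℤ => χ (n : ZMod (2 ^ m))) a N‖ ≤ _
  rcases Nat.eq_zero_or_pos N with rfl | N0
  · simp only [sm, range_zero, sum_empty, norm_zero]; positivity
  have N1 : (1 : ℝ) ≤ N := by exact_mod_cast N0
  have C1 : (1 : ℝ) ≤ 2 ^ (D * D) := one_le_pow₀ one_le_two
  have P1 : (1 : ℝ) ≤ (N : ℝ) ^ (1 - θ) := Real.one_le_rpow N1 (by linarith)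
  have t1 : ‖sm (fun n : ℤ => χ (n : ZMod (2 ^ m))) a N‖ ≤ 2 ^ j := by
    refine (anti hf (w := 2 ^ j) (fun n => ?_) a N).trans (by push_cast; rfl)
    by_cases c : IsUnit (n : ZMod (2 ^ m))
    · simpa using hj.2.2 _ 1 0 c isUnit_one
    · have c2 := (unit_sh hj.1 (n : ZMod (2 ^ m)) 1).not.2 c
      rw [mul_one] at c2
      push_cast
      rw [χ.map_nonunit c, χ.map_nonunit c2, neg_zero]
  by_cases c1 : j < D * D
  · have : (2 : ℝ) ^ j ≤ 2 ^ (D * D) := pow_le_pow_right₀ one_le_two c1.le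
    nlinarith
  by_cases c2 : 4 ^ j ≤ N
  · have e1 : (2 : ℝ) ^ j ≤ (N : ℝ) ^ (1 / 2 : ℝ) := by
      rw [← Real.sqrt_eq_rpow]
      refine Real.le_sqrt_of_sq_le ?_
      rw [← pow_mul, mul_comm, pow_mul]
      exact_mod_cast c2
    have e2 : (N : ℝ) ^ (1 / 2 : ℝ) ≤ (N : ℝ) ^ (1 - θ) :=
      Real.rpow_le_rpow_of_exponent_le N1 (by linarith)
    nlinarith
  obtain ⟨g, hg⟩ : ∃ g, g = j / D := ⟨_, rfl⟩
  obtain ⟨k, hk⟩ : ∃ k, k = j / (d + 1) := ⟨_, rfl⟩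
  have g1 : D ≤ g := hg ▸ (Nat.le_div_iff_mul_le D1).2 (by omega)
  have g2 : g * D ≤ j := hg ▸ Nat.div_mul_le_self _ _
  have g3 : j < (g + 1) * D := by rw [hg, mul_comm]; exact Nat.lt_mul_div_succ _ D1
  have k2 : k * (d + 1) ≤ j := hk ▸ Nat.div_mul_le_self _ _
  have k3 : j < (k + 1) * (d + 1) := by rw [hk, mul_comm]; exact Nat.lt_mul_div_succ _ (by omega)
  have k4 : 16 * (d + 1) * g ≤ k :=
    hk ▸ (Nat.le_div_iff_mul_le (by omega)).2 (by rw [hD] at g2; nlinarith)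
  have g4 : 16 * (d + 1) ≤ g := by rw [hD] at g1; nlinarith
  set γ : ℝ := (N : ℝ) ^ (-θ) with hγ
  have γ0 : 0 < γ := by positivity
  have γ1 : γ ≤ 1 := Real.rpow_le_one_of_one_le_of_nonpos N1 (by linarith)
  have γ2 : (γ ^ 2 ^ d) ^ (4 * D) = (N : ℝ)⁻¹ := by
    rw [← pow_mul, hγ, ← Real.rpow_natCast, ← Real.rpow_mul (by positivity), ← Real.rpow_neg_one]
    congr 1
    rw [hθ]; push_cast; field_simp
  have h3 : 1 / (2 ^ g : ℝ) ≤ γ ^ 2 ^ d := by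
    refine le_of_pow_le_pow_left₀ (n := 4 * D) (by omega) (by positivity) ?_
    rw [γ2, one_div, inv_pow]
    refine inv_anti₀ (by positivity) ?_
    have : 4 ^ j ≤ (2 ^ g) ^ (4 * D) := by
      rw [← pow_mul, show 4 = 2 ^ 2 from rfl, ← pow_mul]
      exact Nat.pow_le_pow_right two_pos (by nlinarith)
    exact_mod_cast (by omega : N ≤ (2 ^ g) ^ (4 * D))
  have h4 : 2 * (2 ^ (k + 1) * 2 ^ g : ℝ) ≤ N * γ ^ 2 ^ d := by
    have e1 : 2 ^ (k + 2 + g + g) ≤ N := by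
      refine le_of_pow_le_pow_left₀ (n := d + 1) (by omega) (by omega) ?_
      have e2 : 2 ^ j ≤ N ^ A := (Nat.pow_le_pow_right two_pos hj.2.1.le).trans hN
      calc _ ≤ (2 ^ j) ^ 2 := by
            rw [← pow_mul, ← pow_mul]
            exact Nat.pow_le_pow_right two_pos (by nlinarith)
        _ ≤ (N ^ A) ^ 2 := by gcongr
        _ ≤ _ := by rw [← pow_mul]; exact Nat.pow_le_pow_right N0 (by omega)
    have e3 : (2 : ℝ) ^ (k + 2 + g + g) ≤ N := by exact_mod_cast e1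
    calc _ = 2 ^ (k + 2 + g + g) * (1 / (2 ^ g : ℝ)) := by field_simp; ring
      _ ≤ _ := by gcongr
  obtain ⟨l1, l2⟩ := lev χ (k := k + 1) (d := d) hj (by omega) k3 (by nlinarith) γ0 γ1 h3 h4
  have fin := l1 (r := 0) (by omega) hf (fun h h0 hh a => by
    simp only [FF_zero χ (k := k + 1) (by omega)]
    refine l2 (d - 1) 1 (by omega) le_rfl _ _ ?_ a
    obtain ⟨v, hv, o⟩ := vl_of h0 hh
    exact ⟨v, by omega, o⟩) a
  have e4 : (N : ℝ) * γ = (N : ℝ) ^ (1 - θ) := by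
    rw [hγ, sub_eq_add_neg, Real.rpow_add (by positivity), Real.rpow_one]
  rw [pow_zero, pow_one, mul_assoc, e4] at fin
  nlinarith

end Pool.Agent.Lib.MP_f6c7cf_nt.FO.P
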