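import Pool.Agent.Lib.MP_4b1228_nt.GS.AbsA
import Pool.Agent.Lib.MP_4b1228_nt.GS.AbsB
import Pool.Agent.Lib.MP_4b1228_nt.GS.DS
import Pool.Agent.Lib.MP_f6c7cf_nt.FO.P
import Pool.Agent.Lib.MP_f6c7cf_nt.FO.Mert

/-!
The logarithmic derivative of `L(s, χ)` is small on the real axis, uniformly for the characters to
the modulus `2 ^ m`.
-/

set_option autoImplicit false

namespace Pool.Agent.Lib.MP_f6c7cf_nt.FO

open Finset Filter Topology ArithmeticFunction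
open Pool.Agent.Lib.MP_4b1228_nt.GS (Ser PF absA absB)
open Pool.Agent.Lib.MP_4b1228_nt.GS.DS (norm_term pf_mono)
open Mert (rr rr_nonneg rr_sum le_rr sum_lam)
open scoped Classical

namespace DS

/-- The twisted function of von Mangoldt. -/
noncomputable def La {N : ℕ} (χ : DirichletCharacter ℂ N) (n : ℕ) : ℂ := χ n * (vonMangoldt n : ℝ)

/-- The values at the primes. -/
noncomputable def fq {N : ℕ} (χ : DirichletCharacter ℂ N) (l : ℕ) : ℂ := if l.Prime then χ l else 0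

theorem La_le {N : ℕ} (χ : DirichletCharacter ℂ N) (n : ℕ) : ‖La χ n‖ ≤ vonMangoldt n := by
  rw [La, norm_mul, Complex.norm_real, Real.norm_of_nonneg vonMangoldt_nonneg]
  exact mul_le_of_le_one_left vonMangoldt_nonneg (χ.norm_le_one _)

theorem La_conv {N : ℕ} (χ : DirichletCharacter ℂ N) (n : ℕ) :
    (Real.log n : ℂ) * χ n = ∑ d ∈ n.divisorsAntidiagonal, La χ d.1 * χ d.2 := by
  have e : ∑ d ∈ n.divisorsAntidiagonal, La χ d.1 * χ d.2 =
      ∑ d ∈ n.divisorsAntidiagonal, ((vonMangoldt d.1 : ℝ) : ℂ) * χ n := by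
    refine sum_congr rfl fun d hd => ?_
    rw [← (Nat.mem_divisorsAntidiagonal.1 hd).1, Nat.cast_mul, map_mul, La]
    ring
  rw [e, ← sum_mul, Nat.sum_divisorsAntidiagonal fun i _ => ((vonMangoldt i : ℝ) : ℂ),
    ← Complex.ofReal_sum, vonMangoldt_sum]

theorem La_pos {N : ℕ} (χ : DirichletCharacter ℂ N) (τ : ℝ) (n : ℕ) (hn : 1 ≤ n) :
    0 ≤ 3 * vonMangoldt n + 4 * (La χ n / (n : ℂ) ^ (τ * Complex.I)).re +
      (La (χ ^ 2) n / (n : ℂ) ^ (2 * τ * Complex.I)).re := by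
  have n0 : (n : ℂ) ≠ 0 := by exact_mod_cast (by omega : n ≠ 0)
  obtain ⟨z, hz⟩ : ∃ z : ℂ, z = χ n / (n : ℂ) ^ (τ * Complex.I) := ⟨_, rfl⟩
  have z1 : ‖z‖ ≤ 1 := by
    rw [hz, norm_div, Complex.norm_natCast_cpow_of_pos (by omega)]
    simpa using χ.norm_le_one _
  have e1 : La χ n / (n : ℂ) ^ (τ * Complex.I) = ((vonMangoldt n : ℝ) : ℂ) * z := by
    rw [hz, La]
    ring
  have e2 : La (χ ^ 2) n / (n : ℂ) ^ (2 * τ * Complex.I) = ((vonMangoldt n : ℝ) : ℂ) * (z * z) := by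
    rw [hz, La, χ.pow_apply' two_ne_zero, mul_assoc, two_mul, Complex.cpow_add _ _ n0]
    ring
  rw [e1, e2, Complex.re_ofReal_mul, Complex.re_ofReal_mul, Complex.mul_re]
  have z2 : z.re * z.re + z.im * z.im ≤ 1 := by
    rw [← Complex.normSq_apply, Complex.normSq_eq_norm_sq]
    exact pow_le_one₀ (norm_nonneg _) z1
  have h : 0 ≤ 3 + 4 * z.re + (z.re * z.re - z.im * z.im) := by nlinarith [sq_nonneg (1 + z.re)]
  nlinarith [mul_nonneg (vonMangoldt_nonneg (n := n)) h]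

theorem to_primes {N : ℕ} (χ : DirichletCharacter ℂ N) (σ : ℝ) (hσ : 1 < σ)
    (hs : Summable fun n : ℕ => vonMangoldt n / (n : ℝ) ^ σ) :
    ‖∑' l : ℕ, (Real.log l : ℂ) * fq χ l / (((l : ℝ) ^ σ : ℝ) : ℂ)‖ ≤
      ‖LSeries (La χ) σ‖ + ∑' n, rr n := by
  set b : ℕ → ℂ := fun n => if n.Prime then 0 else LSeries.term (La χ) σ n with hb
  have hb1 : ∀ n, ‖b n‖ ≤ rr n := by
    intro n
    simp only [hb]
    split_ifs with hn
    · rw [norm_zero]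
      exact rr_nonneg n
    · exact (norm_term (La χ) _ (La_le χ) σ n).trans (le_rr hσ hn)
  have hb2 : Summable b := Summable.of_norm_bounded rr_sum hb1
  have ht : Summable (LSeries.term (La χ) σ) :=
    Summable.of_norm_bounded hs (norm_term (La χ) _ (La_le χ) σ)
  have key : ∀ l : ℕ, (Real.log l : ℂ) * fq χ l / (((l : ℝ) ^ σ : ℝ) : ℂ) =
      LSeries.term (La χ) σ l - b l := by
    intro l
    simp only [hb]
    split_ifs with hl
    · rw [sub_zero, LSeries.term_of_ne_zero hl.ne_zero, La, fq, if_pos hl,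
        vonMangoldt_apply_prime hl, Complex.ofReal_cpow (Nat.cast_nonneg l),
        Complex.ofReal_natCast, mul_comm]
    · rw [sub_self, fq, if_neg hl, mul_zero, zero_div]
  rw [tsum_congr key, ht.tsum_sub hb2]
  refine (norm_sub_le _ _).trans (add_le_add le_rfl ?_)
  exact tsum_of_norm_bounded rr_sum.hasSum hb1

/-! ### The real characters -/

theorem one_char {N : ℕ} [NeZero N] (χ : DirichletCharacter ℂ N) (hχ : χ ≠ 1) :
    ∃ C : ℝ, 0 ≤ C ∧ ∀ σ : ℝ, 1 < σ → σ ≤ 2 → ‖LSeries (La χ) σ‖ ≤ C := by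
  have c := (DirichletCharacter.continuousOn_neg_logDeriv_LFunction_of_nontriv hχ).comp
    (s := Set.Icc (1 : ℝ) 2) Complex.continuous_ofReal.continuousOn fun σ hσ =>
      DirichletCharacter.LFunction_ne_zero_of_one_le_re χ (Or.inl hχ) (by simpa using hσ.1)
  obtain ⟨C, hC⟩ := isCompact_Icc.exists_bound_of_continuousOn c
  refine ⟨max C 0, le_max_right _ _, fun σ h1 h2 => le_trans (le_of_eq ?_)
    ((hC σ ⟨h1.le, h2⟩).trans (le_max_left _ _))⟩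
  have h : 1 < (σ : ℂ).re := by simpa using h1
  simp only [Function.comp]
  rw [DirichletCharacter.deriv_LFunction_eq_deriv_LSeries χ h,
    DirichletCharacter.LFunction_eq_LSeries χ h,
    ← DirichletCharacter.LSeries_twist_vonMangoldt_eq χ h]
  rfl

theorem sq_mod (u : ℤ) (hu : u % 8 = 1) (k : ℕ) : ∃ r : ℤ, (2 : ℤ) ^ (k + 3) ∣ r ^ 2 - u := by
  induction k with
  | zero => exact ⟨1, by norm_num; omega⟩
  | succ k ih =>
    obtain ⟨r, c, hc⟩ := ih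
    have r1 : Odd r := by
      by_contra h
      obtain ⟨s, rfl⟩ := Int.not_odd_iff_even.1 h
      have : u = 2 * (2 * s ^ 2 - 2 ^ (k + 2) * c) := by linear_combination -hc
      omega
    rcases Int.even_or_odd c with ⟨d, rfl⟩ | ⟨d, rfl⟩
    · exact ⟨r, d, by linear_combination hc⟩
    · obtain ⟨s, rfl⟩ := r1
      exact ⟨2 * s + 1 + 2 ^ (k + 2), d + s + 1 + 2 ^ k, by linear_combination hc⟩

theorem odd_sq {m : ℕ} {χ : DirichletCharacter ℂ (2 ^ m)} (h : χ ^ 2 = 1) {r : ℤ} (hr : Odd r) :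
    χ r ^ 2 = 1 := by
  rw [← χ.pow_apply' two_ne_zero, h]
  refine MulChar.one_apply ?_
  rw [ZMod.coe_int_isUnit_iff_isCoprime]
  push_cast
  refine IsCoprime.pow_left ?_
  obtain ⟨s, rfl⟩ := hr
  exact ⟨-s, 1, by ring⟩

theorem one_mod {m : ℕ} {χ : DirichletCharacter ℂ (2 ^ m)} (h : χ ^ 2 = 1) {u : ℤ}
    (hu : u % 8 = 1) : χ u = 1 := by
  obtain ⟨r, hr⟩ := sq_mod u hu m
  have r1 : Odd r := by
    by_contra h
    obtain ⟨s, rfl⟩ := Int.not_odd_iff_even.1 h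
    obtain ⟨c, hc⟩ := hr
    have : u = 2 * (2 * s ^ 2 - 2 ^ (m + 2) * c) := by linear_combination -hc
    omega
  have e : (u : ZMod (2 ^ m)) = ((r : ZMod (2 ^ m))) ^ 2 := by
    rw [← Int.cast_pow, ZMod.intCast_eq_intCast_iff_dvd_sub]
    push_cast
    exact (pow_dvd_pow 2 (Nat.le_add_right m 3)).trans hr
  rw [e, map_pow, odd_sq h r1]

theorem even_zero {m : ℕ} {χ : DirichletCharacter ℂ (2 ^ m)} (hχ : χ ≠ 1) {r : ℤ} (hr : Even r) :
    χ r = 0 := by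
  refine χ.map_nonunit fun k => ?_
  rw [ZMod.coe_int_isUnit_iff_isCoprime] at k
  rcases m with _ | m
  · refine hχ (MulChar.ext fun a => ?_)
    have : Subsingleton (ZMod (2 ^ 0)) := inferInstanceAs (Subsingleton (ZMod 1))
    rw [Subsingleton.elim a 1]
    simp
  · have := k.isUnit_of_dvd' (x := 2) (by push_cast; exact dvd_pow_self 2 (by omega)) hr.two_dvd
    norm_num [Int.isUnit_iff] at this

theorem per {m : ℕ} {χ : DirichletCharacter ℂ (2 ^ m)} (hχ : χ ≠ 1) (h : χ ^ 2 = 1) (n : ℕ) :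
    χ n = χ (n % 8 : ℕ) := by
  rw [← Int.cast_natCast n, ← Int.cast_natCast (n % 8)]
  rcases Nat.even_or_odd n with k | k
  · rw [even_zero hχ (by exact_mod_cast k), even_zero hχ (by
      rw [Int.even_coe_nat, Nat.even_iff] at *
      omega)]
  · have k' : Odd ((n % 8 : ℕ) : ℤ) := by
      rw [Int.odd_coe_nat, Nat.odd_iff] at *
      omega
    have a := odd_sq h k'
    have b := one_mod h (u := (n : ℤ) * (n % 8 : ℕ)) (by
      rw [Nat.odd_iff] at k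
      have : n % 8 = 1 ∨ n % 8 = 3 ∨ n % 8 = 5 ∨ n % 8 = 7 := by omega
      rcases this with e | e | e | e <;> rw [e] <;> push_cast <;> omega)
    rw [Int.cast_mul, map_mul] at b
    linear_combination (-χ ((n : ℤ) : ZMod (2 ^ m))) * a +
      χ (((n % 8 : ℕ) : ℤ) : ZMod (2 ^ m)) * b

theorem vals {m : ℕ} {χ : DirichletCharacter ℂ (2 ^ m)} (hχ : χ ≠ 1) (h : χ ^ 2 = 1) (n : ℕ) :
    χ n ∈ ({0, 1, -1} : Finset ℂ) := by
  rw [← Int.cast_natCast n]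
  rcases Int.even_or_odd (n : ℤ) with k | k
  · simp [even_zero hχ k, -Int.cast_natCast]
  · rcases sq_eq_one_iff.1 (odd_sq h k) with e | e <;> simp [e, -Int.cast_natCast]

theorem real : ∃ C : ℝ, 0 ≤ C ∧ ∀ (m : ℕ) (χ : DirichletCharacter ℂ (2 ^ m)), χ ≠ 1 → χ ^ 2 = 1 →
    ∀ σ : ℝ, 1 < σ → σ ≤ 2 → ‖LSeries (La χ) σ‖ ≤ C := by
  have key : ∀ v : Fin 8 → ℂ, ∃ C : ℝ, 0 ≤ C ∧ ∀ (m : ℕ) (χ : DirichletCharacter ℂ (2 ^ m)),
      χ ≠ 1 → χ ^ 2 = 1 → (∀ i : Fin 8, χ (i : ℕ) = v i) →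
      ∀ σ : ℝ, 1 < σ → σ ≤ 2 → ‖LSeries (La χ) σ‖ ≤ C := fun v => by
    by_cases h : ∃ (m : ℕ) (χ : DirichletCharacter ℂ (2 ^ m)),
        χ ≠ 1 ∧ χ ^ 2 = 1 ∧ ∀ i : Fin 8, χ (i : ℕ) = v i
    · obtain ⟨m₀, χ₀, a1, a2, a3⟩ := h
      obtain ⟨C, hC, hb⟩ := one_char χ₀ a1
      refine ⟨C, hC, fun m χ b1 b2 b3 σ s1 s2 => ?_⟩
      have e : La χ = La χ₀ := funext fun n => by
        rw [La, La, per b1 b2, per a1 a2, b3 ⟨n % 8, Nat.mod_lt _ (by norm_num)⟩,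
          a3 ⟨n % 8, Nat.mod_lt _ (by norm_num)⟩]
      rw [e]
      exact hb σ s1 s2
    · exact ⟨0, le_rfl, fun m χ b1 b2 b3 => (h ⟨m, χ, b1, b2, b3⟩).elim⟩
  choose C hC hb using key
  refine ⟨∑ v ∈ Fintype.piFinset fun _ : Fin 8 => ({0, 1, -1} : Finset ℂ), C v,
    sum_nonneg fun v _ => hC v, fun m χ b1 b2 σ s1 s2 => ?_⟩
  exact (hb (fun i => χ (i : ℕ)) m χ b1 b2 (fun _ => rfl) σ s1 s2).trans
    (single_le_sum (fun v _ => hC v) (Fintype.mem_piFinset.2 fun i => vals b1 b2 i))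

end DS

open DS in
/-- The logarithmic derivative is small. -/
theorem ds (A : ℕ) (ε : ℝ) (hε : 0 < ε) : ∀ᶠ y : ℝ in atTop,
    ∀ (m : ℕ) (χ : DirichletCharacter ℂ (2 ^ m)), χ ≠ 1 → (2 : ℝ) ^ m ≤ y ^ A →
    ∀ σ : ℝ, 1 < σ → σ ≤ 2 →
      ‖∑' l : ℕ, (Real.log l : ℂ) * fq χ l / (((l : ℝ) ^ σ : ℝ) : ℂ)‖ ≤ ε * Real.log y := by
  obtain ⟨K, hK, hA2⟩ := absA
  obtain ⟨K', hK', hB2⟩ := absB
  obtain ⟨C₀, hC₀, hC⟩ := sum_lam
  obtain ⟨R, hR, hr⟩ := real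
  obtain ⟨A', hA'⟩ := exists_nat_gt (2 * K' * K * (A + 1) / ε)
  have hA0 : (0 : ℝ) < A' := lt_trans (by positivity) hA'
  obtain ⟨θ, hθ, hθ2, D, hD, hev⟩ := P.short A'
  obtain ⟨C, c1, c2⟩ : ∃ C : ℝ, C₀ ≤ C ∧ D ≤ C := ⟨max C₀ D, le_max_left _ _, le_max_right _ _⟩
  have hC' : ∀ σ : ℝ, 1 < σ → σ ≤ 2 → (Summable fun n : ℕ => vonMangoldt n / (n : ℝ) ^ σ) ∧
      ∑' n : ℕ, vonMangoldt n / (n : ℝ) ^ σ ≤ 11 / 10 / (σ - 1) + C := fun σ a b =>
    ⟨(hC σ a b).1, by linarith [(hC σ a b).2]⟩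
  obtain ⟨C₁, hC₁, hP⟩ := hA2 θ C hθ hθ2 (by linarith)
  set δ : ℝ := (A + 1) / A' with hδ
  have hδ0 : 0 < δ := by positivity
  have hδ1 : 2 * K' * K * δ ≤ ε := by
    rw [div_lt_iff₀ hε] at hA'
    rw [hδ, ← mul_div_assoc, div_le_iff₀ hA0]
    linarith
  have e2 : ∀ᶠ y : ℝ in atTop,
      (K' * (C₁ + C + 8 / θ) + R + ∑' n, rr n) / (ε / 2) ≤ Real.log y :=
    Real.tendsto_log_atTop.eventually_ge_atTop _
  filter_upwards [e2, eventually_ge_atTop (1 : ℝ)] with y hy2 hy8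
  intro m χ hχ hm σ hσ hσ2
  have hy0 : 0 < y := by linarith
  have hY : 1 ≤ y ^ δ := Real.one_le_rpow hy8 hδ0.le
  have hpow : (y ^ δ) ^ A' = y ^ A * y := by
    rw [← Real.rpow_natCast, ← Real.rpow_mul hy0.le, hδ, div_mul_cancel₀ _ hA0.ne', ← pow_succ,
      ← Real.rpow_natCast]
    push_cast
    rfl
  have hser : ∀ ψ : DirichletCharacter ℂ (2 ^ m), ψ ≠ 1 →
      Ser θ C (y ^ δ) (fun n => ψ n) (La ψ) fun n => vonMangoldt n := by
    intro ψ hψ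
    refine ⟨by simp, fun x => ?_, fun x hx => ?_, La_conv ψ, La_le ψ, hC'⟩
    · have := sum_le_card_nsmul (Icc 1 x) (fun n : ℕ => ‖ψ n‖) 1 fun n _ => ψ.norm_le_one _
      simp only [Nat.card_Icc, Nat.add_sub_cancel, nsmul_eq_mul, mul_one] at this
      exact this.trans (le_mul_of_one_le_left (Nat.cast_nonneg x) (by linarith))
    · have h6 : (y ^ δ) ^ A' ≤ (x : ℝ) ^ A' := pow_le_pow_left₀ (by linarith) hx _
      have h7 : 0 ≤ y ^ A := by positivity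
      have h8 : (2 : ℝ) ^ m ≤ (x : ℝ) ^ A' := by nlinarith
      have h9 := hev m ψ hψ 1 x (by exact_mod_cast h8)
      have e : ∑ n ∈ Icc 1 x, ψ (n : ZMod (2 ^ m)) =
          ∑ i ∈ range x, ψ (((1 : ℤ) + i : ℤ) : ZMod (2 ^ m)) := by
        rw [← Ico_add_one_right_eq_Icc, sum_Ico_eq_sum_range, Nat.add_sub_cancel]
        refine sum_congr rfl fun i _ => ?_
        push_cast
        rfl
      rw [e]
      exact h9.trans (mul_le_mul_of_nonneg_right c2 (by positivity))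
  have hlogy : 0 ≤ Real.log y := Real.log_nonneg hy8
  have hθ8 : 0 < 8 / θ := by positivity
  have hKl : 0 ≤ K * (δ * Real.log y) := by positivity
  have hT := to_primes χ σ hσ (hC σ hσ hσ2).1
  rw [div_le_iff₀ (by linarith)] at hy2
  have h9 : 2 * K' * K * δ * Real.log y ≤ ε * Real.log y := mul_le_mul_of_nonneg_right hδ1 hlogy
  have h10 : 0 ≤ K' * (C₁ + C + 8 / θ) := mul_nonneg hK'.le (by linarith)
  have h11 : 0 ≤ ε * Real.log y := by positivity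
  by_cases h2 : χ ^ 2 = 1
  · linarith [hr m χ hχ h2 σ hσ hσ2]
  have p1 := hP _ _ _ _ hY (hser χ hχ)
  have p2 := hP _ _ _ _ hY (hser _ h2)
  rw [Real.log_rpow hy0] at p1 p2
  have hL := hB2 θ C (K * (δ * Real.log y) + C₁ + C + 8 / θ) (La χ) (La (χ ^ 2))
    (fun n => vonMangoldt n) hθ hθ2 (by linarith) (by linarith) (by linarith)
    (pf_mono _ _ _ _ (by linarith) p1) (pf_mono _ _ _ _ (by linarith) p2)
    (fun n => ⟨La_le χ n, La_le _ n⟩) hC' (La_pos χ) σ hσ hσ2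
  nlinarith

end Pool.Agent.Lib.MP_f6c7cf_nt.FO
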