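import Pool.Agent.Lib.MP_4b1228_nt.GS.PB
import Pool.Agent.Lib.MP_f6c7cf_nt.FO.DS

/-! Cancellation in a box of primes, uniformly for the characters to the modulus `2 ^ m`. -/

set_option autoImplicit false

namespace Pool.Agent.Lib.MP_f6c7cf_nt.FO

open Finset Filter Topology
open Pool.Agent.Lib.MP_4b1228_nt.GS.PB (X_mem X_le F_pow kappa cut term)
open Pool.Agent.Lib.MP_9d27bc_nt.C (pr)
open Mert (mem_pr)
open DS (fq)
open scoped Classical

namespace PB

theorem fp_le {N : ℕ} (t : DirichletCharacter ℂ N) (l : ℕ) :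
    ‖fq t l‖ ≤ if l.Prime then 1 else 0 := by
  unfold fq
  split_ifs
  · exact t.norm_le_one _
  · simp

theorem core (a : ℕ → ℂ) (ha : ∀ l, ‖a l‖ ≤ if l.Prime then 1 else 0) {L : ℝ} (hL : 0 < L)
    (h : ℝ → ℝ) (p : Polynomial ℝ) {δ W E : ℝ} (hδ : 0 ≤ δ)
    (hp : ∀ x ∈ Set.Icc (0 : ℝ) 1, |p.eval x - h x| < δ)
    (hs : Summable fun l : ℕ => if l.Prime then Real.log l / (l : ℝ) ^ (1 + 1 / L) else 0)
    (hW : ∑' l : ℕ, (if l.Prime then Real.log l / (l : ℝ) ^ (1 + 1 / L) else 0) ≤ W)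
    (hD : ∀ i ≤ p.natDegree,
      ‖∑' l : ℕ, (Real.log l : ℂ) * a l / (((l : ℝ) ^ (1 + ((i : ℝ) + 1) / L) : ℝ) : ℂ)‖ ≤ E) :
    ‖∑' l : ℕ, (Real.log l : ℂ) * a l / (((l : ℝ) ^ (1 + 1 / L) : ℝ) : ℂ) *
      (h ((l : ℝ) ^ (-(1 / L))) : ℂ)‖ ≤
      δ * W + (∑ i ∈ range (p.natDegree + 1), |p.coeff i|) * E := by
  set F : ℕ → ℂ := fun l => (Real.log l : ℂ) * a l / (((l : ℝ) ^ (1 + 1 / L) : ℝ) : ℂ) with hF
  set w : ℕ → ℝ := fun l => if l.Prime then Real.log l / (l : ℝ) ^ (1 + 1 / L) else 0 with hw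
  set X : ℕ → ℝ := fun l => (l : ℝ) ^ (-(1 / L)) with hX
  have hFw : ∀ l, ‖F l‖ ≤ w l := fun l => by
    have h1 := ha l
    have h2 : 0 ≤ Real.log l := Real.log_natCast_nonneg l
    have h3 : 0 ≤ (l : ℝ) ^ (1 + 1 / L) := by positivity
    simp only [hF, hw, norm_div, norm_mul, Complex.norm_real, Real.norm_of_nonneg h2,
      Real.norm_of_nonneg h3]
    split_ifs at h1 ⊢
    · gcongr ?_ / _
      nlinarith
    · rw [le_antisymm h1 (norm_nonneg _)]
      simp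
  have b1 : ∀ l, ‖F l * ((h (X l) - p.eval (X l) : ℝ) : ℂ)‖ ≤ δ * w l := fun l => by
    rw [norm_mul, mul_comm, Complex.norm_real, Real.norm_eq_abs, abs_sub_comm]
    exact mul_le_mul (hp _ (X_mem hL l)).le (hFw l) (norm_nonneg _) hδ
  have s1 : Summable fun l => F l * ((h (X l) - p.eval (X l) : ℝ) : ℂ) :=
    Summable.of_norm_bounded (hs.mul_left δ) b1
  have s2 : ∀ i : ℕ, Summable fun l => (p.coeff i : ℂ) * (F l * ((X l ^ i : ℝ) : ℂ)) := fun i => by
    refine Summable.mul_left _ (Summable.of_norm_bounded (g := w) hs fun l => ?_)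
    rw [norm_mul, Complex.norm_real, Real.norm_of_nonneg (pow_nonneg (X_mem hL l).1 i)]
    exact (mul_le_of_le_one_right (norm_nonneg _)
      (pow_le_one₀ (X_mem hL l).1 (X_mem hL l).2)).trans (hFw l)
  have e : ∀ l, F l * (h (X l) : ℂ) = F l * ((h (X l) - p.eval (X l) : ℝ) : ℂ) +
      ∑ i ∈ range (p.natDegree + 1), (p.coeff i : ℂ) * (F l * ((X l ^ i : ℝ) : ℂ)) := fun l => by
    have : ∑ i ∈ range (p.natDegree + 1), (p.coeff i : ℂ) * (F l * ((X l ^ i : ℝ) : ℂ)) =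
        F l * ((p.eval (X l) : ℝ) : ℂ) := by
      rw [Polynomial.eval_eq_sum_range, Complex.ofReal_sum, mul_sum]
      refine sum_congr rfl fun i _ => ?_
      push_cast
      ring
    rw [this]
    push_cast
    ring
  change ‖∑' l, F l * (h (X l) : ℂ)‖ ≤ _
  simp_rw [e]
  rw [s1.tsum_add (summable_sum fun i _ => s2 i), Summable.tsum_finsetSum fun i _ => s2 i]
  refine (norm_add_le _ _).trans (add_le_add ?_ ?_)
  · refine (tsum_of_norm_bounded (hs.mul_left δ).hasSum b1).trans ?_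
    rw [tsum_mul_left]
    exact mul_le_mul_of_nonneg_left hW hδ
  · rw [sum_mul]
    refine norm_sum_le_of_le _ fun i hi => ?_
    rw [tsum_mul_left, norm_mul, Complex.norm_real, Real.norm_eq_abs]
    refine mul_le_mul_of_nonneg_left ?_ (abs_nonneg _)
    simp only [hF, hX, F_pow]
    exact hD i (Nat.lt_succ_iff.1 (mem_range.1 hi))

theorem main (j A : ℕ) (ε : ℝ) (hj : 1 ≤ j) (hε : 0 < ε) : ∀ᶠ y : ℝ in atTop,
    ∀ (m : ℕ) (t : DirichletCharacter ℂ (2 ^ m)), t ≠ 1 → (2 : ℝ) ^ m ≤ y ^ A →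
      ‖∑ l ∈ pr (y ^ j) (y ^ (j + 1)), t l / (l : ℂ)‖ ≤ ε := by
  have hj' : (1 : ℝ) ≤ j := by exact_mod_cast hj
  obtain ⟨κ, k0, k1, k2⟩ := kappa hj' (show 0 < ε / 3 by positivity)
  obtain ⟨G, h, hc, g0, g1, g2, g3⟩ := cut (a' := Real.exp (-(j + 1 + κ)))
    (a := Real.exp (-(j + 1))) (b := Real.exp (-j)) (b' := Real.exp (-(j - κ))) (Real.exp_pos _)
    (Real.exp_lt_exp.2 (by linarith)) (Real.exp_le_exp.2 (by linarith))
    (Real.exp_lt_exp.2 (by linarith)) (Real.exp_lt_one_iff.2 (by linarith))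
  obtain ⟨p, hp⟩ := exists_polynomial_near_of_continuousOn 0 1 h hc.continuousOn (ε / 6)
    (by positivity)
  obtain ⟨C, hC, m2⟩ := Mert.ser
  obtain ⟨K, hK⟩ : ∃ K, K = ∑ i ∈ range (p.natDegree + 1), |p.coeff i| := ⟨_, rfl⟩
  have hK0 : 0 ≤ K := hK ▸ sum_nonneg fun _ _ => abs_nonneg _
  have t1 := ((Mert.one (a := j - κ) (b := j + 1 + κ) (by linarith) (by linarith)).sub
    (Mert.one (a := j) (b := j + 1) (by linarith) (by linarith))).eventually (gt_mem_nhds k2)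
  filter_upwards [ds A (ε / (3 * (K + 1))) (by positivity), t1, eventually_gt_atTop 1,
    Real.tendsto_log_atTop.eventually_ge_atTop (2 * C),
    Real.tendsto_log_atTop.eventually_ge_atTop (p.natDegree + 1)] with y d1 d2 hy d3 d4 m t ht hA'
  have hL := Real.log_pos hy
  have hy0 : 0 < y := by linarith
  have hn : (0 : ℝ) ≤ p.natDegree := Nat.cast_nonneg _
  obtain ⟨s1, s2⟩ := m2 (1 + 1 / Real.log y) (by simpa using hL)
  have c := core (fq t) (fp_le t) hL h p (by positivity) hp s1 (W := 2 * Real.log y)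
    (E := ε / (3 * (K + 1)) * Real.log y) (s2.trans (by
      rw [add_sub_cancel_left, div_div_eq_mul_div, div_one]
      linarith)) fun i hi => d1 m t ht hA' _ (by
        have : 0 < ((i : ℝ) + 1) / Real.log y := by positivity
        linarith) (by
        have h5 : (i : ℝ) ≤ p.natDegree := by exact_mod_cast hi
        have : ((i : ℝ) + 1) / Real.log y ≤ 1 := (div_le_one hL).2 (by linarith)
        linarith)
  rw [tsum_eq_sum (s := pr (y ^ ((j : ℝ) - κ)) (y ^ ((j : ℝ) + 1 + κ))) (fun l hl => by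
    by_cases hs : l.Prime
    · rw [mem_pr (by positivity)] at hl
      have : h ((l : ℝ) ^ (-(1 / Real.log y))) = 0 := by
        refine g2 _ ?_
        by_contra hcon
        rw [not_or, not_le, not_le] at hcon
        exact hl ⟨hs, not_le.1 fun h6 => hcon.2.not_ge ((X_le hy hs.pos _).2 h6),
          (X_le hy hs.pos _).1 hcon.1.le⟩
      simp [-one_div, this]
    · simp [fq, hs])] at c
  rw [sum_congr rfl (g := fun l : ℕ => (Real.log y : ℂ) *
      (fq t l / l * (G ((l : ℝ) ^ (-(1 / Real.log y))) : ℝ))) (fun l hl => by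
    obtain ⟨hs, l1, l2⟩ := (mem_pr (by positivity) l).1 hl
    rw [g3 _ ((X_le hy hs.pos _).2 l2) (not_le.1 fun h6 =>
      l1.not_ge ((X_le hy hs.pos _).1 h6)).le, term _ _ hL hs.one_lt]), ← mul_sum, norm_mul,
    Complex.norm_real, Real.norm_of_nonneg hL.le, ← hK] at c
  have sub : pr (y ^ (j : ℝ)) (y ^ ((j : ℝ) + 1)) ⊆
      pr (y ^ ((j : ℝ) - κ)) (y ^ ((j : ℝ) + 1 + κ)) := fun l hl => by
    obtain ⟨hs, l1, l2⟩ := (mem_pr (by positivity) l).1 hl
    exact (mem_pr (by positivity) l).2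
      ⟨hs, (Real.rpow_le_rpow_of_exponent_le hy.le (by linarith)).trans_lt l1,
        l2.trans (Real.rpow_le_rpow_of_exponent_le hy.le (by linarith))⟩
  have e1 : ∑ l ∈ pr (y ^ j) (y ^ (j + 1)), t l / (l : ℂ) = ∑ l ∈ pr (y ^ (j : ℝ)) (y ^ ((j : ℝ) + 1)),
      fq t l / l * (G ((l : ℝ) ^ (-(1 / Real.log y))) : ℝ) := by
    rw [← Real.rpow_natCast, ← Real.rpow_natCast, Nat.cast_succ]
    refine sum_congr rfl fun l hl => ?_
    obtain ⟨hs, l1, l2⟩ := (mem_pr (by positivity) l).1 hl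
    rw [g1 _ ((X_le hy hs.pos _).2 l2) (not_le.1 fun h6 =>
      l1.not_ge ((X_le hy hs.pos _).1 h6)).le]
    simp [fq, hs]
  rw [e1, ← sub_sub_cancel (∑ l ∈ pr (y ^ ((j : ℝ) - κ)) (y ^ ((j : ℝ) + 1 + κ)),
    fq t l / l * (G ((l : ℝ) ^ (-(1 / Real.log y))) : ℝ)) (∑ l ∈ pr (y ^ (j : ℝ)) _, _),
    ← sum_sdiff_eq_sub sub]
  rw [← sum_sdiff_eq_sub sub] at d2
  refine (norm_sub_le _ _).trans ?_
  have b2 : ‖∑ l ∈ pr (y ^ ((j : ℝ) - κ)) (y ^ ((j : ℝ) + 1 + κ)) \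
      pr (y ^ (j : ℝ)) (y ^ ((j : ℝ) + 1)),
      fq t l / l * (G ((l : ℝ) ^ (-(1 / Real.log y))) : ℝ)‖ ≤ ε / 3 := by
    refine (norm_sum_le_of_le _ fun l _ => ?_).trans d2.le
    rw [norm_mul, norm_div, Complex.norm_real, Real.norm_eq_abs, Complex.norm_natCast]
    refine (mul_le_of_le_one_right (by positivity) (g0 _)).trans ?_
    gcongr
    refine (fp_le t l).trans ?_
    split_ifs <;> norm_num
  have b3 : K * (ε / (3 * (K + 1))) ≤ ε / 3 := by
    rw [mul_div_assoc', div_le_div_iff₀ (by positivity) (by positivity)]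
    nlinarith
  have b4 := le_of_mul_le_mul_left (c.trans (show _ ≤ Real.log y * (2 * ε / 3) by
    nlinarith [mul_le_mul_of_nonneg_left b3 hL.le])) hL
  linarith

end PB

/-- Cancellation in a box of primes. -/
theorem pb : PBSt := fun j A ε hj hε =>
  (PB.main j A ε hj hε).mono fun y h t χ hχ hq => h (2 * t) χ hχ (by exact_mod_cast hq)

end Pool.Agent.Lib.MP_f6c7cf_nt.FO
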