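import Pool.Agent.Lib.MP_f6c7cf_nt.FO.St
import Pool.Agent.Lib.MP_f6c7cf_nt.FO.P

/-! The pointwise bound for the smooth sums. -/

namespace Pool.Agent.Lib.MP_f6c7cf_nt.FO

open Finset Filter Topology Polynomial
open scoped Classical ComplexConjugate

namespace Sm

theorem tele {θ : ℝ} (h0 : 0 < θ) (h1 : θ ≤ 1) {x : ℝ} (hx : 0 < x) :
    θ * (x ^ (-θ) / (x + 1)) ≤ x ^ (-θ) - (x + 1) ^ (-θ) := by
  have h2 : 0 < x + 1 := by linarith
  have b := rpow_one_add_le_one_add_mul_self (s := -(1 / (x + 1))) (p := θ)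
    (by rw [neg_le_neg_iff, div_le_one h2]; linarith) h0.le h1
  have e : (x + 1) ^ (-θ) = x ^ (-θ) * (1 + -(1 / (x + 1))) ^ θ := by
    have : 1 + -(1 / (x + 1)) = x / (x + 1) := by field_simp; ring
    have h3 := (Real.rpow_pos_of_pos hx θ).ne'
    have h4 := (Real.rpow_pos_of_pos h2 θ).ne'
    rw [this, Real.div_rpow hx.le h2.le, Real.rpow_neg hx.le, Real.rpow_neg h2.le]
    field_simp
  have := mul_le_mul_of_nonneg_left b (Real.rpow_pos_of_pos hx (-θ)).le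
  rw [e]
  calc _ = x ^ (-θ) - x ^ (-θ) * (1 + θ * -(1 / (x + 1))) := by ring
    _ ≤ _ := by linarith

theorem abel {θ C : ℝ} (h0 : 0 < θ) (h1 : θ ≤ 1) (hC : 0 ≤ C) (f : ℕ → ℂ) {a : ℕ} (ha : 1 ≤ a)
    (hS : ∀ n, a ≤ n → ‖∑ i ∈ range n, f (i + 1)‖ ≤ C * (n : ℝ) ^ (1 - θ)) (b : ℕ) :
    ‖∑ n ∈ Ioc a b, f n / (n : ℂ)‖ ≤ C * (2 + 1 / θ) * (a : ℝ) ^ (-θ) := by
  have a0 : (0 : ℝ) < a := by exact_mod_cast ha
  have hq : ∀ n, a ≤ n → ‖(∑ i ∈ range n, f (i + 1)) / (n : ℂ)‖ ≤ C * (n : ℝ) ^ (-θ) := by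
    intro n hn
    have n0 : (0 : ℝ) < n := a0.trans_le (by exact_mod_cast hn)
    rw [norm_div, Complex.norm_natCast, div_le_iff₀ n0]
    refine (hS n hn).trans (le_of_eq ?_)
    rw [sub_eq_neg_add, Real.rpow_add n0, Real.rpow_one, mul_assoc]
  have key : ∀ m, a ≤ m → ‖∑ n ∈ Ioc a m, f n / (n : ℂ) - (∑ i ∈ range m, f (i + 1)) / (m : ℂ)‖ ≤
      C * (a : ℝ) ^ (-θ) + C / θ * ((a : ℝ) ^ (-θ) - (m : ℝ) ^ (-θ)) := by
    intro m hm
    induction m, hm using Nat.le_induction with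
    | base => simpa using hq a le_rfl
    | succ m hm ih =>
      have m0 : (0 : ℝ) < m := a0.trans_le (by exact_mod_cast hm)
      have m1 : (m : ℂ) ≠ 0 := by exact_mod_cast m0.ne'
      have m2 : (m : ℂ) + 1 ≠ 0 := by exact_mod_cast Nat.succ_ne_zero m
      have e : ∑ n ∈ Ioc a (m + 1), f n / (n : ℂ) -
          (∑ i ∈ range (m + 1), f (i + 1)) / ((m + 1 : ℕ) : ℂ) =
          (∑ n ∈ Ioc a m, f n / (n : ℂ) - (∑ i ∈ range m, f (i + 1)) / (m : ℂ)) +
            (∑ i ∈ range m, f (i + 1)) / (m : ℂ) / ((m + 1 : ℕ) : ℂ) := by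
        rw [sum_Ioc_succ_top hm, sum_range_succ]
        push_cast
        field_simp
        ring
      have t := mul_le_mul_of_nonneg_left (tele h0 h1 m0) (div_nonneg hC h0.le)
      have u : ‖(∑ i ∈ range m, f (i + 1)) / (m : ℂ) / ((m + 1 : ℕ) : ℂ)‖ ≤
          C / θ * (θ * ((m : ℝ) ^ (-θ) / (m + 1))) := by
        rw [norm_div, Complex.norm_natCast, Nat.cast_succ]
        refine (div_le_div_of_nonneg_right (hq m hm) (by linarith)).trans (le_of_eq ?_)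
        field_simp
      rw [e]
      refine (norm_add_le _ _).trans ?_
      push_cast at u ⊢
      linarith
  have p := Real.rpow_pos_of_pos a0 (-θ)
  rcases le_or_gt a b with hb | hb
  · have b0 : (0 : ℝ) < b := a0.trans_le (by exact_mod_cast hb)
    have k1 := key b hb
    have k2 := hq b hb
    have k3 : (b : ℝ) ^ (-θ) ≤ (a : ℝ) ^ (-θ) :=
      Real.rpow_le_rpow_of_nonpos a0 (by exact_mod_cast hb) (by linarith)
    have k4 := norm_le_norm_sub_add (∑ n ∈ Ioc a b, f n / (n : ℂ))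
      ((∑ i ∈ range b, f (i + 1)) / (b : ℂ))
    have k5 := mul_le_mul_of_nonneg_left k3 hC
    have k6 := mul_nonneg (div_nonneg hC h0.le) (Real.rpow_pos_of_pos b0 (-θ)).le
    calc _ ≤ 2 * (C * (a : ℝ) ^ (-θ)) + C / θ * (a : ℝ) ^ (-θ) := by linarith
      _ = _ := by ring
  · rw [Ioc_eq_empty_of_le hb.le, sum_empty, norm_zero]
    positivity

end Sm

theorem smS : SmSt := by
  intro A
  obtain ⟨θ, h0, h1, C, hC, H⟩ := P.short (2 * A)
  have i0 : 0 < 1 / θ := by positivity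
  refine ⟨θ, 2 * (C * (2 + 1 / θ)), h0, h1, by nlinarith, fun t χ P₁ P₂ hχ hP hq => ?_⟩
  have a1 : 1 ≤ ⌊P₁⌋₊ := (Nat.one_le_floor_iff _).2 hP
  have a2 : (1 : ℝ) ≤ ⌊P₁⌋₊ := by exact_mod_cast a1
  have a3 := Nat.lt_floor_add_one P₁
  refine (Sm.abel (C := C) h0 (by linarith) (by linarith) (fun n => χ n) a1
    (fun n hn => ?_) _).trans ?_
  · rcases (a1.trans hn).eq_or_lt with h | h
    · subst h
      simpa using hC
    · have n2 : (2 : ℝ) ≤ n := by exact_mod_cast h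
      have n3 : (⌊P₁⌋₊ : ℝ) ≤ n := by exact_mod_cast hn
      have n4 : 2 ^ (2 * t) ≤ n ^ (2 * A) := by
        have : (qq t : ℝ) ≤ ((n ^ (2 * A) : ℕ) : ℝ) := by
          rw [Nat.cast_pow n, pow_mul (n : ℝ)]
          exact hq.trans (pow_le_pow_left₀ (by linarith) (show P₁ ≤ (n : ℝ) ^ 2 by nlinarith) A)
        exact_mod_cast this
      have := H (2 * t) χ hχ 1 n n4
      refine le_trans (le_of_eq ?_) this
      congr 1
      refine sum_congr rfl fun i _ => ?_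
      congr 1
      push_cast
      ring
  · have b1 : (⌊P₁⌋₊ : ℝ) ^ (-θ) ≤ (P₁ / 2) ^ (-θ) :=
      Real.rpow_le_rpow_of_nonpos (by linarith) (by linarith) (by linarith)
    have b2 : (P₁ / 2) ^ (-θ) ≤ 2 * P₁ ^ (-θ) := by
      rw [div_eq_mul_inv, Real.mul_rpow (by linarith) (by norm_num), mul_comm,
        Real.inv_rpow (by norm_num), Real.rpow_neg (by norm_num : (0 : ℝ) ≤ 2), inv_inv]
      refine mul_le_mul_of_nonneg_right ?_ (Real.rpow_nonneg (by linarith) _)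
      simpa using Real.rpow_le_rpow_of_exponent_le (x := 2) (by norm_num) (by linarith : θ ≤ 1)
    calc _ ≤ C * (2 + 1 / θ) * (2 * P₁ ^ (-θ)) :=
          mul_le_mul_of_nonneg_left (b1.trans b2) (by positivity)
      _ = _ := by ring

end Pool.Agent.Lib.MP_f6c7cf_nt.FO
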