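import Mathlib

/-!
Masses of residue classes for polynomials with nonnegative coefficients.
-/

namespace Pool.Agent.Lib.MP_f6c7cf_nt.FO.Sp0

open Finset Polynomial
open scoped Classical

noncomputable section

/-- the mass of a residue class -/
def cm (Q : ℕ) (F : ℝ[X]) (a : ℤ) : ℝ :=
  ∑ y ∈ F.support.filter fun y : ℕ => (Q : ℤ) ∣ (y : ℤ) - a, F.coeff y

/-- the same as a linear map -/
def cl (Q : ℕ) (a : ℤ) : ℝ[X] →ₗ[ℝ] ℝ :=
  Polynomial.lsum fun y : ℕ => if (Q : ℤ) ∣ (y : ℤ) - a then LinearMap.id else 0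

theorem cm_eq (Q : ℕ) (F : ℝ[X]) (a : ℤ) : cm Q F a = cl Q a F := by
  rw [cm, cl, lsum_apply, sum_def, sum_filter]
  refine sum_congr rfl fun y _ => ?_
  split_ifs <;> simp

theorem cl_mon (Q : ℕ) (a : ℤ) (y : ℕ) (c : ℝ) :
    cl Q a (monomial y c) = if (Q : ℤ) ∣ (y : ℤ) - a then c else 0 := by
  rw [cl, lsum_apply, sum_monomial_index _ _ (by simp)]
  split_ifs <;> simp

theorem cm_mul (Q : ℕ) (F G : ℝ[X]) (a : ℤ) :
    cm Q (F * G) a = ∑ y ∈ F.support, F.coeff y * cm Q G (a - y) := by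
  rw [cm_eq, Polynomial.mul_eq_sum_sum, map_sum]
  refine sum_congr rfl fun y _ => ?_
  rw [sum_def, map_sum, cm, sum_filter, mul_sum]
  refine sum_congr rfl fun z _ => ?_
  rw [cl_mon]
  have e : ((y + z : ℕ) : ℤ) - a = z - (a - y) := by push_cast; ring
  rw [e]
  split_ifs <;> simp

/-- a law on the natural numbers -/
def Law (F : ℝ[X]) : Prop := (∀ n, 0 ≤ F.coeff n) ∧ F.eval 1 = 1

theorem Law.sum {F : ℝ[X]} (h : Law F) : ∑ y ∈ F.support, F.coeff y = 1 := by
  rw [← h.2, eval_eq_sum, sum_def]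
  simp

theorem Law.one : Law 1 := ⟨fun n => by rw [coeff_one]; split_ifs <;> norm_num, by simp⟩

theorem Law.mul {F G : ℝ[X]} (h : Law F) (g : Law G) : Law (F * G) :=
  ⟨fun n => by
    rw [coeff_mul]
    exact sum_nonneg fun x _ => mul_nonneg (h.1 _) (g.1 _), by rw [eval_mul, h.2, g.2, mul_one]⟩

theorem Law.pow {F : ℝ[X]} (h : Law F) (l : ℕ) : Law (F ^ l) := by
  induction l with
  | zero => simpa using Law.one
  | succ l ih => rw [pow_succ]; exact ih.mul h

theorem Law.prod {ι : Type*} (T : Finset ι) (F : ι → ℝ[X]) (h : ∀ i ∈ T, Law (F i)) :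
    Law (∏ i ∈ T, F i) :=
  Finset.prod_induction F Law (fun _ _ => Law.mul) Law.one h

theorem Law.expand {F : ℝ[X]} (h : Law F) {m : ℕ} (hm : 0 < m) : Law (expand ℝ m F) :=
  ⟨fun n => by
    rw [coeff_expand hm]
    split_ifs
    · exact h.1 _
    · exact le_rfl, by rw [expand_eval, one_pow, h.2]⟩

theorem cm_nonneg {F : ℝ[X]} (h : Law F) (Q : ℕ) (a : ℤ) : 0 ≤ cm Q F a :=
  sum_nonneg fun _ _ => h.1 _

theorem cm_le_one {F : ℝ[X]} (h : Law F) (Q : ℕ) (a : ℤ) : cm Q F a ≤ 1 :=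
  h.sum ▸ sum_le_sum_of_subset_of_nonneg (filter_subset _ _) fun _ _ _ => h.1 _

/-- a further factor does no harm -/
theorem sp_mul {F G : ℝ[X]} (h : Law F) {Q : ℕ} {π : ℝ} (g : ∀ a, cm Q G a ≤ π) (a : ℤ) :
    cm Q (F * G) a ≤ π := by
  rw [cm_mul]
  refine (sum_le_sum fun y _ => mul_le_mul_of_nonneg_left (g _) (h.1 y)).trans ?_
  rw [← sum_mul, h.sum, one_mul]

theorem cm_expand (m Q : ℕ) (hm : 0 < m) (G : ℝ[X]) (a : ℤ) :
    cm (m * Q) (expand ℝ m G) a = if (m : ℤ) ∣ a then cm Q G (a / m) else 0 := by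
  have mz : (m : ℤ) ≠ 0 := by exact_mod_cast hm.ne'
  conv_lhs => rw [cm_eq, G.as_sum_support, map_sum, map_sum]
  simp only [expand_monomial, cl_mon]
  split_ifs with h
  · obtain ⟨c, rfl⟩ := h
    rw [Int.mul_ediv_cancel_left _ mz, cm, sum_filter]
    refine sum_congr rfl fun z _ => if_congr ?_ rfl rfl
    push_cast
    rw [show (z : ℤ) * m - m * c = m * (z - c) by ring]
    exact mul_dvd_mul_iff_left mz
  · refine sum_eq_zero fun z _ => if_neg fun ⟨c, hc⟩ => h ⟨z - Q * c, ?_⟩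
    push_cast at hc
    linear_combination -hc

/-- digits in different places -/
theorem sp_place {F G : ℝ[X]} (h : Law F) {m Q : ℕ} (hm : 0 < m) {π π' : ℝ}
    (f : ∀ a, cm m F a ≤ π) (g : ∀ a, cm Q G a ≤ π') (g0 : 0 ≤ π') (a : ℤ) :
    cm (m * Q) (F * expand ℝ m G) a ≤ π * π' := by
  rw [cm_mul]
  refine le_trans ?_ (mul_le_mul_of_nonneg_right (f a) g0)
  rw [cm, sum_filter, sum_mul]
  refine sum_le_sum fun y _ => ?_
  rw [cm_expand m Q hm]
  by_cases e : (m : ℤ) ∣ a - y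
  · rw [if_pos e, if_pos (dvd_sub_comm.1 e)]
    exact mul_le_mul_of_nonneg_left (g _) (h.1 y)
  · rw [if_neg e, if_neg fun c => e (dvd_sub_comm.1 c)]
    simp

/-- many places -/
theorem sp_places {m : ℕ} (hm : 0 < m) (N : ℕ) (B : ℕ → ℝ[X]) (π : ℕ → ℝ) (hB : ∀ j, Law (B j))
    (hπ : ∀ j a, cm m (B j) a ≤ π j) (a : ℤ) :
    cm (m ^ N) (∏ j ∈ range N, expand ℝ (m ^ j) (B j)) a ≤ ∏ j ∈ range N, π j := by
  induction N generalizing B π a with
  | zero => simpa using cm_le_one Law.one 1 a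
  | succ N ih =>
    have e : ∏ j ∈ range (N + 1), expand ℝ (m ^ j) (B j) =
        B 0 * expand ℝ m (∏ j ∈ range N, expand ℝ (m ^ j) (B (j + 1))) := by
      rw [prod_range_succ', map_prod, mul_comm]
      simp [expand_expand, pow_succ']
    rw [e, pow_succ', prod_range_succ', mul_comm _ (π 0)]
    exact sp_place (hB 0) hm (hπ 0) (ih (fun j => B (j + 1)) (fun j => π (j + 1))
      (fun j => hB _) fun j => hπ _)
      (prod_nonneg fun j _ => (cm_nonneg (hB _) m 0).trans (hπ _ 0)) a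

theorem cm_congr {Q : ℕ} (F : ℝ[X]) {a b : ℤ} (h : (Q : ℤ) ∣ a - b) : cm Q F a = cm Q F b := by
  refine sum_congr (filter_congr fun y _ => ⟨fun c => ?_, fun c => ?_⟩) fun _ _ => rfl
  · simpa using dvd_add c h
  · simpa using dvd_sub c h

theorem sum_cm {Q : ℕ} (hQ : 0 < Q) (F : ℝ[X]) (u : ℤ → ℝ)
    (hu : ∀ a b, (Q : ℤ) ∣ a - b → u a = u b) :
    ∑ y ∈ F.support, F.coeff y * u y = ∑ r ∈ range Q, cm Q F r * u r := by
  rw [← sum_fiberwise_of_maps_to (t := range Q) (g := fun y => y % Q)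
    fun y _ => mem_range.2 (Nat.mod_lt _ hQ)]
  refine sum_congr rfl fun r hr => ?_
  have k : ∀ y : ℕ, y % Q = r ↔ (Q : ℤ) ∣ (y : ℤ) - r := fun y => by
    rw [← Nat.modEq_iff_dvd, Nat.ModEq, Nat.mod_eq_of_lt (mem_range.1 hr), eq_comm]
  rw [cm, sum_mul, filter_congr fun y _ => k y]
  exact sum_congr rfl fun y hy => by rw [hu _ _ (mem_filter.1 hy).2]

theorem tot {Q : ℕ} (hQ : 0 < Q) {G : ℝ[X]} (g : Law G) (a : ℤ) :
    ∑ r ∈ range Q, cm Q G (a - r) = 1 := by
  simp only [cm, sum_filter]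
  rw [sum_comm, ← g.sum]
  refine sum_congr rfl fun y _ => ?_
  have qz : (0 : ℤ) < Q := by exact_mod_cast hQ
  have b1 := Int.emod_nonneg (a - y) qz.ne'
  have b2 := Int.emod_lt_of_pos (a - y) qz
  have b3 := Int.mul_ediv_add_emod (a - y) Q
  rw [sum_eq_single_of_mem ((a - y) % Q).toNat (mem_range.2 (by omega)), if_pos]
  · rw [Int.toNat_of_nonneg b1]
    exact ⟨-((a - y) / Q), by linear_combination b3⟩
  · intro r hr hne
    refine if_neg fun ⟨c, hc⟩ => hne ?_
    have e : a - y = r + Q * (-c) := by linear_combination -hc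
    have hr' : (r : ℤ) < Q := by exact_mod_cast mem_range.1 hr
    rw [e, Int.add_mul_emod_self_left, Int.emod_eq_of_lt (by positivity) hr', Int.toNat_natCast]

/-- the contraction -/
theorem doe {Q : ℕ} (hQ : 0 < Q) {P : ℝ[X]} (hP : Law P) {ε : ℝ} (h : ∀ a, ε ≤ cm Q P a) (n : ℕ)
    (a : ℤ) : cm Q (P ^ n) a ≤ 1 / Q + (1 - Q * ε) ^ n := by
  have qr : (0 : ℝ) < Q := by exact_mod_cast hQ
  have s1 : ∑ r ∈ range Q, cm Q P r = 1 := by
    have := sum_cm hQ P (fun _ => 1) fun _ _ _ => rfl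
    simpa [hP.sum] using this.symm
  induction n generalizing a with
  | zero =>
    have := cm_le_one Law.one Q a
    have : (0 : ℝ) ≤ 1 / Q := by positivity
    simp only [pow_zero]
    linarith
  | succ n ih =>
    rw [pow_succ', cm_mul, sum_cm hQ P (fun y => cm Q (P ^ n) (a - y)) fun x y e =>
      cm_congr _ (by simpa using dvd_sub_comm.1 e)]
    calc _ = ∑ r ∈ range Q, ((cm Q P r - ε) * cm Q (P ^ n) (a - r) + ε * cm Q (P ^ n) (a - r)) :=
          sum_congr rfl fun r _ => by ring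
      _ ≤ ∑ r ∈ range Q, ((cm Q P r - ε) * (1 / Q + (1 - Q * ε) ^ n) +
            ε * cm Q (P ^ n) (a - r)) :=
          sum_le_sum fun r _ => by
            have := mul_le_mul_of_nonneg_left (ih (a - r)) (sub_nonneg.2 (h r))
            linarith
      _ = _ := by
          rw [sum_add_distrib, ← sum_mul, ← mul_sum, tot hQ (hP.pow n), sum_sub_distrib, s1]
          simp only [sum_const, card_range, nsmul_eq_mul]
          field_simp
          ring

theorem low {B : ℝ[X]} (hB : Law B) {c : ℕ} {μ : ℝ} (h0 : 0 ≤ μ) (h1 : μ ≤ B.coeff c)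
    (h2 : μ ≤ B.coeff (c + 1)) (n i : ℕ) (hi : i ≤ n) : μ ^ n ≤ (B ^ n).coeff (c * n + i) := by
  induction n generalizing i with
  | zero =>
    obtain rfl : i = 0 := by omega
    simp
  | succ n ih =>
    rw [pow_succ B, coeff_mul, pow_succ]
    have nn : ∀ x ∈ antidiagonal (c * (n + 1) + i), 0 ≤ (B ^ n).coeff x.1 * B.coeff x.2 :=
      fun x _ => mul_nonneg ((hB.pow n).1 _) (hB.1 _)
    rcases Nat.eq_zero_or_pos i with rfl | p
    · refine le_trans ?_ (single_le_sum nn (a := (c * n + 0, c)) (by simp; ring))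
      exact mul_le_mul (ih 0 (by omega)) h1 h0 ((hB.pow n).1 _)
    · refine le_trans ?_ (single_le_sum nn (a := (c * n + (i - 1), c + 1))
        (by rw [HasAntidiagonal.mem_antidiagonal, mul_add]; simp only; omega))
      exact mul_le_mul (ih _ (by omega)) h2 h0 ((hB.pow n).1 _)

/-- a law that charges two neighbours has almost uniform powers -/
theorem mix {Q : ℕ} (hQ : 0 < Q) {B : ℝ[X]} (hB : Law B) {c : ℕ} (h1 : 0 < B.coeff c)
    (h2 : 0 < B.coeff (c + 1)) : ∃ l : ℕ, 0 < l ∧ ∀ a, cm Q (B ^ l) a ≤ 2 / Q := by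
  have qr : (0 : ℝ) < Q := by exact_mod_cast hQ
  have qz : (0 : ℤ) < Q := by exact_mod_cast hQ
  set μ := min (B.coeff c) (B.coeff (c + 1)) with hμ
  have m0 : 0 < μ := lt_min h1 h2
  have k : ∀ a, μ ^ Q ≤ cm Q (B ^ Q) a := by
    intro a
    have b1 := Int.emod_nonneg a qz.ne'
    have b2 := Int.emod_lt_of_pos a qz
    have b3 := Int.mul_ediv_add_emod a Q
    have e := low hB m0.le (min_le_left _ _) (min_le_right _ _) Q (a % Q).toNat (by omega)
    refine e.trans (single_le_sum (f := fun y => (B ^ Q).coeff y) (fun y _ => (hB.pow Q).1 y)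
      (mem_filter.2 ⟨mem_support_iff.2 ((pow_pos m0 Q).trans_le e).ne', ?_⟩))
    push_cast
    rw [Int.toNat_of_nonneg b1]
    exact ⟨c - a / Q, by linear_combination b3⟩
  have e1 : Q * μ ^ Q ≤ 1 := by
    rw [← tot hQ (hB.pow Q) 0, ← nsmul_eq_mul]
    simpa using card_nsmul_le_sum (range Q) (fun r : ℕ => cm Q (B ^ Q) (0 - r)) _ fun r _ => k _
  have e2 : 0 < Q * μ ^ Q := by positivity
  obtain ⟨n, hn⟩ := exists_pow_lt_of_lt_one (x := 1 / (Q : ℝ)) (y := 1 - Q * μ ^ Q)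
    (by positivity) (by linarith)
  refine ⟨Q * (n + 1), by positivity, fun a => ?_⟩
  rw [pow_mul, pow_succ']
  refine sp_mul (hB.pow Q) (fun a => ?_) a
  have := doe hQ (hB.pow Q) k n a
  have e : (2 : ℝ) / Q = 1 / Q + 1 / Q := by ring
  linarith

end

end Pool.Agent.Lib.MP_f6c7cf_nt.FO.Sp0
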