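import Pool.Agent.Lib.MP_f6c7cf_nt.FO.St
import Pool.Agent.Lib.MP_f6c7cf_nt.FO.Sp0

/-!
Laws built from blocks of digits.
-/

namespace Pool.Agent.Lib.MP_f6c7cf_nt.FO

open Finset Filter Topology Polynomial
open scoped Classical

namespace SpA

theorem sp_iff (t : ℕ) (F : ℝ[X]) (π : ℝ) : Sp t F π ↔ ∀ a : ℤ, Sp0.cm (2 ^ t) F a ≤ π := by
  have key : ∀ a : ℕ, ∑ y ∈ F.support with y ≡ a [MOD 2 ^ t], F.coeff y = Sp0.cm (2 ^ t) F a := by
    intro a
    refine sum_congr (filter_congr fun y _ => ?_) fun _ _ => rfl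
    rw [Nat.ModEq.comm, Nat.modEq_iff_dvd]
  refine ⟨fun h a => ?_, fun h a => (key a).trans_le (h a)⟩
  have p : (0 : ℤ) < ((2 ^ t : ℕ) : ℤ) := by positivity
  have e : ((a % ((2 ^ t : ℕ) : ℤ)).toNat : ℤ) = a % ((2 ^ t : ℕ) : ℤ) :=
    Int.toNat_of_nonneg (Int.emod_nonneg _ p.ne')
  have := (key (a % ((2 ^ t : ℕ) : ℤ)).toNat).symm.trans_le (h _)
  rw [e] at this
  refine le_of_eq_of_le ?_ this
  refine sum_congr (filter_congr fun y _ => ?_) fun _ _ => rfl
  have d : ((2 ^ t : ℕ) : ℤ) ∣ a - a % ((2 ^ t : ℕ) : ℤ) := Int.dvd_self_sub_emod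
  refine ⟨fun g => ?_, fun g => ?_⟩
  · simpa using g.add d
  · simpa using g.sub d

end SpA

theorem spS (hB : Bas) : SpSt := by
  intro s k G hG
  refine ⟨fun π hπ => ?_, fun κ hκ => ?_⟩
  · rw [SpA.sp_iff]
    intro a
    have := Sp0.sp_places (m := 2 ^ s) (by positivity) k G (fun i => if i < k then π i else 1) hG
      (fun i a => by
        split_ifs with h
        · exact (SpA.sp_iff _ _ _).1 (hπ i h) a
        · exact Sp0.cm_le_one (hG i) _ a) a
    rw [prod_congr rfl fun i hi => if_pos (mem_range.1 hi)] at this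
    simpa only [← pow_mul, mul_comm s] using this
  · induction k with
    | zero =>
      intro y hy
      have : y = 0 := by
        by_contra n
        simp [coeff_one, n] at hy
      simp [this, s2]
    | succ N ih =>
      intro y hy
      rw [prod_range_succ, mem_support_iff, coeff_mul] at hy
      obtain ⟨x, hx, h0⟩ := exists_ne_zero_of_sum_ne_zero hy
      have e : x.1 + x.2 = y := HasAntidiagonal.mem_antidiagonal.1 hx
      obtain ⟨a1, a2⟩ := ih (fun i hi => hκ i (by omega)) x.1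
        (mem_support_iff.2 (left_ne_zero_of_mul h0))
      have b1 := right_ne_zero_of_mul h0
      rw [coeff_expand (by positivity)] at b1
      split_ifs at b1 with d
      · obtain ⟨c, hc⟩ := d
        rw [hc, Nat.mul_div_cancel_left _ (by positivity)] at b1
        obtain ⟨c1, c2⟩ := hκ N (by omega) c (mem_support_iff.2 b1)
        rw [← e, hc, hB.s2_add _ _ _ a1, add_mul, add_mul, one_mul, one_mul, pow_add]
        exact ⟨by nlinarith, by omega⟩
      · exact absurd rfl b1

end Pool.Agent.Lib.MP_f6c7cf_nt.FO
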