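import Pool.Agent.Lib.MP_f6c7cf_nt.FO.St

/-!
Sums of the first type.
-/

namespace Pool.Agent.Lib.MP_f6c7cf_nt.FO

open Finset Filter Topology Polynomial
open Pool.Agent.Lib.MP_9d27bc_nt.C (pr Rough)
open Pool.Agent.Lib.MP_4b1228_nt.GS (vm)
open scoped Classical ComplexConjugate

namespace T1

theorem D0_nonneg {ι : Type} (S : Finset ι) (v : ι → ℕ) : 0 ≤ D0 S v :=
  sum_nonneg fun _ _ => by positivity

theorem le_w {z : ℝ} (hz : 2 ≤ z) (k : ℕ) : z ^ 6 ≤ z ^ (4 * k + 6) :=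
  pow_le_pow_right₀ (by linarith) (by omega)

theorem le_wA {z : ℝ} (hz : 2 ≤ z) (k A : ℕ) : z ^ A ≤ (z ^ (4 * k + 6)) ^ A :=
  pow_le_pow_left₀ (by linarith) (le_self_pow₀ (by linarith) (by omega)) A

theorem tw (k : ℕ) : Tendsto (fun z : ℝ => z ^ (4 * k + 6)) atTop atTop :=
  tendsto_pow_atTop (by omega)

theorem err {z w P D : ℝ} (hz : 2 ≤ z) (hw : z ^ 6 ≤ w) (h : w ^ 7 ≤ P) (hD : D ≤ z ^ 2) :
    (D / P + 1 / w ^ 5) * w ^ 2 ≤ 1 / z := by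
  have z0 : 0 < z := by linarith
  have h1 : (2 : ℝ) ^ 3 ≤ z ^ 3 := pow_le_pow_left₀ (by norm_num) hz 3
  have h2 : 2 * z ^ 3 ≤ w := by nlinarith
  have h3 : z ≤ z ^ 3 := le_self_pow₀ (by linarith) (by norm_num)
  have w0 : 0 < w := by linarith
  have w1 : 1 ≤ w := by linarith
  have h5 : w ≤ w ^ 5 := le_self_pow₀ w1 (by norm_num)
  have h6 : w ≤ w ^ 3 := le_self_pow₀ w1 (by norm_num)
  have h7 : D / P ≤ z ^ 2 / w ^ 7 := div_le_div₀ (by positivity) hD (by positivity) h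
  have h8 : 1 / w ^ 3 ≤ 1 / (2 * z) := one_div_le_one_div_of_le (by positivity) (by linarith)
  have h9 : z ^ 2 / w ^ 5 ≤ 1 / (2 * z) := by
    rw [div_le_div_iff₀ (by positivity) (by positivity)]
    nlinarith
  calc (D / P + 1 / w ^ 5) * w ^ 2 ≤ (z ^ 2 / w ^ 7 + 1 / w ^ 5) * w ^ 2 := by gcongr
    _ = z ^ 2 / w ^ 5 + 1 / w ^ 3 := by field_simp
    _ ≤ 1 / (2 * z) + 1 / (2 * z) := add_le_add h9 h8
    _ = 1 / z := by field_simp; norm_num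

theorem mass (hB : Bas) (A B : ℕ) : ∀ᶠ z : ℝ in atTop,
    ∀ (ι : Type) (S : Finset ι) (v : ι → ℕ), Mult S v B → (∀ i ∈ S, (v i : ℝ) ≤ z ^ A) →
      D0 S v ≤ z ^ 2 := by
  filter_upwards [eventually_ge_atTop 1, eventually_ge_atTop ((B : ℝ) * (1 + A))]
    with z h1 h2 ι S v hm hv
  have h3 := hB.D0_le ι S v B (z ^ A) hm (one_le_pow₀ h1) hv
  have h4 : Real.log z ≤ z := (Real.log_le_sub_one_of_pos (by linarith)).trans (by linarith)
  have h5 : 1 + Real.log (z ^ A) ≤ (1 + A) * z := by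
    rw [Real.log_pow]
    nlinarith [mul_le_mul_of_nonneg_left h4 (Nat.cast_nonneg (α := ℝ) A)]
  calc D0 S v ≤ B * ((1 + A) * z) := h3.trans (by gcongr)
    _ = B * (1 + A) * z := by ring
    _ ≤ z * z := by gcongr
    _ = z ^ 2 := (sq z).symm

theorem row {w d q π P Y : ℝ} (hw : 1 ≤ w) (d1 : 1 ≤ d) (dw : d ≤ w) (hq : 0 ≤ q) (hπ : 0 ≤ π)
    (h : Row (w ^ 14) q π P Y) : Row (w ^ 12) q π (P / d) Y := by
  obtain ⟨h1, h2, h3, h4⟩ := h
  have d0 : 0 < d := by linarith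
  have e1 : d ^ 2 ≤ w ^ 2 := pow_le_pow_left₀ d0.le dw 2
  have e2 : d ≤ w ^ 2 := dw.trans (le_self_pow₀ hw two_ne_zero)
  have w0 : 0 ≤ w ^ 12 := by positivity
  have k1 : ∀ x : ℝ, 0 ≤ x → w ^ 12 * x * d ^ 2 ≤ w ^ 14 * x := fun x hx => by
    calc w ^ 12 * x * d ^ 2 ≤ w ^ 12 * x * w ^ 2 := by gcongr
      _ = w ^ 14 * x := by ring
  have k2 : ∀ x : ℝ, 0 ≤ x → w ^ 12 * x * d ≤ w ^ 14 * x := fun x hx => by
    calc w ^ 12 * x * d ≤ w ^ 12 * x * w ^ 2 := by gcongr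
      _ = w ^ 14 * x := by ring
  refine ⟨?_, ?_, ?_, ?_⟩
  · rw [div_pow, le_div_iff₀ (by positivity)]
    exact (k1 q hq).trans h1
  · rw [le_div_iff₀ d0]
    exact (k2 _ (by positivity)).trans h2
  · rw [div_pow, div_mul_eq_mul_div, le_div_iff₀ (by positivity)]
    exact (k1 _ (by positivity)).trans h3
  · rw [div_mul_eq_mul_div, le_div_iff₀ d0]
    exact (k2 _ (by positivity)).trans h4

theorem model (hB : Bas) (h2 : LinSt) {ι : Type} (S : Finset ι) (v : ι → ℕ) {d : ℕ} {P₁ P₂ : ℝ}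
    (hd : Odd d) (h0 : 0 < P₁) (h12 : P₁ ≤ P₂) :
    |D0 (S ×ˢ {n ∈ iv P₁ P₂ | Odd n ∧ d ∣ n}) (fun w => v w.1 * w.2) -
      D0 S v * Real.log (P₂ / P₁) / (2 * d)| ≤ D0 S v / P₁ := by
  have e1 := hB.D0_mul ι ℕ S v {n ∈ iv P₁ P₂ | Odd n ∧ d ∣ n} id
  have e2 := h2.2.1 d P₁ P₂ hd h0 h12
  have e3 := D0_nonneg S v
  simp only [id] at e1
  rw [e1, mul_div_assoc, ← mul_sub, abs_mul, abs_of_nonneg e3, div_eq_mul_one_div (D0 S v)]
  exact mul_le_mul_of_nonneg_left e2 e3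

end T1

open T1 in
theorem t1 (hB : Bas) (h1 : TCSt) (h2 : LinSt) (h3 : ESt) : T1St := by
  obtain ⟨C, hC, h1⟩ := h1
  refine ⟨C, hC, fun k hk A B => ?_⟩
  filter_upwards [eventually_ge_atTop 2, (tw k).eventually (h3 A B), mass hB A B]
    with z hz ha hm ι S v ω P₁ P₂ Y a1 a2 a3 a4 a5 a6 a7
  have hzw := le_w hz k
  have hA := le_wA hz k A
  have hpow : z ^ (2 * (4 * k + 6)) = (z ^ (4 * k + 6)) ^ 2 := by rw [mul_comm, pow_mul]
  have hw1 : 1 ≤ z ^ (4 * k + 6) := one_le_pow₀ (by linarith)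
  have h1' := h1 k hk (iv P₁ P₂) (fun m => ∑ i ∈ S, ω (v i * m)) z
    (D0 S v * Real.log (P₂ / P₁)) (D0 S v / P₁ + 1 / (z ^ (4 * k + 6)) ^ 5) hz
  rw [hpow] at h1'
  generalize z ^ (4 * k + 6) = W at *
  have hWP : W ≤ P₁ := (le_self_pow₀ hw1 (by norm_num)).trans a4
  have P0 : 0 < P₁ := by linarith
  have hD0 := D0_nonneg S v
  have hω : ∀ n, 0 ≤ ω n := by
    rcases a7 with rfl | ⟨t, F, π, -, b2, -, -, rfl⟩
    · intro n
      unfold w0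
      positivity
    · exact fun n => hB.ww_nonneg t F n b2
  have hL : 0 ≤ Real.log (P₂ / P₁) := Real.log_nonneg ((one_le_div P0).2 a5)
  have e2 := err hz hzw a4 (hm ι S v a1 fun i hi => (a3 i hi).2.1)
  have hAA : AA z ω S v P₁ P₂ = ∑ m ∈ iv P₁ P₂ with Rough z m, ∑ i ∈ S, ω (v i * m) := by
    unfold AA
    exact sum_comm
  rw [hAA]
  refine (h1' (fun n _ => sum_nonneg fun i _ => hω _) (mul_nonneg hD0 hL) (by positivity)
    fun d hd hdW => ?_).trans (add_le_add le_rfl e2)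
  have hm := model hB h2 S v hd P0 a5
  have d1 : 1 ≤ d := hd.pos
  have d1' : (1 : ℝ) ≤ d := by exact_mod_cast d1
  have hs : ∑ n ∈ iv P₁ P₂ with Odd n ∧ d ∣ n, ∑ i ∈ S, ω (v i * n) =
      ∑ w ∈ S ×ˢ {n ∈ iv P₁ P₂ | Odd n ∧ d ∣ n}, ω (v w.1 * w.2) := by
    rw [sum_product, sum_comm]
  rw [hs]
  rcases a7 with rfl | ⟨t, F, π, b1, b2, b3, b4, rfl⟩
  · refine le_trans ?_ (le_add_of_nonneg_right (by positivity))
    exact hm
  · have π0 : 0 ≤ π := by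
      have := hB.sp_ge t F π b2 b3
      by_contra hneg
      have : (2 : ℝ) ^ t * π ≤ 0 :=
        mul_nonpos_of_nonneg_of_nonpos (by positivity) (le_of_lt (not_le.1 hneg))
      linarith
    have c1 := hB.expand (ι × ℕ) (S ×ˢ {n ∈ iv P₁ P₂ | Odd n ∧ d ∣ n}) (fun w => v w.1 * w.2) t F
      b1 b2 fun w hw => (a3 _ (mem_product.1 hw).1).2.2.mul (mem_filter.1 (mem_product.1 hw).2).2.1
    have c2 := ha ι S v t F π (P₁ / d) (P₂ / d) Y a1 a2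
      (fun i hi => ⟨(a3 i hi).1, (a3 i hi).2.1.trans hA⟩) b1 b2 b3
      ((one_le_div (by linarith)).2 (hdW.trans hWP))
      (div_le_div_of_nonneg_right a5 (by linarith))
      ((div_le_self (by linarith) d1').trans (a6.trans hA))
      (row hw1 d1' hdW (by positivity) π0 b4)
    have c3 : ∑ χ ∈ nz t, ‖WW F χ‖ *
        ‖hat (S ×ˢ {n ∈ iv P₁ P₂ | Odd n ∧ d ∣ n}) (fun w => v w.1 * w.2) χ‖ ≤
        ∑ χ ∈ nz t, ‖WW F χ‖ * ‖hat S v χ‖ * ‖sm χ (P₁ / d) (P₂ / d)‖ := by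
      refine sum_le_sum fun χ _ => ?_
      have e1 := hB.hat_mul ι ℕ S v {n ∈ iv P₁ P₂ | Odd n ∧ d ∣ n} id t χ
      simp only [id] at e1
      rw [e1, norm_mul, mul_assoc]
      gcongr
      exact hB.hat_dvd t d χ P₁ P₂ b1 d1 P0.le (by linarith)
    have c4 := (c1.trans c3).trans c2
    refine (abs_sub_le _ _ _).trans ((add_le_add c4 hm).trans (le_of_eq (add_comm _ _)))

end Pool.Agent.Lib.MP_f6c7cf_nt.FO
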