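import Pool.Agent.Lib.MP_f6c7cf_nt.FO.St
import Pool.Agent.Lib.MP_4b1228_nt.GS.T3

/-!
Good cells.
-/

namespace Pool.Agent.Lib.MP_f6c7cf_nt.FO

open Finset Filter Topology Polynomial
open Pool.Agent.Lib.MP_9d27bc_nt.C (pr Rough)
open Pool.Agent.Lib.MP_4b1228_nt.GS (vm)
open scoped Classical ComplexConjugate

namespace T3

lemma two_idx {r : ℕ} (jv : Fin r → ℕ) (D D' : Multiset ℕ) (h : vm jv = D + D') :
    ∃ I I' : Finset (Fin r), ∑ i ∈ I, jv i = D.sum ∧ ∑ i ∈ I', jv i = D'.sum ∧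
      ∑ i, jv i = D.sum + D'.sum ∧
      ∀ φ : Fin r → ℝ, ∏ i, φ i = (∏ i ∈ I, φ i) * ∏ i ∈ I', φ i := by
  obtain ⟨a, b, h1, h2, h3⟩ := MP_4b1228_nt.GS.T3.split_map jv _ _ _ h
  have hn : (a + b).Nodup := by
    rw [← h1]
    exact (univ : Finset (Fin r)).nodup
  have hna : a.Nodup := Multiset.nodup_of_le (Multiset.le_add_right _ _) hn
  have hnb : b.Nodup := Multiset.nodup_of_le (Multiset.le_add_left _ _) hn
  refine ⟨⟨a, hna⟩, ⟨b, hnb⟩, ?_, ?_, ?_, ?_⟩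
  · simp [Finset.sum, h2]
  · simp [Finset.sum, h3]
  · rw [← Multiset.sum_add, ← h]
    rfl
  · intro φ
    simp only [Finset.prod]
    rw [h1]
    simp

lemma pw (t g D : ℕ) (y s a : ℝ) (hy : 1 ≤ y) (hs : 0 ≤ s) (hq : (qq t : ℝ) ≤ y ^ g)
    (h : g * s ≤ D) (ha : a = 2 * t * (s - 1)) : (qq t : ℝ) * 2 ^ a ≤ y ^ D := by
  have e : (qq t : ℝ) = (2 : ℝ) ^ (2 * t : ℝ) := by
    rw [show (2 * t : ℝ) = ((2 * t : ℕ) : ℝ) by push_cast; ring, Real.rpow_natCast]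
    simp [qq]
  have h1 : (qq t : ℝ) * 2 ^ a = (qq t : ℝ) ^ s := by
    rw [e, ← Real.rpow_add two_pos, ← Real.rpow_mul zero_le_two, ha]
    congr 1
    ring
  rw [h1]
  calc (qq t : ℝ) ^ s ≤ (y ^ g) ^ s := Real.rpow_le_rpow (Nat.cast_nonneg _) hq hs
    _ = y ^ (g * s) := by rw [← Real.rpow_natCast, ← Real.rpow_mul (by linarith)]
    _ ≤ y ^ (D : ℝ) := Real.rpow_le_rpow_of_exponent_le hy h
    _ = y ^ D := Real.rpow_natCast _ _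

lemma cardU {X : Type} [Fintype X] (U : Finset X) (p : X → ℝ) (x : ℝ) (m g : ℕ) (hx : 1 ≤ x)
    (hU : ∀ χ ∈ U, 1 / x ^ (2 * m) ≤ p χ) (hs : ∑ χ, (p χ ^ g) ^ 2 ≤ x) :
    (#U : ℝ) ≤ x ^ (4 * m * g + 1) := by
  have h0 : 0 < x := by linarith
  have h1 : (#U : ℝ) * (1 / x ^ (4 * m * g)) ≤ x := by
    refine le_trans ?_ hs
    rw [← nsmul_eq_mul, ← sum_const]
    refine le_trans (sum_le_sum fun χ hχ => ?_)
      (sum_le_sum_of_subset_of_nonneg (subset_univ U) fun _ _ _ => sq_nonneg _)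
    have e : 1 / x ^ (4 * m * g) = ((1 / x ^ (2 * m)) ^ g) ^ 2 := by
      rw [← pow_mul, one_div_pow, ← pow_mul]
      congr 2
      ring
    rw [e]
    have := hU χ hχ
    gcongr
  rw [mul_one_div, div_le_iff₀ (by positivity)] at h1
  rw [pow_succ, mul_comm (x ^ _)]
  exact h1

lemma pt {k : ℕ} (l : ℕ) (w : Fin k → ℝ) (hw0 : ∀ i, 0 ≤ w i) (hw1 : ∏ i, w i ≤ 1)
    (T : Fin k → Finset (Fin k)) (hT : ∀ i, T i ⊆ univ.erase i) (x ε W P d d' a b c₀ c₁ : ℝ)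
    (hx : 1 ≤ x) (hd : 0 ≤ d) (hd' : 0 ≤ d') (ha : 0 ≤ a) (hb : 0 ≤ b) (h0 : 0 ≤ c₀)
    (h1 : 0 ≤ c₁) (hP : P = d * d') (hP' : P = a * b * (c₀ * c₁)) (hc₀ : c₀ ≤ ε) (hc₁ : c₁ ≤ W) :
    (∏ i, w i) * P ≤ (if 1 / x ^ (2 * (2 * k * l + 1)) ≤ c₀ then ε * W * (a ^ 2 + b ^ 2) else 0) +
      (∑ i, 1 / x ^ 2 * ((∏ j ∈ T i, w j) ^ 2 * d ^ 2 +
        (∏ j ∈ univ.erase i \ T i, w j) ^ 2 * d' ^ 2)) +
      W / x ^ 2 * (((∏ i, w i) ^ l) ^ 2 * a ^ 2 + ((∏ i, w i) ^ l) ^ 2 * b ^ 2) := by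
  have hx0 : 0 < x := by linarith
  have hW : 0 ≤ W := h1.trans hc₁
  have hε : 0 ≤ ε := h0.trans hc₀
  have hw : 0 ≤ ∏ i, w i := prod_nonneg fun i _ => hw0 i
  have n1 : 0 ≤ (if 1 / x ^ (2 * (2 * k * l + 1)) ≤ c₀ then ε * W * (a ^ 2 + b ^ 2) else 0) := by
    split_ifs <;> positivity
  have n2 : 0 ≤ ∑ i, 1 / x ^ 2 * ((∏ j ∈ T i, w j) ^ 2 * d ^ 2 +
      (∏ j ∈ univ.erase i \ T i, w j) ^ 2 * d' ^ 2) := sum_nonneg fun _ _ => by positivity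
  have n3 : 0 ≤ W / x ^ 2 * (((∏ i, w i) ^ l) ^ 2 * a ^ 2 + ((∏ i, w i) ^ l) ^ 2 * b ^ 2) := by
    positivity
  have hab : a * b ≤ a ^ 2 + b ^ 2 := by nlinarith [sq_nonneg (a - b), mul_nonneg ha hb]
  have hP1 : (∏ i, w i) * P ≤ (a ^ 2 + b ^ 2) * (c₀ * W) := by
    calc (∏ i, w i) * P ≤ 1 * P := by
          refine mul_le_mul_of_nonneg_right hw1 ?_
          rw [hP]
          positivity
      _ = a * b * (c₀ * c₁) := by rw [one_mul, hP']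
      _ ≤ _ := by gcongr
  by_cases hm : ∃ i, w i ≤ 1 / x ^ 2
  · obtain ⟨i, hi⟩ := hm
    have e : ∏ j, w j = w i * ((∏ j ∈ univ.erase i \ T i, w j) * ∏ j ∈ T i, w j) := by
      rw [prod_sdiff (hT i), mul_prod_erase _ _ (mem_univ i)]
    have b1 : 0 ≤ ∏ j ∈ T i, w j := prod_nonneg fun i _ => hw0 i
    have b2 : 0 ≤ ∏ j ∈ univ.erase i \ T i, w j := prod_nonneg fun i _ => hw0 i
    have h3 : (∏ j, w j) * P ≤ 1 / x ^ 2 * ((∏ j ∈ T i, w j) ^ 2 * d ^ 2 +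
        (∏ j ∈ univ.erase i \ T i, w j) ^ 2 * d' ^ 2) := by
      rw [e, hP]
      generalize (∏ j ∈ T i, w j) = u at b1 ⊢
      generalize (∏ j ∈ univ.erase i \ T i, w j) = v at b2 ⊢
      have h4 : v * u * (d * d') ≤ u ^ 2 * d ^ 2 + v ^ 2 * d' ^ 2 := by
        nlinarith [sq_nonneg (u * d - v * d'), mul_nonneg (mul_nonneg b1 hd) (mul_nonneg b2 hd')]
      rw [mul_assoc]
      gcongr
    have h5 := single_le_sum (f := fun i => 1 / x ^ 2 * ((∏ j ∈ T i, w j) ^ 2 * d ^ 2 +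
      (∏ j ∈ univ.erase i \ T i, w j) ^ 2 * d' ^ 2)) (fun _ _ => by positivity) (mem_univ i)
    linarith
  by_cases hU : 1 / x ^ (2 * (2 * k * l + 1)) ≤ c₀
  · rw [if_pos hU]
    have h3 : (a ^ 2 + b ^ 2) * (c₀ * W) ≤ (a ^ 2 + b ^ 2) * (ε * W) := by gcongr
    linarith
  have h3 : (1 / x ^ 2) ^ k ≤ ∏ i, w i := by
    have e : (1 / x ^ 2) ^ k = ∏ _i : Fin k, 1 / x ^ 2 := by simp
    rw [e]
    exact prod_le_prod (fun _ _ => by positivity) fun i _ =>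
      (not_le.1 fun h => hm ⟨i, h⟩).le
  have h4 : c₀ ≤ 1 / x ^ 2 * ((∏ i, w i) ^ l) ^ 2 := by
    calc c₀ ≤ 1 / x ^ (2 * (2 * k * l + 1)) := (not_le.1 hU).le
      _ = 1 / x ^ 2 * (((1 / x ^ 2) ^ k) ^ l) ^ 2 := by
          rw [← pow_mul, ← pow_mul, ← pow_succ', one_div_pow, ← pow_mul]
          congr 2
          ring
      _ ≤ _ := by gcongr
  have h5 : (a ^ 2 + b ^ 2) * (c₀ * W) ≤
      (a ^ 2 + b ^ 2) * (1 / x ^ 2 * ((∏ i, w i) ^ l) ^ 2 * W) := by gcongr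
  have h6 : (a ^ 2 + b ^ 2) * (1 / x ^ 2 * ((∏ i, w i) ^ l) ^ 2 * W) =
      W / x ^ 2 * (((∏ i, w i) ^ l) ^ 2 * a ^ 2 + ((∏ i, w i) ^ l) ^ 2 * b ^ 2) := by ring
  linarith

lemma sum_nz {t : ℕ} (f : Ch t → ℝ) (h : ∀ χ, 0 ≤ f χ) : ∑ χ ∈ nz t, f χ ≤ ∑ χ, f χ :=
  sum_le_sum_of_subset_of_nonneg (subset_univ _) fun _ _ _ => h _

end T3

open T3 in
theorem t3 (hB : Bas) (hX : Box) (h1 : MBSt) (h2 : HBSt) (h3 : PBSt) : T3St := by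
  obtain ⟨c, h2⟩ := h2
  refine ⟨c, ?_⟩
  intro k l H δ g A G N j₀ hH0 hH2 hδ hS hG hj hc r jv ε hjv hN hgood hε
  obtain ⟨⟨D, D', hD, hA1, hA2⟩, hgood⟩ := hgood
  obtain ⟨I, I', s1, s2, s3, hprod1⟩ := two_idx jv D D' hD
  obtain ⟨Ia, Ib, Ic, ⟨i₀, hi₀⟩, hIa, hIb, hprod2⟩ := MP_4b1228_nt.GS.T3.good_idx jv G hgood
  obtain ⟨n, n', hk, hn, hn'⟩ := hS D.sum D'.sum hA1 hA2 (s3 ▸ hN)
  have hg0 : (0 : ℝ) ≤ g := Nat.cast_nonneg g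
  have hg3 : g ≤ 3 * G := by
    have : (g : ℝ) ≤ 3 * G := by nlinarith [mul_nonneg hδ hg0, Nat.cast_nonneg (α := ℝ) G]
    exact_mod_cast this
  obtain ⟨K₁, m1⟩ := h2 r g j₀ G jv Ia hj hjv hc hg3 hIa
  obtain ⟨K₂, m2⟩ := h2 r g j₀ G jv Ib hj hjv hc hg3 hIb
  obtain ⟨C₀, hC₀⟩ := hX.D0_box
  obtain ⟨W, hW⟩ : ∃ W : ℝ, W = (C₀ : ℝ) ^ #(Ic.erase i₀) := ⟨_, rfl⟩
  have hW0 : 0 ≤ W := by rw [hW]; positivity
  have hex : ∀ i : Fin k, ∃ T ⊆ univ.erase i, #T = n := fun i =>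
    exists_subset_card_eq (by
      rw [card_erase_of_mem (mem_univ i), card_univ, Fintype.card_fin]; omega)
  choose T hT hTc using hex
  have hTc' : ∀ i, #(univ.erase i \ T i) = n' := fun i => by
    rw [card_sdiff_of_subset (hT i), card_erase_of_mem (mem_univ i), card_univ, Fintype.card_fin,
      hTc]
    omega
  obtain ⟨n₀, hn₀⟩ : ∃ n₀ : ℕ, n₀ = 4 * (2 * k * l + 1) * g + 1 := ⟨_, rfl⟩
  have he : (0 : ℝ) < (n₀ : ℝ)⁻¹ := by rw [hn₀]; positivity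
  have hpos : 0 < ε / 2 / (W * (|K₁| + |K₂|) + 1) := by positivity
  have hj1 : 1 ≤ jv i₀ := hj.trans (hjv i₀)
  filter_upwards [m1, m2, h3 (jv i₀) g _ hj1 hpos, h1 g g (fun _ => jv i₀) univ _ he,
    h1 r g jv I _ he, h1 r g jv I' _ he, h1 r g jv Ia _ he, h1 r g jv Ib _ he,
    eventually_ge_atTop (2 : ℝ),
    (tendsto_rpow_atTop he).eventually_ge_atTop ((2 * k + 2 * W) / (ε / 2))]
    with y a1 a2 a3 bU bD bD' bA bB hy hbig ω hω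
  rcases hω with rfl | ⟨t, F, ht, ⟨hF, hSp, hSl⟩, hq, rfl⟩
  · simpa using hε.le
  have hy1 : 1 < y := by linarith
  have hxy : (y ^ (n₀ : ℝ)⁻¹) ^ n₀ = y := Real.rpow_inv_natCast_pow (by linarith) (by omega)
  have hx : 1 ≤ y ^ (n₀ : ℝ)⁻¹ := Real.one_le_rpow hy1.le he.le
  generalize y ^ (n₀ : ℝ)⁻¹ = x at bU bD bD' bA bB hbig hxy hx
  have hx0 : 0 < x := by linarith
  have hFF : Prob (∏ i, F i) := hB.prob_prod _ _ _ fun i _ => hF i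
  have hodd : ∀ f ∈ (Fintype.piFinset fun i => Bx y (jv i)), Odd (∏ i, f i) := by
    intro f hf
    refine hX.odd (y ^ j₀) _ (hy.trans (le_self_pow₀ hy1.le (by omega))) ?_
    exact (hX.nm_tup (Fin r) y j₀ jv f hy1 fun k => ⟨hjv k, Fintype.mem_piFinset.1 hf k⟩).2.2
  have h6 := hB.expand _ (Fintype.piFinset fun i => Bx y (jv i)) (fun f => ∏ i, f i) t _ ht hFF
    hodd
  have e1 : cell y w0 jv = D0 (Fintype.piFinset fun i => Bx y (jv i)) (fun f => ∏ i, f i) := rfl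
  rw [e1]
  refine h6.trans ?_
  obtain ⟨U, hU⟩ : ∃ U : Finset (Ch t),
    U = {χ ∈ nz t | 1 / x ^ (2 * (2 * k * l + 1)) ≤ ‖hat (Bx y (jv i₀)) id χ‖} := ⟨_, rfl⟩
  have hUc : (#U : ℝ) ≤ y := by
    rw [← hxy, hn₀]
    refine cardU U (fun χ => ‖hat (Bx y (jv i₀)) id χ‖) x _ g hx
      (fun χ hχ => by rw [hU] at hχ; exact (mem_filter.1 hχ).2) ?_
    have h7 := bU t 1 1 ht hB.prob_one (hB.sp_one t 1 hB.prob_one) hq (by
      rw [mul_one]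
      refine hq.trans (pow_le_pow_right₀ hy1.le ?_)
      rw [sum_const, card_univ, Fintype.card_fin, smul_eq_mul]
      exact Nat.le_mul_of_pos_right _ hj1)
    simpa [hB.WW_one, hp] using h7
  have hk0 : (0 : ℝ) < k := by exact_mod_cast (by omega : 0 < k)
  have hrow : ∀ (m E : ℕ) (S : Finset (Fin k)), #S = m → m ≤ k →
      g * (1 - H * m / (2 * k)) ≤ E → (qq t : ℝ) * 2 ^ (-(H * t * #S / k)) ≤ y ^ E := by
    intro m E S hS hm h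
    have hm' : (m : ℝ) ≤ k := by exact_mod_cast hm
    refine pw t g E y _ _ hy1.le ?_ hq h ?_
    · rw [sub_nonneg, div_le_one (by positivity)]
      nlinarith [Nat.cast_nonneg (α := ℝ) m]
    · rw [hS]
      field_simp
      ring
  have hmaj : ∀ E : ℕ, G ≤ E → (qq t : ℝ) * 2 ^ ((δ - 1) * t) ≤ y ^ E := by
    intro E hE
    have hE' : (G : ℝ) ≤ E := by exact_mod_cast hE
    exact pw t g E y ((1 + δ) / 2) _ hy1.le (by positivity) hq (by linarith) (by ring)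
  have c1 := fun i => bD t _ _ ht (hB.prob_prod _ (T i) F fun i _ => hF i) (hSp (T i)) hq
    (hrow n _ _ (hTc i) (by omega) (s1 ▸ hn))
  have c2 := fun i => bD' t _ _ ht (hB.prob_prod _ (univ.erase i \ T i) F fun i _ => hF i)
    (hSp _) hq (hrow n' _ _ (hTc' i) (by omega) (s2 ▸ hn'))
  have c3 := bA t _ _ ht (hB.prob_pow _ l hFF) hSl hq (hmaj _ hIa)
  have c4 := bB t _ _ ht (hB.prob_pow _ l hFF) hSl hq (hmaj _ hIb)
  have c5 := (a1 t U ht hq hUc).trans (le_abs_self _)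
  have c6 := (a2 t U ht hq hUc).trans (le_abs_self _)
  have e : ∀ χ ∈ nz t, ‖WW (∏ i, F i) χ‖ *
      ‖hat (Fintype.piFinset fun i => Bx y (jv i)) (fun f => ∏ i, f i) χ‖ ≤
      (if 1 / x ^ (2 * (2 * k * l + 1)) ≤ ‖hat (Bx y (jv i₀)) id χ‖ then
        ε / 2 / (W * (|K₁| + |K₂|) + 1) * W * (‖hp y jv Ia χ‖ ^ 2 + ‖hp y jv Ib χ‖ ^ 2) else 0) +
      (∑ i, 1 / x ^ 2 * (‖WW (∏ j ∈ T i, F j) χ‖ ^ 2 * ‖hp y jv I χ‖ ^ 2 +
        ‖WW (∏ j ∈ univ.erase i \ T i, F j) χ‖ ^ 2 * ‖hp y jv I' χ‖ ^ 2)) +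
      W / x ^ 2 * (‖WW ((∏ i, F i) ^ l) χ‖ ^ 2 * ‖hp y jv Ia χ‖ ^ 2 +
        ‖WW ((∏ i, F i) ^ l) χ‖ ^ 2 * ‖hp y jv Ib χ‖ ^ 2) := by
    intro χ hχ
    have h5 := hB.hat_pi (Fin r) ℕ (fun k => Bx y (jv k)) id t χ
    simp only [id] at h5
    have h7 := hB.WW_le t _ χ hFF
    rw [hB.WW_prod, norm_prod] at h7
    rw [h5]
    simp only [hB.WW_pow, hB.WW_prod, norm_pow, FO.hp, norm_prod]
    refine pt l (fun i => ‖WW (F i) χ‖) (fun _ => norm_nonneg _) h7 T hT x _ W _ _ _ _ _ _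
      (∏ i ∈ Ic.erase i₀, ‖hat (Bx y (jv i)) id χ‖) hx
      (prod_nonneg fun _ _ => norm_nonneg _) (prod_nonneg fun _ _ => norm_nonneg _)
      (prod_nonneg fun _ _ => norm_nonneg _) (prod_nonneg fun _ _ => norm_nonneg _)
      (norm_nonneg _) (prod_nonneg fun _ _ => norm_nonneg _) (hprod1 _) ?_
      (a3 t χ (mem_erase.1 hχ).1 hq) ?_
    · rw [hprod2, ← mul_prod_erase Ic _ hi₀]
    · rw [hW, ← prod_const]
      refine prod_le_prod (fun _ _ => norm_nonneg _) fun i _ => ?_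
      exact (hB.hat_le _ _ _ _ _).trans (hC₀ y _ hy (hj.trans (hjv i)))
  refine (sum_le_sum e).trans ?_
  rw [sum_add_distrib, sum_add_distrib, ← sum_filter, ← hU, sum_comm, ← mul_sum, ← mul_sum,
    sum_add_distrib, sum_add_distrib]
  have d1 : ε / 2 / (W * (|K₁| + |K₂|) + 1) * W *
      (∑ χ ∈ U, ‖hp y jv Ia χ‖ ^ 2 + ∑ χ ∈ U, ‖hp y jv Ib χ‖ ^ 2) ≤ ε / 2 := by
    calc _ ≤ ε / 2 / (W * (|K₁| + |K₂|) + 1) * W * (|K₁| + |K₂|) := by gcongr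
      _ = ε / 2 * (W * (|K₁| + |K₂|) / (W * (|K₁| + |K₂|) + 1)) := by ring
      _ ≤ ε / 2 * 1 := by
        gcongr
        rw [div_le_one (by positivity)]
        linarith
      _ = ε / 2 := mul_one _
  have d2 : ∑ i : Fin k, ∑ χ ∈ nz t, 1 / x ^ 2 *
      (‖WW (∏ j ∈ T i, F j) χ‖ ^ 2 * ‖hp y jv I χ‖ ^ 2 +
        ‖WW (∏ j ∈ univ.erase i \ T i, F j) χ‖ ^ 2 * ‖hp y jv I' χ‖ ^ 2) ≤
      ∑ _i : Fin k, 1 / x ^ 2 * (x + x) := by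
    refine sum_le_sum fun i _ => ?_
    rw [← mul_sum, sum_add_distrib]
    have f1 := (sum_nz _ fun _ => by positivity).trans (c1 i)
    have f2 := (sum_nz _ fun _ => by positivity).trans (c2 i)
    gcongr
  have d3 : W / x ^ 2 * (∑ χ ∈ nz t, ‖WW ((∏ i, F i) ^ l) χ‖ ^ 2 * ‖hp y jv Ia χ‖ ^ 2 +
      ∑ χ ∈ nz t, ‖WW ((∏ i, F i) ^ l) χ‖ ^ 2 * ‖hp y jv Ib χ‖ ^ 2) ≤ W / x ^ 2 * (x + x) := by
    have f1 := (sum_nz _ fun _ => by positivity).trans c3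
    have f2 := (sum_nz _ fun _ => by positivity).trans c4
    gcongr
  rw [sum_const, card_univ, Fintype.card_fin, nsmul_eq_mul] at d2
  have d4 : (k : ℝ) * (1 / x ^ 2 * (x + x)) + W / x ^ 2 * (x + x) ≤ ε / 2 := by
    have e2 : (k : ℝ) * (1 / x ^ 2 * (x + x)) + W / x ^ 2 * (x + x) = (2 * k + 2 * W) / x := by
      field_simp
      ring
    rw [e2, div_le_iff₀ hx0]
    rw [div_le_iff₀ (by positivity)] at hbig
    linarith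
  linarith

end Pool.Agent.Lib.MP_f6c7cf_nt.FO
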