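import Pool.Agent.Lib.MP_f6c7cf_nt.FO.St
import Pool.Agent.Lib.MP_4b1228_nt.GS.FLq

/-! The sieve and the upper bound for rough numbers. -/

namespace Pool.Agent.Lib.MP_f6c7cf_nt.FO

open Finset Filter Topology Polynomial
open Pool.Agent.Lib.MP_9d27bc_nt.C (pr Rough)
open scoped Classical

theorem tc : TCSt := by
  obtain ⟨C, hC, h⟩ := Pool.Agent.Lib.MP_4b1228_nt.GS.flq 1 one_pos
  refine ⟨C, hC, fun k hk A w z M E hz hw hM hE hs => ?_⟩
  have mp : ∀ l, l ∈ (pr 0 z).erase 2 ↔ l ≠ 2 ∧ l.Prime ∧ (l : ℝ) ≤ z := fun l => by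
    simp only [pr, mem_erase, mem_filter, mem_range, Nat.lt_succ_iff,
      Nat.le_floor_iff (by linarith : 0 ≤ z), Nat.cast_pos]
    exact ⟨fun h => ⟨h.1, h.2.2.1, h.2.1⟩, fun h => ⟨h.1, h.2.2, h.2.1, h.2.1.pos⟩⟩
  have h2 : 2 ∈ pr 0 z := by
    simp only [pr, mem_filter, mem_range, Nat.lt_succ_iff, Nat.le_floor_iff (by linarith : 0 ≤ z)]
    exact ⟨by exact_mod_cast hz, Nat.prime_two, by norm_num⟩
  have key := h k hk ℕ {n ∈ A | Odd n} w ((pr 0 z).erase 2) (fun l n => l ∣ n)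
    (fun l => 1 / (l : ℝ)) (M / 2) E z hz (fun n hn => hw n (mem_filter.1 hn).1) (fun l hl => by
      obtain ⟨-, a1, a2⟩ := (mp l).1 hl
      exact ⟨a1, a2, by positivity, le_rfl,
        one_div_le_one_div_of_le two_pos (by exact_mod_cast a1.two_le)⟩)
    (by positivity) hE fun T hT hq => by
      have hp := fun l hl => (mp l).1 (hT hl)
      rw [← Nat.cast_prod] at hq
      have a := hs _ (prod_induction _ Odd (fun _ _ => Odd.mul) odd_one
        fun l hl => (hp l hl).2.1.odd_of_ne_two (hp l hl).1) hq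
      rw [prod_div_distrib, prod_const_one, ← Nat.cast_prod, mul_one_div, div_div]
      refine le_trans (le_of_eq (congrArg (fun s : ℝ => |s - _|)
        (sum_congr (Finset.ext fun n => ?_) fun _ _ => rfl))) a
      simp only [mem_filter, and_assoc]
      exact and_congr_right fun _ => and_congr_right fun _ =>
        ⟨prod_primes_dvd n fun l hl => (hp l hl).2.1.prime,
          fun h l hl => (dvd_prod_of_mem _ hl).trans h⟩
  have e : M * VV z = M / 2 * ∏ l ∈ (pr 0 z).erase 2, (1 - 1 / (l : ℝ)) := by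
    rw [VV, ← mul_prod_erase _ _ h2]
    push_cast
    ring
  rw [e]
  refine le_trans (le_of_eq (congrArg (fun s : ℝ => |s - _|)
    (sum_congr (Finset.ext fun n => ?_) fun _ _ => rfl))) key
  simp only [mem_filter, and_assoc]
  refine and_congr_right fun _ => ⟨fun h => ⟨?_, fun l hl hd => ?_⟩,
    fun h l hl hd => lt_of_not_ge fun hz => ?_⟩
  · refine Nat.not_even_iff_odd.1 fun he => ?_
    have := h 2 Nat.prime_two he.two_dvd
    push_cast at this
    linarith
  · exact (h l ((mp l).1 hl).2.1 hd).not_ge ((mp l).1 hl).2.2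
  · refine h.2 l ((mp l).2 ⟨?_, hl, hz⟩) hd
    rintro rfl
    exact h.1.not_two_dvd_nat hd

theorem ub (hB : Bas) (hX : Box) (h1 : TCSt) : UBSt := by
  obtain ⟨C, hC, h⟩ := h1
  obtain ⟨k, hk⟩ := pow_unbounded_of_one_lt C (one_lt_two (α := ℝ))
  obtain ⟨C₁, hC₁, hV⟩ := hX.VV_le
  refine ⟨2 * (4 * k + 6) + 1, 2 * C₁ + 2, by positivity, ?_⟩
  rintro z K ω Y Y' hz ⟨h0, K₁, K₂, k1, k2, k3, -, k4⟩ hY hY'
  obtain ⟨v1, v2⟩ := hV z hz
  have hU : 0 < z ^ (2 * (4 * k + 6)) := by positivity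
  have hK : K₁ ≤ K := le_trans (le_mul_of_one_le_right (by linarith) k2) k3
  have Y0 : 0 < Y := lt_of_lt_of_le (mul_pos (by positivity) (by linarith)) hY
  have l0 : 0 ≤ Real.log (Y' / Y) := Real.log_nonneg ((one_le_div Y0).2 hY')
  have lz : 0 < Real.log z := Real.log_pos (by linarith)
  have m0 : 0 ≤ Real.log (Y' / (Y / 2)) := Real.log_nonneg ((one_le_div (by linarith)).2 (by linarith))
  have m1 : Real.log (Y' / (Y / 2)) ≤ 1 + Real.log (Y' / Y) := by
    rw [show Y' / (Y / 2) = 2 * (Y' / Y) by field_simp,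
      Real.log_mul two_ne_zero (div_pos (by linarith) Y0).ne']
    linarith [Real.log_two_lt_d9]
  have key := (abs_le.1 (h k hk.le (iv (Y / 2) Y') ω z _ (K₁ / (Y / 2)) hz (fun n _ => h0 n) m0
    (by positivity) fun d hd _ => k4 d _ _ hd (by linarith) (by linarith))).2
  have c1 : lay z ω Y Y' ≤ ∑ n ∈ iv (Y / 2) Y' with Rough z n, ω n := by
    refine sum_le_sum_of_subset_of_nonneg (fun n hn => ?_) fun n _ _ => h0 n
    rw [mem_filter, mem_range, Nat.lt_succ_iff, Nat.le_floor_iff (by linarith)] at hn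
    exact mem_filter.2 ⟨(hB.mem_iv _ _ n (by linarith) (by linarith)).2
      ⟨by linarith [hn.2.1], hn.1⟩, hn.2.2⟩
  have c2 : C / 2 ^ k * (Real.log (Y' / (Y / 2)) * VV z) ≤ Real.log (Y' / (Y / 2)) * VV z :=
    mul_le_of_le_one_left (mul_nonneg m0 v1) ((div_le_one (by positivity)).2 hk.le)
  have c3 := mul_le_mul m1 v2 v1 (by linarith)
  have c4 : K₁ / (Y / 2) * z ^ (2 * (4 * k + 6)) ≤ 2 / Real.log z := by
    rw [div_mul_eq_mul_div, div_le_div_iff₀ (by linarith) lz]
    rw [pow_succ] at hY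
    have a : Real.log z ≤ z := (Real.log_le_sub_one_of_pos (by linarith)).trans (by linarith)
    have b := mul_le_mul (mul_le_mul_of_nonneg_right hK hU.le) a lz.le
      (mul_nonneg (by linarith) hU.le)
    linarith
  have c5 : 2 / Real.log z ≤ 2 * (1 + Real.log (Y' / Y)) / Real.log z :=
    div_le_div_of_nonneg_right (by linarith) lz.le
  have e : (2 * C₁ + 2) * (1 + Real.log (Y' / Y)) / Real.log z =
      2 * ((1 + Real.log (Y' / Y)) * (C₁ / Real.log z)) +
        2 * (1 + Real.log (Y' / Y)) / Real.log z := by ring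
  linarith

end Pool.Agent.Lib.MP_f6c7cf_nt.FO
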