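import Pool.Agent.Lib.MP_f6c7cf_nt.FO.St

/-! All sums of the first type, for general weights. -/

namespace Pool.Agent.Lib.MP_f6c7cf_nt.FO

open Finset Filter Topology Polynomial
open Pool.Agent.Lib.MP_9d27bc_nt.C (pr Rough)
open Pool.Agent.Lib.MP_4b1228_nt.GS (vm)
open scoped Classical ComplexConjugate

noncomputable section

namespace TIG

lemma small {J : ℕ} {M : Multiset ℕ} (h1 : ∀ x ∈ M, 1 ≤ x) (h2 : M.sum < J) :
    M ≤ J • Multiset.range J := by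
  refine Multiset.le_iff_count.2 fun x => ?_
  by_cases hx : x ∈ M
  · have a1 : x ≤ M.sum := Multiset.single_le_sum (fun _ _ => Nat.zero_le _) x hx
    have a2 : M.card • 1 ≤ M.sum := Multiset.card_nsmul_le_sum h1
    have a3 := Multiset.count_le_card x M
    rw [Multiset.count_nsmul, Multiset.count_eq_one_of_mem (Multiset.nodup_range J)
      (Multiset.mem_range.2 (by omega))]
    rw [smul_eq_mul] at a2
    omega
  · rw [Multiset.count_eq_zero_of_notMem hx]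
    exact Nat.zero_le _

lemma im_ge (hX : Box) {y : ℝ} (hy : 1 < y) {j J : ℕ} {S : Finset ℕ} (h : S ⊆ PP y j J) :
    ∀ x ∈ im y S, j ≤ x := fun x hx => by
  obtain ⟨p, hp, rfl⟩ := Multiset.mem_map.1 hx
  exact (hX.ix_PP y j J p hy (h hp)).1

lemma D0_nonneg {ι : Type} (S : Finset ι) (v : ι → ℕ) : 0 ≤ D0 S v :=
  sum_nonneg fun _ _ => by positivity

lemma close {x x' M D e c W K : ℝ} (h : |x - M| ≤ c * M + e) (h' : |x' - M| ≤ c * M + e)
    (hM : M = D * W) (hW : W ≤ K) (hc : 0 ≤ c) (hD : 0 ≤ D) :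
    |x - x'| ≤ 2 * (c * K * D + e) := by
  have h1 : c * M ≤ c * K * D := by
    rw [hM, mul_assoc c K D, mul_comm K D]
    exact mul_le_mul_of_nonneg_left (mul_le_mul_of_nonneg_left hW hD) hc
  have := abs_sub_le x M x'
  rw [abs_sub_comm M x'] at this
  linarith

/-- the length of the range of the cofactor -/
lemma log_pBA {y : ℝ} (hy : 0 < y) (J₁ J₂ R a : ℕ) :
    Real.log (pB J₂ y R a / pA J₁ y a) = ((J₂ : ℝ) - J₁ + R + 1) * Real.log y := by
  rw [pA, pB, Real.log_div (Real.rpow_pos_of_pos hy _).ne' (Real.rpow_pos_of_pos hy _).ne',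
    Real.log_rpow hy, Real.log_rpow hy]
  ring

lemma kb (hX : Box) : ∃ K : ℝ, 0 < K ∧ ∀ (J₁ J₂ : ℕ) (y : ℝ) (j₀ R a : ℕ), J₁ ≤ J₂ → 1 ≤ j₀ →
    3 ≤ y → Real.log (pB J₂ y R a / pA J₁ y a) * VV (y ^ j₀) ≤
      K * (((J₂ : ℝ) - J₁ + R + 2) / j₀) := by
  obtain ⟨C, hC, h2⟩ := hX.VV_le
  refine ⟨C, hC, fun J₁ J₂ y j₀ R a hJ hj hy => ?_⟩
  have hy0 : 0 < y := by linarith
  have hz : 2 ≤ y ^ j₀ := by
    have := le_self_pow₀ (by linarith : 1 ≤ y) (by omega : j₀ ≠ 0)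
    linarith
  have hl : 0 < Real.log y := Real.log_pos (by linarith)
  obtain ⟨h5, h4⟩ := h2 _ hz
  have hj0 : (0 : ℝ) < j₀ := by exact_mod_cast hj
  rw [Real.log_pow] at h4
  have hJ' : (J₁ : ℝ) ≤ J₂ := by exact_mod_cast hJ
  have hR : (0 : ℝ) ≤ R := Nat.cast_nonneg R
  have hD : (0 : ℝ) ≤ (J₂ : ℝ) - J₁ + R + 2 := by linarith
  rw [log_pBA hy0]
  calc _ ≤ (((J₂ : ℝ) - J₁ + R + 2) * Real.log y) * (C / (j₀ * Real.log y)) :=
        mul_le_mul (mul_le_mul_of_nonneg_right (by linarith) hl.le) h4 h5 (by positivity)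
    _ = _ := by field_simp

end TIG

open TIG in
theorem tiG (hX : Box) : TIG := by
  obtain ⟨K, hK, hk⟩ := kb hX
  obtain ⟨E, hE, he⟩ := hX.exp_PP
  refine ⟨200 * K * E, by positivity, fun Cl s η ε j₀ R h0 hs hη hε hj hR hv => ?_⟩
  obtain ⟨-, hJ, -, hy100, hz0, -⟩ := hs
  have hR1 : 1 ≤ R := by
    rcases Nat.eq_zero_or_pos R with rfl | k
    · omega
    · exact k
  have hJ' : (s.J₁ : ℝ) ≤ s.J₂ := by exact_mod_cast hJ
  have hR' : (0 : ℝ) ≤ R := Nat.cast_nonneg R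
  set Δ : ℝ := (s.J₂ : ℝ) - s.J₁ + R + 2 with hΔ
  have hΔ0 : 0 < Δ := by rw [hΔ]; linarith
  set G : Finset (Multiset ℕ) := (s.J₁ • Multiset.range s.J₁).powerset.toFinset.filter
    fun M => s.yy M ≠ 0 with hG'
  set δ : ℝ := ε / (200 * #G + 1) with hδ
  have hδ0 : 0 < δ := by positivity
  filter_upwards [(eventually_all_finset G).2 fun M hM =>
    hv M (mem_filter.1 hM).2 δ hδ0, eventually_ge_atTop 3] with y g1 hy
  intro ω hω
  have hy1 : 1 < y := by linarith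
  have e : ∀ W : ℕ → ℝ, s.TI y j₀ R W = ∑ M ∈ G, s.yy M * AA (y ^ j₀) W (FM y j₀ (s.J₂ + 1) M)
      (fun S => ∏ π ∈ S, π) (pA s.J₁ y M.sum) (pB s.J₂ y R M.sum) := by
    intro W
    rw [Sv.TI, ← sum_filter_of_ne (p := fun S => im y S ∈ G), ← sum_fiberwise_of_maps_to
      (g := im y) (t := G) fun S hS => (mem_filter.1 hS).2]
    · refine sum_congr rfl fun M hM => ?_
      rw [AA, mul_sum, filter_filter]
      refine sum_congr (filter_congr fun S _ => ⟨fun h => h.2, fun h => ⟨h ▸ hM, h⟩⟩)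
        fun S hS => ?_
      rw [(mem_filter.1 hS).2]
    · intro S hS h
      have h1 := left_ne_zero_of_mul h
      have h2 := im_ge hX hy1 (mem_powerset.1 hS)
      refine mem_filter.2 ⟨Multiset.mem_toFinset.2 (Multiset.mem_powerset.2
        (small (fun x hx => hj.trans (h2 x hx)) ?_)), h1⟩
      exact not_le.1 fun c => h1 (hz0 _ c)
  have hb : ∀ M ∈ G, |s.yy M * AA (y ^ j₀) ω (FM y j₀ (s.J₂ + 1) M)
      (fun S => ∏ π ∈ S, π) (pA s.J₁ y M.sum) (pB s.J₂ y R M.sum) -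
      s.yy M * AA (y ^ j₀) w0 (FM y j₀ (s.J₂ + 1) M)
      (fun S => ∏ π ∈ S, π) (pA s.J₁ y M.sum) (pB s.J₂ y R M.sum)| ≤
      200 * (η * (K * (Δ / j₀)) * D0 (FM y j₀ (s.J₂ + 1) M) (fun S => ∏ π ∈ S, π) + δ) := by
    intro M hM
    have k := close (g1 M hM ω hω) (g1 M hM w0 (h0 y)) (mul_assoc _ _ _)
      (hk s.J₁ s.J₂ y j₀ R M.sum hJ hj hy) hη (D0_nonneg _ _)
    rw [← mul_sub, abs_mul]
    refine (mul_le_mul (hy100 M) k (abs_nonneg _) (by norm_num)).trans (le_of_eq ?_)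
    ring
  have s1 : ∑ M ∈ G, D0 (FM y j₀ (s.J₂ + 1) M) (fun S => ∏ π ∈ S, π) ≤ E * R := by
    refine le_trans ?_ (he y j₀ (s.J₂ + 1) R (by linarith) hj hR1 (by omega))
    unfold D0 FM
    rw [sum_fiberwise_eq_sum_filter]
    exact sum_le_sum_of_subset_of_nonneg (filter_subset _ _) fun _ _ _ => by positivity
  have s2 : 200 * (#G * δ) ≤ ε := by
    rw [hδ, ← mul_div_assoc, ← mul_div_assoc, div_le_iff₀ (by positivity)]
    nlinarith
  rw [e, e, ← sum_sub_distrib]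
  refine (abs_sum_le_sum_abs _ _).trans ((sum_le_sum hb).trans ?_)
  rw [← mul_sum, sum_add_distrib, ← mul_sum, sum_const, nsmul_eq_mul, mul_add]
  have s3 := mul_le_mul_of_nonneg_left s1 (show 0 ≤ η * (K * (Δ / j₀)) by positivity)
  have s4 : 200 * K * E * η * R * Δ / j₀ = 200 * (η * (K * (Δ / j₀)) * (E * R)) := by ring
  rw [s4]
  linarith

end

end Pool.Agent.Lib.MP_f6c7cf_nt.FO
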