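import Pool.Agent.Lib.MP_f6c7cf_nt.FO.St

/-!
Numbers with many ones are rare.
-/

namespace Pool.Agent.Lib.MP_f6c7cf_nt.FO

open Finset Filter Topology Polynomial
open Pool.Agent.Lib.MP_9d27bc_nt.C (pr Rough)
open Pool.Agent.Lib.MP_4b1228_nt.GS (vm)
open scoped Classical ComplexConjugate

namespace Tail

theorem s2_one : s2 1 = 1 := by simp [s2]

theorem gen (hB : Bas) (x : ℝ) (j : ℕ) : ∑ u ∈ range (2 ^ j), x ^ s2 u = (1 + x) ^ j := by
  induction j with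
  | zero => simp [s2]
  | succ j ih =>
    have h2 : 2 ^ (j + 1) = 2 ^ j + 2 ^ j := by ring
    rw [h2, Finset.sum_range_add, ih]
    have h3 : ∑ u ∈ range (2 ^ j), x ^ s2 (2 ^ j + u) = ∑ u ∈ range (2 ^ j), x ^ s2 u * x := by
      refine Finset.sum_congr rfl fun u hu => ?_
      have h4 := hB.s2_add j u 1 (Finset.mem_range.1 hu)
      rw [mul_one, add_comm, s2_one] at h4
      rw [h4, pow_succ]
    rw [h3, ← Finset.sum_mul, ih]
    ring

theorem key (ε : ℝ) : 1 + Real.exp ε ≤ 2 * Real.exp (ε / 2 + ε ^ 2 / 8) := by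
  have h := Real.cosh_le_exp_half_sq (ε / 2)
  rw [Real.cosh_eq] at h
  have h1 : Real.exp (ε / 2) * Real.exp (ε / 2) = Real.exp ε := by
    rw [← Real.exp_add]; congr 1; ring
  have h2 : Real.exp (ε / 2) * Real.exp (-(ε / 2)) = 1 := by
    rw [← Real.exp_add]; simp
  have h3 : Real.exp (ε / 2 + ε ^ 2 / 8) = Real.exp (ε / 2) * Real.exp ((ε / 2) ^ 2 / 2) := by
    rw [← Real.exp_add]; congr 1; ring
  have h4 := mul_le_mul_of_nonneg_left h (Real.exp_pos (ε / 2)).le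
  rw [h3]
  nlinarith

theorem point (ε : ℝ) (hε : 0 < ε) (j u : ℕ) (hu : 2 ^ j ≤ u) :
    (if (1 / 2 + ε) * Real.logb 2 (u : ℕ) < s2 u then 1 / (u : ℝ) else 0) ≤
      (1 / (2 * Real.exp (ε * (1 / 2 + ε)))) ^ j * Real.exp ε ^ s2 u := by
  split_ifs with h
  · have h1 : (2 : ℝ) ^ j ≤ u := by exact_mod_cast hu
    have h0 : (0 : ℝ) < 2 ^ j := by positivity
    have h2 : (j : ℝ) ≤ Real.logb 2 (u : ℕ) := by
      rw [Real.le_logb_iff_rpow_le (by norm_num) (lt_of_lt_of_le h0 h1), Real.rpow_natCast]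
      exact h1
    have h3 : (1 / 2 + ε) * j ≤ s2 u :=
      (mul_le_mul_of_nonneg_left h2 (by positivity)).trans h.le
    have h4 : Real.exp (ε * (1 / 2 + ε)) ^ j ≤ Real.exp ε ^ s2 u := by
      rw [← Real.exp_nat_mul, ← Real.exp_nat_mul]
      exact Real.exp_le_exp.2 (by nlinarith)
    have h5 : 0 < Real.exp (ε * (1 / 2 + ε)) ^ j := by positivity
    calc 1 / (u : ℝ) ≤ 1 / 2 ^ j := one_div_le_one_div_of_le h0 h1
      _ = (1 / (2 * Real.exp (ε * (1 / 2 + ε)))) ^ j * Real.exp (ε * (1 / 2 + ε)) ^ j := by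
        rw [one_div_pow, mul_pow]; field_simp
      _ ≤ _ := mul_le_mul_of_nonneg_left h4 (by positivity)
  · positivity

theorem block (hB : Bas) (ε : ℝ) (hε : 0 < ε) (j : ℕ) :
    ∑ u ∈ Ico (2 ^ j) (2 ^ (j + 1)),
      (if (1 / 2 + ε) * Real.logb 2 (u : ℕ) < s2 u then 1 / (u : ℝ) else 0) ≤
      (1 + Real.exp ε) * Real.exp (-(ε ^ 2 / 2)) ^ j := by
  have ha : 0 ≤ (1 / (2 * Real.exp (ε * (1 / 2 + ε)))) ^ j := by positivity
  have h1 : 1 / (2 * Real.exp (ε * (1 / 2 + ε))) * (1 + Real.exp ε) ≤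
      Real.exp (-(ε ^ 2 / 2)) := by
    rw [one_div, inv_mul_le_iff₀ (by positivity), mul_assoc, ← Real.exp_add]
    refine (key ε).trans (mul_le_mul_of_nonneg_left (Real.exp_le_exp.2 ?_) (by norm_num))
    nlinarith [sq_nonneg ε]
  calc _ ≤ ∑ u ∈ Ico (2 ^ j) (2 ^ (j + 1)),
        (1 / (2 * Real.exp (ε * (1 / 2 + ε)))) ^ j * Real.exp ε ^ s2 u :=
        Finset.sum_le_sum fun u hu => point ε hε j u (Finset.mem_Ico.1 hu).1
    _ ≤ ∑ u ∈ range (2 ^ (j + 1)),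
        (1 / (2 * Real.exp (ε * (1 / 2 + ε)))) ^ j * Real.exp ε ^ s2 u :=
        Finset.sum_le_sum_of_subset_of_nonneg
          (fun u hu => Finset.mem_range.2 (Finset.mem_Ico.1 hu).2) fun u _ _ => by positivity
    _ = (1 + Real.exp ε) * (1 / (2 * Real.exp (ε * (1 / 2 + ε))) * (1 + Real.exp ε)) ^ j := by
        rw [← Finset.mul_sum, gen hB, mul_pow]; ring
    _ ≤ _ := mul_le_mul_of_nonneg_left (pow_le_pow_left₀ (by positivity) h1 j) (by positivity)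

theorem many (f : ℕ → ℝ) (a ρ : ℝ)
    (h : ∀ j, ∑ u ∈ Ico (2 ^ j) (2 ^ (j + 1)), f u ≤ a * ρ ^ j) (hρ : ρ < 1) (J m : ℕ) :
    (1 - ρ) * ∑ u ∈ Ico (2 ^ J) (2 ^ (J + m)), f u ≤ a * (ρ ^ J - ρ ^ (J + m)) := by
  induction m with
  | zero => simp
  | succ m ih =>
    have h1 : 2 ^ J ≤ 2 ^ (J + m) := Nat.pow_le_pow_right (by norm_num) (by omega)
    have h2 : 2 ^ (J + m) ≤ 2 ^ (J + m + 1) := Nat.pow_le_pow_right (by norm_num) (by omega)
    rw [← add_assoc, ← Finset.sum_Ico_consecutive f h1 h2, mul_add]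
    have h3 := mul_le_mul_of_nonneg_left (h (J + m)) (sub_nonneg.2 hρ.le)
    calc _ ≤ a * (ρ ^ J - ρ ^ (J + m)) + (1 - ρ) * (a * ρ ^ (J + m)) := add_le_add ih h3
      _ = _ := by ring

end Tail

theorem tail (hB : Bas) : TailSt := by
  intro ε η hε hη
  set ρ := Real.exp (-(ε ^ 2 / 2)) with hρ
  set a := 1 + Real.exp ε with ha
  have ha0 : 0 < a := by positivity
  have hρ0 : 0 < ρ := Real.exp_pos _
  have hρ1 : ρ < 1 := Real.exp_lt_one_iff.2 (by nlinarith [sq_pos_of_pos hε])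
  have hd : 0 < 1 - ρ := sub_pos.2 hρ1
  obtain ⟨J, hJ⟩ := exists_pow_lt_of_lt_one (show 0 < (1 - ρ) * η / a by positivity) hρ1
  refine ⟨2 ^ J, fun V => ?_⟩
  rw [Finset.sum_filter]
  have h1 := Tail.many _ a ρ (Tail.block hB ε hε) hρ1 J V
  have hV : V ≤ 2 ^ (J + V) :=
    (Nat.lt_two_pow_self).le.trans (Nat.pow_le_pow_right (by norm_num) (by omega))
  have h2 : ∑ u ∈ Ico (2 ^ J) V,
      (if (1 / 2 + ε) * Real.logb 2 (u : ℕ) < s2 u then 1 / (u : ℝ) else 0) ≤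
      ∑ u ∈ Ico (2 ^ J) (2 ^ (J + V)),
      (if (1 / 2 + ε) * Real.logb 2 (u : ℕ) < s2 u then 1 / (u : ℝ) else 0) :=
    Finset.sum_le_sum_of_subset_of_nonneg (Finset.Ico_subset_Ico_right hV) fun u _ _ => by
      split_ifs <;> positivity
  refine h2.trans (le_of_mul_le_mul_left (h1.trans ?_) hd)
  rw [lt_div_iff₀ ha0] at hJ
  have h3 : 0 < a * ρ ^ (J + V) := by positivity
  nlinarith

end Pool.Agent.Lib.MP_f6c7cf_nt.FO
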