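import Pool.Agent.Lib.MP_f6c7cf_nt.FO.St

/-! From sets of primes to cells. -/

namespace Pool.Agent.Lib.MP_f6c7cf_nt.FO

open Finset Filter Topology Polynomial
open Pool.Agent.Lib.MP_9d27bc_nt.C (pr Rough)
open Pool.Agent.Lib.MP_4b1228_nt.GS (vm)
open scoped Classical ComplexConjugate

namespace Tup

variable {y : ℝ} {j J r : ℕ} {ω : ℕ → ℝ}

theorem cells (hX : Box) (hy : 1 < y) (F : Multiset ℕ → ℝ) :
    ∑ jv ∈ Fintype.piFinset fun _ : Fin r => Ico j J, F (vm jv) * cell y ω jv =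
      ∑ f ∈ Fintype.piFinset fun _ : Fin r => PP y j J,
        F (vm fun i => ix y (f i)) * ω (∏ i, f i) := by
  rw [← sum_fiberwise_of_maps_to (s := Fintype.piFinset fun _ : Fin r => PP y j J)
    (t := Fintype.piFinset fun _ : Fin r => Ico j J) (g := fun f i => ix y (f i)) fun f hf => by
      rw [Fintype.mem_piFinset] at hf ⊢
      exact fun i => mem_Ico.2 ⟨(hX.ix_PP y j J _ hy (hf i)).1, (hX.ix_PP y j J _ hy (hf i)).2.1⟩]
  refine sum_congr rfl fun jv hjv => ?_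
  rw [Fintype.mem_piFinset] at hjv
  rw [cell, mul_sum]
  refine sum_congr ?_ fun f hf => by rw [(mem_filter.1 hf).2]
  ext f
  simp only [mem_filter, Fintype.mem_piFinset]
  refine ⟨fun h => ⟨fun i =>
    hX.Bx_sub y j J _ hy (mem_Ico.1 (hjv i)).1 (mem_Ico.1 (hjv i)).2 (h i),
    funext fun i => hX.ix_eq y _ _ hy (h i)⟩, fun h i => ?_⟩
  rw [← congrFun h.2 i]
  exact (hX.ix_PP y j J _ hy (h.1 i)).2.2

theorem card_fib (S : Finset ℕ) (hS : #S = r) (T : Finset (Fin r → ℕ))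
    (hT : ∀ f, f ∈ T ↔ Function.Injective f ∧ univ.image f = S) : #T = r.factorial := by
  have h : Fintype.card (Fin r ↪ S) = r.factorial := by
    rw [Fintype.card_embedding_eq, Fintype.card_coe, Fintype.card_fin, hS, Nat.descFactorial_self]
  rw [← h, ← card_univ]
  symm
  refine card_bij (fun e _ i => (e i : ℕ)) (fun e _ => (hT _).2 ?_) (fun e _ e' _ h => ?_)
    fun f hf => ?_
  · have h1 : Function.Injective fun i => (e i : ℕ) := Subtype.val_injective.comp e.injective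
    refine ⟨h1, eq_of_subset_of_card_le (image_subset_iff.2 fun i _ => (e i).2) ?_⟩
    rw [card_image_of_injective _ h1, card_univ, Fintype.card_fin, hS]
  · exact Function.Embedding.ext fun i => Subtype.ext (congrFun h i)
  · obtain ⟨h1, h2⟩ := (hT f).1 hf
    exact ⟨⟨fun i => ⟨f i, h2 ▸ mem_image_of_mem f (mem_univ i)⟩,
      fun i k h => h1 (congrArg Subtype.val h)⟩, mem_univ _, rfl⟩

theorem good (F : Multiset ℕ → ℝ) :
    ∑ f ∈ (Fintype.piFinset fun _ : Fin r => PP y j J) with Function.Injective f,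
        F (vm fun i => ix y (f i)) * ω (∏ i, f i) =
      (∑ S ∈ (PP y j J).powerset with #S = r, F (im y S) * ω (∏ π ∈ S, π)) * r.factorial := by
  rw [← sum_fiberwise_of_maps_to (t := {S ∈ (PP y j J).powerset | #S = r})
    (g := fun f => univ.image f)
    fun f hf => by
      obtain ⟨h1, h2⟩ := mem_filter.1 hf
      rw [Fintype.mem_piFinset] at h1
      exact mem_filter.2 ⟨mem_powerset.2 (image_subset_iff.2 fun i _ => h1 i),
        by rw [card_image_of_injective _ h2, card_univ, Fintype.card_fin]⟩, sum_mul]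
  refine sum_congr rfl fun S hS => ?_
  obtain ⟨h1, h2⟩ := mem_filter.1 hS
  rw [sum_congr rfl (g := fun _ => F (im y S) * ω (∏ π ∈ S, π)), sum_const, nsmul_eq_mul,
    card_fib S h2, mul_comm]
  · intro f
    simp only [mem_filter, Fintype.mem_piFinset]
    refine ⟨fun h => ⟨h.1.2, h.2⟩, fun h => ?_⟩
    have h5 : ∀ i, f i ∈ S := fun i => h.2 ▸ mem_image_of_mem f (mem_univ i)
    exact ⟨⟨fun i => mem_powerset.1 h1 (h5 i), h.1⟩, h.2⟩
  · intro f hf
    obtain ⟨h5, rfl⟩ := mem_filter.1 hf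
    have h6 : Function.Injective f := (mem_filter.1 h5).2
    rw [prod_image h6.injOn, im, image_val_of_injOn h6.injOn, Multiset.map_map]
    rfl

theorem sq_mem (hX : Box) (hy : 1 < y) {a b : ℕ} {f : Fin r → ℕ}
    (h5 : ∀ i, f i ∈ PP y j J) (h6 : ¬Function.Injective f)
    (h7 : a ≤ ∑ i, ix y (f i)) (h8 : ∑ i, ix y (f i) ≤ b) :
    ∏ i, f i ∈ range (⌊y ^ (b + r)⌋₊ + 1) ∧ y ^ a ≤ (∏ i, f i : ℕ) ∧ Rough (y ^ j) (∏ i, f i) ∧
      ∃ l : ℕ, l.Prime ∧ l ^ 2 ∣ ∏ i, f i := by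
  obtain ⟨h9, h10, h11⟩ := hX.nm_tup (Fin r) y j (fun i => ix y (f i)) f hy fun i =>
    ⟨(hX.ix_PP y j J _ hy (h5 i)).1, (hX.ix_PP y j J _ hy (h5 i)).2.2⟩
  rw [Fintype.card_fin] at h10
  refine ⟨mem_range.2 (Nat.lt_succ_of_le (Nat.le_floor (h10.trans
    (pow_le_pow_right₀ hy.le (Nat.add_le_add_right h8 r))))),
    (pow_le_pow_right₀ hy.le h7).trans h9, h11, ?_⟩
  obtain ⟨i, k, h12, h13⟩ := Function.not_injective_iff.1 h6
  refine ⟨f i, ((hX.mem_PP y j J _ (by linarith)).1 (h5 i)).1, ?_⟩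
  have h14 : f i ^ 2 = ∏ n ∈ {i, k}, f n := by rw [prod_pair h13, ← h12, sq]
  rw [h14]
  exact prod_dvd_prod_of_subset _ _ _ (subset_univ _)

theorem mult_sum {ι : Type} {S T : Finset ι} {v : ι → ℕ} {B : ℕ} (h : Mult S v B) (hT : T ⊆ S)
    {D : Finset ℕ} (hD : ∀ i ∈ T, v i ∈ D) {w : ℕ → ℝ} (hw : ∀ a, 0 ≤ w a) :
    ∑ i ∈ T, w (v i) ≤ B * ∑ a ∈ D, w a := by
  rw [mul_sum, ← sum_fiberwise_of_maps_to hD]
  refine sum_le_sum fun a _ => ?_
  rw [sum_congr rfl (g := fun _ => w a) fun i hi => by rw [(mem_filter.1 hi).2], sum_const,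
    nsmul_eq_mul]
  exact mul_le_mul_of_nonneg_right
    (Nat.cast_le.2 ((card_le_card (filter_subset_filter _ hT)).trans (h a))) (hw a)

theorem bad (hX : Box) (hω : ∀ n, 0 ≤ ω n) (hy : 1 < y) {a b : ℕ} {F : Multiset ℕ → ℝ} {F₀ : ℝ}
    (h0 : 0 ≤ F₀) (h1 : ∀ M, M.card = r → |F M| ≤ F₀) (h2 : ∀ M, F M ≠ 0 → a ≤ M.sum ∧ M.sum ≤ b)
    {T : Finset (Fin r → ℕ)} (hT : T ⊆ Fintype.piFinset fun _ => PP y j J)
    (hT' : ∀ f ∈ T, ¬Function.Injective f) :
    |∑ f ∈ T, F (vm fun i => ix y (f i)) * ω (∏ i, f i)| ≤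
      F₀ * r ^ r * NN (y ^ j) ω (y ^ a) (y ^ (b + r)) := by
  have h3 := hX.mult_tup (Fin r) (fun _ => PP y j J) fun _ l hl =>
    ((hX.mem_PP y j J l (by linarith)).1 hl).1
  rw [Fintype.card_fin] at h3
  have h4 : ∑ f ∈ T with F (vm fun i => ix y (f i)) ≠ 0, ω (∏ i, f i) ≤
      (r ^ r : ℕ) * NN (y ^ j) ω (y ^ a) (y ^ (b + r)) := by
    refine mult_sum h3 ((filter_subset _ _).trans hT) (fun f hf => ?_) hω
    obtain ⟨h4, h5⟩ := mem_filter.1 hf
    rw [mem_filter]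
    exact sq_mem hX hy (Fintype.mem_piFinset.1 (hT h4)) (hT' f h4) (h2 _ h5).1 (h2 _ h5).2
  rw [mul_assoc, ← Nat.cast_pow]
  refine (abs_sum_le_sum_abs _ _).trans (le_trans ?_ (mul_le_mul_of_nonneg_left h4 h0))
  rw [mul_sum, sum_filter]
  refine sum_le_sum fun f _ => ?_
  rw [abs_mul, abs_of_nonneg (hω _)]
  split_ifs with h
  · exact mul_le_mul_of_nonneg_right (h1 _ (by simp [vm])) (hω _)
  · rw [not_not.1 h, abs_zero, zero_mul]

end Tup

open Tup in
theorem tup (hX : Box) : TupSt := by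
  intro y j J a b r ω F F₀ hω hy h0 h1 h2
  have h3 : (1 : ℝ) ≤ r.factorial := Nat.one_le_cast.2 r.factorial_pos
  rw [cells hX (by linarith), ← sum_filter_add_sum_filter_not _
    fun f : Fin r → ℕ => Function.Injective f, good, add_div,
    mul_div_cancel_right₀ _ (by positivity), sub_add_cancel_left, abs_neg, abs_div,
    abs_of_pos (a := (r.factorial : ℝ)) (by positivity)]
  exact (div_le_self (abs_nonneg _) h3).trans
    (bad hX hω (by linarith) h0 h1 h2 (filter_subset _ _) fun f hf => (mem_filter.1 hf).2)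

end Pool.Agent.Lib.MP_f6c7cf_nt.FO
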