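import Pool.Agent.Lib.MP_f6c7cf_nt.FO.Sp

/-!
A high power of a law is almost uniform.
-/

namespace Pool.Agent.Lib.MP_f6c7cf_nt.FO

open Polynomial

theorem uni (_hB : Bas) : UniSt := by
  intro b c B hB h1 h2
  obtain ⟨l, -, hl⟩ := Sp0.mix (Q := 2 ^ b) (by positivity) hB
    (lt_of_le_of_ne (hB.1 c) (mem_support_iff.1 h1).symm)
    (lt_of_le_of_ne (hB.1 _) (mem_support_iff.1 h2).symm)
  exact ⟨l, (SpA.sp_iff _ _ _).2 fun a => by simpa using hl a⟩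

end Pool.Agent.Lib.MP_f6c7cf_nt.FO
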