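import Pool.Agent.Lib.MP_f6c7cf_nt.FO.St

/-!
Primes with few ones in the binary expansion: the visible divisors.
-/

namespace Pool.Agent.Lib.MP_f6c7cf_nt.FO

open Finset Filter Topology Polynomial
open Pool.Agent.Lib.MP_9d27bc_nt.C (pr Rough)
open Pool.Agent.Lib.MP_4b1228_nt.GS (vm)
open scoped Classical ComplexConjugate

theorem visS (hX : Box) (h1 : T1St) : VisSt := by
  obtain ⟨C, hC, h1⟩ := h1
  refine ⟨C, hC, fun k hk g γ A J₁ J₂ R j₀ M hj hJ hg hA hJ₁ hM ε hε => ?_⟩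
  obtain ⟨n, hn⟩ : ∃ n, n + M.sum + 1 = J₁ := ⟨J₁ - M.sum - 1, by omega⟩
  obtain ⟨m, hm⟩ : ∃ m, m + M.sum = J₂ + R := ⟨J₂ + R - M.sum, by omega⟩
  obtain ⟨e, he⟩ : ∃ e, e = (4 * k + 6) * j₀ := ⟨_, rfl⟩
  rw [mul_assoc, ← he] at hA hJ₁
  filter_upwards [eventually_ge_atTop 2, eventually_ge_atTop (1 / ε),
    (tendsto_pow_atTop (α := ℝ) (by omega : j₀ ≠ 0)).eventually
      (h1 k hk (J₂ + R + 2 * J₁) 1)] with y hy hy' h ω hω
  have y1 : 1 ≤ y := by linarith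
  have y0 : 0 < y := by linarith
  have pw : ∀ {a b : ℕ}, a ≤ b → y ^ a ≤ y ^ b := fun h => pow_le_pow_right₀ y1 h
  have yz : y ≤ y ^ j₀ := by simpa using pw hj
  have eA : pA J₁ y M.sum = y ^ n := by
    rw [pA, ← Real.rpow_natCast, ← hn]
    congr 1
    push_cast
    ring
  have eB : pB J₂ y R M.sum = y ^ m := by
    have : (m : ℝ) + M.sum = J₂ + R := by exact_mod_cast hm
    rw [pB, ← Real.rpow_natCast]
    congr 1
    linarith
  have big : ∀ {a : ℕ}, a ≤ J₂ + R + 2 * J₁ → y ^ a ≤ (y ^ j₀) ^ (J₂ + R + 2 * J₁) := fun h => by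
    rw [← pow_mul]
    exact pw (h.trans (Nat.le_mul_of_pos_left _ hj))
  have eW : ∀ c : ℕ, ((y ^ j₀) ^ (4 * k + 6)) ^ c = y ^ (c * e) := fun c => by
    rw [← pow_mul, ← pow_mul, he]
    congr 1
    ring
  rw [mT, eA, eB]
  refine (h _ _ _ ω _ _ (y ^ M.sum) (fun a => ?_) (one_le_pow₀ y1) (fun S hS => ?_) ?_
    (pw (by omega)) (big (by omega)) ?_).trans (add_le_add le_rfl ?_)
  · refine le_trans (card_le_card fun S hS => ?_) (hX.mult_set (PP y j₀ (J₂ + 1))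
      (fun l hl => ((hX.mem_PP _ _ _ _ y0.le).1 hl).1) a)
    rw [mem_filter] at hS ⊢
    exact ⟨(mem_filter.1 hS.1).1, hS.2⟩
  · obtain ⟨s1, s2⟩ := mem_filter.1 hS
    obtain ⟨b1, b2, b3, b4⟩ := hX.nm_set y j₀ (J₂ + 1) S (by linarith) (mem_powerset.1 s1)
    rw [s2] at b1 b2 b3
    have := Nat.le_mul_of_pos_left #S hj
    exact ⟨b1, b2.trans (big (by omega)), hX.odd _ _ (hy.trans yz) b4⟩
  · rw [eW]
    exact pw (by omega)
  · refine hω.imp id fun ⟨t, F, π, a1, a2, a3, a4, a5, a6⟩ => ⟨t, F, π, a1, a2, a3, ?_, a6⟩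
    have q0 : (0 : ℝ) ≤ qq t := Nat.cast_nonneg _
    rw [eW]
    refine ⟨?_, ?_, ?_, ?_⟩
    · calc y ^ (14 * e) * (qq t : ℝ) ≤ y ^ (14 * e) * y ^ g := by gcongr
        _ ≤ (y ^ n) ^ 2 := by
          rw [← pow_add, ← pow_mul]
          exact pw (by omega)
    · calc y ^ (14 * e) * (qq t * π) ≤ y ^ (14 * e) * y ^ γ := by gcongr
        _ ≤ y ^ n := by
          rw [← pow_add]
          exact pw (by omega)
    · calc y ^ (14 * e) * (qq t : ℝ) ^ 2 ≤ y ^ (14 * e) * (y ^ g) ^ 2 := by gcongr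
        _ ≤ (y ^ n) ^ 2 * y ^ M.sum := by
          rw [← pow_mul, ← pow_mul, ← pow_add, ← pow_add]
          exact pw (by omega)
    · calc y ^ (14 * e) * (qq t * (qq t * π)) ≤ y ^ (14 * e) * (qq t * y ^ γ) := by gcongr
        _ ≤ y ^ (14 * e) * (y ^ g * y ^ γ) := by gcongr
        _ ≤ y ^ n * y ^ M.sum := by
          rw [← pow_add, ← pow_add, ← pow_add]
          exact pw (by omega)
  · rw [div_le_iff₀ (by positivity), mul_comm, ← div_le_iff₀ hε]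
    exact hy'.trans yz

end Pool.Agent.Lib.MP_f6c7cf_nt.FO
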