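import Pool.Agent.Lib.MP_4b1228_nt.GS.FLq
import Pool.Agent.Lib.MP_f6c7cf_nt.FO.Bas
import Pool.Agent.Lib.MP_f6c7cf_nt.FO.BdG
import Pool.Agent.Lib.MP_f6c7cf_nt.FO.Blk
import Pool.Agent.Lib.MP_f6c7cf_nt.FO.Box
import Pool.Agent.Lib.MP_f6c7cf_nt.FO.Co
import Pool.Agent.Lib.MP_f6c7cf_nt.FO.Dig
import Pool.Agent.Lib.MP_f6c7cf_nt.FO.E
import Pool.Agent.Lib.MP_f6c7cf_nt.FO.End
import Pool.Agent.Lib.MP_f6c7cf_nt.FO.GdG
import Pool.Agent.Lib.MP_f6c7cf_nt.FO.HL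
import Pool.Agent.Lib.MP_f6c7cf_nt.FO.IDG
import Pool.Agent.Lib.MP_f6c7cf_nt.FO.J
import Pool.Agent.Lib.MP_f6c7cf_nt.FO.Lin
import Pool.Agent.Lib.MP_f6c7cf_nt.FO.Cert
import Pool.Agent.Lib.MP_f6c7cf_nt.FO.M
import Pool.Agent.Lib.MP_f6c7cf_nt.FO.MB
import Pool.Agent.Lib.MP_f6c7cf_nt.FO.Main
import Pool.Agent.Lib.MP_f6c7cf_nt.FO.Mert
import Pool.Agent.Lib.MP_f6c7cf_nt.FO.NN
import Pool.Agent.Lib.MP_f6c7cf_nt.FO.PB
import Pool.Agent.Lib.MP_f6c7cf_nt.FO.R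
import Pool.Agent.Lib.MP_f6c7cf_nt.FO.Sm
import Pool.Agent.Lib.MP_f6c7cf_nt.FO.Sp
import Pool.Agent.Lib.MP_f6c7cf_nt.FO.T1
import Pool.Agent.Lib.MP_f6c7cf_nt.FO.T3
import Pool.Agent.Lib.MP_f6c7cf_nt.FO.TC
import Pool.Agent.Lib.MP_f6c7cf_nt.FO.TIG
import Pool.Agent.Lib.MP_f6c7cf_nt.FO.Tail
import Pool.Agent.Lib.MP_f6c7cf_nt.FO.Tup
import Pool.Agent.Lib.MP_f6c7cf_nt.FO.Uni
import Pool.Agent.Lib.MP_f6c7cf_nt.FO.Vis
import Pool.Agent.Lib.MP_f6c7cf_nt.FO.Wt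

/-!
All blocks together.
-/

namespace Pool.Agent.Lib.MP_f6c7cf_nt.FO


theorem cL : LinSt := lin bas
theorem cU : UBSt := ub bas box tc
theorem cN : NNSt := nn bas
theorem cM : MSt := mv bas (jn bas)
theorem cV : VisSt := visS box (t1 bas tc cL (ea bas cM (rv bas (jn bas))))
theorem cT : T3St := t3 bas box (mb bas box cM) (hb bas box (hl bas tc box cL cU smS)) pb
theorem cC : CoreG :=
  coreG (coG (tiG box) (idG bas box) cN cU) (gdG box (tup box) cN)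
    (bdG bas box (tup box) cN cL mert)

theorem all : FinSt :=
  fin bas box (dig bas (blkS bas) (uni bas) (spS bas)) (tail bas) (main bas box cL cC cV cT cert)

end Pool.Agent.Lib.MP_f6c7cf_nt.FO
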