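import Pool.Agent.Lib.MP_f6c7cf_nt.FO.St

/-!
The mean value over a thin set of characters, without logarithms.
-/

namespace Pool.Agent.Lib.MP_f6c7cf_nt.FO

open Finset Filter Topology Polynomial
open Pool.Agent.Lib.MP_9d27bc_nt.C (pr Rough)
open scoped Classical ComplexConjugate

namespace HL

variable {t : ℕ}

/-- the weight of the dual sum -/
noncomputable def W (U : Finset (Ch t)) (a : Ch t → ℂ) (n : ℕ) : ℝ :=
  ‖∑ χ ∈ U, a χ * χ n‖ ^ 2 / n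

variable {U : Finset (Ch t)} {a : Ch t → ℂ}

lemma W_nonneg (n : ℕ) : 0 ≤ W U a n := by
  unfold W
  positivity

lemma mult_sum {ι : Type} {S : Finset ι} {v : ι → ℕ} {B : ℕ} (hm : Mult S v B) {T : Finset ℕ}
    (hv : ∀ i ∈ S, v i ∈ T) {f : ℕ → ℝ} (hf : ∀ n, 0 ≤ f n) :
    ∑ i ∈ S, f (v i) ≤ B * ∑ n ∈ T, f n := by
  rw [← sum_fiberwise_of_maps_to hv, mul_sum]
  refine sum_le_sum fun n _ => ?_
  rw [sum_congr rfl fun i hi => congrArg f (mem_filter.1 hi).2, sum_const, nsmul_eq_mul]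
  exact mul_le_mul_of_nonneg_right (by exact_mod_cast hm n) (hf n)

lemma expand (E : Finset ℕ) : ((∑ n ∈ E, W U a n : ℝ) : ℂ) =
    ∑ χ ∈ U, ∑ ψ ∈ U, a χ * conj (a ψ) * hat E id (χ * ψ⁻¹) := by
  simp only [hat, mul_sum, id]
  rw [sum_congr rfl fun χ _ => sum_comm, sum_comm, Complex.ofReal_sum]
  refine sum_congr rfl fun n _ => ?_
  rw [W, Complex.ofReal_div, Complex.ofReal_pow, ← Complex.mul_conj', map_sum, sum_mul_sum,
    sum_div]
  refine sum_congr rfl fun χ _ => ?_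
  rw [sum_div]
  refine sum_congr rfl fun ψ _ => ?_
  rw [MulChar.mul_apply, ← MulChar.star_apply', map_mul, Complex.ofReal_natCast, Complex.star_def]
  ring

lemma diag (hB : Bas) {E : Finset ℕ} (hE : ∀ n ∈ E, Odd n) (χ : Ch t) :
    hat E id (χ * χ⁻¹) = ((∑ n ∈ E, 1 / (n : ℝ) : ℝ) : ℂ) := by
  rw [hat, Complex.ofReal_sum]
  refine sum_congr rfl fun n hn => ?_
  rw [MulChar.mul_apply, ← MulChar.star_apply', Complex.star_def, Complex.mul_conj', id,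
    hB.norm_chi t n χ (hE n hn)]
  simp

lemma one (hB : Bas) {E : Finset ℕ} (hE : ∀ n ∈ E, Odd n) {δ : ℝ} (hδ : 0 ≤ δ)
    (h : ∀ χ : Ch t, χ ≠ 1 → ‖hat E id χ‖ ≤ δ) :
    |∑ n ∈ E, W U a n - (∑ χ ∈ U, ‖a χ‖ ^ 2) * ∑ n ∈ E, 1 / (n : ℝ)| ≤
      (∑ χ ∈ U, ‖a χ‖ ^ 2) * (δ * #U) := by
  rw [← Real.norm_eq_abs, ← Complex.norm_real, Complex.ofReal_sub, expand, sum_mul,
    Complex.ofReal_sum, ← sum_sub_distrib]
  have k : ∀ χ ∈ U, ‖∑ ψ ∈ U, a χ * conj (a ψ) * hat E id (χ * ψ⁻¹) -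
      ((‖a χ‖ ^ 2 * ∑ n ∈ E, 1 / (n : ℝ) : ℝ) : ℂ)‖ ≤ ‖a χ‖ * (∑ ψ ∈ U, ‖a ψ‖) * δ :=
    fun χ hχ => by
      rw [← add_sum_erase _ _ hχ, diag hB hE, Complex.mul_conj', Complex.ofReal_mul,
        Complex.ofReal_pow, add_sub_cancel_left, mul_sum, sum_mul]
      refine (norm_sum_le_of_le _ fun ψ hψ => ?_).trans (sum_le_sum_of_subset_of_nonneg
        (erase_subset χ U) fun _ _ _ => by positivity)
      rw [norm_mul, norm_mul, Complex.norm_conj]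
      gcongr
      exact h _ fun e => ne_of_mem_erase hψ (mul_inv_eq_one.1 e).symm
  refine (norm_sum_le_of_le _ k).trans ?_
  rw [← sum_mul, ← sum_mul, ← sq, mul_comm δ, ← mul_assoc, mul_comm _ (#U : ℝ)]
  gcongr
  exact sq_sum_le_card_mul_sum_sq

lemma sieve (hB : Bas) (h1 : TCSt) (h2 : LinSt) : ∃ k : ℕ,
    ∀ (t : ℕ) (U : Finset (Ch t)) (a : Ch t → ℂ) (z P₁ P₂ δ : ℝ), 1 ≤ t → 2 ≤ z → 0 < P₁ →
    P₁ ≤ P₂ → 0 ≤ δ → 0 ≤ VV z →
    (∀ d : ℕ, 1 ≤ d → (d : ℝ) ≤ z ^ k → ∀ χ : Ch t, χ ≠ 1 → ‖sm χ (P₁ / d) (P₂ / d)‖ ≤ δ) →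
    ∑ n ∈ iv P₁ P₂ with Rough z n, W U a n ≤ (∑ χ ∈ U, ‖a χ‖ ^ 2) *
      (2 * (Real.log (P₂ / P₁) * VV z) + (z ^ k) ^ 2 * (δ * #U + 1 / P₁)) := by
  obtain ⟨C₁, hC₁, h1⟩ := h1
  obtain ⟨k, hk⟩ := pow_unbounded_of_one_lt C₁ (one_lt_two (α := ℝ))
  refine ⟨4 * k + 6, fun t U a z P₁ P₂ δ ht hz hP hPP hδ hV hs => ?_⟩
  have hD : 0 ≤ ∑ χ ∈ U, ‖a χ‖ ^ 2 := by positivity
  have o := fun E hE => one (U := U) (a := a) hB (E := E) hE hδ
  generalize ∑ χ ∈ U, ‖a χ‖ ^ 2 = D at *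
  have hm : 0 ≤ Real.log (P₂ / P₁) := Real.log_nonneg ((one_le_div hP).2 hPP)
  have key := h1 k hk.le (iv P₁ P₂) (W U a) z (D * Real.log (P₂ / P₁)) (D * (δ * #U + 1 / P₁)) hz
    (fun _ _ => W_nonneg _) (by positivity) (by positivity) fun d hd hz' => by
      have a1 := o {n ∈ iv P₁ P₂ | Odd n ∧ d ∣ n} (fun n hn => (mem_filter.1 hn).2.1)
        fun χ hχ => (hB.hat_dvd t d χ P₁ P₂ ht hd.pos hP.le (hP.le.trans hPP)).trans
          (hs d hd.pos hz' χ hχ)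
      have a2 := mul_le_mul_of_nonneg_left (h2.2.1 d P₁ P₂ hd hP hPP) hD
      rw [← abs_of_nonneg hD, ← abs_mul, abs_of_nonneg hD, mul_sub, ← mul_div_assoc] at a2
      refine (abs_sub_le _ _ _).trans ((add_le_add a1 a2).trans (le_of_eq ?_))
      ring
  have e8 : C₁ / 2 ^ k ≤ 1 := (div_le_one (by positivity)).2 hk.le
  have e9 := mul_le_mul_of_nonneg_right e8 (mul_nonneg (mul_nonneg hD hm) hV)
  have e10 := (abs_le.1 key).2
  rw [mul_comm 2 (4 * k + 6), pow_mul] at e10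
  linarith

lemma dual {ι : Type} {S : Finset ι} {v : ι → ℕ} {B : ℕ} (hm : Mult S v B) {T : Finset ℕ}
    (hv : ∀ i ∈ S, v i ∈ T) (U : Finset (Ch t)) : (∑ χ ∈ U, ‖hat S v χ‖ ^ 2) ^ 2 ≤
      D0 S v * (B * ∑ n ∈ T, W U (fun χ => conj (hat S v χ)) n) := by
  set F : ℕ → ℂ := fun n => ∑ χ ∈ U, conj (hat S v χ) * χ n with hF
  have e1 : ((∑ χ ∈ U, ‖hat S v χ‖ ^ 2 : ℝ) : ℂ) = ∑ i ∈ S, F (v i) / (v i : ℂ) := by
    rw [Complex.ofReal_sum, sum_congr rfl fun χ _ => (Complex.ofReal_pow _ _).trans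
      (Complex.conj_mul' (hat S v χ)).symm]
    simp only [hF, sum_div, mul_div_assoc]
    rw [sum_comm]
    exact sum_congr rfl fun χ _ => mul_sum _ _ _
  have e2 : ∑ χ ∈ U, ‖hat S v χ‖ ^ 2 ≤ ∑ i ∈ S, ‖F (v i)‖ / v i := by
    refine (le_abs_self _).trans ?_
    rw [← Real.norm_eq_abs, ← Complex.norm_real, e1]
    exact (norm_sum_le _ _).trans_eq (sum_congr rfl fun i _ => by
      rw [norm_div, Complex.norm_natCast])
  have e3 : (∑ i ∈ S, ‖F (v i)‖ / v i) ^ 2 ≤ D0 S v * ∑ i ∈ S, ‖F (v i)‖ ^ 2 / v i :=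
    sum_sq_le_sum_mul_sum_of_sq_le_mul S (fun _ _ => by positivity) (fun _ _ => by positivity)
      fun i _ => le_of_eq (by ring)
  exact ((pow_le_pow_left₀ (by positivity) e2 2).trans e3).trans (mul_le_mul_of_nonneg_left
    (mult_sum hm hv (f := W U fun χ => conj (hat S v χ)) W_nonneg)
    (sum_nonneg fun _ _ => by positivity))

end HL

open HL in
theorem hl (hB : Bas) (h1 : TCSt) (hX : Box) (h2 : LinSt) (h3 : UBSt) (h4 : SmSt) : HLSt := by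
  obtain ⟨k, h1⟩ := sieve hB h1 h2
  obtain ⟨c, C₂, c2, h3⟩ := h3
  obtain ⟨θ, C₃, t0, t1, c3, h4⟩ := h4 6
  obtain ⟨C₄, c4, h7⟩ := hX.VV_le
  refine ⟨k * 2 + 1 + c, θ / 2, C₂ * (2 * C₄ + C₃ + 2), by positivity, by positivity, ?_⟩
  intro ι S v B t U z Y Y' hm ht hz Y1 hq hc hYY hv
  have z1 : (1 : ℝ) ≤ z := by linarith
  have y0 : 0 < Y := by linarith
  have s1 : 1 ≤ √Y := Real.one_le_sqrt.2 Y1
  have s2 : √Y * √Y = Y := Real.mul_self_sqrt y0.le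
  have e5 : Y ^ (θ / 2) = √Y ^ θ := by
    rw [Real.sqrt_eq_rpow, ← Real.rpow_mul y0.le]
    congr 1
    ring
  have e6 : √Y ^ θ ≤ √Y := Real.rpow_le_self_of_one_le s1 (by linarith)
  have e7 : ∀ P : ℝ, √Y ≤ P → P ^ (-θ) ≤ (√Y ^ θ)⁻¹ := fun P hP => by
    rw [← Real.rpow_neg (by linarith)]
    exact Real.rpow_le_rpow_of_nonpos (by linarith) hP (by linarith)
  rw [e5] at hc
  generalize √Y ^ θ = x at hc e6 e7
  have q6 : (qq t : ℝ) ≤ √Y ^ 6 := hq.trans_eq (by rw [← s2]; rw [s2]; nth_rewrite 1 [← s2]; ring)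
  generalize √Y = s at *
  have u1 : 1 ≤ z ^ k := one_le_pow₀ z1
  have p1 : 1 ≤ z ^ c := one_le_pow₀ z1
  rw [pow_add, pow_succ, pow_mul] at hc
  have r0 : (0 : ℝ) ≤ #U := Nat.cast_nonneg _
  have g : 1 ≤ (z ^ k) ^ 2 * z := one_le_mul_of_one_le_of_one_le (one_le_pow₀ u1) z1
  have x3 : (z ^ k) ^ 2 * z * (#U + 1) ≤ x := le_trans (mul_le_mul_of_nonneg_right
    (le_mul_of_one_le_right (by positivity) p1) (by positivity)) hc
  have x4 : z ^ c ≤ x :=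
    le_trans (by nlinarith [mul_le_mul_of_nonneg_right g (zero_le_one.trans p1)]) hc
  have x5 : 2 * z ^ k ≤ x := by
    refine le_trans ?_ x3
    have a1 : z ^ k ≤ (z ^ k) ^ 2 := le_self_pow₀ u1 (by norm_num)
    nlinarith [mul_le_mul a1 hz (by norm_num) (by positivity)]
  have x1 : 1 ≤ x := by linarith
  have sY : s ≤ Y := by nlinarith
  have e4 := h7 z hz
  have k1 := h1 t U (fun χ => conj (hat S v χ)) z (Y / 2) Y' (C₃ * x⁻¹) ht hz (by linarith)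
    (by linarith) (by positivity) e4.1 fun d hd hd' χ hχ => by
      have d0 : (0 : ℝ) < d := by exact_mod_cast hd
      have a1 : s ≤ Y / 2 / d := by
        rw [le_div_iff₀ d0]
        nlinarith
      exact (h4 t χ _ _ hχ (s1.trans a1) (q6.trans (by gcongr))).trans
        (mul_le_mul_of_nonneg_left (e7 _ a1) (by linarith))
  simp only [Complex.norm_conj] at k1
  have k2 := dual hm (T := {n ∈ iv (Y / 2) Y' | Rough z n}) (fun i hi => mem_filter.2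
    ⟨(hB.mem_iv _ _ _ (by linarith) (by linarith)).2 ⟨by linarith [(hv i hi).1], (hv i hi).2.1⟩,
      (hv i hi).2.2⟩) U
  have e2 := h3 z 1 w0 Y Y' hz h2.2.2.1 (by linarith) hYY
  have l0 := Real.log_pos (show 1 < z by linarith)
  have e8 : D0 S v ≤ B * lay z w0 Y Y' :=
    mult_sum hm (f := w0) (fun i hi => mem_filter.2 ⟨mem_range.2 (Nat.lt_succ_of_le
      (Nat.le_floor (hv i hi).2.1)), (hv i hi).1, (hv i hi).2.2⟩) h2.2.2.1.1
  have e3 : Real.log (Y' / (Y / 2)) ≤ 1 + Real.log (Y' / Y) := by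
    rw [show Y' / (Y / 2) = 2 * (Y' / Y) by field_simp,
      Real.log_mul two_ne_zero (div_pos (by linarith) y0).ne']
    linarith [Real.log_le_sub_one_of_pos (two_pos (α := ℝ))]
  have m0 : 0 ≤ Real.log (Y' / (Y / 2)) :=
    Real.log_nonneg ((one_le_div (by linarith)).2 (by linarith))
  set G := 1 + Real.log (Y' / Y) with hG'
  have g1 : 1 ≤ G := le_add_of_nonneg_right (Real.log_nonneg ((one_le_div y0).2 hYY))
  have d0 : 0 ≤ D0 S v := sum_nonneg fun _ _ => by positivity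
  have v0 := e4.1
  have e9 : (z ^ k) ^ 2 * (C₃ * x⁻¹ * #U + 1 / (Y / 2)) ≤ (C₃ + 2) * (G / Real.log z) := by
    have a1 : Real.log z ≤ z := (Real.log_le_sub_one_of_pos (by linarith)).trans (by linarith)
    calc _ ≤ (z ^ k) ^ 2 * (C₃ * x⁻¹ * #U + 1 / (x / 2)) := by gcongr; linarith
      _ = (z ^ k) ^ 2 * z * (C₃ * #U + 2) / x / z := by field_simp
      _ ≤ (z ^ k) ^ 2 * z * ((C₃ + 2) * (#U + 1)) / x / z := by
        gcongr (z ^ k) ^ 2 * z * ?_ / x / z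
        nlinarith
      _ = (C₃ + 2) * ((z ^ k) ^ 2 * z * (#U + 1) / x / z) := by ring
      _ ≤ _ := by
        gcongr
        exact ((div_le_one (by linarith)).2 x3).trans g1
  have e10 : D0 S v * (B * (2 * (Real.log (Y' / (Y / 2)) * VV z) + (C₃ + 2) * (G / Real.log z))) ≤
      C₂ * (2 * C₄ + C₃ + 2) * (B * G / Real.log z) ^ 2 := by
    have := e8.trans (mul_le_mul_of_nonneg_left e2 (Nat.cast_nonneg B))
    calc _ ≤ B * (C₂ * G / Real.log z) *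
          (B * (2 * (G * (C₄ / Real.log z)) + (C₃ + 2) * (G / Real.log z))) := by
          gcongr
          exact e4.2
      _ = _ := by ring
  have D : 0 ≤ ∑ χ ∈ U, ‖hat S v χ‖ ^ 2 := by positivity
  generalize ∑ χ ∈ U, ‖hat S v χ‖ ^ 2 = Sg at *
  rcases D.eq_or_lt with rfl | D'
  · positivity
  refine le_of_mul_le_mul_left ?_ D'
  calc _ = Sg ^ 2 := by ring
    _ ≤ _ := k2
    _ ≤ D0 S v * (B * (Sg * (2 * (Real.log (Y' / (Y / 2)) * VV z) +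
        (C₃ + 2) * (G / Real.log z)))) := by
      gcongr
      exact k1.trans (by gcongr)
    _ = Sg * (D0 S v * (B * (2 * (Real.log (Y' / (Y / 2)) * VV z) +
        (C₃ + 2) * (G / Real.log z)))) := by ring
    _ ≤ _ := mul_le_mul_of_nonneg_left e10 D'.le

end Pool.Agent.Lib.MP_f6c7cf_nt.FO
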