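import Pool.Agent.Lib.MP_f6c7cf_nt.FO.St

/-!
The mean value of a smooth sum.
-/

namespace Pool.Agent.Lib.MP_f6c7cf_nt.FO

open Finset Filter Topology Polynomial
open scoped Classical ComplexConjugate

noncomputable section

namespace R

variable {q : ℕ} [NeZero q]

/-- the additive character -/
abbrev ps (x : ZMod q) : ℂ := ZMod.stdAddChar x

theorem norm_ps (x : ZMod q) : ‖ps x‖ = 1 := AddChar.norm_apply _ _

theorem sum_ps (k : ZMod q) : ∑ b : ZMod q, ps (b * k) = if k = 0 then (q : ℂ) else 0 := by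
  have := AddChar.sum_mulShift k (ZMod.isPrimitive_stdAddChar q)
  rw [ZMod.card] at this
  rw [this]
  split_ifs <;> simp

theorem parseval {ι : Type} (I : Finset ι) (a : ι → ℂ) (k : ι → ZMod q) :
    ∑ b : ZMod q, ‖∑ i ∈ I, a i * ps (b * k i)‖ ^ 2 ≤
      q * ∑ i ∈ I, ∑ i' ∈ I, if k i = k i' then ‖a i‖ * ‖a i'‖ else 0 := by
  have e : ((∑ b : ZMod q, ‖∑ i ∈ I, a i * ps (b * k i)‖ ^ 2 : ℝ) : ℂ) =
      ∑ i ∈ I, ∑ i' ∈ I, a i * conj (a i') * (if k i - k i' = 0 then (q : ℂ) else 0) := by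
    push_cast
    have e1 : ∀ b : ZMod q, ((‖∑ i ∈ I, a i * ps (b * k i)‖ : ℝ) : ℂ) ^ 2 =
        ∑ i ∈ I, ∑ i' ∈ I, a i * conj (a i') * ps (b * (k i - k i')) := fun b => by
      rw [← Complex.mul_conj', map_sum, sum_mul_sum]
      refine sum_congr rfl fun i _ => sum_congr rfl fun i' _ => ?_
      rw [map_mul, ← AddChar.map_neg_eq_conj, mul_sub, sub_eq_add_neg, ps, ps,
        AddChar.map_add_eq_mul]
      ring
    simp only [e1]
    rw [sum_comm]
    refine sum_congr rfl fun i _ => ?_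
    rw [sum_comm]
    refine sum_congr rfl fun i' _ => ?_
    rw [← mul_sum, sum_ps]
  have h := congrArg norm e
  rw [Complex.norm_real, Real.norm_of_nonneg (by positivity)] at h
  rw [h, mul_sum]
  refine (norm_sum_le _ _).trans (sum_le_sum fun i _ => ?_)
  rw [mul_sum]
  refine (norm_sum_le _ _).trans (sum_le_sum fun i' _ => ?_)
  simp only [sub_eq_zero]
  split_ifs
  · rw [norm_mul, norm_mul, Complex.norm_conj, Complex.norm_natCast]
    exact le_of_eq (by ring)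
  · simp

theorem abel {z : ℂ} (hz : ‖z‖ = 1) (a m : ℕ) :
    ‖(z - 1) * ∑ n ∈ Ioc a (a + 1 + m), z ^ n / (n : ℂ) - z ^ (a + 1 + m + 1) / (a + 1 + m : ℕ)‖ ≤
      2 / (a + 1 : ℝ) - 1 / (a + 1 + m : ℕ) := by
  have p : (0 : ℝ) < a + 1 := by positivity
  induction m with
  | zero =>
    have e : (z - 1) * ∑ n ∈ Ioc a (a + 1 + 0), z ^ n / (n : ℂ) -
        z ^ (a + 1 + 0 + 1) / (a + 1 + 0 : ℕ) = -(z ^ (a + 1) / (a + 1 : ℕ)) := by
      simp only [add_zero, Nat.Ioc_succ_singleton, sum_singleton]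
      ring
    rw [e, norm_neg, norm_div, norm_pow, hz, Complex.norm_natCast]
    push_cast
    refine le_of_eq ?_
    field_simp
    ring
  | succ m ih =>
    obtain ⟨b, hb⟩ : ∃ b, b = a + 1 + m := ⟨_, rfl⟩
    have b0 : 0 < b := by omega
    have b1 : (0 : ℝ) < b := by exact_mod_cast b0
    have b2 : (b : ℂ) ≠ 0 := by exact_mod_cast b0.ne'
    have b3 : ((b + 1 : ℕ) : ℂ) ≠ 0 := by exact_mod_cast Nat.succ_ne_zero b
    have hab : a ≤ b := by omega
    rw [← hb] at ih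
    rw [← add_assoc, ← hb]
    have e : (z - 1) * ∑ n ∈ Ioc a (b + 1), z ^ n / (n : ℂ) - z ^ (b + 1 + 1) / (b + 1 : ℕ) =
        ((z - 1) * ∑ n ∈ Ioc a b, z ^ n / (n : ℂ) - z ^ (b + 1) / (b : ℕ)) +
          z ^ (b + 1) * ((1 / (b : ℝ) - 1 / (b + 1 : ℕ) : ℝ) : ℂ) := by
      rw [sum_Ioc_succ_top hab, Complex.ofReal_sub, Complex.ofReal_div, Complex.ofReal_div,
        Complex.ofReal_natCast, Complex.ofReal_natCast, Complex.ofReal_one]
      ring
    have p2 : (0 : ℝ) ≤ 1 / (b : ℝ) - 1 / (b + 1 : ℕ) :=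
      sub_nonneg.2 (one_div_le_one_div_of_le b1 (by push_cast; linarith))
    rw [e]
    refine (norm_add_le _ _).trans ?_
    rw [norm_mul (z ^ (b + 1)), norm_pow, hz, one_pow, one_mul, Complex.norm_real,
      Real.norm_of_nonneg p2]
    linarith

theorem abel2 {z : ℂ} (hz : ‖z‖ = 1) (a b : ℕ) :
    ‖z - 1‖ * ‖∑ n ∈ Ioc a b, z ^ n / (n : ℂ)‖ ≤ 2 / (a + 1 : ℝ) := by
  rcases le_or_gt b a with h | h
  · rw [Ioc_eq_empty (by omega), sum_empty, norm_zero, mul_zero]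
    positivity
  · obtain ⟨m, rfl⟩ : ∃ m, b = a + 1 + m := ⟨b - (a + 1), by omega⟩
    have h1 := abel hz a m
    have h2 : ‖z ^ (a + 1 + m + 1) / ((a + 1 + m : ℕ) : ℂ)‖ = 1 / (a + 1 + m : ℕ) := by
      rw [norm_div, norm_pow, hz, one_pow, Complex.norm_natCast]
    have h3 := norm_le_insert' ((z - 1) * ∑ n ∈ Ioc a (a + 1 + m), z ^ n / (n : ℂ))
      (z ^ (a + 1 + m + 1) / ((a + 1 + m : ℕ) : ℂ))
    rw [← norm_mul]
    linarith

theorem ps_far (h : ZMod q) : 4 * (h.valMinAbs.natAbs : ℝ) / q ≤ ‖ps (-h) - 1‖ := by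
  have p : (0 : ℝ) < q := by exact_mod_cast Nat.pos_of_ne_zero (NeZero.ne q)
  have a : (h.valMinAbs.natAbs : ℝ) * 2 ≤ q := by
    have := ZMod.natAbs_valMinAbs_le h
    exact_mod_cast (by omega : h.valMinAbs.natAbs * 2 ≤ q)
  have e0 : (h.valMinAbs.natAbs : ℝ) = |(h.valMinAbs : ℝ)| := by
    rw [← Int.cast_abs, Int.abs_eq_natAbs, Int.cast_natCast]
  have e : ps (-h) = Complex.exp (Complex.I * ((2 * (Real.pi * (-h.valMinAbs) / q) : ℝ) : ℂ)) := by
    have : -h = ((-h.valMinAbs : ℤ) : ZMod q) := by rw [Int.cast_neg, ZMod.coe_valMinAbs]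
    rw [this, ps, ZMod.stdAddChar_coe]
    congr 1
    push_cast
    ring
  have e2 : |Real.pi * (-h.valMinAbs) / q| = Real.pi * h.valMinAbs.natAbs / q := by
    rw [abs_div, abs_mul, abs_neg, abs_of_pos Real.pi_pos, abs_of_pos p, e0]
  have b := Real.mul_abs_le_abs_sin (x := Real.pi * (-h.valMinAbs) / q) (by
    rw [e2, div_le_div_iff₀ p two_pos]
    nlinarith [Real.pi_pos])
  rw [e, Complex.norm_exp_I_mul_ofReal_sub_one, mul_div_cancel_left₀ _ (two_ne_zero), norm_mul,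
    Real.norm_eq_abs, Real.norm_eq_abs, abs_two]
  rw [e2] at b
  have e3 : 2 / Real.pi * (Real.pi * h.valMinAbs.natAbs / q) = 2 * h.valMinAbs.natAbs / q := by
    have := Real.pi_pos
    field_simp
  rw [e3] at b
  have e4 : 4 * (h.valMinAbs.natAbs : ℝ) / q = 2 * (2 * h.valMinAbs.natAbs / q) := by ring
  rw [e4]
  linarith

/-- the Fourier coefficients -/
def cf (A : Finset ℕ) (h : ZMod q) : ℂ := (∑ n ∈ A, ps (-h) ^ n / (n : ℂ)) / q

theorem cf_le (A : Finset ℕ) (h : ZMod q) : ‖cf A h‖ ≤ D0 A id / q := by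
  rw [cf, norm_div, Complex.norm_natCast]
  refine div_le_div_of_nonneg_right ((norm_sum_le _ _).trans (le_of_eq ?_)) (Nat.cast_nonneg _)
  refine sum_congr rfl fun n _ => ?_
  rw [norm_div, norm_pow, norm_ps, one_pow, Complex.norm_natCast, id]

theorem cf_le2 (a b : ℕ) (h : ZMod q) {P K : ℝ} (hP : 0 < P) (hK : 0 < K) (ha : P ≤ a + 1)
    (hh : K ≤ h.valMinAbs.natAbs) : ‖cf (Ioc a b) h‖ ≤ 1 / (P * K) := by
  have p : (0 : ℝ) < q := by exact_mod_cast Nat.pos_of_ne_zero (NeZero.ne q)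
  have h1 := abel2 (norm_ps (-h)) a b
  have h2 := ps_far h
  have h3 : 2 / (a + 1 : ℝ) ≤ 2 / P := div_le_div_of_nonneg_left two_pos.le hP ha
  have h4 : 4 * K / q ≤ ‖ps (-h) - 1‖ := le_trans (by gcongr) h2
  have h5 := (mul_le_mul_of_nonneg_right h4 (norm_nonneg _)).trans (h1.trans h3)
  rw [cf, norm_div, Complex.norm_natCast]
  obtain ⟨N, hN⟩ : ∃ N, N = ‖∑ n ∈ Ioc a b, ps (-h) ^ n / (n : ℂ)‖ := ⟨_, rfl⟩
  have h6 : 0 ≤ N := hN ▸ norm_nonneg _
  rw [← hN] at h5 ⊢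
  rw [div_mul_eq_mul_div, div_le_div_iff₀ p hP] at h5
  rw [div_le_div_iff₀ p (by positivity)]
  have : 0 ≤ K * N * P := by positivity
  nlinarith

theorem inv (A : Finset ℕ) (χ : DirichletCharacter ℂ q) (hχ : χ ≠ 1) :
    ∑ n ∈ A, χ n / (n : ℂ) = ∑ a, χ a * ∑ h ∈ univ.erase (0 : ZMod q), cf A h * ps (a * h) := by
  have p : (q : ℂ) ≠ 0 := by exact_mod_cast NeZero.ne q
  have e1 : ∀ a : ZMod q, ∑ h, cf A h * ps (a * h) =
      ∑ n ∈ A, if a = n then 1 / (n : ℂ) else 0 := fun a => by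
    simp only [cf, sum_div, sum_mul]
    rw [sum_comm]
    refine sum_congr rfl fun n _ => ?_
    have e : ∀ h : ZMod q, ps (-h) ^ n / (n : ℂ) / q * ps (a * h) =
        1 / (n : ℂ) / q * ps (h * (a - (n : ZMod q))) := fun h => by
      have : h * (a - (n : ZMod q)) = n • (-h) + a * h := by rw [nsmul_eq_mul]; ring
      rw [this, ps, ps, ps, AddChar.map_add_eq_mul, AddChar.map_nsmul_eq_pow]
      ring
    simp only [e]
    rw [← mul_sum, sum_ps]
    simp only [sub_eq_zero]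
    split_ifs
    · field_simp
    · simp
  have e2 : ∀ a : ZMod q, ∑ h ∈ univ.erase (0 : ZMod q), cf A h * ps (a * h) =
      (∑ n ∈ A, if a = n then 1 / (n : ℂ) else 0) - cf A (0 : ZMod q) := fun a => by
    rw [← e1, ← add_sum_erase _ _ (mem_univ (0 : ZMod q)), mul_zero, ps, AddChar.map_zero_eq_one]
    ring
  simp only [e2, mul_sub, sum_sub_distrib]
  rw [← sum_mul, MulChar.sum_eq_zero_of_ne_one hχ, zero_mul, sub_zero]
  simp only [mul_sum]
  rw [sum_comm]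
  refine sum_congr rfl fun n _ => ?_
  simp only [mul_ite, mul_zero, sum_ite_eq', mem_univ, if_true]
  ring

theorem shift (χ : DirichletCharacter ℂ q) (G : ZMod q → ℂ) {v : ZMod q} (hv : ‖χ v‖ = 1) :
    conj (χ v) * ∑ a, χ a * G a = ∑ b, χ b * G (b * v) := by
  have u : IsUnit v := by
    by_contra hu
    rw [χ.map_nonunit hu, norm_zero] at hv
    exact zero_ne_one hv
  obtain ⟨u, rfl⟩ := u
  rw [← Equiv.sum_comp (Units.mulRight u) (fun a => χ a * G a), mul_sum]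
  refine sum_congr rfl fun b _ => ?_
  have e : conj (χ u) * χ u = 1 := by
    rw [mul_comm, Complex.mul_conj', hv]
    simp
  rw [Units.mulRight_apply, map_mul]
  linear_combination (χ b * G (b * u)) * e

/-- the frequencies of one size -/
def pc (q : ℕ) [NeZero q] (j : ℕ) : Finset (ZMod q) :=
  {h ∈ univ.erase (0 : ZMod q) | Nat.log 2 h.valMinAbs.natAbs = j}

theorem mem_pc {j : ℕ} {h : ZMod q} (hh : h ∈ pc q j) :
    h.valMinAbs ≠ 0 ∧ 2 ^ j ≤ h.valMinAbs.natAbs ∧ h.valMinAbs.natAbs < 2 ^ (j + 1) := by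
  obtain ⟨h1, rfl⟩ := mem_filter.1 hh
  have h2 : h.valMinAbs ≠ 0 := fun h0 => (mem_erase.1 h1).1 ((ZMod.valMinAbs_eq_zero h).1 h0)
  exact ⟨h2, Nat.pow_log_le_self 2 (Int.natAbs_ne_zero.2 h2),
    Nat.lt_pow_succ_log_self one_lt_two _⟩

theorem piece (hB : Bas) (t j : ℕ) (ht : 1 ≤ t) (F : ℝ[X]) (hF : Prob F) (c : ZMod (qq t) → ℂ)
    (M : ℝ) (hM : ∀ h ∈ pc (qq t) j, ‖c h‖ ≤ M) :
    ∑ χ : Ch t, ‖WW F χ‖ ^ 2 * ‖∑ a, χ a * ∑ h ∈ pc (qq t) j, c h * ps (a * h)‖ ^ 2 ≤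
      (qq t : ℝ) * (qq t * (M ^ 2 * JN t F (2 ^ (j + 1)))) := by
  let v : ℕ → ZMod (qq t) := fun y => ((1 + 2 ^ t * y : ℕ) : ZMod (qq t))
  have hv : ∀ (χ : Ch t) y, ‖χ (v y)‖ = 1 := fun χ y => hB.norm_chi t _ χ (by
    obtain ⟨s, rfl⟩ : ∃ s, t = s + 1 := ⟨t - 1, by omega⟩
    exact ⟨2 ^ s * y, by ring⟩)
  have e : ∀ χ : Ch t, ‖WW F χ‖ ^ 2 * ‖∑ a, χ a * ∑ h ∈ pc (qq t) j, c h * ps (a * h)‖ ^ 2 =
      ‖∑ b, χ b * ∑ i ∈ F.support ×ˢ pc (qq t) j,
        (F.coeff i.1 * c i.2) * ps (b * (v i.1 * i.2))‖ ^ 2 := fun χ => by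
    rw [← mul_pow, ← Complex.norm_conj (WW F χ), ← norm_mul, hB.WW_eq, map_sum, sum_mul]
    congr 2
    have e1 : ∀ y ∈ F.support, conj ((F.coeff y : ℂ) * χ (v y)) *
        ∑ a, χ a * ∑ h ∈ pc (qq t) j, c h * ps (a * h) =
        ∑ b, χ b * ∑ h ∈ pc (qq t) j, (F.coeff y * c h) * ps (b * (v y * h)) := fun y _ => by
      rw [map_mul, Complex.conj_ofReal, mul_assoc,
        shift χ (fun a => ∑ h ∈ pc (qq t) j, c h * ps (a * h)) (hv χ y), mul_sum]
      refine sum_congr rfl fun b _ => ?_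
      rw [mul_sum, mul_sum, mul_sum]
      refine sum_congr rfl fun h _ => ?_
      rw [mul_assoc b]
      ring
    rw [sum_congr rfl e1, sum_comm]
    refine sum_congr rfl fun b _ => ?_
    rw [sum_product, mul_sum]
  simp only [e]
  refine (hB.orth t _).trans (mul_le_mul (by exact_mod_cast Nat.totient_le _)
    ((parseval _ _ _).trans (mul_le_mul_of_nonneg_left ?_ (Nat.cast_nonneg _)))
    (by positivity) (Nat.cast_nonneg _))
  rw [JN, sum_comm (s := F.support), sum_product, mul_sum]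
  refine sum_le_sum fun y _ => ?_
  simp only [sum_product]
  rw [sum_comm, mul_sum]
  refine sum_le_sum fun y' _ => ?_
  have f1 := hF.1 y
  have f2 := hF.1 y'
  rw [← sum_product', ← sum_filter]
  refine (sum_le_card_nsmul _ _ (F.coeff y' * F.coeff y * M ^ 2) fun i hi => ?_).trans ?_
  · obtain ⟨i1, i2⟩ := mem_product.1 (mem_filter.1 hi).1
    have a1 := hM _ i1
    have a2 := hM _ i2
    have a3 := mul_le_mul a1 a2 (norm_nonneg _) ((norm_nonneg _).trans a1)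
    rw [norm_mul, norm_mul, Complex.norm_real, Complex.norm_real, Real.norm_of_nonneg f1,
      Real.norm_of_nonneg f2]
    have := mul_le_mul_of_nonneg_left a3 (mul_nonneg f2 f1)
    nlinarith
  · rw [nsmul_eq_mul, mul_comm, mul_comm (M ^ 2), mul_right_comm]
    refine mul_le_mul_of_nonneg_right (mul_le_mul_of_nonneg_left ?_ (mul_nonneg f2 f1))
      (sq_nonneg _)
    refine Nat.cast_le.2 (card_le_card_of_injOn (fun i => (i.1.valMinAbs, i.2.valMinAbs))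
      (fun i hi => ?_) fun i _ i' _ hi => ?_)
    · obtain ⟨i0, i3⟩ := mem_filter.1 (mem_coe.1 hi)
      obtain ⟨i1, i2⟩ := mem_product.1 i0
      obtain ⟨a1, -, a2⟩ := mem_pc i1
      obtain ⟨b1, -, b2⟩ := mem_pc i2
      refine mem_coe.2 (mem_filter.2 ⟨mem_product.2 ⟨mem_Icc.2 ?_, mem_Icc.2 ?_⟩, a1, b1, ?_⟩)
      · constructor <;> simp only [] <;> omega
      · constructor <;> simp only [] <;> omega
      · rw [← ZMod.intCast_eq_intCast_iff]
        simp only [v] at i3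
        push_cast at i3 ⊢
        linear_combination i3
    · simp only [Prod.mk.injEq, ZMod.valMinAbs_inj] at hi
      exact Prod.ext hi.1 hi.2

end R

open R in
theorem rv (hB : Bas) (h1 : JSt) : RSt := by
  refine ⟨256, by norm_num, fun t F π P₁ P₂ ht hF hS hP h12 => ?_⟩
  obtain ⟨L, hL⟩ : ∃ L, L = 1 + Real.log P₂ := ⟨_, rfl⟩
  have L1 : 1 ≤ L := by linarith [Real.log_nonneg (hP.trans h12)]
  have pq : (0 : ℝ) < qq t := by positivity
  have pP : 0 < P₁ := by linarith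
  have pπ : 0 < π := by
    have := hB.sp_ge t F π hF hS
    by_contra h
    have : 2 ^ t * π ≤ 0 := mul_nonpos_of_nonneg_of_nonpos (by positivity) (not_lt.1 h)
    linarith
  have hD : D0 (iv P₁ P₂) id ≤ L := by
    have := hB.D0_le ℕ (iv P₁ P₂) id 1 P₂ (fun a => card_le_one.2 fun x hx y hy =>
      (mem_filter.1 hx).2.trans (mem_filter.1 hy).2.symm) (hP.trans h12)
      fun n hn => ((hB.mem_iv P₁ P₂ n pP.le (by linarith)).1 hn).2
    rwa [Nat.cast_one, one_mul, ← hL] at this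
  let T : ℕ → Ch t → ℂ := fun j χ =>
    ∑ a, χ a * ∑ h ∈ pc (qq t) j, cf (iv P₁ P₂) h * ps (a * h)
  have e : ∀ χ ∈ nz t, sm χ P₁ P₂ = ∑ j ∈ range (2 * t), T j χ := fun χ hχ => by
    rw [sm, inv _ χ (mem_erase.1 hχ).1, sum_comm]
    refine sum_congr rfl fun a _ => ?_
    rw [← mul_sum]
    congr 1
    refine (sum_fiberwise_of_maps_to (fun h hh => mem_range.2 ?_) _).symm
    have h2 : h.valMinAbs ≠ 0 := fun h0 => (mem_erase.1 hh).1 ((ZMod.valMinAbs_eq_zero h).1 h0)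
    refine Nat.log_lt_of_lt_pow (Int.natAbs_ne_zero.2 h2) ?_
    exact (ZMod.natAbs_valMinAbs_le h).trans_lt (Nat.div_lt_self (by positivity) one_lt_two)
  have one : ∀ j, ∑ χ : Ch t, ‖WW F χ‖ ^ 2 * ‖T j χ‖ ^ 2 ≤
      64 * ((t : ℝ) + 1) * L ^ 2 * (qq t / P₁ ^ 2 + qq t * π / P₁) := fun j => by
    have pK : (0 : ℝ) < 2 ^ j := by positivity
    obtain ⟨M, hM⟩ : ∃ M, M = min (L / qq t) (1 / (P₁ * 2 ^ j)) := ⟨_, rfl⟩
    have M0 : 0 ≤ M := hM ▸ le_min (by positivity) (by positivity)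
    have M1 : M * qq t ≤ L := (le_div_iff₀ pq).1 (hM ▸ min_le_left _ _)
    have M2 : M * 2 ^ j ≤ 1 / P₁ := by
      rw [← le_div_iff₀ pK, div_div]
      exact hM ▸ min_le_right _ _
    refine (piece hB t j ht F hF _ M fun h hh => hM ▸ le_min ((cf_le _ h).trans
      (div_le_div_of_nonneg_right hD pq.le)) (cf_le2 _ _ h pP pK (Nat.lt_floor_add_one P₁).le
        (by exact_mod_cast (mem_pc hh).2.1))).trans ?_
    have a := mul_le_mul_of_nonneg_left (h1 t (2 ^ (j + 1)) F π ht hF hS)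
      (by positivity : 0 ≤ (qq t : ℝ) * (qq t * M ^ 2))
    have e1 : (qq t : ℝ) * (qq t * M ^ 2) * (16 * ((2 ^ (j + 1) : ℕ) : ℝ) ^ 2 / qq t +
        8 * ((t : ℝ) + 1) * ((2 ^ (j + 1) : ℕ) : ℝ) * π) = 64 * qq t * (M * 2 ^ j) ^ 2 +
        16 * ((t : ℝ) + 1) * (qq t * π) * ((M * qq t) * (M * 2 ^ j)) := by
      push_cast
      field_simp
      ring
    have t1 : (1 : ℝ) ≤ t + 1 := by linarith [(Nat.cast_nonneg t : (0 : ℝ) ≤ t)]
    have L2 : L ≤ L ^ 2 := by nlinarith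
    have b1 : 64 * qq t * (M * 2 ^ j) ^ 2 ≤ 64 * ((t : ℝ) + 1) * L ^ 2 * (qq t / P₁ ^ 2) := by
      calc 64 * qq t * (M * 2 ^ j) ^ 2 ≤ 64 * qq t * (1 / P₁) ^ 2 := by gcongr
        _ = 64 * 1 * 1 * (qq t / P₁ ^ 2) := by field_simp
        _ ≤ _ := by gcongr; linarith
    have b2 : 16 * ((t : ℝ) + 1) * (qq t * π) * ((M * qq t) * (M * 2 ^ j)) ≤
        64 * ((t : ℝ) + 1) * L ^ 2 * (qq t * π / P₁) := by
      calc 16 * ((t : ℝ) + 1) * (qq t * π) * ((M * qq t) * (M * 2 ^ j))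
          ≤ 16 * ((t : ℝ) + 1) * (qq t * π) * (L * (1 / P₁)) := by gcongr
        _ = 16 * ((t : ℝ) + 1) * L * (qq t * π / P₁) := by ring
        _ ≤ _ := by gcongr; norm_num
    rw [e1] at a
    calc _ = (qq t : ℝ) * (qq t * M ^ 2) * JN t F (2 ^ (j + 1)) := by ring
      _ ≤ _ := by linarith
  have two : ∀ χ ∈ nz t, ‖WW F χ‖ ^ 2 * ‖sm χ P₁ P₂‖ ^ 2 ≤
      2 * t * ∑ j ∈ range (2 * t), ‖WW F χ‖ ^ 2 * ‖T j χ‖ ^ 2 := fun χ hχ => by
    have a := (pow_le_pow_left₀ (norm_nonneg _) (norm_sum_le (range (2 * t)) fun j => T j χ) 2).trans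
      sq_sum_le_card_mul_sum_sq
    rw [card_range] at a
    push_cast at a
    rw [e χ hχ, ← mul_sum, mul_left_comm]
    exact mul_le_mul_of_nonneg_left a (sq_nonneg _)
  refine (sum_le_sum two).trans ((sum_le_univ_sum_of_nonneg fun χ => by positivity).trans ?_)
  rw [← mul_sum, sum_comm, ← hL]
  refine (mul_le_mul_of_nonneg_left (sum_le_card_nsmul _ _ _ fun j _ => one j)
    (by positivity)).trans ?_
  rw [card_range, nsmul_eq_mul, Nat.cast_mul, Nat.cast_ofNat]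
  have t0 : (0 : ℝ) ≤ t := Nat.cast_nonneg t
  calc 2 * (t : ℝ) * (2 * t * (64 * ((t : ℝ) + 1) * L ^ 2 * (qq t / P₁ ^ 2 + qq t * π / P₁)))
      ≤ 2 * (t + 1 : ℝ) * (2 * (t + 1) * (64 * ((t : ℝ) + 1) * L ^ 2 *
        (qq t / P₁ ^ 2 + qq t * π / P₁))) := by gcongr <;> linarith
    _ = _ := by ring

end

end Pool.Agent.Lib.MP_f6c7cf_nt.FO
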