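import Pool.Agent.Lib.MP_f6c7cf_nt.FO.St

/-!
Primes with few binary ones: the sieve weights and their sign.
-/

namespace Pool.Agent.Lib.MP_f6c7cf_nt.FO

open Finset
open scoped Classical

noncomputable section

/-- the parameters of the weights -/
structure Fp where
  /-- two factors of this size give a mean value -/
  A : ℕ
  /-- the same for the major characters -/
  G : ℕ
  /-- the smallest total -/
  J₁ : ℕ
  /-- the largest total -/
  J₂ : ℕ

/-- admissible parameters -/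
def Fp.OK (p : Fp) : Prop :=
  0 < p.J₁ ∧ p.J₁ ≤ p.J₂ ∧ 4148 * p.J₁ ≤ 10000 * p.A ∧ 10000 * p.A ≤ 4152 * p.J₁ ∧
  2919 * p.J₁ ≤ 10000 * p.G ∧ 2 * p.G + p.A + p.J₂ ≤ 2 * p.J₁

/-- the size of the weight -/
def Fp.psi (p : Fp) (M : Multiset ℕ) : ℝ :=
  if p.J₁ < M.sum + p.A then 0
  else if M.sum < p.A then (if 2 ≤ M.countP (fun x => p.J₁ < x + 2 * p.A) then 2 / 5 else 1)
  else if Odd M.card ∧ M.sum + p.J₁ < p.A + p.J₂ then 1 else 1 / 2

/-- the sieve weight -/
def Fp.yy (p : Fp) (M : Multiset ℕ) : ℝ := (-1) ^ M.card * p.psi M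

/-- two long factors -/
def Ga (A : ℕ) (M : Multiset ℕ) : Prop := ∃ D D' : Multiset ℕ, M = D + D' ∧ A ≤ D.sum ∧ A ≤ D'.sum

/-- two long factors and a prime -/
def Gb (G : ℕ) (M : Multiset ℕ) : Prop :=
  ∃ U V C : Multiset ℕ, M = U + V + C ∧ C ≠ 0 ∧ G ≤ U.sum ∧ G ≤ V.sum

/-- the good cells -/
def Fp.Gd (p : Fp) (M : Multiset ℕ) : Prop := Ga p.A M ∧ Gb p.G M

/-- the sum over all divisors -/
def Fp.T (p : Fp) (M : Multiset ℕ) : ℝ := (M.powerset.map p.yy).sum

/-- the loss -/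
def Fp.L (p : Fp) (M : Multiset ℕ) : ℝ := if p.Gd M then 0 else max 0 (-p.T M)

/-- the system of weights -/
def Fp.sv (p : Fp) : Sv := ⟨p.J₁, p.J₂, p.yy, Good p.A p.G⟩

/-- the places where the loss lives -/
def Fp.Reg (p : Fp) (M : Multiset ℕ) (t : ℝ) : Prop :=
  t = 0 ∨ (M.card = 3 ∧ (∀ x ∈ M, x < p.A) ∧ t ≤ 2) ∨ ∃ (a : ℕ) (O : Multiset ℕ), M = a ::ₘ O ∧
    ((O.card = 1 ∧ p.A ≤ a ∧ p.A ≤ O.sum ∧ O.sum + p.J₁ < p.A + p.J₂ ∧ t ≤ 1 / 2) ∨
     (O.card = 2 ∧ (∀ x ∈ O, x < p.G) ∧ p.A ≤ O.sum ∧ t ≤ 1) ∨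
     (O.card = 2 ∧ (∀ x ∈ O, p.J₁ < x + 2 * p.A) ∧ O.sum < p.A ∧ t ≤ 3 / 5) ∨
     (O.card = 3 ∧ (∀ x ∈ O, p.J₁ < x + 2 * p.A ∧ O.sum < p.A + x) ∧ t ≤ 9 / 5) ∨
     (O.card = 3 ∧ p.A ≤ O.sum ∧ O.sum + p.J₁ < p.A + p.J₂ ∧ (∀ x ∈ O, O.sum < p.G + x) ∧
       t ≤ 1 / 2))

namespace Wt

open Multiset

/-- the weight of an odd set that is not short -/
def s1 (p : Fp) (x : ℕ) : ℝ :=
  if p.J₁ < x + p.A then 0 else if x + p.J₁ < p.A + p.J₂ then 1 else 1 / 2

/-- the weight of a pair -/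
def s2 (p : Fp) (x y : ℕ) : ℝ :=
  if p.J₁ < x + y + p.A then 0
  else if x + y < p.A then (if p.J₁ < x + 2 * p.A ∧ p.J₁ < y + 2 * p.A then 2 / 5 else 1) else 1 / 2

variable {p : Fp}

theorem a0 (x : ℕ) (h : p.J₁ < x + p.A) : s1 p x = 0 := by rw [s1, if_pos h]

theorem a1 (x : ℕ) (h : x + p.A ≤ p.J₁ ∧ x + p.J₁ < p.A + p.J₂) : s1 p x = 1 := by
  rw [s1, if_neg (by omega), if_pos h.2]

theorem ah (x : ℕ) (h : x + p.A ≤ p.J₁ ∧ p.A + p.J₂ ≤ x + p.J₁) : s1 p x = 1 / 2 := by
  rw [s1, if_neg (by omega), if_neg (by omega)]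

theorem b0 (x y : ℕ) (h : p.J₁ < x + y + p.A) : s2 p x y = 0 := by rw [s2, if_pos h]

theorem b1 (x y : ℕ) (h : x + y + p.A ≤ p.J₁ ∧ x + y < p.A ∧
    (x + 2 * p.A ≤ p.J₁ ∨ y + 2 * p.A ≤ p.J₁)) : s2 p x y = 1 := by
  rw [s2, if_neg (by omega), if_pos h.2.1, if_neg (by omega)]

theorem b2 (x y : ℕ) (h : x + y + p.A ≤ p.J₁ ∧ x + y < p.A ∧
    p.J₁ < x + 2 * p.A ∧ p.J₁ < y + 2 * p.A) : s2 p x y = 2 / 5 := by
  rw [s2, if_neg (by omega), if_pos h.2.1, if_pos h.2.2]

theorem bh (x y : ℕ) (h : x + y + p.A ≤ p.J₁ ∧ p.A ≤ x + y) : s2 p x y = 1 / 2 := by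
  rw [s2, if_neg (by omega), if_neg (by omega)]

theorem y0 (h : p.OK) : p.yy 0 = 1 := by
  obtain ⟨h1, h2, h3, h4, h5, h6⟩ := h
  rw [Fp.yy, Fp.psi, Multiset.sum_zero, if_neg (by omega), if_pos (by omega), if_neg (by simp)]
  simp

theorem y1 (h : p.OK) (x : ℕ) : p.yy {x} = -s1 p x := by
  obtain ⟨h1, h2, h3, h4, h5, h6⟩ := h
  have e : ¬2 ≤ countP (fun x => p.J₁ < x + 2 * p.A) {x} := by
    have := countP_le_card (fun x => p.J₁ < x + 2 * p.A) {x}
    rw [Multiset.card_singleton] at this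
    omega
  rw [Fp.yy, Fp.psi, s1, Multiset.sum_singleton, Multiset.card_singleton, if_neg e]
  simp only [odd_one, true_and]
  split_ifs <;> first | omega | simp

theorem y2 (x y : ℕ) : p.yy (x ::ₘ {y}) = s2 p x y := by
  have e : 2 ≤ countP (fun x => p.J₁ < x + 2 * p.A) (x ::ₘ {y}) ↔
      p.J₁ < x + 2 * p.A ∧ p.J₁ < y + 2 * p.A := by
    rw [← Multiset.cons_zero, countP_cons, countP_cons, countP_zero]
    split_ifs <;> omega
  have e2 : ¬Odd (1 + 1) := by decide
  rw [Fp.yy, Fp.psi, s2, Multiset.sum_cons, Multiset.sum_singleton, Multiset.card_cons,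
    Multiset.card_singleton]
  simp only [e, e2, false_and, if_false]
  norm_num

theorem y3 (x y z : ℕ) (h : p.A ≤ x + y + z) : p.yy (x ::ₘ y ::ₘ {z}) = -s1 p (x + y + z) := by
  have e2 : Odd (1 + 1 + 1) := by decide
  rw [Fp.yy, Fp.psi, s1, Multiset.sum_cons, Multiset.sum_cons, Multiset.sum_singleton, Multiset.card_cons,
    Multiset.card_cons, Multiset.card_singleton, ← add_assoc, if_neg (not_lt.2 h)]
  simp only [e2, true_and]
  split_ifs <;> norm_num

theorem yz {M : Multiset ℕ} (h : p.J₁ < M.sum + p.A) : p.yy M = 0 := by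
  rw [Fp.yy, Fp.psi, if_pos h, mul_zero]

theorem T2 (h : p.OK) (x y : ℕ) (hJ : p.J₁ ≤ x + y) : p.T {x, y} = 1 - s1 p x - s1 p y := by
  have e := b0 (p := p) x y (by obtain ⟨h1, h2, h3, h4, h5, h6⟩ := h; omega)
  simp only [Fp.T, insert_eq_cons, ← Multiset.cons_zero, powerset_cons, powerset_zero,
    Multiset.map_add, Multiset.map_cons, Multiset.map_zero, Multiset.sum_add, Multiset.sum_cons,
    Multiset.sum_zero]
  simp only [Multiset.cons_zero, y0 h, y1 h, y2, e]
  ring

theorem T3 (h : p.OK) (x y z : ℕ) (hJ : p.J₁ ≤ x + y + z) :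
    p.T {x, y, z} = 1 - s1 p x - s1 p y - s1 p z + s2 p x y + s2 p x z + s2 p y z := by
  have e : p.yy (x ::ₘ y ::ₘ {z}) = 0 := yz (by
    obtain ⟨h1, h2, h3, h4, h5, h6⟩ := h
    simp only [Multiset.sum_cons, Multiset.sum_singleton]; omega)
  simp only [Fp.T, insert_eq_cons, ← Multiset.cons_zero, powerset_cons, powerset_zero,
    Multiset.map_add, Multiset.map_cons, Multiset.map_zero, Multiset.sum_add, Multiset.sum_cons,
    Multiset.sum_zero]
  simp only [Multiset.cons_zero, y0 h, y1 h, y2, e]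
  ring

theorem T4 (h : p.OK) (x y z u : ℕ) (hJ : p.J₁ ≤ x + y + z + u)
    (h3 : p.A ≤ x + y + z ∧ p.A ≤ x + y + u ∧ p.A ≤ x + z + u ∧ p.A ≤ y + z + u) :
    p.T {x, y, z, u} = 1 - s1 p x - s1 p y - s1 p z - s1 p u + s2 p x y + s2 p x z + s2 p x u +
      s2 p y z + s2 p y u + s2 p z u - s1 p (x + y + z) - s1 p (x + y + u) - s1 p (x + z + u) -
      s1 p (y + z + u) := by
  have e : p.yy (x ::ₘ y ::ₘ z ::ₘ {u}) = 0 := yz (by
    obtain ⟨h1, h2, h3, h4, h5, h6⟩ := h
    simp only [Multiset.sum_cons, Multiset.sum_singleton]; omega)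
  simp only [Fp.T, insert_eq_cons, ← Multiset.cons_zero, powerset_cons, powerset_zero,
    Multiset.map_add, Multiset.map_cons, Multiset.map_zero, Multiset.sum_add, Multiset.sum_cons,
    Multiset.sum_zero]
  simp only [Multiset.cons_zero, y0 h, y1 h, y2, e, y3 _ _ _ h3.1, y3 _ _ _ h3.2.1,
    y3 _ _ _ h3.2.2.1, y3 _ _ _ h3.2.2.2]
  ring

theorem ne {A : ℕ} {M S : Multiset ℕ} (h : ¬Ga A M) (hS : S ≤ M) (h1 : A ≤ S.sum) :
    M.sum < S.sum + A := by
  have e : M = S + (M - S) := (add_tsub_cancel_of_le hS).symm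
  have e2 := congrArg Multiset.sum e
  rw [Multiset.sum_add] at e2
  by_contra h2
  exact h ⟨S, M - S, e, h1, by omega⟩

theorem emax {A : ℕ} {M : Multiset ℕ} (h : Ga A M) {x : ℕ} (hx : x ∈ M) : x + A ≤ M.sum := by
  obtain ⟨D, D', rfl, h1, h2⟩ := h
  rw [Multiset.sum_add]
  rcases mem_add.1 hx with c | c <;> have := le_sum_of_mem c <;> omega

theorem pair (h : p.OK) {m : ℕ} {R : Multiset ℕ} (hJ : p.J₁ ≤ (m ::ₘ R).sum)
    (hE : ¬Ga p.A (m ::ₘ R)) (hm : m + 2 * p.A ≤ p.J₁) : p.T (m ::ₘ R) = 0 := by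
  obtain ⟨h1, h2, h3, h4, h5, h6⟩ := h
  rw [Fp.T, powerset_cons, Multiset.map_add, Multiset.sum_add, Multiset.map_map, ← sum_map_add]
  refine Multiset.sum_eq_zero fun t ht => ?_
  obtain ⟨S, hS, rfl⟩ := Multiset.mem_map.1 ht
  have hS' := Multiset.mem_powerset.1 hS
  have n1 := ne hE (hS'.trans (le_cons_self R m))
  have n2 := ne hE (cons_le_cons m hS')
  have e : p.psi (m ::ₘ S) = p.psi S := by
    rw [Multiset.sum_cons] at n2
    rw [Fp.psi, Fp.psi, Multiset.sum_cons, countP_cons_of_neg _ (by omega)]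
    by_cases c : S.sum < p.A
    · have c1 : ¬p.J₁ < m + S.sum + p.A := by omega
      have c2 : m + S.sum < p.A := by omega
      have c3 : ¬p.J₁ < S.sum + p.A := by omega
      rw [if_neg c1, if_pos c2, if_neg c3, if_pos c]
    · have c1 : p.J₁ < m + S.sum + p.A := by omega
      have c3 : p.J₁ < S.sum + p.A := by omega
      rw [if_pos c1, if_pos c3]
  simp only [Function.comp, Fp.yy, e, Multiset.card_cons, pow_succ]
  ring

theorem srt (M : Multiset ℕ) : ∃ l : List ℕ, l.Pairwise (· ≤ ·) ∧ M = l :=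
  ⟨M.sort (· ≤ ·), Multiset.pairwise_sort _ _, (Multiset.sort_eq _ _).symm⟩

theorem unmerge {G x y : ℕ} {R : Multiset ℕ} (h : Gb G ((x + y) ::ₘ R)) :
    Gb G (x ::ₘ y ::ₘ R) := by
  obtain ⟨U, V, C, e, hC, hU, hV⟩ := h
  have m : x + y ∈ U + V + C := e ▸ mem_cons_self _ _
  rcases mem_add.1 m with c | c
  · rcases mem_add.1 c with c | c
    · obtain ⟨W, rfl⟩ := exists_cons_of_mem c
      rw [cons_add, cons_add, cons_inj_right] at e
      exact ⟨x ::ₘ y ::ₘ W, V, C, by simp [e], hC, by simpa [add_assoc] using hU, hV⟩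
    · obtain ⟨W, rfl⟩ := exists_cons_of_mem c
      rw [add_cons, cons_add, cons_inj_right] at e
      exact ⟨U, x ::ₘ y ::ₘ W, C, by simp [e], hC, hU, by simpa [add_assoc] using hV⟩
  · obtain ⟨W, rfl⟩ := exists_cons_of_mem c
    rw [add_cons, cons_inj_right] at e
    exact ⟨U, V, x ::ₘ y ::ₘ W, by simp [e], cons_ne_zero, hU, hV⟩

theorem five (h : p.OK) (n : ℕ) : ∀ M : Multiset ℕ, M.card = n + 5 → p.J₁ ≤ M.sum →
    (∀ x ∈ M, x + p.A ≤ M.sum) → Gb p.G M := by
  obtain ⟨h1, h2, h3, h4, h5, h6⟩ := h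
  induction n with
  | zero =>
    intro M hc hJ hm
    obtain ⟨l, hl, rfl⟩ := srt M
    rcases l with _ | ⟨e, _ | ⟨d, _ | ⟨c, _ | ⟨b, _ | ⟨a, _ | ⟨z, l⟩⟩⟩⟩⟩⟩ <;>
      simp only [coe_card, List.length_cons, List.length_nil] at hc <;> try omega
    have ha := hm a (by simp)
    simp only [List.pairwise_cons, List.mem_cons, List.not_mem_nil, or_false, forall_eq_or_imp,
      forall_eq, sum_coe, List.sum_cons, List.sum_nil] at hl hJ ha
    by_cases c1 : p.G ≤ a
    · refine ⟨{a}, {d, c, b}, {e}, ?_, by simp, by simpa using c1, by simp; omega⟩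
      change e ::ₘ d ::ₘ c ::ₘ b ::ₘ {a} = _
      simp only [insert_eq_cons, ← Multiset.singleton_add]
      abel
    · refine ⟨{a, d}, {c, b}, {e}, ?_, by simp, by simp; omega, by simp; omega⟩
      change e ::ₘ d ::ₘ c ::ₘ b ::ₘ {a} = _
      simp only [insert_eq_cons, ← Multiset.singleton_add]
      abel
  | succ n ih =>
    intro M hc hJ hm
    obtain ⟨l, hl, rfl⟩ := srt M
    rcases l with _ | ⟨x, _ | ⟨y, l⟩⟩ <;>
      simp only [coe_card, List.length_cons, List.length_nil] at hc <;> try omega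
    simp only [List.pairwise_cons, List.mem_cons, forall_eq_or_imp] at hl
    have k := List.card_nsmul_le_sum l y hl.2.1
    have k2 := Nat.mul_le_mul_right y (show 4 ≤ l.length by omega)
    rw [smul_eq_mul] at k
    have es : ((x :: y :: l : List ℕ) : Multiset ℕ).sum = x + y + l.sum := by simp [add_assoc]
    have es' : ((x + y) ::ₘ (l : Multiset ℕ)).sum = x + y + l.sum := by simp
    rw [es] at hJ hm
    refine unmerge (R := l) (ih _ (by simp; omega) (by rw [es']; exact hJ) fun z hz => ?_)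
    rw [es']
    rcases mem_cons.1 hz with rfl | c
    · omega
    · exact hm z (by simp [Multiset.mem_coe.1 c])

theorem T5 (h : p.OK) {M : Multiset ℕ} (hJ : p.J₁ ≤ M.sum) (hJ' : M.sum ≤ p.J₂) (hc : 5 ≤ M.card)
    (hE : ¬Ga p.A M) (hm : ∀ x ∈ M, p.J₁ < x + 2 * p.A) : p.T M = 0 := by
  obtain ⟨h1, h2, h3, h4, h5, h6⟩ := h
  have big : ∀ S ≤ M, ∀ k ≤ S.card, k * (p.J₁ + 1 - 2 * p.A) ≤ S.sum := fun S hS k hk => by
    have := card_nsmul_le_sum (s := S) (a := p.J₁ + 1 - 2 * p.A) fun x hx => by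
      have := hm x (mem_of_le hS hx); omega
    rw [smul_eq_mul] at this
    exact (Nat.mul_le_mul_right _ hk).trans this
  have c5 : M.card = 5 := by
    by_contra n
    have := big M le_rfl 6 (by omega)
    omega
  have e : M.powerset.map p.yy = M.powerset.map fun S =>
      ((-1) ^ S.card * if S.card < 2 then 1 else if S.card < 3 then 2 / 5 else 0 : ℝ) := by
    refine Multiset.map_congr rfl fun S hS => ?_
    have hS' := Multiset.mem_powerset.1 hS
    have e1 : M = S + (M - S) := (add_tsub_cancel_of_le hS').symm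
    have e2 := congrArg Multiset.sum e1
    have e3 := congrArg Multiset.card e1
    rw [Multiset.sum_add] at e2
    rw [card_add] at e3
    have e4 : countP (fun x => p.J₁ < x + 2 * p.A) S = S.card :=
      countP_eq_card.2 fun x hx => hm x (mem_of_le hS' hx)
    rw [Fp.yy, Fp.psi, e4]
    congr 1
    by_cases c : S.card < 3
    · have f1 := big (M - S) tsub_le_self 3 (by omega)
      have f2 := ne hE (tsub_le_self (b := S)) (by omega)
      rw [if_neg (by omega), if_pos (by omega), if_pos c]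
      split_ifs <;> first | omega | rfl
    · have f1 := big S hS' 3 (by omega)
      have f2 := ne hE hS' (by omega)
      rw [if_pos (by omega), if_neg (by omega), if_neg c]
  rw [Fp.T, e]
  obtain ⟨l, -, rfl⟩ := srt M
  rcases l with _ | ⟨e, _ | ⟨d, _ | ⟨c, _ | ⟨b, _ | ⟨a, _ | ⟨z, l⟩⟩⟩⟩⟩⟩ <;>
    simp only [coe_card, List.length_cons, List.length_nil] at c5 <;> try omega
  simp only [← cons_coe, coe_nil, powerset_cons, powerset_zero, ← Multiset.cons_zero,
    Multiset.map_add, Multiset.map_cons, Multiset.map_zero, Multiset.sum_add, Multiset.sum_cons,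
    Multiset.sum_zero, Multiset.card_cons, Multiset.card_zero]
  norm_num

theorem mk2 (x y : ℕ) : ((([x, y] : List ℕ)) : Multiset ℕ) = {x, y} := rfl

theorem mk3 (x y z : ℕ) : ((([x, y, z] : List ℕ)) : Multiset ℕ) = {x, y, z} := rfl

theorem mk4 (x y z u : ℕ) : ((([x, y, z, u] : List ℕ)) : Multiset ℕ) = {x, y, z, u} := rfl

theorem r2 (h : p.OK) {a b : ℕ} (hJ : p.J₁ ≤ b + a) (hJ' : b + a ≤ p.J₂) (hb : p.A ≤ b)
    (hl : b ≤ a) :
    1 - s1 p b - s1 p a = 0 ∨ (b + p.J₁ < p.A + p.J₂ ∧ 1 - s1 p b - s1 p a = -(1 / 2)) := by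
  obtain ⟨h1, h2, h3, h4, h5, h6⟩ := h
  by_cases c : b + p.J₁ < p.A + p.J₂
  · rw [a1 b (by omega)]
    by_cases c2 : p.J₁ < a + p.A
    · rw [a0 a c2]; left; norm_num
    · rw [ah a (by omega)]; right; exact ⟨c, by norm_num⟩
  · rw [ah b (by omega), ah a (by omega)]; left; norm_num

theorem main (h : p.OK) {M : Multiset ℕ} (hJ : p.J₁ ≤ M.sum) (hJ' : M.sum ≤ p.J₂)
    (hc : 2 ≤ M.card) (hG : ¬p.Gd M) : p.T M ≤ 0 ∧ p.Reg M (-p.T M) := by
  have z0 : p.T M = 0 → p.T M ≤ 0 ∧ p.Reg M (-p.T M) := fun e => ⟨e.le, Or.inl (by rw [e, neg_zero])⟩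
  have h' := h
  obtain ⟨h1, h2, h3, h4, h5, h6⟩ := h'
  by_cases hE : Ga p.A M
  · have hB : ¬Gb p.G M := fun e => hG ⟨hE, e⟩
    have hm := fun x => emax (x := x) hE
    have c5 : M.card < 5 := by
      by_contra n
      exact hB (five h (M.card - 5) M (by omega) hJ hm)
    obtain ⟨l, hl, rfl⟩ := srt M
    rcases l with _ | ⟨x, _ | ⟨y, _ | ⟨z, _ | ⟨u, _ | ⟨v, l⟩⟩⟩⟩⟩ <;>
      simp only [coe_card, List.length_cons, List.length_nil] at hc c5 <;> try omega
    all_goals
      simp only [List.pairwise_cons, List.mem_cons, List.not_mem_nil, or_false, forall_eq_or_imp,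
        forall_eq, sum_coe, List.sum_cons, List.sum_nil, Multiset.mem_coe] at hl hJ hJ' hm
    · have e := T2 h x y (by omega)
      rw [mk2] at z0 ⊢
      rcases r2 h (a := y) (b := x) (by omega) (by omega) (by omega) (by omega) with c | c
      · exact z0 (e.trans c)
      · rw [e, c.2]
        refine ⟨by norm_num, Or.inr (Or.inr ⟨y, {x}, pair_comm x y, Or.inl ?_⟩)⟩
        simp only [Multiset.card_singleton, Multiset.sum_singleton]
        exact ⟨trivial, by omega, by omega, c.1, by norm_num⟩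
    · have e := T3 h x y z (by omega)
      rw [mk3] at hB ⊢
      have g : y < p.G := by
        by_contra n
        refine hB ⟨{z}, {y}, {x}, ?_, by simp, by simp; omega, by simp; omega⟩
        simp only [insert_eq_cons, ← Multiset.singleton_add]
        abel
      rw [a1 x (by omega), a1 y (by omega), bh x y (by omega), b0 x z (by omega),
        b0 y z (by omega)] at e
      have k : 0 ≤ s1 p z ∧ s1 p z ≤ 1 / 2 := by
        by_cases c2 : p.J₁ < z + p.A
        · rw [a0 z c2]; norm_num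
        · rw [ah z (by omega)]; norm_num
      refine ⟨by linarith [k.1], Or.inr (Or.inr ⟨z, {x, y}, ?_, Or.inr (Or.inl ⟨rfl, ?_, ?_, ?_⟩)⟩)⟩
      · simp only [insert_eq_cons, ← Multiset.singleton_add]
        abel
      · simp; omega
      · simp; omega
      · linarith [k.2]
    · have e := T4 h x y z u (by omega) (by omega)
      rw [mk4] at hB z0 ⊢
      have g : z < p.G := by
        by_contra n
        refine hB ⟨{z}, {y, u}, {x}, ?_, by simp, by simp; omega, by simp; omega⟩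
        simp only [insert_eq_cons, ← Multiset.singleton_add]
        abel
      have g2 : u < p.G ∨ y + z < p.G := by
        by_contra n
        refine hB ⟨{u}, {y, z}, {x}, ?_, by simp, by simp; omega, by simp; omega⟩
        simp only [insert_eq_cons, ← Multiset.singleton_add]
        abel
      by_cases c : u < p.G
      · rw [a1 x (by omega), a1 y (by omega), a1 z (by omega), a1 u (by omega), bh x y (by omega),
          bh x z (by omega), bh x u (by omega), bh y z (by omega), bh y u (by omega),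
          bh z u (by omega), a0 (x + y + z) (by omega), a0 (x + y + u) (by omega),
          a0 (x + z + u) (by omega), a0 (y + z + u) (by omega)] at e
        exact z0 (by rw [e]; norm_num)
      · rw [a1 x (by omega), a1 y (by omega), a1 z (by omega), b1 x y (by omega),
          b1 x z (by omega), b0 x u (by omega), b1 y z (by omega), b0 y u (by omega),
          b0 z u (by omega), a0 (x + y + u) (by omega),
          a0 (x + z + u) (by omega), a0 (y + z + u) (by omega)] at e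
        rcases r2 h (a := u) (b := x + y + z) (by omega) (by omega) (by omega) (by omega)
          with c | c
        · exact z0 (by linarith)
        · refine ⟨by linarith [c.2], Or.inr (Or.inr ⟨u, {x, y, z}, ?_,
            Or.inr (Or.inr (Or.inr (Or.inr ⟨rfl, ?_, ?_, ?_, by linarith [c.2]⟩)))⟩)⟩
          · simp only [insert_eq_cons, ← Multiset.singleton_add]
            abel
          · simp; omega
          · simp; omega
          · simp; omega
  · by_cases hm : ∀ x ∈ M, p.J₁ < x + 2 * p.A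
    swap
    · push Not at hm
      obtain ⟨m, hm, hm2⟩ := hm
      obtain ⟨R, rfl⟩ := exists_cons_of_mem hm
      exact z0 (pair h hJ hE hm2)
    by_cases c5 : 5 ≤ M.card
    · exact z0 (T5 h hJ hJ' c5 hE hm)
    have n := fun S => ne (S := S) hE
    obtain ⟨l, hl, rfl⟩ := srt M
    rcases l with _ | ⟨x, _ | ⟨y, _ | ⟨z, _ | ⟨u, _ | ⟨v, l⟩⟩⟩⟩⟩ <;>
      simp only [coe_card, List.length_cons, List.length_nil] at hc c5 <;> try omega
    all_goals
      simp only [List.pairwise_cons, List.mem_cons, List.not_mem_nil, or_false, forall_eq_or_imp,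
        forall_eq, sum_coe, List.sum_cons, List.sum_nil, Multiset.mem_coe] at hl hJ hJ' hm n
    · have m := n {x} (by simp)
      rw [Multiset.sum_singleton] at m
      have e := T2 h x y (by omega)
      rw [a1 x (by omega), a0 y (by omega)] at e
      exact z0 (e.trans (by norm_num))
    · have m := n {z} (by simp)
      rw [Multiset.sum_singleton] at m
      have e := T3 h x y z (by omega)
      rw [mk3]
      by_cases c : z < p.A
      · rw [a1 x (by omega), a1 y (by omega), a1 z (by omega), b0 x y (by omega),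
          b0 x z (by omega), b0 y z (by omega)] at e
        exact ⟨by linarith, Or.inr (Or.inl ⟨rfl, by simp; omega, by linarith⟩)⟩
      · rw [a1 x (by omega), a1 y (by omega), a0 z (by omega), b2 x y (by omega),
          b0 x z (by omega), b0 y z (by omega)] at e
        refine ⟨by linarith, Or.inr (Or.inr ⟨z, {x, y}, ?_,
          Or.inr (Or.inr (Or.inl ⟨rfl, ?_, ?_, by linarith⟩))⟩)⟩
        · simp only [insert_eq_cons, ← Multiset.singleton_add]
          abel
        · simp; omega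
        · simp; omega
    · have m := n {u} (by simp)
      have m2 := n {y, z} (by
        rw [mk4]
        exact (cons_le_cons y (cons_le_cons z (Multiset.zero_le _))).trans (le_cons_self _ x))
      simp only [insert_eq_cons, Multiset.sum_cons, Multiset.sum_singleton] at m m2
      have e := T4 h x y z u (by omega) (by omega)
      rw [mk4]
      rw [a1 x (by omega), a1 y (by omega), a1 z (by omega), a1 u (by omega), b2 x y (by omega),
        b2 x z (by omega), b0 x u (by omega), b2 y z (by omega), b0 y u (by omega),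
        b0 z u (by omega), a0 (x + y + z) (by omega), a0 (x + y + u) (by omega),
        a0 (x + z + u) (by omega), a0 (y + z + u) (by omega)] at e
      refine ⟨by linarith, Or.inr (Or.inr ⟨u, {x, y, z}, ?_,
        Or.inr (Or.inr (Or.inr (Or.inl ⟨rfl, ?_, by linarith⟩)))⟩)⟩
      · simp only [insert_eq_cons, ← Multiset.singleton_add]
        abel
      · simp; omega

end Wt

open Wt in
/-- The sign of the weights. -/
theorem sign {p : Fp} (h : p.OK) : p.yy 0 = 1 ∧ (∀ M, |p.yy M| ≤ 1) ∧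
    (∀ M, p.yy M ≠ 0 → M.sum + p.A ≤ p.J₁) ∧ (∀ M, p.Gd M → 2 ≤ M.card) ∧
    ∀ M : Multiset ℕ, p.J₁ ≤ M.sum → M.sum ≤ p.J₂ → 2 ≤ M.card → ¬p.Gd M → p.T M ≤ 0 := by
  refine ⟨y0 h, fun M => ?_, fun M hM => not_lt.1 fun c => hM (yz c), fun M hM => ?_,
    fun M h1 h2 h3 h4 => (main h h1 h2 h3 h4).1⟩
  · rw [Fp.yy, abs_mul, abs_pow, abs_neg, abs_one, one_pow, one_mul, Fp.psi]
    split_ifs <;> norm_num [abs_of_pos]
  · obtain ⟨h1, h2, h3, h4, h5, h6⟩ := h
    obtain ⟨⟨D, D', rfl, d1, d2⟩, -⟩ := hM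
    have e1 : D ≠ 0 := fun e => by rw [e, Multiset.sum_zero] at d1; omega
    have e2 : D' ≠ 0 := fun e => by rw [e, Multiset.sum_zero] at d2; omega
    have := Multiset.card_pos.2 e1
    have := Multiset.card_pos.2 e2
    rw [Multiset.card_add]
    omega

/-- The system of weights is admissible. -/
theorem wt {p : Fp} (h : p.OK) : p.sv.Wt ∧ ∀ M, p.sv.yy M ≠ 0 → M.sum + p.A ≤ p.J₁ := by
  obtain ⟨s1, s2, s3, s4, s5⟩ := sign h
  obtain ⟨h1, h2, h3, h4, h5, h6⟩ := h
  refine ⟨⟨by change 2 ≤ p.J₁; omega, h2, s1, fun M => (s2 M).trans (by norm_num), fun M hM => ?_,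
    s4, s5⟩, s3⟩
  by_contra n
  have := s3 M n
  change p.J₁ ≤ M.sum at hM
  omega

open Wt in
/-- Where the loss lives. -/
theorem reg {p : Fp} (h : p.OK) {M : Multiset ℕ} (h1 : p.J₁ ≤ M.sum) (h2 : M.sum ≤ p.J₂) :
    p.Reg M (p.L M) := by
  rw [Fp.L]
  split_ifs with c
  · exact Or.inl rfl
  by_cases c2 : 2 ≤ M.card
  · obtain ⟨m1, m2⟩ := main h h1 h2 c2 c
    rwa [max_eq_right (by linarith)]
  · have h' := h
    obtain ⟨k1, k2, k3, k4, k5, k6⟩ := h'
    have c1 : M.card = 1 := by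
      by_contra n
      rw [Multiset.card_eq_zero.1 (show M.card = 0 by omega), Multiset.sum_zero] at h1
      omega
    obtain ⟨x, rfl⟩ := Multiset.card_eq_one.1 c1
    rw [Multiset.sum_singleton] at h1
    have e : p.T {x} = 1 := by
      simp only [Fp.T, ← Multiset.cons_zero, Multiset.powerset_cons, Multiset.powerset_zero,
        Multiset.map_add, Multiset.map_cons, Multiset.map_zero, Multiset.sum_add,
        Multiset.sum_cons, Multiset.sum_zero]
      simp only [Multiset.cons_zero, y0 h, y1 h, a0 (p := p) x (by omega)]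
      ring
    left
    rw [e]
    norm_num

end

end Pool.Agent.Lib.MP_f6c7cf_nt.FO
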